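import Mathlib
import Pool.Agent.Lib.PolyTime.Defs
import Pool.Agent.Lib.MP_69a69c_lc.LP

/-!
# Sampling the complement of a plane curve: definitions
-/

open Polynomial

namespace Pool.Agent.Sink

open Pool.Agent.PolyTime Pool.Agent.SparseNP

/-! ## One variable -/

/-- The polynomial with the given list of coefficients, constant coefficient first. -/
noncomputable def poly (l : List ℤ) : ℤ[X] := l.foldr (fun c p => C c + X * p) 0

/-- `hor a M l = ∑ c_i a^i M^(d-1-i)`, `d` the length of `l`. -/
def hor (a M : ℤ) (l : List ℤ) : ℤ :=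
  (l.reverse.foldl (fun s c => (s.1 * a + c * s.2, s.2 * M)) ((0 : ℤ), (1 : ℤ))).1

/-- derivative -/
def der (l : List ℤ) : List ℤ := (l.zipIdx.map fun p => p.1 * (p.2 : ℤ)).tail

/-- one bisection step on the grid `ℤ / M` -/
def bisStep (l : List ℤ) (M : ℤ) (s : ℤ × ℤ) : ℤ × ℤ :=
  if s.2 - s.1 ≤ 1 then s
  else if 0 < hor ((s.1 + s.2) / 2) M l * hor s.1 M l then ((s.1 + s.2) / 2, s.2)
  else (s.1, (s.1 + s.2) / 2)

/-- bisection -/
def bis (k : ℕ) (l : List ℤ) (M : ℤ) (s : ℤ × ℤ) : ℤ := ((bisStep l M)^[k] s).2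

/-- the (approximate) zeros at which the polynomial `l` changes sign, between consecutive points
of the list `X`, and the exact zeros in `X` -/
def outs (k : ℕ) (M B : ℤ) (l X : List ℤ) : List ℤ :=
  (X.zip (X.tail ++ [B])).flatMap fun p =>
    if hor p.1 M l = 0 then [p.1]
    else if hor p.1 M l * hor p.2 M l < 0 then [bis k l M p] else []

/-- from the sample points for the derivative `g` to those of the polynomial -/
def lvl (k : ℕ) (M B : ℤ) (X g : List ℤ) : List ℤ := (-B) :: (outs k M B g X ++ [B])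

/-- the derivatives of `l` of order `length + 1, ..., 1` -/
def chain (l : List ℤ) : List (List ℤ) :=
  l.foldl (fun D _ => der (D.headD []) :: D) [der l]

/-- sample points for the polynomial `l`, on the grid `ℤ / 2^m` -/
def samp1 (m : ℕ) (l : List ℤ) : List ℤ :=
  (chain l).foldl (lvl (3 * m + 3) (2 ^ m) (4 ^ m)) [-(4 ^ m), 4 ^ m]

/-- real polynomial of an integral polynomial -/
noncomputable abbrev toR (P : ℤ[X]) : ℝ[X] := P.map (Int.castRingHom ℝ)

/-- the points `a / M`, `a ∈ X`, hit every component of the complement of the zeros of `P` -/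
def Cov (M : ℤ) (X : List ℤ) (P : ℝ[X]) : Prop :=
  ∀ x : ℝ, P.eval x ≠ 0 → ∃ a ∈ X, ∀ y ∈ Set.uIcc x ((a : ℝ) / M), P.eval y ≠ 0

/-- a sorted list with ends `-B` and `B` -/
structure Srt (B : ℤ) (X : List ℤ) : Prop where
  sorted : X.Pairwise (· ≤ ·)
  fst : X.head? = some (-B)
  lst : X.getLast? = some B

/-! ## Two variables -/

/-- The polynomial in two variables with the given coefficients; outer index: power of the second
variable. -/
noncomputable def poly2 (cc : List (List ℤ)) : ℤ[X][X] := cc.foldr (fun c p => C (poly c) + X * p) 0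

/-- evaluation of the first variable at a real number -/
noncomputable def evS (s : ℝ) : ℤ[X] →+* ℝ := eval₂RingHom (Int.castRingHom ℝ) s

/-- the polynomial on the line with first coordinate `s` -/
noncomputable def fib (P : ℤ[X][X]) (s : ℝ) : ℝ[X] := P.map (evS s)

/-- the value at a point of the plane -/
noncomputable def ev (P : ℤ[X][X]) (q : ℝ × ℝ) : ℝ := (fib P q.1).eval q.2

/-- the value at an integral point -/
noncomputable def evZ (P : ℤ[X][X]) (s t : ℤ) : ℤ := (P.map (evalRingHom s)).eval t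

/-- `q` and `q'` are in the same connected component of `U`. -/
def Linked (U : Set (ℝ × ℝ)) (q q' : ℝ × ℝ) : Prop :=
  ∃ C ⊆ U, IsPreconnected C ∧ q ∈ C ∧ q' ∈ C

/-- number of distinct complex roots -/
noncomputable def nroots (f : ℝ[X]) : ℕ :=
  (f.map (algebraMap ℝ ℂ)).roots.toFinset.card

/-- shifted coefficients -/
def cf {R : Type*} [Zero R] (a : ℕ → R) (i j : ℕ) : R := if j ≤ i then a (i - j) else 0

/-- entries of the matrix of `(u, v) ↦ u f + v f'`, `a` the coefficients of `f`,
`deg u < k`, `deg v ≤ k` -/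
def sylE {R : Type*} [CommRing R] (a : ℕ → R) (k i j : ℕ) : R :=
  if j < k then cf a i j else cf (fun i => ((i + 1 : ℕ) : R) * a (i + 1)) i (j - k)

/-- the matrix -/
def sylM {R : Type*} [CommRing R] (a : ℕ → R) (n k : ℕ) :
    Matrix (Fin (n + k)) (Fin (2 * k + 1)) R := Matrix.of fun i j => sylE a k i j

/-- the Gram determinant -/
def sylG {R : Type*} [CommRing R] (a : ℕ → R) (n k : ℕ) : R :=
  ((sylM a n k).transpose * sylM a n k).det

/-- the matrix `∑ r rᵀ`, the sum over the rows in the list -/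
def GM (d : ℕ) (l : List (List ℤ)) : Matrix (Fin d) (Fin d) ℤ :=
  (l.map fun r => Matrix.vecMulVec (vec d r) (vec d r)).sum

/-- Gram determinant of integral vectors, computed from the determinant of `1 + ∑ r rᵀ` -/
def gram (d : ℕ) (l : List (List ℤ)) : ℤ :=
  idiv (invL d (l.map fun r => r.map fun z => ((invL d l).2 + 1) * z)).2
    (((invL d l).2 + 1) ^ (2 * d))

/-- offset for balanced digits -/
def off (κ m : ℕ) : ℤ := 2 ^ (κ - 1) * ((List.range m).map fun i => (2 : ℤ) ^ (κ * i)).sum

/-- balanced digits of `N` in base `2 ^ κ` -/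
def dig (κ m : ℕ) (N : ℤ) : List ℤ :=
  (List.range m).map fun i => (N + off κ m) / 2 ^ (κ * i) % 2 ^ κ - 2 ^ (κ - 1)

/-- two-dimensional digits -/
def dig2 (m : ℕ) (N : ℤ) : List (List ℤ) := (dig ((m + 1) * (m + 1)) m N).map (dig (m + 1) m)

/-- remove the rows of zeros at the end -/
def trim (cc : List (List ℤ)) : List (List ℤ) :=
  (cc.reverse.dropWhile fun c => c.all fun z => decide (z = 0)).reverse

/-- rows of `sylM` -/
def sylRows (a : List ℤ) (n k : ℕ) : List (List ℤ) :=
  (List.range (n + k)).map fun i => (List.range (2 * k + 1)).map fun j =>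
    sylE (fun i => a.getD i 0) k i j

/-- the value of the `k`-th Gram determinant -/
def gk (a : List ℤ) (k : ℕ) : ℤ := gram (2 * k + 1) (sylRows a (a.length - 1) k)

/-- the polynomial in the first variable whose zeros are the critical values; `a` is the list of
the values of the coefficients at `2 ^ τ` -/
def crit (τ : ℕ) (a : List ℤ) : List ℤ :=
  dig τ τ (a.getLastD 0 *
    (if a.length ≤ 1 then 1 else
      gk a (((List.range (a.length - 1)).find? fun k => decide (gk a (k + 1) = 0)).getD 0)))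

/-- sample points in the plane (pairs of fractions), from a procedure `F` in one variable -/
def samp2 (F : List ℤ → List (ℤ × ℤ)) (τ : ℕ) (cc : List (List ℤ)) :
    List ((ℤ × ℤ) × (ℤ × ℤ)) :=
  (F (crit τ ((trim cc).map fun c => hor (2 ^ τ) 1 c))).flatMap fun s =>
    (F ((trim cc).map fun c => hor s.1 s.2 c)).map fun t => (s, t)

/-- the real number given by a fraction -/
noncomputable def frac (s : ℤ × ℤ) : ℝ := (s.1 : ℝ) / s.2

/-- `F` samples the complement of the zeros of every polynomial in one variable. -/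
def Good1 (F : List ℤ → List (ℤ × ℤ)) : Prop :=
  ∀ l : List ℤ, (∀ s ∈ F l, 0 < s.2) ∧ ∀ x : ℝ, ((poly l).map (Int.castRingHom ℝ)).eval x ≠ 0 →
    ∃ s ∈ F l, ∀ y ∈ Set.uIcc x (frac s), ((poly l).map (Int.castRingHom ℝ)).eval y ≠ 0

/-- degree `< m` and coefficients `< 2 ^ m` -/
structure Bd1 (P : ℤ[X]) (m : ℕ) : Prop where
  d : ∀ i, m ≤ i → P.coeff i = 0
  h : ∀ i, |P.coeff i| < 2 ^ m

/-- degrees `< m` and coefficients `< 2 ^ m` -/
structure Bd2 (P : ℤ[X][X]) (m : ℕ) : Prop where
  d2 : ∀ j, m ≤ j → P.coeff j = 0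
  d1 : ∀ j i, m ≤ i → (P.coeff j).coeff i = 0
  h : ∀ j i, |(P.coeff j).coeff i| < 2 ^ m

end Pool.Agent.Sink
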