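import Pool.Agent.Lib.MP_93b8a0_lc.Hor

/-!
# Bisection on a grid
-/

open Matrix Polynomial

namespace Pool.Agent.Sink

open Pool.Agent.PolyTime Pool.Agent.SparseNP

/-- invariant of the bisection -/
structure BisInv (l : List ℤ) (M u w : ℤ) (s : ℤ × ℤ) : Prop where
  h1 : u ≤ s.1
  h2 : s.1 < s.2
  h3 : s.2 ≤ w
  h4 : 0 < hor s.1 M l * hor u M l
  h5 : hor s.2 M l * hor u M l ≤ 0

theorem bisInv_step {l : List ℤ} {M u w : ℤ} {s : ℤ × ℤ} (h : BisInv l M u w s) :
    BisInv l M u w (bisStep l M s) := by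
  unfold bisStep
  obtain ⟨h1, h2, h3, h4, h5⟩ := h
  split_ifs with ha hb
  · exact ⟨h1, h2, h3, h4, h5⟩
  · refine ⟨?_, ?_, h3, ?_, h5⟩
    · show u ≤ (s.1 + s.2) / 2
      omega
    · show (s.1 + s.2) / 2 < s.2
      omega
    · show 0 < hor ((s.1 + s.2) / 2) M l * hor u M l
      rcases pos_and_pos_or_neg_and_neg_of_mul_pos h4 with ⟨p, q⟩ | ⟨p, q⟩
      · exact mul_pos (pos_of_mul_pos_left hb p.le) q
      · exact mul_pos_of_neg_of_neg (by nlinarith) q
  · refine ⟨h1, ?_, ?_, h4, ?_⟩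
    · show s.1 < (s.1 + s.2) / 2
      omega
    · show (s.1 + s.2) / 2 ≤ w
      omega
    · show hor ((s.1 + s.2) / 2) M l * hor u M l ≤ 0
      rw [not_lt] at hb
      rcases pos_and_pos_or_neg_and_neg_of_mul_pos h4 with ⟨p, q⟩ | ⟨p, q⟩
      · have : hor ((s.1 + s.2) / 2) M l ≤ 0 := by
          by_contra hc
          push Not at hc
          have := mul_pos hc p
          omega
        exact mul_nonpos_of_nonpos_of_nonneg this q.le
      · have : 0 ≤ hor ((s.1 + s.2) / 2) M l := by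
          by_contra hc
          push Not at hc
          have := mul_pos_of_neg_of_neg hc p
          omega
        exact mul_nonpos_of_nonneg_of_nonpos this q.le

theorem bisStep_width (l : List ℤ) (M : ℤ) (s : ℤ × ℤ) (j : ℕ) (h : s.2 - s.1 ≤ 2 ^ (j + 1)) :
    (bisStep l M s).2 - (bisStep l M s).1 ≤ 2 ^ j := by
  have hj : (1 : ℤ) ≤ 2 ^ j := one_le_pow₀ (by norm_num)
  rw [pow_succ] at h
  unfold bisStep
  split_ifs with ha hb
  · omega
  · show s.2 - (s.1 + s.2) / 2 ≤ 2 ^ j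
    omega
  · show (s.1 + s.2) / 2 - s.1 ≤ 2 ^ j
    omega

theorem bisInv_iter {l : List ℤ} {M u w : ℤ} (k : ℕ) {s : ℤ × ℤ} (h : BisInv l M u w s)
    (hk : s.2 - s.1 ≤ 2 ^ k) :
    BisInv l M u w ((bisStep l M)^[k] s) ∧
      ((bisStep l M)^[k] s).2 - ((bisStep l M)^[k] s).1 ≤ 1 := by
  induction k generalizing s with
  | zero => exact ⟨h, by simpa using hk⟩
  | succ k ih =>
    rw [Function.iterate_succ_apply]
    exact ih (bisInv_step h) (bisStep_width l M s k hk)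

theorem bis_spec (k : ℕ) (l : List ℤ) (M u w : ℤ) (hM : 0 < M) (huw : u < w)
    (hk : w - u ≤ 2 ^ k) (h : hor u M l * hor w M l < 0) :
    u < bis k l M (u, w) ∧ bis k l M (u, w) ≤ w ∧
      ∃ c : ℝ, (u : ℝ) / M < c ∧ c < (w : ℝ) / M ∧ (toR (poly l)).eval c = 0 ∧
        |(bis k l M (u, w) : ℝ) / M - c| ≤ 1 / M := by
  have hu0 : hor u M l ≠ 0 := by
    intro h0
    rw [h0, zero_mul] at h
    exact lt_irrefl _ h
  have hw0 : hor w M l ≠ 0 := by
    intro h0
    rw [h0, mul_zero] at h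
    exact lt_irrefl _ h
  have hinv : BisInv l M u w (u, w) :=
    ⟨le_rfl, huw, le_rfl, mul_self_pos.mpr hu0, by rw [mul_comm]; exact h.le⟩
  obtain ⟨⟨h1, h2, h3, h4, h5⟩, hwid⟩ := bisInv_iter k hinv hk
  have hbis : bis k l M (u, w) = ((bisStep l M)^[k] (u, w)).2 := rfl
  rw [hbis]
  set s := (bisStep l M)^[k] (u, w) with hs
  have hM' : (0 : ℝ) < M := by exact_mod_cast hM
  refine ⟨by omega, h3, ?_⟩
  set g : ℝ → ℝ := fun x => (toR (poly l)).eval x with hg
  have hκ : (0 : ℝ) < (M : ℝ) / (M : ℝ) ^ l.length := by positivity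
  have hgh : ∀ a : ℤ, g ((a : ℝ) / M) = (M : ℝ) / (M : ℝ) ^ l.length * hor a M l := by
    intro a
    have := hor_eq a M hM.ne' l
    simp only [hg]
    field_simp
    linarith
  have hs1 : hor s.1 M l ≠ 0 := by
    intro h0
    rw [h0, zero_mul] at h4
    exact lt_irrefl _ h4
  have hle : (s.1 : ℝ) / M ≤ (s.2 : ℝ) / M := by
    have : (s.1 : ℝ) ≤ s.2 := by exact_mod_cast h2.le
    gcongr
  have hprod : hor s.1 M l * hor s.2 M l ≤ 0 := by
    rcases pos_and_pos_or_neg_and_neg_of_mul_pos h4 with ⟨p, q⟩ | ⟨p, q⟩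
    · have : hor s.2 M l ≤ 0 := by
        by_contra hc
        push Not at hc
        have := mul_pos hc q
        omega
      exact mul_nonpos_of_nonneg_of_nonpos p.le this
    · have : 0 ≤ hor s.2 M l := by
        by_contra hc
        push Not at hc
        have := mul_pos_of_neg_of_neg hc q
        omega
      exact mul_nonpos_of_nonpos_of_nonneg p.le this
  have hmem : (0 : ℝ) ∈ Set.uIcc (g ((s.1 : ℝ) / M)) (g ((s.2 : ℝ) / M)) := by
    rw [Set.mem_uIcc, hgh, hgh]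
    have hp : ((hor s.1 M l : ℤ) : ℝ) * (hor s.2 M l : ℤ) ≤ 0 := by exact_mod_cast hprod
    rcases mul_nonpos_iff.mp hp with ⟨p, q⟩ | ⟨p, q⟩
    · right
      exact ⟨mul_nonpos_of_nonneg_of_nonpos hκ.le q, mul_nonneg hκ.le p⟩
    · left
      exact ⟨mul_nonpos_of_nonneg_of_nonpos hκ.le p, mul_nonneg hκ.le q⟩
  obtain ⟨c, hc, hc0⟩ := intermediate_value_uIcc
    (f := g) (Polynomial.continuous _).continuousOn hmem
  rw [Set.uIcc_of_le hle] at hc
  have hc1 : (s.1 : ℝ) / M ≠ c := by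
    rintro rfl
    rw [hgh] at hc0
    rcases mul_eq_zero.mp hc0 with h0 | h0
    · exact hκ.ne' h0
    · exact hs1 (by exact_mod_cast h0)
  refine ⟨c, ?_, ?_, hc0, ?_⟩
  · refine lt_of_le_of_lt ?_ (lt_of_le_of_ne hc.1 hc1)
    have : (u : ℝ) ≤ s.1 := by exact_mod_cast h1
    gcongr
  · rcases h3.lt_or_eq with h6 | h6
    · refine lt_of_le_of_lt hc.2 ?_
      have : (s.2 : ℝ) < w := by exact_mod_cast h6
      gcongr
    · rw [← h6]
      refine lt_of_le_of_ne hc.2 ?_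
      intro h7
      rw [h7, h6, hgh] at hc0
      rcases mul_eq_zero.mp hc0 with h0 | h0
      · exact hκ.ne' h0
      · exact hw0 (by exact_mod_cast h0)
  · have h8 : (s.2 : ℝ) - s.1 ≤ 1 := by exact_mod_cast hwid
    have h9 : (s.2 : ℝ) / M - (s.1 : ℝ) / M ≤ 1 / M := by
      rw [← sub_div]
      gcongr
    rw [abs_of_nonneg (by linarith [hc.2])]
    linarith [hc.1]

end Pool.Agent.Sink
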