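import Pool.Agent.Lib.MP_93b8a0_lc.Two

/-!
# The comparison principle
-/

open Matrix

namespace Pool.Agent.Sink

section planar
variable {V : Type*} {Adj : V → V → Prop} {x : V → P3}

/-- the coefficients of a row are positive -/
theorem top_pos {N : V → Option (V × V)} (hN : IsTopMap Adj x N) {v a b : V}
    (h : N v = some (a, b)) :
    0 < cr (x a) (x b) ∧ 0 < cr (x a) (x v) ∧ 0 < cr (x v) (x b) ∧
      det3 (x a) (x b) (x v) < 0 := by
  obtain ⟨h1, h2, ⟨h3, h4⟩, h5⟩ := hN.hsome v a b h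
  refine ⟨h2, (mul_pos_iff_of_pos_right h2).1 h3, (mul_pos_iff_of_pos_right h2).1 h4, ?_⟩
  by_contra h6
  exact absurd h5 (not_lt.2 (mul_nonneg (not_lt.1 h6) h2.le))

/-- comparison principle -/
theorem comparison [Finite V] {N : V → Option (V × V)} (hN : IsTopMap Adj x N) (h : NF x N)
    (e : V → ℝ) (he : ∀ v, e v ≤ 0 ∨ ∃ a b, N v = some (a, b) ∧
      cr (x a) (x b) * e v ≤ cr (x v) (x b) * max (e a) 0 + cr (x a) (x v) * max (e b) 0) :
    ∀ v, e v ≤ 0 := by
  obtain ⟨y, hy, hyN⟩ := h
  intro v₀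
  by_contra hcon
  rw [not_le] at hcon
  have hne : Nonempty V := ⟨v₀⟩
  obtain ⟨v, hv⟩ := Finite.exists_max fun v => e v / y v
  set ρ := e v / y v with hρ
  have hρ0 : 0 < ρ := (div_pos hcon (hy v₀)).trans_le (hv v₀)
  have hev : e v = ρ * y v := by rw [hρ, div_mul_cancel₀ _ (hy v).ne']
  have hle : ∀ u, max (e u) 0 ≤ ρ * y u := by
    intro u
    refine max_le ?_ (mul_nonneg hρ0.le (hy u).le)
    have := hv u
    rwa [div_le_iff₀ (hy u)] at this
  rcases he v with h1 | ⟨a, b, hab, h1⟩
  · have : 0 < e v := by rw [hev]; exact mul_pos hρ0 (hy v)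
    linarith
  · obtain ⟨c1, c2, c3, -⟩ := top_pos hN hab
    have h2 := hyN v a b hab
    have h3 := mul_le_mul_of_nonneg_left (hle a) c3.le
    have h4 := mul_le_mul_of_nonneg_left (hle b) c2.le
    rw [hev] at h1
    nlinarith [mul_lt_mul_of_pos_left h2 hρ0]

/-- linear functions of the horizontal part -/
theorem lin_fun (g₀ g₁ : ℝ) (a b v : P3) :
    cr a b * (g₀ * v 0 + g₁ * v 1) =
      cr v b * (g₀ * a 0 + g₁ * a 1) + cr a v * (g₀ * b 0 + g₁ * b 1) := by
  simp only [cr]
  ring

theorem exists_y0 [Finite V] {N : V → Option (V × V)} (hN : IsTopMap Adj x N)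
    (hT : TopTriple x N) (h : NF x N) : ∃ y₀ : V → ℝ, (∀ v, N v = none → y₀ v = 1) ∧
      (∀ v a b, N v = some (a, b) →
        cr (x a) (x b) * y₀ v = cr (x v) (x b) * y₀ a + cr (x a) (x v) * y₀ b) ∧
      (∀ v, 0 < y₀ v) ∧
      ∀ t, N t = none → ∃ g₀ g₁ : ℝ, g₀ * x t 0 + g₁ * x t 1 = 1 ∧
        ∀ v, g₀ * x v 0 + g₁ * x v 1 ≤ y₀ v := by
  classical
  have := Fintype.ofFinite V
  -- the linear map
  let T : (V → ℝ) →ₗ[ℝ] (V → ℝ) :=
    { toFun := fun e v => match N v with
        | none => e v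
        | some p => cr (x p.1) (x p.2) * e v - cr (x v) (x p.2) * e p.1 -
            cr (x p.1) (x v) * e p.2
      map_add' := by
        intro e e'
        funext v
        cases hv : N v with
        | none => simp [hv]
        | some p => simp [hv]; ring
      map_smul' := by
        intro c e
        funext v
        cases hv : N v with
        | none => simp [hv]
        | some p => simp [hv]; ring }
  have hTn : ∀ e v, N v = none → T e v = e v := by
    intro e v hv
    simp [T, hv]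
  have hTs : ∀ e v a b, N v = some (a, b) → T e v = cr (x a) (x b) * e v -
      cr (x v) (x b) * e a - cr (x a) (x v) * e b := by
    intro e v a b hv
    simp [T, hv]
  have hle : ∀ e, T e = 0 → ∀ v, e v ≤ 0 := by
    intro e he
    refine comparison hN h e fun v => ?_
    cases hv : N v with
    | none =>
      left
      have := hTn e v hv
      rw [he] at this
      exact this.symm.le
    | some p =>
      right
      refine ⟨p.1, p.2, rfl, ?_⟩
      have h1 := hTs e v p.1 p.2 hv
      rw [he] at h1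
      obtain ⟨c1, c2, c3, -⟩ := top_pos hN hv
      have h2 := mul_le_mul_of_nonneg_left (le_max_left (e p.1) 0) c3.le
      have h3 := mul_le_mul_of_nonneg_left (le_max_left (e p.2) 0) c2.le
      simp only [Pi.zero_apply] at h1
      linarith
  have hinj : Function.Injective T := by
    rw [← LinearMap.ker_eq_bot, LinearMap.ker_eq_bot']
    intro e he
    funext v
    have h1 := hle e he v
    have h2 := hle (-e) (by rw [map_neg, he, neg_zero]) v
    simp only [Pi.neg_apply] at h2
    simp only [Pi.zero_apply]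
    linarith
  obtain ⟨y₀, hy₀⟩ := (LinearMap.injective_iff_surjective.1 hinj)
    (fun v => if N v = none then 1 else 0)
  have e1 : ∀ v, N v = none → y₀ v = 1 := by
    intro v hv
    rw [← hTn y₀ v hv, hy₀]
    exact if_pos hv
  have e2 : ∀ v a b, N v = some (a, b) →
      cr (x a) (x b) * y₀ v = cr (x v) (x b) * y₀ a + cr (x a) (x v) * y₀ b := by
    intro v a b hv
    have h1 := hTs y₀ v a b hv
    have h2 : T y₀ v = 0 := by
      rw [hy₀]
      exact if_neg (by rw [hv]; simp)
    rw [h2] at h1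
    linarith
  -- comparison with linear functions
  obtain ⟨A, B, C, hABC, cAB, cBC, cCA⟩ := hT
  have hlin : ∀ g₀ g₁ : ℝ, g₀ * x A 0 + g₁ * x A 1 ≤ 1 → g₀ * x B 0 + g₁ * x B 1 ≤ 1 →
      g₀ * x C 0 + g₁ * x C 1 ≤ 1 → ∀ v, g₀ * x v 0 + g₁ * x v 1 ≤ y₀ v := by
    intro g₀ g₁ hA hB hC
    have hc := comparison hN h (fun v => g₀ * x v 0 + g₁ * x v 1 - y₀ v) (fun v => ?_)
    · intro v
      have := hc v
      linarith
    · cases hv : N v with
      | none =>
        left
        have h1 := e1 v hv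
        rcases (hABC v).1 hv with rfl | rfl | rfl <;> linarith
      | some p =>
        right
        refine ⟨p.1, p.2, rfl, ?_⟩
        have h1 := e2 v p.1 p.2 hv
        have h2 := lin_fun g₀ g₁ (x p.1) (x p.2) (x v)
        obtain ⟨c1, c2, c3, -⟩ := top_pos hN hv
        have h3 := mul_le_mul_of_nonneg_left
          (le_max_left (g₀ * x p.1 0 + g₁ * x p.1 1 - y₀ p.1) 0) c3.le
        have h4 := mul_le_mul_of_nonneg_left
          (le_max_left (g₀ * x p.2 0 + g₁ * x p.2 1 - y₀ p.2) 0) c2.le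
        linarith
  -- the linear function with value 1 at `P` and `Q`, negative at `R`
  have hg : ∀ P Q R : V, 0 < cr (x P) (x Q) → 0 < cr (x Q) (x R) → 0 < cr (x R) (x P) →
      (∀ g₀ g₁ : ℝ, g₀ * x P 0 + g₁ * x P 1 ≤ 1 → g₀ * x Q 0 + g₁ * x Q 1 ≤ 1 →
        g₀ * x R 0 + g₁ * x R 1 ≤ 1 → ∀ v, g₀ * x v 0 + g₁ * x v 1 ≤ y₀ v) →
      ∃ g₀ g₁ : ℝ, g₀ * x P 0 + g₁ * x P 1 = 1 ∧ g₀ * x Q 0 + g₁ * x Q 1 = 1 ∧
        (∀ v, g₀ * x v 0 + g₁ * x v 1 ≤ y₀ v) ∧
        ∀ v, cr (x P) (x Q) * (g₀ * x v 0 + g₁ * x v 1) = cr (x v) (x Q) + cr (x P) (x v) := by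
    intro P Q R hPQ hQR hRP hl
    set D := cr (x P) (x Q) with hD
    refine ⟨(x Q 1 - x P 1) / D, (x P 0 - x Q 0) / D, ?_⟩
    have k1 : (x Q 1 - x P 1) / D * x P 0 + (x P 0 - x Q 0) / D * x P 1 = 1 := by
      field_simp
      rw [hD]
      simp only [cr]
      ring
    have k2 : (x Q 1 - x P 1) / D * x Q 0 + (x P 0 - x Q 0) / D * x Q 1 = 1 := by
      field_simp
      rw [hD]
      simp only [cr]
      ring
    have k4 : ∀ v, D * ((x Q 1 - x P 1) / D * x v 0 + (x P 0 - x Q 0) / D * x v 1) =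
        cr (x v) (x Q) + cr (x P) (x v) := by
      intro v
      field_simp
      simp only [cr]
      ring
    refine ⟨k1, k2, hl _ _ k1.le k2.le ?_, k4⟩
    have h1 := k4 R
    have h2 : cr (x R) (x Q) = - cr (x Q) (x R) := cr_swap _ _
    have h3 : cr (x P) (x R) = - cr (x R) (x P) := cr_swap _ _
    rw [h2, h3] at h1
    by_contra hcon
    rw [not_le] at hcon
    have h4 : 0 < D * ((x Q 1 - x P 1) / D * x R 0 + (x P 0 - x Q 0) / D * x R 1) :=
      mul_pos hPQ (by linarith)
    linarith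
  obtain ⟨a₀, a₁, hA1, hB1, hle1, hf1⟩ := hg A B C cAB cBC cCA hlin
  obtain ⟨b₀, b₁, hB2, hC2, hle2, hf2⟩ := hg B C A cBC cCA cAB
    (fun g₀ g₁ h1 h2 h3 => hlin g₀ g₁ h3 h1 h2)
  obtain ⟨c₀, c₁, hC3, hA3, hle3, hf3⟩ := hg C A B cCA cAB cBC
    (fun g₀ g₁ h1 h2 h3 => hlin g₀ g₁ h2 h3 h1)
  refine ⟨y₀, e1, e2, ?_, ?_⟩
  · intro v
    cases hv : N v with
    | none => rw [e1 v hv]; norm_num
    | some p =>
      by_contra hcon
      rw [not_lt] at hcon
      have l1 : a₀ * x v 0 + a₁ * x v 1 ≤ 0 := (hle1 v).trans hcon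
      have l2 : b₀ * x v 0 + b₁ * x v 1 ≤ 0 := (hle2 v).trans hcon
      have l3 : c₀ * x v 0 + c₁ * x v 1 ≤ 0 := (hle3 v).trans hcon
      have m1 : cr (x v) (x B) + cr (x A) (x v) ≤ 0 := by
        rw [← hf1 v]; exact mul_nonpos_of_nonneg_of_nonpos cAB.le l1
      have m2 : cr (x v) (x C) + cr (x B) (x v) ≤ 0 := by
        rw [← hf2 v]; exact mul_nonpos_of_nonneg_of_nonpos cBC.le l2
      have m3 : cr (x v) (x A) + cr (x C) (x v) ≤ 0 := by
        rw [← hf3 v]; exact mul_nonpos_of_nonneg_of_nonpos cCA.le l3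
      rw [cr_swap (x A) (x v)] at m1
      rw [cr_swap (x B) (x v)] at m2
      rw [cr_swap (x C) (x v)] at m3
      have n1 : cr (x v) (x A) = cr (x v) (x B) := by linarith
      have n2 : cr (x v) (x B) = cr (x v) (x C) := by linarith
      -- the relation between A, B, C
      have rel : cr (x B) (x C) * cr (x v) (x A) + cr (x C) (x A) * cr (x v) (x B) +
          cr (x A) (x B) * cr (x v) (x C) = 0 := by
        simp only [cr]
        ring
      rw [n1, ← n2] at rel
      have n3 : (cr (x B) (x C) + cr (x C) (x A) + cr (x A) (x B)) * cr (x v) (x B) = 0 := by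
        linarith
      have n4 : cr (x v) (x B) = 0 := by
        rcases mul_eq_zero.1 n3 with h1 | h1
        · linarith
        · exact h1
      have n5 : cr (x v) (x A) = 0 := by rw [n1, n4]
      -- the horizontal part of `v` is zero
      have w0 : x v 0 = 0 := by
        have : cr (x A) (x B) * x v 0 = 0 := by
          have : cr (x A) (x B) * x v 0 = cr (x v) (x B) * x A 0 - cr (x v) (x A) * x B 0 := by
            simp only [cr]
            ring
          rw [this, n4, n5]
          ring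
        rcases mul_eq_zero.1 this with h1 | h1
        · linarith
        · exact h1
      have w1 : x v 1 = 0 := by
        have : cr (x A) (x B) * x v 1 = 0 := by
          have : cr (x A) (x B) * x v 1 = cr (x v) (x B) * x A 1 - cr (x v) (x A) * x B 1 := by
            simp only [cr]
            ring
          rw [this, n4, n5]
          ring
        rcases mul_eq_zero.1 this with h1 | h1
        · linarith
        · exact h1
      obtain ⟨-, c2, -, -⟩ := top_pos hN hv
      have : cr (x p.1) (x v) = 0 := by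
        simp only [cr, w0, w1]
        ring
      linarith
  · intro t ht
    rcases (hABC t).1 ht with rfl | rfl | rfl
    · exact ⟨a₀, a₁, hA1, hle1⟩
    · exact ⟨a₀, a₁, hB1, hle1⟩
    · exact ⟨b₀, b₁, hC2, hle2⟩

end planar

end Pool.Agent.Sink
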