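import Pool.Agent.Lib.MP_93b8a0_lc.Two
import Pool.Agent.Lib.MP_93b8a0_lc.Comp

/-!
# The square system implies the linear program

`LPF_of_NF`: if the square system `NF` of the lowest edges above the vertices has a solution,
then the linear program `LPF` has a solution.
-/

open Matrix

namespace Pool.Agent.Sink

section planar
variable {V : Type*} {Adj : V → V → Prop} {x : V → P3}

/-- `lin` multiplied by the denominator -/
theorem claim_lin_mul (η : V → ℝ) {a b : V} (h : cr (x a) (x b) ≠ 0) (g : P3) :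
    cr (x a) (x b) * lin x η a b g = cr g (x b) * η a + cr (x a) g * η b := by
  unfold lin
  field_simp

theorem claim_cr_self (a : P3) : cr a a = 0 := by
  unfold cr; ring

theorem claim_cr_swap (a b : P3) : cr a b = - cr b a := by
  unfold cr; ring

/-- `lin` at the first end -/
theorem claim_lin_left (η : V → ℝ) {a b : V} (h : cr (x a) (x b) ≠ 0) :
    lin x η a b (x a) = η a := by
  have := claim_lin_mul (x := x) η h (x a)
  rw [claim_cr_self] at this
  have h2 : cr (x a) (x b) * (lin x η a b (x a) - η a) = 0 := by linarith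
  rcases mul_eq_zero.1 h2 with h3 | h3
  · exact absurd h3 h
  · linarith

/-- `lin` at the second end -/
theorem claim_lin_right (η : V → ℝ) {a b : V} (h : cr (x a) (x b) ≠ 0) :
    lin x η a b (x b) = η b := by
  have := claim_lin_mul (x := x) η h (x b)
  rw [claim_cr_self] at this
  have h2 : cr (x a) (x b) * (lin x η a b (x b) - η b) = 0 := by linarith
  rcases mul_eq_zero.1 h2 with h3 | h3
  · exact absurd h3 h
  · linarith

/-- a function which is linear in the horizontal part -/
def ClaimHL (D : P3 → ℝ) : Prop := ∃ d₀ d₁ : ℝ, ∀ g, D g = d₀ * g 0 + d₁ * g 1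

theorem claim_HL_lin (η : V → ℝ) (a b : V) : ClaimHL (lin x η a b) := by
  refine ⟨(x b 1 * η a - x a 1 * η b) / cr (x a) (x b),
    (-(x b 0) * η a + x a 0 * η b) / cr (x a) (x b), fun g => ?_⟩
  unfold lin cr
  ring

theorem claim_HL_sub {D E : P3 → ℝ} (hD : ClaimHL D) (hE : ClaimHL E) :
    ClaimHL (fun g => D g - E g) := by
  obtain ⟨d₀, d₁, hd⟩ := hD
  obtain ⟨e₀, e₁, he⟩ := hE
  exact ⟨d₀ - e₀, d₁ - e₁, fun g => by simp only [hd, he]; ring⟩

theorem claim_HL_comb {D : P3 → ℝ} (hD : ClaimHL D) (r s g : P3) :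
    cr r s * D g = cr g s * D r + cr r g * D s := by
  obtain ⟨d₀, d₁, hd⟩ := hD
  rw [hd, hd, hd]
  unfold cr
  ring

/-- Pluecker -/
theorem claim_pl (a b c d : P3) : cr a b * cr c d - cr a c * cr b d + cr a d * cr b c = 0 := by
  unfold cr; ring

/-- the edge `ab` is below `w` -/
def ClaimBelow (Adj : V → V → Prop) (x : V → P3) (k : V × V) (w : V) : Prop :=
  Adj k.1 k.2 ∧ 0 < cr (x k.1) (x k.2) ∧ 0 < cr (x k.1) (x w) ∧ 0 < cr (x w) (x k.2) ∧
    0 < det3 (x k.1) (x k.2) (x w)

/-- the edge `ab` is above `w` -/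
def ClaimAbove (Adj : V → V → Prop) (x : V → P3) (k : V × V) (w : V) : Prop :=
  Adj k.1 k.2 ∧ 0 < cr (x k.1) (x k.2) ∧ 0 < cr (x k.1) (x w) ∧ 0 < cr (x w) (x k.2) ∧
    det3 (x k.1) (x k.2) (x w) < 0

theorem claim_exists_yt [Finite V] (Adj : V → V → Prop) (x : V → P3) (y₀ : V → ℝ) :
    ∃ yt : V → ℝ, (∀ v, yt v ≤ y₀ v) ∧
      (∀ v k, ClaimBelow Adj x k v → yt v ≤ lin x y₀ k.1 k.2 (x v)) ∧
      (∀ v, yt v = y₀ v ∨ ∃ k, ClaimBelow Adj x k v ∧ yt v = lin x y₀ k.1 k.2 (x v)) := by
  classical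
  have key : ∀ v, ∃ m : ℝ, m ≤ y₀ v ∧
      (∀ k, ClaimBelow Adj x k v → m ≤ lin x y₀ k.1 k.2 (x v)) ∧
      (m = y₀ v ∨ ∃ k, ClaimBelow Adj x k v ∧ m = lin x y₀ k.1 k.2 (x v)) := by
    intro v
    let f : Option (V × V) → ℝ := fun o => match o with
      | none => y₀ v
      | some k => lin x y₀ k.1 k.2 (x v)
    let S : Set (Option (V × V)) := {o | ∀ k, o = some k → ClaimBelow Adj x k v}
    obtain ⟨o, ho, hmin⟩ := Set.exists_min_image S f (Set.toFinite S) ⟨none, by
      intro k hk; cases hk⟩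
    refine ⟨f o, hmin none (by intro k hk; cases hk), fun k hk => ?_, ?_⟩
    · refine hmin (some k) ?_
      intro k' hk'
      cases hk'
      exact hk
    · cases o with
      | none => exact Or.inl rfl
      | some k => exact Or.inr ⟨k, ho k rfl, rfl⟩
  choose yt h1 h2 h3 using key
  exact ⟨yt, h1, h2, h3⟩

section main

variable {N : V → Option (V × V)}

/-- the difference of the two linear functions at the left and right ends -/
theorem claim_ends (hx : ConeEmb Adj x) {y₀ yt : V → ℝ} (hle : ∀ v, yt v ≤ y₀ v)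
    (hb : ∀ v k, ClaimBelow Adj x k v → yt v ≤ lin x y₀ k.1 k.2 (x v))
    {a b p q : V} (hab : Adj a b) (hpq : Adj p q)
    (h1 : 0 < cr (x a) (x b)) (h2 : 0 < cr (x p) (x q)) (g : P3) (ga : 0 < cr (x a) g)
    (gb : 0 < cr g (x b)) (gp : 0 < cr (x p) g) (gq : 0 < cr g (x q))
    (hlt : lin x (fun v => x v 2) p q g < lin x (fun v => x v 2) a b g)
    (Ep Eq : ℝ) (hEp : 0 ≤ Ep) (hEq : 0 ≤ Eq)
    (hp : ClaimAbove Adj x (a, b) p → lin x yt a b (x p) - y₀ p ≤ Ep)
    (hq : ClaimAbove Adj x (a, b) q → lin x yt a b (x q) - y₀ q ≤ Eq) :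
    cr (x p) (x q) * (lin x yt a b g - lin x y₀ p q g) ≤ cr g (x q) * Ep + cr (x p) g * Eq := by
  obtain ⟨hl, hr⟩ := two_edges hx hab hpq h1 h2 g ga gb gp gq hlt
  set D : P3 → ℝ := fun g => lin x yt a b g - lin x y₀ p q g with hDdef
  have hHL : ClaimHL D := claim_HL_sub (claim_HL_lin _ _ _) (claim_HL_lin _ _ _)
  -- the left end
  have L : (D (x p) ≤ Ep) ∨ (0 < cr (x p) (x a) ∧ 0 < cr (x a) (x q) ∧ D (x a) ≤ 0) := by
    rcases hl with h | ⟨h3, h4, h5⟩ | ⟨h3, h4, h5⟩
    · left
      subst h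
      simp only [hDdef]
      rw [claim_lin_left _ h1.ne', claim_lin_left _ h2.ne']
      linarith [hle p]
    · left
      simp only [hDdef]
      rw [claim_lin_left _ h2.ne']
      exact hp ⟨hab, h1, h3, h4, h5⟩
    · right
      refine ⟨h3, h4, ?_⟩
      simp only [hDdef]
      rw [claim_lin_left _ h1.ne']
      have := hb a (p, q) ⟨hpq, h2, h3, h4, h5⟩
      simp only at this
      linarith
  have R : (D (x q) ≤ Eq) ∨ (0 < cr (x p) (x b) ∧ 0 < cr (x b) (x q) ∧ D (x b) ≤ 0) := by
    rcases hr with h | ⟨h3, h4, h5⟩ | ⟨h3, h4, h5⟩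
    · left
      subst h
      simp only [hDdef]
      rw [claim_lin_right _ h1.ne', claim_lin_right _ h2.ne']
      linarith [hle q]
    · left
      simp only [hDdef]
      rw [claim_lin_right _ h2.ne']
      exact hq ⟨hab, h1, h3, h4, h5⟩
    · right
      refine ⟨h3, h4, ?_⟩
      simp only [hDdef]
      rw [claim_lin_right _ h1.ne']
      have := hb b (p, q) ⟨hpq, h2, h3, h4, h5⟩
      simp only at this
      linarith
  change cr (x p) (x q) * D g ≤ _
  rcases L with hL | ⟨hL1, hL2, hL3⟩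
  · rcases R with hR | ⟨hR1, hR2, hR3⟩
    · rw [claim_HL_comb hHL (x p) (x q) g]
      gcongr
    · have e1 := claim_HL_comb hHL (x p) (x b) g
      have e2 : cr (x p) (x b) * D g ≤ cr g (x b) * Ep := by
        rw [e1]
        nlinarith [mul_le_mul_of_nonneg_left hL gb.le, mul_nonneg gp.le (neg_nonneg.2 hR3)]
      have e3 := claim_pl (x p) g (x b) (x q)
      -- cr p b * (cr p q * D g) ≤ cr p q * cr g b * Ep ≤ cr p b * cr g q * Ep
      have e4 : cr (x p) (x q) * cr g (x b) ≤ cr (x p) (x b) * cr g (x q) := by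
        nlinarith [mul_pos gp hR2, claim_cr_swap g (x b)]
      have e5 : cr (x p) (x b) * (cr (x p) (x q) * D g) ≤
          cr (x p) (x b) * (cr g (x q) * Ep) := by
        calc cr (x p) (x b) * (cr (x p) (x q) * D g)
            = cr (x p) (x q) * (cr (x p) (x b) * D g) := by ring
          _ ≤ cr (x p) (x q) * (cr g (x b) * Ep) := by gcongr
          _ = (cr (x p) (x q) * cr g (x b)) * Ep := by ring
          _ ≤ (cr (x p) (x b) * cr g (x q)) * Ep := by gcongr
          _ = _ := by ring
      have e6 := le_of_mul_le_mul_left e5 hR1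
      have : 0 ≤ cr (x p) g * Eq := by positivity
      linarith
  · rcases R with hR | ⟨hR1, hR2, hR3⟩
    · have e1 := claim_HL_comb hHL (x a) (x q) g
      have e2 : cr (x a) (x q) * D g ≤ cr (x a) g * Eq := by
        rw [e1]
        nlinarith [mul_le_mul_of_nonneg_left hR ga.le, mul_nonneg gq.le (neg_nonneg.2 hL3)]
      have e3 := claim_pl (x p) (x a) g (x q)
      have e4 : cr (x p) (x q) * cr (x a) g ≤ cr (x a) (x q) * cr (x p) g := by
        nlinarith [mul_pos hL1 gq]
      have e5 : cr (x a) (x q) * (cr (x p) (x q) * D g) ≤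
          cr (x a) (x q) * (cr (x p) g * Eq) := by
        calc cr (x a) (x q) * (cr (x p) (x q) * D g)
            = cr (x p) (x q) * (cr (x a) (x q) * D g) := by ring
          _ ≤ cr (x p) (x q) * (cr (x a) g * Eq) := by gcongr
          _ = (cr (x p) (x q) * cr (x a) g) * Eq := by ring
          _ ≤ (cr (x a) (x q) * cr (x p) g) * Eq := by gcongr
          _ = _ := by ring
      have e6 := le_of_mul_le_mul_left e5 hL2
      have : 0 ≤ cr g (x q) * Ep := by positivity
      linarith
    · have e1 := claim_HL_comb hHL (x a) (x b) g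
      have e2 : cr (x a) (x b) * D g ≤ 0 := by
        rw [e1]
        nlinarith [mul_nonneg gb.le (neg_nonneg.2 hL3), mul_nonneg ga.le (neg_nonneg.2 hR3)]
      have e3 : D g ≤ 0 := by
        by_contra hcon
        push Not at hcon
        nlinarith [mul_pos h1 hcon]
      have e4 : 0 ≤ cr (x p) g * Eq := by positivity
      have e5 : 0 ≤ cr g (x q) * Ep := by positivity
      nlinarith [mul_nonneg h2.le (neg_nonneg.2 e3)]

/-- signs from `Above` -/
theorem claim_above_of {a b c : V} (hab : 0 < cr (x a) (x b)) (h : Above x c a b) :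
    0 < cr (x a) (x c) ∧ 0 < cr (x c) (x b) ∧ det3 (x a) (x b) (x c) < 0 := by
  obtain ⟨⟨h1, h2⟩, h3⟩ := h
  refine ⟨(mul_pos_iff_of_pos_right hab).1 h1, (mul_pos_iff_of_pos_right hab).1 h2, ?_⟩
  by_contra hcon
  push Not at hcon
  nlinarith [mul_nonneg hcon hab.le]

theorem claim_of_above {a b c : V} (hab : 0 < cr (x a) (x b)) (h1 : 0 < cr (x a) (x c))
    (h2 : 0 < cr (x c) (x b)) (h3 : det3 (x a) (x b) (x c) < 0) : Above x c a b :=
  ⟨⟨mul_pos h1 hab, mul_pos h2 hab⟩, mul_neg_of_neg_of_pos h3 hab⟩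

/-- Claim A -/
theorem claim_A [Finite V] (hx : ConeEmb Adj x) (hN : IsTopMap Adj x N) (h : NF x N) {y₀ yt : V → ℝ}
    (hy : ∀ v a b, N v = some (a, b) →
      cr (x a) (x b) * y₀ v = cr (x v) (x b) * y₀ a + cr (x a) (x v) * y₀ b)
    (hle : ∀ v, yt v ≤ y₀ v)
    (hb : ∀ v k, ClaimBelow Adj x k v → yt v ≤ lin x y₀ k.1 k.2 (x v))
    {a b : V} (hab : Adj a b) (h1 : 0 < cr (x a) (x b)) (c : V)
    (hc : ClaimAbove Adj x (a, b) c) : lin x yt a b (x c) ≤ y₀ c := by
  classical
  let e : V → ℝ := fun v => if ClaimAbove Adj x (a, b) v then lin x yt a b (x v) - y₀ v else 0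
  have he : ∀ v, e v ≤ 0 ∨ ∃ a b, N v = some (a, b) ∧
      cr (x a) (x b) * e v ≤ cr (x v) (x b) * max (e a) 0 + cr (x a) (x v) * max (e b) 0 := by
    intro v
    by_cases hv : ClaimAbove Adj x (a, b) v
    · have hev : e v = lin x yt a b (x v) - y₀ v := if_pos hv
      obtain ⟨-, -, v1, v2, v3⟩ := hv
      simp only at v1 v2 v3
      rcases hNv : N v with _ | ⟨p, q⟩
      · exact absurd (claim_of_above h1 v1 v2 v3) (hN.hnone v hNv a b hab)
      · obtain ⟨hpq, h2, hpqa⟩ := hN.hsome v p q hNv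
        obtain ⟨p1, p2, p3⟩ := claim_above_of h2 hpqa
        by_cases heq : a = p ∧ b = q
        · obtain ⟨rfl, rfl⟩ := heq
          left
          have e1 := hy v a b hNv
          have e2 := claim_lin_mul (x := x) yt h1.ne' (x v)
          have e3 : cr (x a) (x b) * (lin x yt a b (x v) - y₀ v) ≤ 0 := by
            nlinarith [mul_le_mul_of_nonneg_left (hle a) v2.le,
              mul_le_mul_of_nonneg_left (hle b) v1.le]
          rw [hev]
          by_contra hcon
          push Not at hcon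
          nlinarith [mul_pos h1 hcon]
        · right
          refine ⟨p, q, rfl, ?_⟩
          have hlow := hN.hlow v p q hNv a b hab h1 (claim_of_above h1 v1 v2 v3)
          have hlt : lin x (fun v => x v 2) p q (x v) < lin x (fun v => x v 2) a b (x v) := by
            refine lt_of_le_of_ne ?_ (lin_ne hx hab hpq h1 h2 heq (x v) v1 v2 p1 p2)
            rw [det3_eq_lin a b (x v) h1.ne', det3_eq_lin p q (x v) h2.ne'] at hlow
            have hpos : 0 < cr (x a) (x b) * cr (x p) (x q) := mul_pos h1 h2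
            by_contra hcon
            push Not at hcon
            nlinarith [mul_pos hpos (sub_pos.2 hcon)]
          have key := claim_ends hx hle hb hab hpq h1 h2 (x v) v1 v2 p1 p2 hlt
            (max (e p) 0) (max (e q) 0) (le_max_right _ _) (le_max_right _ _)
            (fun hp => by
              have : e p = lin x yt a b (x p) - y₀ p := if_pos hp
              rw [← this]; exact le_max_left _ _)
            (fun hq => by
              have : e q = lin x yt a b (x q) - y₀ q := if_pos hq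
              rw [← this]; exact le_max_left _ _)
          have e1 := hy v p q hNv
          have e2 := claim_lin_mul (x := x) y₀ h2.ne' (x v)
          rw [hev]
          nlinarith
    · left
      exact (if_neg hv).le
  have := comparison hN h e he c
  have hec : e c = lin x yt a b (x c) - y₀ c := if_pos hc
  linarith

/-- Claim A' -/
theorem claim_A' [Finite V] (hx : ConeEmb Adj x) (hN : IsTopMap Adj x N) (h : NF x N) {y₀ yt : V → ℝ}
    (hy : ∀ v a b, N v = some (a, b) →
      cr (x a) (x b) * y₀ v = cr (x v) (x b) * y₀ a + cr (x a) (x v) * y₀ b)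
    (hle : ∀ v, yt v ≤ y₀ v)
    (hb : ∀ v k, ClaimBelow Adj x k v → yt v ≤ lin x y₀ k.1 k.2 (x v))
    {a b p q : V} (hab : Adj a b) (hpq : Adj p q)
    (h1 : 0 < cr (x a) (x b)) (h2 : 0 < cr (x p) (x q)) (g : P3) (ga : 0 < cr (x a) g)
    (gb : 0 < cr g (x b)) (gp : 0 < cr (x p) g) (gq : 0 < cr g (x q))
    (hlt : lin x (fun v => x v 2) p q g < lin x (fun v => x v 2) a b g) :
    lin x yt a b g ≤ lin x y₀ p q g := by
  have key := claim_ends hx hle hb hab hpq h1 h2 g ga gb gp gq hlt 0 0 le_rfl le_rfl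
    (fun hp => by linarith [claim_A hx hN h hy hle hb hab h1 p hp])
    (fun hq => by linarith [claim_A hx hN h hy hle hb hab h1 q hq])
  by_contra hcon
  push Not at hcon
  nlinarith [mul_pos h2 (sub_pos.2 hcon)]

theorem claim_small [Finite V] (y₀ z : V → ℝ) (hy : ∀ v, 0 < y₀ v) :
    ∃ δ : ℝ, 0 < δ ∧ ∀ v, δ * z v < y₀ v := by
  have h1 : ∀ v, ∀ᶠ δ in nhdsWithin (0 : ℝ) (Set.Ioi 0), δ * z v < y₀ v := by
    intro v
    have : Filter.Tendsto (fun δ : ℝ => δ * z v) (nhdsWithin (0 : ℝ) (Set.Ioi 0))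
        (nhds (0 * z v)) :=
      ((continuous_id.mul continuous_const).tendsto 0).mono_left nhdsWithin_le_nhds
    rw [zero_mul] at this
    exact this.eventually (gt_mem_nhds (hy v))
  have h2 := Filter.eventually_all.2 h1
  obtain ⟨δ, hδ, hpos⟩ := (h2.and self_mem_nhdsWithin).exists
  exact ⟨δ, hpos, hδ⟩

theorem LPF_of_NF [Finite V] (hx : ConeEmb Adj x)
    (hN : IsTopMap Adj x N) (hT : TopTriple x N) (h : NF x N) : LPF Adj x := by
  obtain ⟨y₀, hy1, hy, hypos, hyg⟩ := exists_y0 hN hT h
  obtain ⟨yt, hle, hb, hatt⟩ := claim_exists_yt Adj x y₀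
  have A : ∀ a b c, ClaimAbove Adj x (a, b) c → lin x yt a b (x c) ≤ y₀ c :=
    fun a b c hc => claim_A hx hN h hy hle hb hc.1 hc.2.1 c hc
  -- Claim B
  have B : ∀ v a b, N v = some (a, b) → lin x yt a b (x v) ≤ yt v := by
    intro v a b hNv
    obtain ⟨hab, h1, habv⟩ := hN.hsome v a b hNv
    obtain ⟨v1, v2, v3⟩ := claim_above_of h1 habv
    rcases hatt v with h3 | ⟨⟨p, q⟩, hpq, h3⟩
    · rw [h3]
      exact A a b v ⟨hab, h1, v1, v2, v3⟩
    · rw [h3]
      obtain ⟨hpq, h2, p1, p2, p3⟩ := hpq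
      simp only at hpq h2 p1 p2 p3 ⊢
      refine claim_A' hx hN h hy hle hb hab hpq h1 h2 (x v) v1 v2 p1 p2 ?_
      rw [det3_eq_lin a b (x v) h1.ne'] at v3
      rw [det3_eq_lin p q (x v) h2.ne'] at p3
      have h4 : x v 2 < lin x (fun v => x v 2) a b (x v) := by
        by_contra hcon
        push Not at hcon
        nlinarith [mul_nonneg h1.le (sub_nonneg.2 hcon)]
      have h5 : lin x (fun v => x v 2) p q (x v) < x v 2 := by
        by_contra hcon
        push Not at hcon
        nlinarith [mul_nonneg h2.le (sub_nonneg.2 hcon)]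
      linarith
  -- Claim C
  have C : ∀ t, N t = none → 1 ≤ yt t := by
    intro t ht
    rcases hatt t with h3 | ⟨⟨p, q⟩, ⟨hpq, h2, p1, p2, p3⟩, h3⟩
    · rw [h3, hy1 t ht]
    · obtain ⟨g₀, g₁, hg1, hg2⟩ := hyg t ht
      simp only at hpq h2 p1 p2 p3 h3
      rw [h3]
      have e1 := claim_lin_mul (x := x) y₀ h2.ne' (x t)
      have e2 : cr (x p) (x q) * (g₀ * x t 0 + g₁ * x t 1) =
          cr (x t) (x q) * (g₀ * x p 0 + g₁ * x p 1) +
          cr (x p) (x t) * (g₀ * x q 0 + g₁ * x q 1) := by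
        unfold cr; ring
      rw [hg1] at e2
      have e3 : cr (x p) (x q) * 1 ≤ cr (x p) (x q) * lin x y₀ p q (x t) := by
        rw [e1, e2]
        gcongr
        · exact hg2 p
        · exact hg2 q
      exact le_of_mul_le_mul_left e3 h2
  -- Claim D
  have D : ∀ v, y₀ v - yt v ≤ 0 := by
    refine comparison hN h (fun v => y₀ v - yt v) fun v => ?_
    rcases hNv : N v with _ | ⟨a, b⟩
    · left
      rw [hy1 v hNv]
      linarith [C v hNv]
    · right
      refine ⟨a, b, rfl, ?_⟩
      obtain ⟨hab, h1, habv⟩ := hN.hsome v a b hNv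
      obtain ⟨v1, v2, v3⟩ := claim_above_of h1 habv
      have e1 := hy v a b hNv
      have e2 := B v a b hNv
      have e3 := claim_lin_mul (x := x) yt h1.ne' (x v)
      have e4 : cr (x a) (x b) * lin x yt a b (x v) ≤ cr (x a) (x b) * yt v := by gcongr
      calc cr (x a) (x b) * (y₀ v - yt v)
          ≤ cr (x v) (x b) * (y₀ a - yt a) + cr (x a) (x v) * (y₀ b - yt b) := by nlinarith
        _ ≤ _ := by
          gcongr
          · exact le_max_left _ _
          · exact le_max_left _ _
  have E : ∀ v, yt v = y₀ v := fun v => le_antisymm (hle v) (by linarith [D v])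
  have E' : yt = y₀ := funext E
  subst E'
  -- the final heights
  obtain ⟨δ, hδ, hδv⟩ := claim_small yt (fun v => x v 2) hypos
  refine ⟨fun v => - yt v + δ * x v 2, fun v => by linarith [hδv v], ?_⟩
  -- positive orientation
  have main : ∀ u v w, Adj u v → 0 < cr (x u) (x v) → InSec x w u v →
      0 < ((- yt u + δ * x u 2) * cr (x v) (x w) + (- yt v + δ * x v 2) * cr (x w) (x u) +
        (- yt w + δ * x w 2) * cr (x u) (x v)) * det3 (x u) (x v) (x w) := by
    intro u v w huv h1 hw
    have hd := hx.vert u v w huv hw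
    have w1 := (mul_pos_iff_of_pos_right h1).1 hw.1
    have w2 := (mul_pos_iff_of_pos_right h1).1 hw.2
    have e1 := claim_lin_mul (x := x) yt h1.ne' (x w)
    have e2 : (- yt u + δ * x u 2) * cr (x v) (x w) + (- yt v + δ * x v 2) * cr (x w) (x u) +
        (- yt w + δ * x w 2) * cr (x u) (x v) =
        cr (x u) (x v) * (lin x yt u v (x w) - yt w) + δ * det3 (x u) (x v) (x w) := by
      rw [mul_sub, e1]
      unfold cr det3
      ring
    rw [e2]
    have e3 : 0 < δ * (det3 (x u) (x v) (x w) * det3 (x u) (x v) (x w)) :=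
      mul_pos hδ (mul_self_pos.2 hd)
    have e4 : 0 ≤ (lin x yt u v (x w) - yt w) * det3 (x u) (x v) (x w) := by
      rcases lt_or_gt_of_ne hd with hneg | hpos
      · have := A u v w ⟨huv, h1, w1, w2, hneg⟩
        nlinarith [mul_nonneg (sub_nonneg.2 this) (neg_nonneg.2 hneg.le)]
      · have := hb w (u, v) ⟨huv, h1, w1, w2, hpos⟩
        simp only at this
        exact mul_nonneg (sub_nonneg.2 this) hpos.le
    nlinarith [mul_nonneg h1.le e4]
  intro u v w huv hw
  have hne : cr (x u) (x v) ≠ 0 := by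
    intro h0
    have := hw.1
    rw [h0, mul_zero] at this
    exact lt_irrefl _ this
  rcases lt_or_gt_of_ne hne with hneg | hpos
  · have h1 : 0 < cr (x v) (x u) := by rw [claim_cr_swap]; linarith
    have hw' : InSec x w v u := by
      refine ⟨?_, ?_⟩
      · have := hw.2
        rw [claim_cr_swap (x v) (x w), claim_cr_swap (x v) (x u)]
        linarith
      · have := hw.1
        rw [claim_cr_swap (x w) (x u), claim_cr_swap (x v) (x u)]
        linarith
    have := main v u w (hx.symm _ _ huv) h1 hw'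
    have e : ((- yt v + δ * x v 2) * cr (x u) (x w) + (- yt u + δ * x u 2) * cr (x w) (x v) +
        (- yt w + δ * x w 2) * cr (x v) (x u)) * det3 (x v) (x u) (x w) =
        ((- yt u + δ * x u 2) * cr (x v) (x w) + (- yt v + δ * x v 2) * cr (x w) (x u) +
        (- yt w + δ * x w 2) * cr (x u) (x v)) * det3 (x u) (x v) (x w) := by
      unfold cr det3
      ring
    rw [← e]
    exact this
  · exact main u v w huv hpos hw

end main

end planar

end Pool.Agent.Sink
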