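import Pool.Agent.Lib.MP_93b8a0_lc.Two

/-!
# Cone version of embeddings
-/

open Matrix

namespace Pool.Agent.Sink

section planar
variable {V : Type*} {Adj : V → V → Prop} {x : V → P3}

theorem cr_smul' (a b : ℝ) (x y : P3) : cr (a • x) (b • y) = a * b * cr x y := by
  simp only [cr, Pi.smul_apply, smul_eq_mul]
  ring

theorem det3_smul' (a b c : ℝ) (x y z : P3) :
    det3 (a • x) (b • y) (c • z) = a * b * c * det3 x y z := by
  simp only [det3, Pi.smul_apply, smul_eq_mul]
  ring

theorem inSec_scale {y : V → P3} (hy : ∀ v, ∃ l : ℝ, 0 < l ∧ y v = l • x v) (w u v : V) :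
    InSec y w u v ↔ InSec x w u v := by
  obtain ⟨a, ha, e1⟩ := hy w
  obtain ⟨b, hb, e2⟩ := hy u
  obtain ⟨c, hc, e3⟩ := hy v
  unfold InSec
  rw [e1, e2, e3, cr_smul', cr_smul', cr_smul']
  have k1 : b * a * cr (x u) (x w) * (b * c * cr (x u) (x v)) =
      (b * a * (b * c)) * (cr (x u) (x w) * cr (x u) (x v)) := by ring
  have k2 : a * c * cr (x w) (x v) * (b * c * cr (x u) (x v)) =
      (a * c * (b * c)) * (cr (x w) (x v) * cr (x u) (x v)) := by ring
  have p1 : 0 < b * a * (b * c) := by positivity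
  have p2 : 0 < a * c * (b * c) := by positivity
  rw [k1, k2, mul_pos_iff_of_pos_left p1, mul_pos_iff_of_pos_left p2]

theorem pos_comb_of_inSec {u v w : P3} (hcr : cr u v ≠ 0) (hdet : det3 u v w = 0) :
    w = (cr w v / cr u v) • u + (cr u w / cr u v) • v := by
  ext i
  fin_cases i
  · simp only [Fin.zero_eta, Pi.add_apply, Pi.smul_apply, smul_eq_mul]
    field_simp
    simp only [cr]
    ring
  · simp only [Fin.mk_one, Pi.add_apply, Pi.smul_apply, smul_eq_mul]
    field_simp
    simp only [cr]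
    ring
  · simp only [Fin.reduceFinMk, Pi.add_apply, Pi.smul_apply, smul_eq_mul]
    field_simp
    have : det3 u v w = w 2 * cr u v - (cr w v * u 2 + cr u w * v 2) := by
      simp only [det3, cr]
      ring
    rw [this] at hdet
    linarith

/-- normalisation of a positive combination of two points of the sphere -/
theorem normalise_mem_arc {u v z : P3} (hz : z ≠ 0) {s t : ℝ} (hs : 0 < s) (ht : 0 < t)
    (h : z = s • u + t • v) : (√(z ⬝ᵥ z))⁻¹ • z ∈ arc u v := by
  have hpos : 0 < z ⬝ᵥ z := by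
    have h1 : 0 ≤ z ⬝ᵥ z := by
      simp only [dotProduct, Fin.sum_univ_three]
      nlinarith [mul_self_nonneg (z 0), mul_self_nonneg (z 1), mul_self_nonneg (z 2)]
    rcases h1.lt_or_eq with h | h
    · exact h
    · exact absurd (dotProduct_self_eq_zero.1 h.symm) hz
  have hr := Real.sqrt_pos.2 hpos
  refine ⟨?_, (√(z ⬝ᵥ z))⁻¹ * s, (√(z ⬝ᵥ z))⁻¹ * t, by positivity, by positivity, ?_⟩
  · rw [smul_dotProduct, dotProduct_smul, smul_eq_mul, smul_eq_mul, ← mul_assoc, ← mul_inv,
      Real.mul_self_sqrt hpos.le, inv_mul_cancel₀ hpos.ne']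
  · rw [mul_smul, mul_smul, ← smul_add, ← h]

theorem coneEmb_of_isEmb (hx : IsEmb Adj x) (hsymm : ∀ u v, Adj u v → Adj v u)
    (y : V → P3) (hy : ∀ v, ∃ l : ℝ, 0 < l ∧ y v = l • x v)
    (gen : ∀ u v, u ≠ v → cr (x u) (x v) ≠ 0) : ConeEmb Adj y := by
  have hgen : ∀ u v, u ≠ v → cr (y u) (y v) ≠ 0 := by
    intro u v huv
    obtain ⟨a, ha, e1⟩ := hy u
    obtain ⟨b, hb, e2⟩ := hy v
    rw [e1, e2, cr_smul']
    exact mul_ne_zero (by positivity) (gen u v huv)
  have hirr : ∀ u v, Adj u v → u ≠ v := by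
    rintro u v h rfl
    refine hx.vertex u u u h ⟨hx.unit u, 1 / 2, 1 / 2, by norm_num, by norm_num, ?_⟩
    rw [← add_smul]
    norm_num
  refine ⟨hgen, hirr, hsymm, ?_, ?_⟩
  · intro u v w huv hw h0
    rw [inSec_scale hy] at hw
    obtain ⟨a, ha, e1⟩ := hy u
    obtain ⟨b, hb, e2⟩ := hy v
    obtain ⟨c, hc, e3⟩ := hy w
    have hne := gen u v (hirr u v huv)
    have hd : det3 (x u) (x v) (x w) = 0 := by
      rw [e1, e2, e3, det3_smul'] at h0
      exact (mul_eq_zero.1 h0).resolve_left (by positivity)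
    refine hx.vertex u v w huv ⟨hx.unit w, _, _, ?_, ?_, pos_comb_of_inSec hne hd⟩
    · have : cr (x w) (x v) / cr (x u) (x v) =
          cr (x w) (x v) * cr (x u) (x v) / (cr (x u) (x v)) ^ 2 := by
        field_simp
      rw [this]
      exact div_pos hw.2 (by positivity)
    · have : cr (x u) (x w) / cr (x u) (x v) =
          cr (x u) (x w) * cr (x u) (x v) / (cr (x u) (x v)) ^ 2 := by
        field_simp
      rw [this]
      exact div_pos hw.1 (by positivity)
  · intro u v u' v' h h' hne hne' s t s' t' hs ht hs' ht' heq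
    obtain ⟨a, ha, e1⟩ := hy u
    obtain ⟨b, hb, e2⟩ := hy v
    obtain ⟨a', ha', e1'⟩ := hy u'
    obtain ⟨b', hb', e2'⟩ := hy v'
    rw [e1, e2, e1', e2', smul_smul, smul_smul, smul_smul, smul_smul] at heq
    have hz : (s * a) • x u + (t * b) • x v ≠ 0 := by
      intro h0
      have h1 : cr ((s * a) • x u + (t * b) • x v) (x v) = 0 := by
        rw [h0]
        simp [cr]
      have h2 : cr ((s * a) • x u + (t * b) • x v) (x v) = s * a * cr (x u) (x v) := by
        simp only [cr, Pi.add_apply, Pi.smul_apply, smul_eq_mul]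
        ring
      rw [h2] at h1
      exact gen u v (hirr u v h) ((mul_eq_zero.1 h1).resolve_left (by positivity))
    have m1 := normalise_mem_arc (u := x u) (v := x v) hz (mul_pos hs ha) (mul_pos ht hb) rfl
    have m2 := normalise_mem_arc (u := x u') (v := x v') hz (mul_pos hs' ha') (mul_pos ht' hb')
      heq
    exact Set.disjoint_left.1 (hx.edge u v u' v' h h' hne hne') m1 m2

theorem LPF_of_scale {y : V → P3} (hy : ∀ v, ∃ l : ℝ, 0 < l ∧ y v = l • x v)
    (h : LPF Adj x) : LPF Adj y := by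
  obtain ⟨ζ, h1, h2⟩ := h
  choose l hl e using hy
  refine ⟨fun v => l v * ζ v, fun v => mul_neg_of_pos_of_neg (hl v) (h1 v), ?_⟩
  intro u v w huv hw
  rw [inSec_scale (fun v => ⟨l v, hl v, e v⟩)] at hw
  have h3 := h2 u v w huv hw
  rw [e u, e v, e w]
  simp only [cr_smul', det3_smul']
  have : (l u * ζ u * (l v * l w * cr (x v) (x w)) + l v * ζ v * (l w * l u * cr (x w) (x u)) +
      l w * ζ w * (l u * l v * cr (x u) (x v))) * (l u * l v * l w * det3 (x u) (x v) (x w)) =
      (l u * l v * l w) ^ 2 * ((ζ u * cr (x v) (x w) + ζ v * cr (x w) (x u) +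
        ζ w * cr (x u) (x v)) * det3 (x u) (x v) (x w)) := by ring
  rw [this]
  have := mul_pos (mul_pos (hl u) (hl v)) (hl w)
  positivity

theorem LPF_scale {y : V → P3} (hy : ∀ v, ∃ l : ℝ, 0 < l ∧ y v = l • x v) :
    LPF Adj y ↔ LPF Adj x := by
  refine ⟨LPF_of_scale fun v => ?_, LPF_of_scale hy⟩
  obtain ⟨l, hl, e⟩ := hy v
  exact ⟨l⁻¹, by positivity, by rw [e, smul_smul, inv_mul_cancel₀ hl.ne', one_smul]⟩

theorem LPF_of_southern (hx : ConeEmb Adj x) (hs : ∀ v, x v 2 < 0) : LPF Adj x := by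
  refine ⟨fun v => x v 2, hs, fun u v w huv hw => ?_⟩
  have h1 := hx.vert u v w huv hw
  have : x u 2 * cr (x v) (x w) + x v 2 * cr (x w) (x u) + x w 2 * cr (x u) (x v) =
      det3 (x u) (x v) (x w) := by
    simp only [det3, cr]
    ring
  simp only [this]
  exact mul_self_pos.2 h1

theorem topMap_unique (hx : ConeEmb Adj x) {N N' : V → Option (V × V)}
    (h : IsTopMap Adj x N) (h' : IsTopMap Adj x N') : N = N' := by
  funext v
  cases hv : N v with
  | none =>
    cases hv' : N' v with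
    | none => rfl
    | some p =>
      obtain ⟨h1, h2, h3⟩ := h'.hsome v p.1 p.2 hv'
      exact absurd h3 (h.hnone v hv p.1 p.2 h1)
  | some p =>
    cases hv' : N' v with
    | none =>
      obtain ⟨h1, h2, h3⟩ := h.hsome v p.1 p.2 hv
      exact absurd h3 (h'.hnone v hv' p.1 p.2 h1)
    | some q =>
      obtain ⟨h1, h2, h3⟩ := h.hsome v p.1 p.2 hv
      obtain ⟨h1', h2', h3'⟩ := h'.hsome v q.1 q.2 hv'
      have l1 := h.hlow v p.1 p.2 hv q.1 q.2 h1' h2' h3'
      have l2 := h'.hlow v q.1 q.2 hv' p.1 p.2 h1 h2 h3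
      have heq : lin x (fun v => x v 2) q.1 q.2 (x v) = lin x (fun v => x v 2) p.1 p.2 (x v) := by
        rw [det3_eq_lin _ _ _ h2.ne', det3_eq_lin _ _ _ h2'.ne'] at l1 l2
        have : cr (x p.1) (x p.2) * cr (x q.1) (x q.2) * (lin x (fun v => x v 2) q.1 q.2 (x v) -
            lin x (fun v => x v 2) p.1 p.2 (x v)) = 0 := by linarith
        have h0 := (mul_eq_zero.1 this).resolve_left (by positivity)
        linarith
      by_contra hne
      have hne' : ¬ (p.1 = q.1 ∧ p.2 = q.2) := by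
        rintro ⟨a, b⟩
        apply hne
        rw [Option.some_inj]
        exact Prod.ext a b
      refine lin_ne hx h1 h1' h2 h2' hne' (x v) ?_ ?_ ?_ ?_ heq
      · exact (mul_pos_iff_of_pos_right h2).1 h3.1.1
      · exact (mul_pos_iff_of_pos_right h2).1 h3.1.2
      · exact (mul_pos_iff_of_pos_right h2').1 h3'.1.1
      · exact (mul_pos_iff_of_pos_right h2').1 h3'.1.2

end planar

end Pool.Agent.Sink
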