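import Pool.Agent.Lib.MP_93b8a0_lc.Prog

/-!
# Rotations
-/

open Matrix

namespace Pool.Agent.Sink

theorem det3_mulVec (R : Matrix (Fin 3) (Fin 3) ℝ) (a b c : P3) :
    det3 (R *ᵥ a) (R *ᵥ b) (R *ᵥ c) = R.det * det3 a b c := by
  rw [Matrix.det_fin_three]
  simp only [det3, Matrix.mulVec, dotProduct, Fin.sum_univ_three]
  ring

theorem det3_rot {R : Matrix (Fin 3) (Fin 3) ℝ} (hR : IsRot R) (a b c : P3) :
    det3 (R *ᵥ a) (R *ᵥ b) (R *ᵥ c) = det3 a b c := by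
  rw [det3_mulVec, hR.2, one_mul]

theorem rot_adj {R : Matrix (Fin 3) (Fin 3) ℝ} (hR : IsRot R) : R.adjugate = Rᵀ := by
  have h1 : R.adjugate * (R * Rᵀ) = Rᵀ := by
    rw [← Matrix.mul_assoc, Matrix.adjugate_mul, hR.2, one_smul, Matrix.one_mul]
  rwa [hR.1, Matrix.mul_one] at h1

theorem rot_transpose {R : Matrix (Fin 3) (Fin 3) ℝ} (hR : IsRot R) : Rᵀ * R = 1 :=
  mul_eq_one_comm.1 hR.1

/-- the horizontal cross product depends on the third row only -/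
theorem cr_rot {R : Matrix (Fin 3) (Fin 3) ℝ} (hR : IsRot R) (a b : P3) :
    cr (R *ᵥ a) (R *ᵥ b) = det3 (R 2) a b := by
  have h := rot_adj hR
  rw [Matrix.adjugate_fin_three] at h
  have h0 := congrFun (congrFun h 0) 2
  have h1 := congrFun (congrFun h 1) 2
  have h2 := congrFun (congrFun h 2) 2
  simp [Matrix.transpose_apply] at h0 h1 h2
  simp only [cr, det3, Matrix.mulVec, dotProduct, Fin.sum_univ_three]
  rw [← h0, ← h1, ← h2]
  ring

theorem isRot_Qm (a b c : ℝ) (h : 0 < a ^ 2 + b ^ 2 + c ^ 2) :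
    IsRot ((a ^ 2 + b ^ 2 + c ^ 2)⁻¹ • Qm a b c) := by
  constructor
  · ext i j
    fin_cases i <;> fin_cases j <;>
    · simp [Matrix.mul_apply, Fin.sum_univ_three, Qm]
      field_simp
      try ring
  · rw [Matrix.det_fin_three]
    simp [Qm]
    field_simp
    ring

/-! ### Equivariance -/

theorem rot_dot {R : Matrix (Fin 3) (Fin 3) ℝ} (hR : IsRot R) (a b : P3) :
    (R *ᵥ a) ⬝ᵥ (R *ᵥ b) = a ⬝ᵥ b := by
  rw [Matrix.dotProduct_mulVec, Matrix.vecMul_mulVec, rot_transpose hR, Matrix.vecMul_one]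

theorem rot_inj {R : Matrix (Fin 3) (Fin 3) ℝ} (hR : IsRot R) {a b : P3}
    (h : R *ᵥ a = R *ᵥ b) : a = b := by
  have := congrArg (fun z => Rᵀ *ᵥ z) h
  simpa [Matrix.mulVec_mulVec, rot_transpose hR] using this

theorem rot_surj {R : Matrix (Fin 3) (Fin 3) ℝ} (hR : IsRot R) (z : P3) :
    R *ᵥ (Rᵀ *ᵥ z) = z := by
  rw [Matrix.mulVec_mulVec, hR.1, Matrix.one_mulVec]

theorem mem_arc_rot {R : Matrix (Fin 3) (Fin 3) ℝ} (hR : IsRot R) (u v w : P3) :
    R *ᵥ w ∈ arc (R *ᵥ u) (R *ᵥ v) ↔ w ∈ arc u v := by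
  unfold arc
  constructor
  · rintro ⟨h1, s, t, hs, ht, h2⟩
    rw [rot_dot hR] at h1
    refine ⟨h1, s, t, hs, ht, rot_inj hR ?_⟩
    rw [h2, Matrix.mulVec_add, Matrix.mulVec_smul, Matrix.mulVec_smul]
  · rintro ⟨h1, s, t, hs, ht, h2⟩
    refine ⟨by rw [rot_dot hR]; exact h1, s, t, hs, ht, ?_⟩
    rw [h2, Matrix.mulVec_add, Matrix.mulVec_smul, Matrix.mulVec_smul]

theorem comb_rot {R : Matrix (Fin 3) (Fin 3) ℝ} (hR : IsRot R) (a b c w : P3) (α β γ : ℝ) :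
    R *ᵥ w = α • (R *ᵥ a) + β • (R *ᵥ b) + γ • (R *ᵥ c) ↔ w = α • a + β • b + γ • c := by
  constructor
  · intro h
    apply rot_inj hR
    rw [h, Matrix.mulVec_add, Matrix.mulVec_add, Matrix.mulVec_smul, Matrix.mulVec_smul,
      Matrix.mulVec_smul]
  · intro h
    rw [h, Matrix.mulVec_add, Matrix.mulVec_add, Matrix.mulVec_smul, Matrix.mulVec_smul,
      Matrix.mulVec_smul]

theorem mem_region_rot {R : Matrix (Fin 3) (Fin 3) ℝ} (hR : IsRot R) (a b c w : P3) :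
    R *ᵥ w ∈ region (R *ᵥ a) (R *ᵥ b) (R *ᵥ c) ↔ w ∈ region a b c := by
  unfold region
  simp only [Set.mem_ofPred_eq, rot_dot hR, det3_rot hR, comb_rot hR]

theorem disj_rot {R : Matrix (Fin 3) (Fin 3) ℝ} (hR : IsRot R) {A A' B B' : Set P3}
    (hA : ∀ w, R *ᵥ w ∈ A' ↔ w ∈ A) (hB : ∀ w, R *ᵥ w ∈ B' ↔ w ∈ B) (h : Disjoint A B) :
    Disjoint A' B' := by
  rw [Set.disjoint_left] at h ⊢
  intro z hz1 hz2
  rw [← rot_surj hR z] at hz1 hz2
  exact h ((hA _).1 hz1) ((hB _).1 hz2)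

theorem isTri_rot {n : ℕ} {F : List (Fin n × Fin n × Fin n)} {x : Fin n → P3}
    (hx : IsTri F x) {R : Matrix (Fin 3) (Fin 3) ℝ} (hR : IsRot R) :
    IsTri F (fun v => R *ᵥ x v) := by
  refine ⟨⟨?_, ?_, ?_, ?_, ?_⟩, ?_, ?_, ?_, ?_⟩
  · intro v
    simp only [rot_dot hR]
    exact hx.emb.unit v
  · intro u v h
    exact hx.emb.inj (rot_inj hR h)
  · intro u v huv h
    refine hx.emb.short u v huv (rot_inj hR ?_)
    rw [h, Matrix.mulVec_neg]
  · intro u v w huv h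
    exact hx.emb.vertex u v w huv ((mem_arc_rot hR _ _ _).1 h)
  · intro u v u' v' h h' h1 h2
    exact disj_rot hR (fun w => mem_arc_rot hR _ _ _) (fun w => mem_arc_rot hR _ _ _)
      (hx.emb.edge u v u' v' h h' h1 h2)
  · intro w hw
    have hw' : (Rᵀ *ᵥ w) ⬝ᵥ (Rᵀ *ᵥ w) = 1 := by
      rw [← rot_dot hR, rot_surj hR]
      exact hw
    rcases hx.cover _ hw' with ⟨v, hv⟩ | ⟨u, v, huv, h⟩ | ⟨f, hf, h⟩
    · left
      refine ⟨v, ?_⟩
      rw [← hv, rot_surj hR]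
    · right; left
      refine ⟨u, v, huv, ?_⟩
      have := (mem_arc_rot hR _ _ _).2 h
      rwa [rot_surj hR] at this
    · right; right
      refine ⟨f, hf, ?_⟩
      have := (mem_region_rot hR _ _ _ _).2 h
      rwa [rot_surj hR] at this
  · intro f hf v h
    exact hx.face_vertex f hf v ((mem_region_rot hR _ _ _ _).1 h)
  · intro f hf u v huv
    exact disj_rot hR (fun w => mem_arc_rot hR _ _ _) (fun w => mem_region_rot hR _ _ _ _)
      (hx.face_edge f hf u v huv)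
  · refine hx.face_face.imp ?_
    intro f g h
    exact disj_rot hR (fun w => mem_region_rot hR _ _ _ _) (fun w => mem_region_rot hR _ _ _ _) h

/-- every direction except the south pole is in the direction of the third row of some
`Qm 1 s t` -/
theorem exists_row (p : P3) (hp : p 0 ≠ 0 ∨ p 1 ≠ 0) :
    ∃ (q : ℝ × ℝ) (l : ℝ), 0 < l ∧ Qm 1 q.1 q.2 2 = l • p := by
  have hpos : 0 < p 0 ^ 2 + p 1 ^ 2 := by
    rcases hp with h | h
    · have := sq_nonneg (p 1)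
      positivity
    · have := sq_nonneg (p 0)
      positivity
  set r := √(p 0 ^ 2 + p 1 ^ 2 + p 2 ^ 2) with hr
  have hr2 : r ^ 2 = p 0 ^ 2 + p 1 ^ 2 + p 2 ^ 2 := Real.sq_sqrt (by positivity)
  have hr0 : 0 ≤ r := Real.sqrt_nonneg _
  have hrp : 0 < r + p 2 := by
    by_contra hcon
    rw [not_lt] at hcon
    nlinarith
  refine ⟨(p 1 / (r + p 2), -(p 0 / (r + p 2))), 2 / (r + p 2), by positivity, ?_⟩
  ext i
  fin_cases i
  · simp [Qm]
    field_simp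
  · simp [Qm]
    field_simp
  · simp [Qm]
    field_simp
    nlinarith

end Pool.Agent.Sink
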