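import Pool.Agent.Lib.MP_93b8a0_lc.Planar

/-!
# Two non-crossing edges
-/

open Matrix

namespace Pool.Agent.Sink

section planar
variable {V : Type*} {Adj : V → V → Prop} {x : V → P3}

/-- `det3 (a, b, w)` in terms of the difference of heights -/
theorem det3_eq_lin (a b : V) (w : P3) (h : cr (x a) (x b) ≠ 0) :
    det3 (x a) (x b) w = cr (x a) (x b) * (w 2 - lin x (fun v => x v 2) a b w) := by
  unfold lin
  rw [mul_sub, mul_div_cancel₀ _ h]
  simp only [det3, cr]
  ring

/-- `lin` is linear -/
theorem lin_comb (η : V → ℝ) (a b : V) (r s : ℝ) (g g' : P3) :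
    lin x η a b (r • g + s • g') = r * lin x η a b g + s * lin x η a b g' := by
  unfold lin
  simp only [cr, Pi.add_apply, Pi.smul_apply, smul_eq_mul]
  ring

/-- Pluecker identity -/
theorem cr_plu (a b c d : P3) : cr a b * cr c d - cr a c * cr b d + cr a d * cr b c = 0 := by
  simp only [cr]
  ring

theorem cr_swap (a b : P3) : cr a b = -cr b a := by
  simp only [cr]
  ring

/-- the point of the edge `ab` above `g` -/
theorem edge_point (a b : V) (g : P3) (h : cr (x a) (x b) ≠ 0) :
    (cr g (x b) / cr (x a) (x b)) • x a + (cr (x a) g / cr (x a) (x b)) • x b =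
      ![g 0, g 1, lin x (fun v => x v 2) a b g] := by
  ext i
  fin_cases i
  · simp only [Fin.zero_eta, Pi.add_apply, Pi.smul_apply, smul_eq_mul, cons_val_zero]
    field_simp
    simp only [cr]
    ring
  · simp only [Fin.mk_one, Pi.add_apply, Pi.smul_apply, smul_eq_mul, cons_val_one,
      cons_val_zero]
    field_simp
    simp only [cr]
    ring
  · simp [lin]
    field_simp

/-- two different edges do not meet -/
theorem lin_ne (hx : ConeEmb Adj x) {a b p q : V} (hab : Adj a b) (hpq : Adj p q)
    (h1 : 0 < cr (x a) (x b)) (h2 : 0 < cr (x p) (x q)) (hne : ¬ (a = p ∧ b = q)) (g : P3)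
    (ga : 0 < cr (x a) g) (gb : 0 < cr g (x b)) (gp : 0 < cr (x p) g) (gq : 0 < cr g (x q)) :
    lin x (fun v => x v 2) p q g ≠ lin x (fun v => x v 2) a b g := by
  intro h
  have hne' : ¬ (a = q ∧ b = p) := by
    rintro ⟨rfl, rfl⟩
    rw [cr_swap] at h2
    linarith
  refine hx.cross a b p q hab hpq hne hne' _ _ _ _ (div_pos gb h1) (div_pos ga h1)
    (div_pos gq h2) (div_pos gp h2) ?_
  rw [edge_point a b g h1.ne', edge_point p q g h2.ne', h]

/-- a zero of the difference of two linear functions between two points -/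
theorem exists_between (hx : ConeEmb Adj x) {a b p q : V} (hab : Adj a b) (hpq : Adj p q)
    (h1 : 0 < cr (x a) (x b)) (h2 : 0 < cr (x p) (x q)) (hne : ¬ (a = p ∧ b = q)) (g r : P3)
    (ga : 0 < cr (x a) g) (gb : 0 < cr g (x b)) (gp : 0 < cr (x p) g) (gq : 0 < cr g (x q))
    (ra : 0 ≤ cr (x a) r) (rb : 0 ≤ cr r (x b)) (rp : 0 ≤ cr (x p) r) (rq : 0 ≤ cr r (x q))
    (hlt : lin x (fun v => x v 2) p q g < lin x (fun v => x v 2) a b g) :
    lin x (fun v => x v 2) p q r ≤ lin x (fun v => x v 2) a b r := by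
  by_contra hcon
  rw [not_le] at hcon
  set A := lin x (fun v => x v 2) a b g - lin x (fun v => x v 2) p q g with hA
  set B := lin x (fun v => x v 2) p q r - lin x (fun v => x v 2) a b r with hB
  have hA0 : 0 < A := by rw [hA]; linarith
  have hB0 : 0 < B := by rw [hB]; linarith
  refine lin_ne hx hab hpq h1 h2 hne (B • g + A • r) ?_ ?_ ?_ ?_ ?_
  · have : cr (x a) (B • g + A • r) = B * cr (x a) g + A * cr (x a) r := by
      simp only [cr, Pi.add_apply, Pi.smul_apply, smul_eq_mul]
      ring
    rw [this]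
    exact add_pos_of_pos_of_nonneg (mul_pos hB0 ga) (mul_nonneg hA0.le ra)
  · have : cr (B • g + A • r) (x b) = B * cr g (x b) + A * cr r (x b) := by
      simp only [cr, Pi.add_apply, Pi.smul_apply, smul_eq_mul]
      ring
    rw [this]
    exact add_pos_of_pos_of_nonneg (mul_pos hB0 gb) (mul_nonneg hA0.le rb)
  · have : cr (x p) (B • g + A • r) = B * cr (x p) g + A * cr (x p) r := by
      simp only [cr, Pi.add_apply, Pi.smul_apply, smul_eq_mul]
      ring
    rw [this]
    exact add_pos_of_pos_of_nonneg (mul_pos hB0 gp) (mul_nonneg hA0.le rp)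
  · have : cr (B • g + A • r) (x q) = B * cr g (x q) + A * cr r (x q) := by
      simp only [cr, Pi.add_apply, Pi.smul_apply, smul_eq_mul]
      ring
    rw [this]
    exact add_pos_of_pos_of_nonneg (mul_pos hB0 gq) (mul_nonneg hA0.le rq)
  · rw [lin_comb, lin_comb]
    have e1 : lin x (fun v => x v 2) a b g = A + lin x (fun v => x v 2) p q g := by
      rw [hA]; ring
    have e2 : lin x (fun v => x v 2) p q r = B + lin x (fun v => x v 2) a b r := by
      rw [hB]; ring
    rw [e1, e2]
    ring

theorem lin_left (η : V → ℝ) (a b : V) (h : cr (x a) (x b) ≠ 0) :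
    lin x η a b (x a) = η a := by
  have h0 : cr (x a) (x a) = 0 := by simp only [cr]; ring
  unfold lin
  rw [h0]
  field_simp
  ring

theorem lin_right (η : V → ℝ) (a b : V) (h : cr (x a) (x b) ≠ 0) :
    lin x η a b (x b) = η b := by
  have h0 : cr (x b) (x b) = 0 := by simp only [cr]; ring
  unfold lin
  rw [h0]
  field_simp
  ring

theorem cr_self (a : P3) : cr a a = 0 := by simp only [cr]; ring

/-- If the edge `ab` is above the edge `pq` on the longitude of `g`, then this is also true at
the ends of the intersection of the two sectors. -/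
theorem two_edges (hx : ConeEmb Adj x) {a b p q : V} (hab : Adj a b) (hpq : Adj p q)
    (h1 : 0 < cr (x a) (x b)) (h2 : 0 < cr (x p) (x q)) (g : P3) (ga : 0 < cr (x a) g)
    (gb : 0 < cr g (x b)) (gp : 0 < cr (x p) g) (gq : 0 < cr g (x q))
    (hlt : lin x (fun v => x v 2) p q g < lin x (fun v => x v 2) a b g) :
    (p = a ∨ (0 < cr (x a) (x p) ∧ 0 < cr (x p) (x b) ∧ det3 (x a) (x b) (x p) < 0) ∨
      (0 < cr (x p) (x a) ∧ 0 < cr (x a) (x q) ∧ 0 < det3 (x p) (x q) (x a))) ∧
    (q = b ∨ (0 < cr (x a) (x q) ∧ 0 < cr (x q) (x b) ∧ det3 (x a) (x b) (x q) < 0) ∨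
      (0 < cr (x p) (x b) ∧ 0 < cr (x b) (x q) ∧ 0 < det3 (x p) (x q) (x b))) := by
  have hne : ¬ (a = p ∧ b = q) := by
    rintro ⟨rfl, rfl⟩
    exact lt_irrefl _ hlt
  have key := exists_between hx hab hpq h1 h2 hne g
  constructor
  · by_cases hpa : p = a
    · exact Or.inl hpa
    refine Or.inr ?_
    rcases lt_or_gt_of_ne (hx.gen a p (Ne.symm hpa)) with hs | hs
    · -- a between p and g
      right
      have hs' : 0 < cr (x p) (x a) := by rw [cr_swap]; linarith
      -- cr a q > 0
      have haq : 0 < cr (x a) (x q) := by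
        have h := cr_plu (x p) (x a) g (x q)
        -- cr p a * cr g q - cr p g * cr a q + cr p q * cr a g = 0
        have : 0 < cr (x p) g * cr (x a) (x q) := by
          nlinarith [mul_pos hs' gq, mul_pos h2 ga]
        exact (mul_pos_iff_of_pos_left gp).1 this
      refine ⟨hs', haq, ?_⟩
      have hk := key (x a) ga gb gp gq (cr_self _).ge h1.le hs'.le haq.le hlt
      rw [lin_left _ _ _ h1.ne'] at hk
      have hd : det3 (x p) (x q) (x a) ≠ 0 := hx.vert p q a hpq
        ⟨mul_pos hs' h2, mul_pos haq h2⟩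
      rw [det3_eq_lin _ _ _ h2.ne'] at hd ⊢
      have : 0 ≤ x a 2 - lin x (fun v => x v 2) p q (x a) := by linarith
      exact lt_of_le_of_ne (mul_nonneg h2.le this) (Ne.symm hd)
    · left
      have hpb : 0 < cr (x p) (x b) := by
        have h := cr_plu (x a) (x p) g (x b)
        have : 0 < cr (x a) g * cr (x p) (x b) := by
          nlinarith [mul_pos hs gb, mul_pos h1 gp]
        exact (mul_pos_iff_of_pos_left ga).1 this
      refine ⟨hs, hpb, ?_⟩
      have hk := key (x p) ga gb gp gq hs.le hpb.le (cr_self _).ge h2.le hlt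
      rw [lin_left _ _ _ h2.ne'] at hk
      have hd : det3 (x a) (x b) (x p) ≠ 0 := hx.vert a b p hab
        ⟨mul_pos hs h1, mul_pos hpb h1⟩
      rw [det3_eq_lin _ _ _ h1.ne'] at hd ⊢
      have : 0 ≤ lin x (fun v => x v 2) a b (x p) - x p 2 := by linarith
      refine lt_of_le_of_ne ?_ hd
      nlinarith [mul_nonneg h1.le this]
  · by_cases hqb : q = b
    · exact Or.inl hqb
    refine Or.inr ?_
    rcases lt_or_gt_of_ne (hx.gen q b hqb) with hs | hs
    · -- b between g and q
      right
      have hs' : 0 < cr (x b) (x q) := by rw [cr_swap]; linarith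
      have hpb : 0 < cr (x p) (x b) := by
        have h := cr_plu (x p) g (x b) (x q)
        -- cr p g * cr b q - cr p b * cr g q + cr p q * cr g b = 0
        have : 0 < cr (x p) (x b) * cr g (x q) := by
          nlinarith [mul_pos gp hs', mul_pos h2 gb]
        exact (mul_pos_iff_of_pos_right gq).1 this
      refine ⟨hpb, hs', ?_⟩
      have hk := key (x b) ga gb gp gq h1.le (cr_self _).ge hpb.le hs'.le hlt
      rw [lin_right _ _ _ h1.ne'] at hk
      have hd : det3 (x p) (x q) (x b) ≠ 0 := hx.vert p q b hpq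
        ⟨mul_pos hpb h2, mul_pos hs' h2⟩
      rw [det3_eq_lin _ _ _ h2.ne'] at hd ⊢
      have : 0 ≤ x b 2 - lin x (fun v => x v 2) p q (x b) := by linarith
      exact lt_of_le_of_ne (mul_nonneg h2.le this) (Ne.symm hd)
    · left
      have haq : 0 < cr (x a) (x q) := by
        have h := cr_plu (x a) g (x q) (x b)
        have : 0 < cr (x a) (x q) * cr g (x b) := by
          nlinarith [mul_pos ga hs, mul_pos h1 gq]
        exact (mul_pos_iff_of_pos_right gb).1 this
      refine ⟨haq, hs, ?_⟩
      have hk := key (x q) ga gb gp gq haq.le hs.le h2.le (cr_self _).ge hlt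
      rw [lin_right _ _ _ h2.ne'] at hk
      have hd : det3 (x a) (x b) (x q) ≠ 0 := hx.vert a b q hab
        ⟨mul_pos haq h1, mul_pos hs h1⟩
      rw [det3_eq_lin _ _ _ h1.ne'] at hd ⊢
      have : 0 ≤ lin x (fun v => x v 2) a b (x q) - x q 2 := by linarith
      refine lt_of_le_of_ne ?_ hd
      nlinarith [mul_nonneg h1.le this]

end planar

end Pool.Agent.Sink
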