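import Pool.Agent.Lib.MP_93b8a0_lc.Defs2
import Pool.Agent.Lib.MP_93b8a0_lc.Rot
import Pool.Agent.Lib.MP_93b8a0_lc.Two
import Pool.Agent.Lib.MP_93b8a0_lc.Cone

/-!
# The pattern is constant
-/

open Matrix Polynomial

namespace Pool.Agent.Sink

/-- the sign of a continuous function without zeros is constant -/
theorem pos_const {U : Set (ℝ × ℝ)} (hU : IsPreconnected U) {f : ℝ × ℝ → ℝ} (hf : Continuous f)
    (hne : ∀ q ∈ U, f q ≠ 0) {q q' : ℝ × ℝ} (hq : q ∈ U) (hq' : q' ∈ U) :
    0 < f q ↔ 0 < f q' := by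
  have key : ∀ {q q' : ℝ × ℝ}, q ∈ U → q' ∈ U → 0 < f q → 0 < f q' := by
    intro q q' hq hq' h
    by_contra h'
    rw [not_lt] at h'
    obtain ⟨z, hz, h0⟩ := hU.intermediate_value hq' hq hf.continuousOn ⟨h', h.le⟩
    exact hne z hz h0
  exact ⟨key hq hq', key hq' hq⟩

theorem continuous_yq {n : ℕ} (u : Fin n → P3) (v : Fin n) (i : Fin 3) :
    Continuous fun q : ℝ × ℝ => yq u q v i := by
  unfold yq Matrix.mulVec dotProduct
  refine continuous_finsetSum _ fun j _ => ?_
  fin_cases i <;> fin_cases j <;> simp [Qm] <;> fun_prop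

theorem continuous_cr_yq {n : ℕ} (u : Fin n → P3) (a b : Fin n) :
    Continuous fun q : ℝ × ℝ => cr (yq u q a) (yq u q b) := by
  unfold cr
  exact ((continuous_yq u a 0).mul (continuous_yq u b 1)).sub
    ((continuous_yq u a 1).mul (continuous_yq u b 0))

theorem det_Qm (s t : ℝ) : (Qm (1 : ℝ) s t).det = (1 + s ^ 2 + t ^ 2) ^ 3 := by
  rw [Matrix.det_fin_three]
  simp [Qm]
  ring

theorem det3_yq {n : ℕ} (u : Fin n → P3) (q : ℝ × ℝ) (a b c : Fin n) :
    det3 (yq u q a) (yq u q b) (yq u q c) =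
      (1 + q.1 ^ 2 + q.2 ^ 2) ^ 3 * det3 (u a) (u b) (u c) := by
  unfold yq
  rw [det3_mulVec, det_Qm]

theorem Qm_inj (q : ℝ × ℝ) {a b : P3} (h : Qm (1 : ℝ) q.1 q.2 *ᵥ a = Qm (1 : ℝ) q.1 q.2 *ᵥ b) :
    a = b := by
  have hd : IsUnit (Qm (1 : ℝ) q.1 q.2).det := by
    rw [det_Qm]
    exact isUnit_iff_ne_zero.2 (by positivity)
  have := congrArg (fun z => (Qm (1 : ℝ) q.1 q.2)⁻¹ *ᵥ z) h
  simpa [Matrix.mulVec_mulVec, Matrix.nonsing_inv_mul _ hd] using this

theorem topMap_const {n : ℕ} {F : List (Fin n × Fin n × Fin n)} {x : Fin n → P3}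
    (hx : IsEmb (adj F) x) {u : Fin n → P3} (hu : ∀ v, ∃ l : ℝ, 0 < l ∧ u v = l • x v)
    {U : Set (ℝ × ℝ)} (hU : IsPreconnected U)
    (hgen : ∀ q ∈ U, ∀ a b, a ≠ b → cr (yq u q a) (yq u q b) ≠ 0)
    {N : Fin n → Option (Fin n × Fin n)} {q q' : ℝ × ℝ} (hq : q ∈ U) (hq' : q' ∈ U)
    (h : IsTopMap (adj F) (yq u q) N) : IsTopMap (adj F) (yq u q') N := by
  -- signs of cross products
  have hcr : ∀ a b, 0 < cr (yq u q a) (yq u q b) ↔ 0 < cr (yq u q' a) (yq u q' b) := by
    intro a b
    by_cases hab : a = b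
    · subst hab
      rw [cr_self, cr_self]
    · exact pos_const hU (continuous_cr_yq u a b) (fun z hz => hgen z hz a b hab) hq hq'
  have hcr' : ∀ z ∈ U, ∀ a b, 0 < cr (yq u q a) (yq u q b) ↔ 0 < cr (yq u z a) (yq u z b) := by
    intro z hz a b
    by_cases hab : a = b
    · subst hab
      rw [cr_self, cr_self]
    · exact pos_const hU (continuous_cr_yq u a b) (fun z hz => hgen z hz a b hab) hq hz
  -- `Above` does not depend on the point
  have habove : ∀ z ∈ U, ∀ w a b, Above (yq u q) w a b ↔ Above (yq u z) w a b := by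
    intro z hz w a b
    have hpos : ∀ p : ℝ × ℝ, 0 < (1 + p.1 ^ 2 + p.2 ^ 2) ^ 3 := fun p => by positivity
    have s1 : ∀ c d c' d', (0 < cr (yq u q c) (yq u q d) * cr (yq u q c') (yq u q d')) ↔
        (0 < cr (yq u z c) (yq u z d) * cr (yq u z c') (yq u z d')) := by
      intro c d c' d'
      rw [mul_pos_iff, mul_pos_iff, ← hcr' z hz c d, ← hcr' z hz c' d']
      have m : ∀ c d, (cr (yq u q c) (yq u q d) < 0) ↔ (cr (yq u z c) (yq u z d) < 0) := by
        intro c d
        have e1 := hcr' z hz d c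
        rw [cr_swap (yq u q d), cr_swap (yq u z d)] at e1
        simpa using e1
      rw [m, m]
    have s2 : (det3 (yq u q a) (yq u q b) (yq u q w) * cr (yq u q a) (yq u q b) < 0) ↔
        (det3 (yq u z a) (yq u z b) (yq u z w) * cr (yq u z a) (yq u z b) < 0) := by
      have m : ∀ c d, (cr (yq u q c) (yq u q d) < 0) ↔ (cr (yq u z c) (yq u z d) < 0) := by
        intro c d
        have e1 := hcr' z hz d c
        rw [cr_swap (yq u q d), cr_swap (yq u z d)] at e1
        simpa using e1
      have d1 : ∀ p : ℝ × ℝ, 0 < det3 (yq u p a) (yq u p b) (yq u p w) ↔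
          0 < det3 (u a) (u b) (u w) := by
        intro p
        rw [det3_yq, mul_pos_iff_of_pos_left (hpos p)]
      have d2 : ∀ p : ℝ × ℝ, det3 (yq u p a) (yq u p b) (yq u p w) < 0 ↔
          det3 (u a) (u b) (u w) < 0 := by
        intro p
        rw [det3_yq]
        constructor
        · intro h
          by_contra h'
          exact absurd h (not_lt.2 (mul_nonneg (hpos p).le (not_lt.1 h')))
        · intro h
          exact mul_neg_of_pos_of_neg (hpos p) h
      rw [mul_neg_iff, mul_neg_iff, d1 q, d1 z, d2 q, d2 z, m, hcr' z hz a b]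
    unfold Above InSec
    rw [s1, s1, s2]
  -- comparison of two edges above `v`
  refine ⟨?_, ?_, ?_⟩
  · intro v hv a b hab
    rw [← habove q' hq']
    exact h.hnone v hv a b hab
  · intro v a b hv
    obtain ⟨h1, h2, h3⟩ := h.hsome v a b hv
    exact ⟨h1, (hcr a b).1 h2, (habove q' hq' v a b).1 h3⟩
  · intro v a b hv a' b' hab' hc' hA'
    obtain ⟨h1, h2, h3⟩ := h.hsome v a b hv
    have hA := (habove q' hq' v a' b').2 hA'
    have hc := (hcr a' b').2 hc'
    have hlow := h.hlow v a b hv a' b' hab' hc hA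
    by_cases hsame : a = a' ∧ b = b'
    · rw [hsame.1, hsame.2]
    -- the two edges do not meet
    let κ : ℝ × ℝ → ℝ := fun z => det3 (u a) (u b) (u v) * cr (yq u z a') (yq u z b') -
      det3 (u a') (u b') (u v) * cr (yq u z a) (yq u z b)
    have hκ : ∀ z, -det3 (yq u z a') (yq u z b') (yq u z v) * cr (yq u z a) (yq u z b) -
        -det3 (yq u z a) (yq u z b) (yq u z v) * cr (yq u z a') (yq u z b') =
        (1 + z.1 ^ 2 + z.2 ^ 2) ^ 3 * κ z := by
      intro z
      simp only [κ, det3_yq]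
      ring
    have hκc : Continuous κ := ((continuous_const).mul (continuous_cr_yq u a' b')).sub
      ((continuous_const).mul (continuous_cr_yq u a b))
    have hκne : ∀ z ∈ U, κ z ≠ 0 := by
      intro z hz h0
      have p1 : 0 < cr (yq u z a) (yq u z b) := (hcr' z hz a b).1 h2
      have p2 : 0 < cr (yq u z a') (yq u z b') := (hcr' z hz a' b').1 hc
      have g1 := (habove z hz v a b).1 h3
      have g2 := (habove z hz v a' b').1 hA
      have q1 : 0 < cr (yq u z a) (yq u z v) := (mul_pos_iff_of_pos_right p1).1 g1.1.1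
      have q2 : 0 < cr (yq u z v) (yq u z b) := (mul_pos_iff_of_pos_right p1).1 g1.1.2
      have q3 : 0 < cr (yq u z a') (yq u z v) := (mul_pos_iff_of_pos_right p2).1 g2.1.1
      have q4 : 0 < cr (yq u z v) (yq u z b') := (mul_pos_iff_of_pos_right p2).1 g2.1.2
      -- equal heights
      have heq : lin (yq u z) (fun v => yq u z v 2) a b (yq u z v) =
          lin (yq u z) (fun v => yq u z v 2) a' b' (yq u z v) := by
        have e := hκ z
        rw [h0, mul_zero, det3_eq_lin _ _ _ p1.ne', det3_eq_lin _ _ _ p2.ne'] at e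
        have : cr (yq u z a) (yq u z b) * cr (yq u z a') (yq u z b') *
            (lin (yq u z) (fun v => yq u z v 2) a b (yq u z v) -
            lin (yq u z) (fun v => yq u z v 2) a' b' (yq u z v)) = 0 := by linarith
        have h0 := (mul_eq_zero.1 this).resolve_left (by positivity)
        linarith
      have e1 := edge_point (x := yq u z) a b (yq u z v) p1.ne'
      have e2 := edge_point (x := yq u z) a' b' (yq u z v) p2.ne'
      rw [heq, ← e2] at e1
      set s := cr (yq u z v) (yq u z b) / cr (yq u z a) (yq u z b)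
      set t := cr (yq u z a) (yq u z v) / cr (yq u z a) (yq u z b)
      set s' := cr (yq u z v) (yq u z b') / cr (yq u z a') (yq u z b')
      set t' := cr (yq u z a') (yq u z v) / cr (yq u z a') (yq u z b')
      have hs : 0 < s := div_pos q2 p1
      have ht : 0 < t := div_pos q1 p1
      have hs' : 0 < s' := div_pos q4 p2
      have ht' : 0 < t' := div_pos q3 p2
      have e3 : s • u a + t • u b = s' • u a' + t' • u b' := by
        apply Qm_inj z
        rw [Matrix.mulVec_add, Matrix.mulVec_add, Matrix.mulVec_smul, Matrix.mulVec_smul,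
          Matrix.mulVec_smul, Matrix.mulVec_smul]
        exact e1
      obtain ⟨la, hla, ea⟩ := hu a
      obtain ⟨lb, hlb, eb⟩ := hu b
      obtain ⟨la', hla', ea'⟩ := hu a'
      obtain ⟨lb', hlb', eb'⟩ := hu b'
      rw [ea, eb, ea', eb', smul_smul, smul_smul, smul_smul, smul_smul] at e3
      have hz0 : (s * la) • x a + (t * lb) • x b ≠ 0 := by
        intro h0
        have hz1 : s • yq u z a + t • yq u z b = 0 := by
          have : Qm (1 : ℝ) z.1 z.2 *ᵥ ((s * la) • x a + (t * lb) • x b) = 0 := by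
            rw [h0, Matrix.mulVec_zero]
          rw [mul_smul, mul_smul, ← ea, ← eb, Matrix.mulVec_add, Matrix.mulVec_smul,
            Matrix.mulVec_smul] at this
          exact this
        have h2 : cr (s • yq u z a + t • yq u z b) (yq u z b) = s * cr (yq u z a) (yq u z b) := by
          simp only [cr, Pi.add_apply, Pi.smul_apply, smul_eq_mul]
          ring
        rw [hz1] at h2
        have h3 : cr (0 : P3) (yq u z b) = 0 := by simp [cr]
        rw [h3] at h2
        have := mul_pos hs p1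
        linarith
      have m1 := normalise_mem_arc (u := x a) (v := x b) hz0 (mul_pos hs hla) (mul_pos ht hlb)
        rfl
      have m2 := normalise_mem_arc (u := x a') (v := x b') hz0 (mul_pos hs' hla')
        (mul_pos ht' hlb') e3
      have hne' : ¬ (a = b' ∧ b = a') := by
        rintro ⟨rfl, rfl⟩
        rw [cr_swap] at p2
        linarith
      exact Set.disjoint_left.1 (hx.edge a b a' b' h1 hab' hsame hne') m1 m2
    have hκpos : 0 < κ q := by
      refine lt_of_le_of_ne ?_ (hκne q hq).symm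
      have e := hκ q
      have : 0 ≤ (1 + q.1 ^ 2 + q.2 ^ 2) ^ 3 * κ q := by rw [← e]; linarith
      exact nonneg_of_mul_nonneg_right this (by positivity)
    have hκpos' : 0 < κ q' := (pos_const hU hκc hκne hq hq').1 hκpos
    have e := hκ q'
    have : 0 < (1 + q'.1 ^ 2 + q'.2 ^ 2) ^ 3 * κ q' := by positivity
    linarith

end Pool.Agent.Sink
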