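import Mathlib
import Pool.Agent.Lib.PolyTime.Defs

/-!
# Spherical triangulations, longitudinal morphs and sinkable rotations

Everything takes place on the unit sphere of `R^3`, points of `R^3` are functions `Fin 3 → ℝ`.
The north pole is `(0,0,1)`.
-/

open Matrix

namespace Pool.Agent.Sink

/-- Points of `R^3`. -/
abbrev P3 := Fin 3 → ℝ

/-- The determinant of three vectors. -/
def det3 {R : Type*} [CommRing R] (a b c : Fin 3 → R) : R :=
  a 0 * (b 1 * c 2 - b 2 * c 1) - a 1 * (b 0 * c 2 - b 2 * c 0) + a 2 * (b 0 * c 1 - b 1 * c 0)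

/-- The open great-circle arc of length `< π` between the unit vectors `u` and `v`
(if `u ≠ ± v`): the unit vectors which are positive combinations of `u` and `v`. -/
def arc (u v : P3) : Set P3 :=
  {w | w ⬝ᵥ w = 1 ∧ ∃ s t : ℝ, 0 < s ∧ 0 < t ∧ w = s • u + t • v}

/-- An embedding in the sphere of the graph with adjacency relation `Adj`, all edges being
great-circle arcs of length `< π`: the vertices `x v` are distinct points of the sphere, the ends
of an edge are not antipodal, no vertex lies on the (open) arc of an edge, and the arcs of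
distinct edges are disjoint. -/
structure IsEmb {V : Type*} (Adj : V → V → Prop) (x : V → P3) : Prop where
  unit : ∀ v, x v ⬝ᵥ x v = 1
  inj : Function.Injective x
  short : ∀ u v, Adj u v → x u ≠ -x v
  vertex : ∀ u v w, Adj u v → x w ∉ arc (x u) (x v)
  edge : ∀ u v u' v', Adj u v → Adj u' v' → ¬(u = u' ∧ v = v') → ¬(u = v' ∧ v = u') →
    Disjoint (arc (x u) (x v)) (arc (x u') (x v'))

/-- The open region of the sphere to the left of the closed path `a → b → c → a` of great-circle
arcs: the open spherical triangle if `det (a, b, c) > 0`, and the complement of the closed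
spherical triangle if `det (a, b, c) < 0`. -/
def region (a b c : P3) : Set P3 :=
  {w | w ⬝ᵥ w = 1 ∧
    ((0 < det3 a b c ∧ ∃ α β γ : ℝ, 0 < α ∧ 0 < β ∧ 0 < γ ∧ w = α • a + β • b + γ • c) ∨
     (det3 a b c < 0 ∧ ¬ ∃ α β γ : ℝ, 0 ≤ α ∧ 0 ≤ β ∧ 0 ≤ γ ∧ w = α • a + β • b + γ • c))}

/-- The edges of a list of triangles. -/
def adj {n : ℕ} (F : List (Fin n × Fin n × Fin n)) (u v : Fin n) : Prop :=
  ∃ w, (u, v, w) ∈ F ∨ (v, w, u) ∈ F ∨ (w, u, v) ∈ F ∨ (v, u, w) ∈ F ∨ (u, w, v) ∈ F ∨
    (w, v, u) ∈ F

/-- `F` is the list of faces, as directed 3-cycles with the face on the left, of an embedding `x`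
in the sphere of a graph with vertices `0, …, n-1`, all of whose faces are triangles: the
vertices, the open edges and the open faces form a partition of the sphere. -/
structure IsTri {n : ℕ} (F : List (Fin n × Fin n × Fin n)) (x : Fin n → P3) : Prop where
  emb : IsEmb (adj F) x
  cover : ∀ w : P3, w ⬝ᵥ w = 1 → (∃ v, w = x v) ∨ (∃ u v, adj F u v ∧ w ∈ arc (x u) (x v)) ∨
    ∃ f ∈ F, w ∈ region (x f.1) (x f.2.1) (x f.2.2)
  face_vertex : ∀ f ∈ F, ∀ v, x v ∉ region (x f.1) (x f.2.1) (x f.2.2)
  face_edge : ∀ f ∈ F, ∀ u v, adj F u v →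
    Disjoint (arc (x u) (x v)) (region (x f.1) (x f.2.1) (x f.2.2))
  face_face : F.Pairwise fun f g =>
    Disjoint (region (x f.1) (x f.2.1) (x f.2.2)) (region (x g.1) (x g.2.1) (x g.2.2))

/-- The north pole. -/
def north : P3 := ![0, 0, 1]

/-- A generic shortest-path triangulation: no great circle contains three vertices, and no great
circle through the poles contains two vertices. -/
structure IsGeneric {n : ℕ} (F : List (Fin n × Fin n × Fin n)) (x : Fin n → P3) : Prop where
  tri : IsTri F x
  three : ∀ u v w, u ≠ v → u ≠ w → v ≠ w → det3 (x u) (x v) (x w) ≠ 0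
  poles : ∀ u v, u ≠ v → det3 north (x u) (x v) ≠ 0

/-- A longitudinal morph of the embedding `x`, with time in `[0, 1]`: a continuous motion of the
vertices through embeddings, each vertex staying on its longitude. -/
structure IsLongMorph {V : Type*} (Adj : V → V → Prop) (x : V → P3) (φ : ℝ → V → P3) :
    Prop where
  cont : ∀ v, ContinuousOn (fun t => φ t v) (Set.Icc 0 1)
  start : φ 0 = x
  emb : ∀ t ∈ Set.Icc (0 : ℝ) 1, IsEmb Adj (φ t)
  long : ∀ t ∈ Set.Icc (0 : ℝ) 1, ∀ v, ∃ l : ℝ, 0 < l ∧ φ t v 0 = l * x v 0 ∧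
    φ t v 1 = l * x v 1

/-- Some longitudinal morph carries `x` to an embedding with all vertices strictly below the
equator. -/
def Sinkable {V : Type*} (Adj : V → V → Prop) (x : V → P3) : Prop :=
  ∃ φ, IsLongMorph Adj x φ ∧ ∀ v, φ 1 v 2 < 0

/-- `R` is a rotation. -/
def IsRot (R : Matrix (Fin 3) (Fin 3) ℝ) : Prop := R * Rᵀ = 1 ∧ R.det = 1

/-- `R` is a sinkable rotation of the triangulation `x` with list of faces `F`. -/
def IsSinkRot {n : ℕ} (F : List (Fin n × Fin n × Fin n)) (x : Fin n → P3)
    (R : Matrix (Fin 3) (Fin 3) ℝ) : Prop :=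
  IsRot R ∧ IsGeneric F (fun v => R *ᵥ x v) ∧ Sinkable (adj F) (fun v => R *ᵥ x v)

/-! ## The input and the output of the algorithm -/

/-- Rational vectors. -/
abbrev Q3 := ℚ × ℚ × ℚ

/-- The input: the list of faces and the list of the coordinates of the vertices. -/
abbrev Input := List (ℕ × ℕ × ℕ) × List Q3

/-- The real vector of a rational vector. -/
def toP (q : Q3) : P3 := ![(q.1 : ℝ), (q.2.1 : ℝ), (q.2.2 : ℝ)]

/-- The number of vertices. -/
def Input.n (I : Input) : ℕ := I.2.length

/-- The vertices: the points of the sphere in the direction of the given vectors (these are the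
given vectors themselves if they lie on the sphere). -/
noncomputable def Input.x (I : Input) (v : Fin I.n) : P3 :=
  (√(toP (I.2.get v) ⬝ᵥ toP (I.2.get v)))⁻¹ • toP (I.2.get v)

/-- The input describes the faces `F` of a generic shortest-path triangulation with at least
four vertices (the condition on the poles is not required). -/
structure Valid (I : Input) (F : List (Fin I.n × Fin I.n × Fin I.n)) : Prop where
  four : 4 ≤ I.n
  faces : I.1 = F.map fun f => ((f.1 : ℕ), (f.2.1 : ℕ), (f.2.2 : ℕ))
  nonzero : ∀ v : Fin I.n, I.2.get v ≠ (0, 0, 0)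
  tri : IsTri F I.x
  three : ∀ u v w, u ≠ v → u ≠ w → v ≠ w → det3 (I.x u) (I.x v) (I.x w) ≠ 0

/-- Integral vectors. -/
abbrev Z3 := ℤ × ℤ × ℤ

/-- The vector of an integral vector in a commutative ring. -/
def toV {R : Type*} [CommRing R] (u : Z3) : Fin 3 → R := ![(u.1 : R), (u.2.1 : R), (u.2.2 : R)]

/-- The output: the rows of an integral matrix and a common denominator. -/
abbrev Output := (Z3 × Z3 × Z3) × ℤ

/-- The real matrix of an output: rational entries, given by numerators and a common
denominator. -/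
noncomputable def toMat (r : Output) : Matrix (Fin 3) (Fin 3) ℝ :=
  (r.2 : ℝ)⁻¹ • Matrix.of ![toV r.1.1, toV r.1.2.1, toV r.1.2.2]

end Pool.Agent.Sink
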