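import Pool.Agent.Lib.MP_93b8a0_lc.Prog

/-!
# Definitions which connect the algorithm and the geometry
-/

open Matrix Polynomial

namespace Pool.Agent.Sink

/-- the linear program in terms of the direction `p` of the pole -/
def LPFp {V : Type*} (Adj : V → V → Prop) (x : V → P3) (p : P3) : Prop :=
  ∃ ζ : V → ℝ, (∀ v, ζ v < 0) ∧ ∀ u v w, Adj u v →
    0 < det3 p (x u) (x w) * det3 p (x u) (x v) → 0 < det3 p (x w) (x v) * det3 p (x u) (x v) →
    0 < (ζ u * det3 p (x v) (x w) + ζ v * det3 p (x w) (x u) + ζ w * det3 p (x u) (x v)) *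
      det3 (x u) (x v) (x w)

/-- the rotated vectors for a point of the plane -/
noncomputable def yq {n : ℕ} (u : Fin n → P3) (q : ℝ × ℝ) (v : Fin n) : P3 :=
  Qm 1 q.1 q.2 *ᵥ u v

/-- the matrix of the system -/
def NM {R : Type*} [CommRing R] {n : ℕ} (w : Fin n → Fin 3 → R)
    (N : Fin n → Option (Fin n × Fin n)) : Matrix (Fin n) (Fin n) R :=
  Matrix.of fun v u =>
    match N v with
    | none => if u = v then 1 else 0
    | some e => (if u = v then cr (w e.1) (w e.2) else 0) -
        (if u = e.1 then cr (w v) (w e.2) else 0) - (if u = e.2 then cr (w e.1) (w v) else 0)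

/-- the pattern as a function -/
def toN (n : ℕ) (σ : List (Option (ℕ × ℕ))) (v : Fin n) : Option (Fin n × Fin n) :=
  (σ.getD v none).bind fun e =>
    if h : e.1 < n ∧ e.2 < n then some (⟨e.1, h.1⟩, ⟨e.2, h.2⟩) else none

/-- all entries of the pattern are `< n` -/
def okPat (n : ℕ) (σ : List (Option (ℕ × ℕ))) : Prop :=
  ∀ e : ℕ × ℕ, some e ∈ σ → e.1 < n ∧ e.2 < n

/-- the integral vectors of the input -/
def uI (I : Input) (v : Fin I.n) : P3 := toV (intVec (I.2.get v))

/-- the vectors of a list -/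
def vW (W : List Z3) (n : ℕ) (v : Fin n) : P3 := toV (gv W v)

end Pool.Agent.Sink
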