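import Pool.Agent.Lib.MP_69a69c_lc.IntTime

/-!
# More polynomial-time integer arithmetic: division, products, powers
-/

namespace Pool.Agent.PolyTime

section
variable {α : Type} [Enc α]

theorem ptime_intLt {f g : α → ℤ} (hf : PTime f) (hg : PTime g) :
    PTime (fun x => decide (f x < g x)) := by
  refine (ptime_intLe hg hf).not.of_eq fun x => ?_
  rw [Bool.eq_iff_iff]
  simp

theorem intDiv_eq (a b : ℤ) : a / b = if b = 0 then 0 else
    mkInt (xor (decide (a < 0)) (decide (b < 0)))
      (if a < 0 then (a.natAbs + b.natAbs - 1) / b.natAbs else a.natAbs / b.natAbs) := by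
  split
  · next h => rw [h, Int.ediv_zero]
  · next hb =>
    unfold mkInt
    rcases lt_or_ge a 0 with ha | ha
    · rw [if_pos ha]
      obtain ⟨m, hm⟩ : ∃ m : ℕ, a = -(m : ℤ) - 1 := ⟨a.natAbs - 1, by omega⟩
      have hm' : a.natAbs = m + 1 := by omega
      rw [hm']
      rcases lt_or_ge b 0 with hb' | hb'
      · obtain ⟨n, hn⟩ : ∃ n : ℕ, b = -((n : ℤ) + 1) := ⟨b.natAbs - 1, by omega⟩
        have hn' : b.natAbs = n + 1 := by omega
        rw [hn', hn, hm, Int.ediv_neg]
        have h1 : (-(m : ℤ) - 1) / ((n : ℤ) + 1) = -(((m / (n + 1) : ℕ) : ℤ) + 1) := by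
          have h2 := Nat.div_add_mod m (n + 1)
          have h3 : m % (n + 1) < n + 1 := Nat.mod_lt m (Nat.succ_pos n)
          rw [Int.ediv_eq_iff_of_pos (by positivity)]
          constructor
          · push_cast
            have : (m : ℤ) < ((m / (n + 1) : ℕ) : ℤ) * ((n : ℤ) + 1) + ((n : ℤ) + 1) := by
              have : m < (m / (n + 1)) * (n + 1) + (n + 1) := by
                rw [mul_comm]; omega
              exact_mod_cast this
            push_cast at this
            nlinarith
          · push_cast
            have : ((m / (n + 1) : ℕ) : ℤ) * ((n : ℤ) + 1) ≤ (m : ℤ) := by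
              have : (m / (n + 1)) * (n + 1) ≤ m := Nat.div_mul_le_self m (n + 1)
              exact_mod_cast this
            push_cast at this
            nlinarith
        rw [h1]
        have h4 : m + 1 + (n + 1) - 1 = m + (n + 1) := by omega
        rw [h4, Nat.add_div_right _ (Nat.succ_pos n)]
        have : decide (-(m : ℤ) - 1 < 0) = true := by
          rw [decide_eq_true_eq]; omega
        rw [this]
        have : decide (-((n : ℤ) + 1) < 0) = true := by
          rw [decide_eq_true_eq]; omega
        rw [this]
        simp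
      · obtain ⟨n, hn⟩ : ∃ n : ℕ, b = (n : ℤ) + 1 := ⟨b.natAbs - 1, by omega⟩
        have hn' : b.natAbs = n + 1 := by omega
        rw [hn', hn, hm]
        have h1 : (-(m : ℤ) - 1) / ((n : ℤ) + 1) = -(((m / (n + 1) : ℕ) : ℤ) + 1) := by
          have h2 := Nat.div_add_mod m (n + 1)
          have h3 : m % (n + 1) < n + 1 := Nat.mod_lt m (Nat.succ_pos n)
          rw [Int.ediv_eq_iff_of_pos (by positivity)]
          constructor
          · push_cast
            have : (m : ℤ) < ((m / (n + 1) : ℕ) : ℤ) * ((n : ℤ) + 1) + ((n : ℤ) + 1) := by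
              have : m < (m / (n + 1)) * (n + 1) + (n + 1) := by
                rw [mul_comm]; omega
              exact_mod_cast this
            push_cast at this
            nlinarith
          · push_cast
            have : ((m / (n + 1) : ℕ) : ℤ) * ((n : ℤ) + 1) ≤ (m : ℤ) := by
              have : (m / (n + 1)) * (n + 1) ≤ m := Nat.div_mul_le_self m (n + 1)
              exact_mod_cast this
            push_cast at this
            nlinarith
        rw [h1]
        have h4 : m + 1 + (n + 1) - 1 = m + (n + 1) := by omega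
        rw [h4, Nat.add_div_right _ (Nat.succ_pos n)]
        have : decide (-(m : ℤ) - 1 < 0) = true := by
          rw [decide_eq_true_eq]; omega
        rw [this]
        have : decide ((n : ℤ) + 1 < 0) = false := by
          rw [decide_eq_false_iff_not]; omega
        rw [this]
        simp
    · rw [if_neg (not_lt.2 ha)]
      obtain ⟨m, hm⟩ : ∃ m : ℕ, a = (m : ℤ) := ⟨a.natAbs, by omega⟩
      have hm' : a.natAbs = m := by omega
      have h0 : decide (a < 0) = false := by
        rw [decide_eq_false_iff_not]; omega
      rw [h0, hm', hm]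
      rcases lt_or_ge b 0 with hb' | hb'
      · obtain ⟨n, hn⟩ : ∃ n : ℕ, b = -(n : ℤ) := ⟨b.natAbs, by omega⟩
        have hn' : b.natAbs = n := by omega
        have h1 : decide (b < 0) = true := by
          rw [decide_eq_true_eq]; omega
        rw [h1, hn', hn, Int.ediv_neg]
        simp
      · obtain ⟨n, hn⟩ : ∃ n : ℕ, b = (n : ℤ) := ⟨b.natAbs, by omega⟩
        have hn' : b.natAbs = n := by omega
        have h1 : decide (b < 0) = false := by
          rw [decide_eq_false_iff_not]; omega
        rw [h1, hn', hn]
        simp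

theorem ptime_intDiv {f g : α → ℤ} (hf : PTime f) (hg : PTime g) :
    PTime (fun x => f x / g x) := by
  have h1 : PTime (fun x => (f x).natAbs / (g x).natAbs) :=
    (ptime_natAbs hf).div (ptime_natAbs hg)
  have h2 : PTime (fun x => ((f x).natAbs + (g x).natAbs - 1) / (g x).natAbs) :=
    (((ptime_natAbs hf).add (ptime_natAbs hg)).sub (PTime.const 1)).div (ptime_natAbs hg)
  refine (PTime.iteP (c := fun x => g x = 0) (PTime.eq hg (PTime.const 0)) (PTime.const 0)
    (ptime_mkInt (PTime.xor (ptime_isNeg hf) (ptime_isNeg hg))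
      (PTime.iteP (c := fun x => f x < 0) (ptime_isNeg hf) h2 h1))).of_eq fun x => ?_
  exact (intDiv_eq (f x) (g x)).symm

theorem ptime_intMod {f g : α → ℤ} (hf : PTime f) (hg : PTime g) :
    PTime (fun x => f x % g x) :=
  (ptime_intSub hf (ptime_intMul hg (ptime_intDiv hf hg))).of_eq fun x =>
    (Int.emod_def (f x) (g x)).symm

theorem prod_natAbs_lt (l : List ℤ) : (l.prod).natAbs < 2 ^ size (enc l) := by
  induction l with
  | nil =>
    have : 1 ≤ size (enc ([] : List ℤ)) := size_pos _
    calc (([] : List ℤ).prod).natAbs = 1 := by simp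
      _ < 2 ^ 1 := by norm_num
      _ ≤ _ := Nat.pow_le_pow_right (by norm_num) this
  | cons a l ih =>
    rw [List.prod_cons, size_lcons, Int.natAbs_mul]
    have h1 := natAbs_lt_size a
    calc a.natAbs * l.prod.natAbs < 2 ^ size (enc a) * 2 ^ size (enc l) :=
          Nat.mul_lt_mul'' h1 ih
      _ = 2 ^ (size (enc a) + size (enc l)) := (pow_add _ _ _).symm
      _ ≤ 2 ^ (size (enc a) + size (enc l) + 1) := Nat.pow_le_pow_right (by norm_num) (by omega)

theorem ptime_intProd {f : α → List ℤ} (hf : PTime f) : PTime (fun x => (f x).prod) := by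
  obtain ⟨F, hF, hFm, hFs⟩ := hf.size_le
  have h : PTime (fun x => (f x).foldl (fun s z => s * z) 1) := by
    refine PTime.foldl (h := fun (_ : α) (s z : ℤ) => s * z) hf (PTime.const 1)
      (ptime_intMul (PTime.fst' PTime.snd) (PTime.snd' PTime.snd))
      (B := fun n => 4 * F n + 5) (((PBd.const 4).mul hF).add (PBd.const 5)) ?_
    intro x l₁ l₂ h
    have h1 : l₁.foldl (fun s z => s * z) (1 : ℤ) = l₁.prod := (List.prod_eq_foldl (xs := l₁)).symm
    rw [h1]
    have h2 := size_int_le_of_lt (prod_natAbs_lt l₁)
    have h3 : size (enc l₁) ≤ size (enc (f x)) := by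
      rw [h]
      exact size_sublist (List.sublist_append_left l₁ l₂)
    have h4 := hFs x
    omega
  exact h.of_eq fun x => (List.prod_eq_foldl (xs := f x)).symm

/-- powers with unary exponent -/
theorem ptime_intPow {β : Type} [Enc β] {f : α → ℤ} {k : α → ℕ} {g : α → List β} (hf : PTime f)
    (hk : PTime k) (hg : PTime g) (h : ∀ x, k x ≤ (g x).length) :
    PTime (fun x => f x ^ k x) := by
  refine (ptime_intProd (PTime.map (g := fun (x : α) (_ : ℕ) => f x)
    (PTime.rangeLe hk hg h) (hf.comp PTime.fst))).of_eq fun x => ?_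
  simp

/-- powers of two with unary exponent, as integers -/
theorem ptime_intPow2 {β : Type} [Enc β] {k : α → ℕ} {g : α → List β}
    (hk : PTime k) (hg : PTime g) (h : ∀ x, k x ≤ (g x).length) :
    PTime (fun x => (2 : ℤ) ^ k x) :=
  ptime_intPow (PTime.const 2) hk hg h

end

end Pool.Agent.PolyTime
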