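import Pool.Agent.Lib.MP_93b8a0_lc.Defs2
import Pool.Agent.Lib.MP_93b8a0_lc.IntDiv

/-!
# MP_93b8a0_lc, module DIG: balanced digits (Kronecker substitution)
-/

open Matrix Polynomial

namespace Pool.Agent.Sink

open Pool.Agent.PolyTime Pool.Agent.SparseNP

theorem dig_sum_lt (b : ℤ) (hb : 0 < b) (d : ℕ → ℤ) (h : ∀ i, 0 ≤ d i ∧ d i < b) (j : ℕ) :
    0 ≤ ∑ i ∈ Finset.range j, d i * b ^ i ∧ ∑ i ∈ Finset.range j, d i * b ^ i < b ^ j := by
  induction j with
  | zero => simp
  | succ j ih =>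
    rw [Finset.sum_range_succ, pow_succ]
    have h1 := h j
    have h2 : 0 < b ^ j := pow_pos hb j
    constructor
    · have := mul_nonneg h1.1 h2.le
      linarith [ih.1]
    · have h3 : d j ≤ b - 1 := by omega
      have h4 : d j * b ^ j ≤ (b - 1) * b ^ j := mul_le_mul_of_nonneg_right h3 h2.le
      linarith [ih.2]

theorem dig_extract (b : ℤ) (hb : 0 < b) (d : ℕ → ℤ) (h : ∀ i, 0 ≤ d i ∧ d i < b) (m j : ℕ)
    (hj : j < m) : (∑ i ∈ Finset.range m, d i * b ^ i) / b ^ j % b = d j := by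
  obtain ⟨k, rfl⟩ : ∃ k, m = j + 1 + k := ⟨m - (j + 1), by omega⟩
  have h2 : 0 < b ^ j := pow_pos hb j
  have h3 : ∑ i ∈ Finset.range (j + 1 + k), d i * b ^ i =
      (∑ i ∈ Finset.range j, d i * b ^ i) +
        b ^ j * (d j + b * ∑ x ∈ Finset.range k, d (j + 1 + x) * b ^ x) := by
    rw [Finset.sum_range_add, Finset.sum_range_succ, Finset.mul_sum, mul_add, Finset.mul_sum,
      add_assoc]
    congr 1
    congr 1
    · ring
    · refine Finset.sum_congr rfl fun x _ => ?_
      rw [pow_add, pow_succ]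
      ring
  obtain ⟨h4, h5⟩ := dig_sum_lt b hb d h j
  rw [h3, Int.add_mul_ediv_left _ _ h2.ne', Int.ediv_eq_zero_of_lt h4 h5, zero_add,
    Int.add_mul_emod_self_left]
  exact Int.emod_eq_of_lt (h j).1 (h j).2

theorem dig_list_sum (f : ℕ → ℤ) (m : ℕ) :
    ((List.range m).map f).sum = ∑ i ∈ Finset.range m, f i := by
  induction m with
  | zero => simp
  | succ m ih => rw [List.range_succ, List.map_append, List.sum_append, ih,
      Finset.sum_range_succ]; simp

theorem dig_eval (m : ℕ) (P : ℤ[X]) (hd : ∀ i, m ≤ i → P.coeff i = 0) (x : ℤ) :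
    P.eval x = ∑ i ∈ Finset.range m, P.coeff i * x ^ i := by
  rcases Nat.lt_or_ge P.natDegree m with h | h
  · exact eval_eq_sum_range' h _
  · rcases eq_or_ne P 0 with h0 | h0
    · simp [h0]
    · exact absurd (hd _ h) (by
        rw [coeff_natDegree]
        exact leadingCoeff_ne_zero.2 h0)

theorem dig_eq (κ m : ℕ) (hκ : 1 ≤ κ) (P : ℤ[X]) (hd : ∀ i, m ≤ i → P.coeff i = 0)
    (hc : ∀ i, |P.coeff i| < 2 ^ (κ - 1)) :
    dig κ m (P.eval (2 ^ κ)) = (List.range m).map fun i => P.coeff i := by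
  have h1 := dig_eval m P hd ((2 : ℤ) ^ κ)
  have h2 : off κ m = ∑ i ∈ Finset.range m, (2 : ℤ) ^ (κ - 1) * ((2 : ℤ) ^ κ) ^ i := by
    rw [off, ← Finset.mul_sum, dig_list_sum]
    simp only [← pow_mul]
  have h3 : P.eval ((2 : ℤ) ^ κ) + off κ m =
      ∑ i ∈ Finset.range m, (P.coeff i + 2 ^ (κ - 1)) * ((2 : ℤ) ^ κ) ^ i := by
    rw [h1, h2, ← Finset.sum_add_distrib]
    exact Finset.sum_congr rfl fun i _ => by ring
  have h4 : (2 : ℤ) ^ κ = 2 * 2 ^ (κ - 1) := by
    obtain ⟨k, rfl⟩ : ∃ k, κ = k + 1 := ⟨κ - 1, by omega⟩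
    rw [pow_succ, Nat.add_sub_cancel]
    ring
  have h5 : ∀ i, 0 ≤ P.coeff i + 2 ^ (κ - 1) ∧ P.coeff i + 2 ^ (κ - 1) < (2 : ℤ) ^ κ := by
    intro i
    have := abs_lt.1 (hc i)
    rw [h4]
    constructor <;> linarith [this.1, this.2]
  rw [dig]
  refine List.map_congr_left fun i hi => ?_
  rw [h3, pow_mul, dig_extract _ (by positivity) _ h5 m i (List.mem_range.1 hi)]
  ring

/-- the coefficients of the polynomial in the second variable -/
theorem dig_coeff_bound (m : ℕ) (P : ℤ[X]) (hd : ∀ i, m ≤ i → P.coeff i = 0)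
    (hc : ∀ i, |P.coeff i| < 2 ^ m) :
    |P.eval (2 ^ (m + 1))| < 2 ^ ((m + 1) * (m + 1) - 1) := by
  rw [dig_eval m P hd]
  have h1 : |∑ i ∈ Finset.range m, P.coeff i * ((2 : ℤ) ^ (m + 1)) ^ i| ≤
      ∑ i ∈ Finset.range m, |P.coeff i| * ((2 : ℤ) ^ (m + 1)) ^ i := by
    refine (Finset.abs_sum_le_sum_abs _ _).trans (Finset.sum_le_sum fun i _ => ?_)
    rw [abs_mul, abs_of_pos (show (0 : ℤ) < ((2 : ℤ) ^ (m + 1)) ^ i by positivity)]
  have h2 := (dig_sum_lt ((2 : ℤ) ^ (m + 1)) (by positivity) (fun i => |P.coeff i|) (fun i =>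
    ⟨abs_nonneg _, (hc i).trans (pow_lt_pow_right₀ (by norm_num) (by omega))⟩) m).2
  refine (h1.trans_lt h2).trans_le ?_
  rw [← pow_mul]
  apply pow_le_pow_right₀ (by norm_num)
  have h3 : (m + 1) * (m + 1) = (m + 1) * m + (m + 1) := by ring
  rw [h3]
  rcases Nat.eq_zero_or_pos m with h | h
  · subst h; simp
  · omega

theorem dig2_eq (m : ℕ) (P : ℤ[X][X]) (hP : Bd2 P m) :
    dig2 m (evZ P (2 ^ (m + 1)) (2 ^ ((m + 1) * (m + 1)))) =
      (List.range m).map fun j => (List.range m).map fun i => (P.coeff j).coeff i := by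
  have hc : ∀ j, (P.map (evalRingHom ((2 : ℤ) ^ (m + 1)))).coeff j =
      (P.coeff j).eval ((2 : ℤ) ^ (m + 1)) := fun j => by
    rw [coeff_map, coe_evalRingHom]
  have h1 := dig_eq ((m + 1) * (m + 1)) m (by nlinarith)
    (P.map (evalRingHom ((2 : ℤ) ^ (m + 1)))) (fun j hj => by
      rw [hc, hP.d2 j hj, eval_zero]) (fun j => by
      rw [hc]
      exact dig_coeff_bound m (P.coeff j) (fun i hi => hP.d1 j i hi) (fun i => hP.h j i))
  rw [dig2, evZ, h1, List.map_map]
  refine List.map_congr_left fun j _ => ?_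
  rw [Function.comp_apply, hc]
  exact dig_eq (m + 1) m (by omega) (P.coeff j) (fun i hi => hP.d1 j i hi) (fun i => by
    rw [Nat.add_sub_cancel]
    exact hP.h j i)

/-- a bounded polynomial which vanishes at the special point is zero -/
theorem eq_zero_of_evZ (m : ℕ) (P : ℤ[X][X]) (hP : Bd2 P m)
    (h : evZ P (2 ^ (m + 1)) (2 ^ ((m + 1) * (m + 1))) = 0) : P = 0 := by
  have h0 : Bd2 (0 : ℤ[X][X]) m := ⟨fun _ _ => by simp, fun _ _ _ => by simp, fun _ _ => by simp⟩
  have h1 := dig2_eq m P hP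
  have h2 := dig2_eq m 0 h0
  have h3 : evZ 0 (2 ^ (m + 1)) (2 ^ ((m + 1) * (m + 1))) = 0 := by simp [evZ]
  rw [h] at h1
  rw [h3, h1] at h2
  ext j i
  rw [coeff_zero, coeff_zero]
  rcases Nat.lt_or_ge j m with hj | hj
  · rcases Nat.lt_or_ge i m with hi | hi
    · have h4 := List.map_inj_left.1 h2 j (List.mem_range.2 hj)
      have h5 := List.map_inj_left.1 h4 i (List.mem_range.2 hi)
      simpa using h5
    · exact hP.d1 j i hi
  · rw [hP.d2 j hj, coeff_zero]

/-- powers `2 ^ (κ i)`, `i < m` -/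
theorem dig_pow_ptime {α : Type} [Enc α] {u v : α → List Unit} (hu : PTime u) (hv : PTime v) :
    PTime (fun p : α × ℕ => (2 : ℤ) ^ (if p.2 < (v p.1).length then (u p.1).length * p.2
      else 0)) := by
  have h1 : PTime (fun p : α × ℕ => (v p.1).flatMap fun _ => u p.1) :=
    PTime.flatMap (g := fun (p : α × ℕ) (_ : Unit) => u p.1) (hv.comp PTime.fst)
      (hu.comp (PTime.fst' PTime.fst))
  refine ptime_intPow2 (g := fun p : α × ℕ => (v p.1).flatMap fun _ => u p.1) ?_ h1 fun p => ?_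
  · exact PTime.iteP (PTime.lt PTime.snd (hv.length.comp PTime.fst))
      ((hu.length.comp PTime.fst).mul PTime.snd) (PTime.const 0)
  · rw [List.length_flatMap]
    simp only [List.map_const', List.sum_replicate, smul_eq_mul]
    split
    · next h =>
      rw [mul_comm]
      exact Nat.mul_le_mul_right _ h.le
    · exact Nat.zero_le _

theorem dig_ptime {α : Type} [Enc α] {u v : α → List Unit} {N : α → ℤ} (hu : PTime u)
    (hv : PTime v) (hN : PTime N) :
    PTime (fun x => dig (u x).length (v x).length (N x)) := by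
  have hp := dig_pow_ptime hu hv
  have hk : PTime (fun x => (2 : ℤ) ^ (u x).length) :=
    ptime_intPow2 hu.length hu fun x => le_rfl
  have hk' : PTime (fun x => (2 : ℤ) ^ ((u x).length - 1)) :=
    ptime_intPow2 (hu.length.sub (PTime.const 1)) hu fun x => Nat.sub_le _ _
  have ho : PTime (fun x => off (u x).length (v x).length) := by
    refine (ptime_intMul hk' (ptime_intSum (PTime.map (g := fun (x : α) (i : ℕ) =>
      (2 : ℤ) ^ (if i < (v x).length then (u x).length * i else 0))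
      (PTime.rangeLength hv) hp))).of_eq fun x => ?_
    rw [off]
    congr 2
    refine List.map_congr_left fun i hi => ?_
    rw [if_pos (List.mem_range.1 hi)]
  refine (PTime.map (PTime.rangeLength hv) (g := fun x i => (N x + off (u x).length
    (v x).length) / (2 : ℤ) ^ (if i < (v x).length then (u x).length * i else 0) %
    2 ^ (u x).length - 2 ^ ((u x).length - 1)) ?_).of_eq fun x => ?_
  · exact ptime_intSub (ptime_intMod (ptime_intDiv (ptime_intAdd (hN.comp PTime.fst)
      (ho.comp PTime.fst)) hp) (hk.comp PTime.fst)) (hk'.comp PTime.fst)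
  · rw [dig]
    refine List.map_congr_left fun i hi => ?_
    rw [if_pos (List.mem_range.1 hi)]

theorem dig2_ptime {α : Type} [Enc α] {u : α → List Unit} {N : α → ℤ} (hu : PTime u)
    (hN : PTime N) : PTime (fun x => dig2 (u x).length (N x)) := by
  have h1 : PTime (fun x => () :: u x) := (PTime.const ()).cons hu
  have h2 : PTime (fun x => (() :: u x).flatMap fun _ => () :: u x) :=
    PTime.flatMap (g := fun x (_ : Unit) => () :: u x) h1 (h1.comp PTime.fst)
  have h3 : ∀ x, ((() :: u x).flatMap fun _ => () :: u x).length =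
      ((u x).length + 1) * ((u x).length + 1) := fun x => by
    rw [List.length_flatMap]
    simp only [List.map_const', List.sum_replicate, smul_eq_mul, List.length_cons]
  refine (PTime.map (dig_ptime h2 hu hN) (g := fun x z => dig ((() :: u x).length) (u x).length z)
    (dig_ptime (h1.comp PTime.fst) (hu.comp PTime.fst) PTime.snd)).of_eq fun x => ?_
  rw [h3, List.length_cons, dig2]

end Pool.Agent.Sink
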