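import Pool.Agent.Lib.MP_93b8a0_lc.Two

/-!
# Embeddings from order relations
-/

open Matrix

namespace Pool.Agent.Sink

section planar
variable {V : Type*} {Adj : V → V → Prop} {x : V → P3}

/-- the difference of two functions `lin` is linear in the horizontal part -/
theorem emb_comb (ξ : V → P3) (η : V → ℝ) (a b p q : V) (r s g : P3) :
    cr r s * (lin ξ η a b g - lin ξ η p q g) =
      cr g s * (lin ξ η a b r - lin ξ η p q r) + cr r g * (lin ξ η a b s - lin ξ η p q s) := by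
  have h : ∀ (A B : P3) (α β : ℝ), cr r s * (cr g B * α + cr A g * β) =
      cr g s * (cr r B * α + cr A r * β) + cr r g * (cr s B * α + cr A s * β) := by
    intro A B α β
    simp only [cr]
    ring
  unfold lin
  rw [mul_sub, mul_sub, mul_sub, ← mul_div_assoc, ← mul_div_assoc, h, h]
  ring

theorem emb_lin_self (ξ : V → P3) (a b : V) (h : cr (ξ a) (ξ b) ≠ 0) (s t : ℝ) :
    lin ξ (fun v => ξ v 2) a b (s • ξ a + t • ξ b) = (s • ξ a + t • ξ b) 2 := by
  rw [lin_comb, lin_left _ _ _ h, lin_right _ _ _ h]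
  simp

theorem emb_key (hx : ConeEmb Adj x) (ξ : V → P3)
    (hξ : ∀ v, ∃ l : ℝ, 0 < l ∧ ξ v 0 = l * x v 0 ∧ ξ v 1 = l * x v 1)
    (hrel : ∀ u v w, Adj u v → InSec x w u v →
      0 < det3 (ξ u) (ξ v) (ξ w) * det3 (x u) (x v) (x w)) {a b p q : V}
    (hab : Adj a b) (hpq : Adj p q)
    (h1 : 0 < cr (x a) (x b)) (h2 : 0 < cr (x p) (x q)) (hne : ¬ (a = p ∧ b = q))
    (s t s' t' : ℝ) (hs : 0 < s) (ht : 0 < t) (hs' : 0 < s') (ht' : 0 < t') (w : P3)
    (hw : w = s • ξ a + t • ξ b) (hw' : w = s' • ξ p + t' • ξ q)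
    (hlt : lin x (fun v => x v 2) p q w < lin x (fun v => x v 2) a b w) : False := by
  have hcr : ∀ u v, ∃ l : ℝ, 0 < l ∧ cr (ξ u) (ξ v) = l * cr (x u) (x v) := by
    intro u v
    obtain ⟨l, hl, e0, e1⟩ := hξ u
    obtain ⟨m, hm, f0, f1⟩ := hξ v
    refine ⟨l * m, mul_pos hl hm, ?_⟩
    simp only [cr, e0, e1, f0, f1]
    ring
  have hcrl : ∀ u (g : P3), ∃ l : ℝ, 0 < l ∧ cr (ξ u) g = l * cr (x u) g := by
    intro u g
    obtain ⟨l, hl, e0, e1⟩ := hξ u
    refine ⟨l, hl, ?_⟩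
    simp only [cr, e0, e1]
    ring
  have hcrr : ∀ u (g : P3), ∃ l : ℝ, 0 < l ∧ cr g (ξ u) = l * cr g (x u) := by
    intro u g
    obtain ⟨l, hl, e0, e1⟩ := hξ u
    refine ⟨l, hl, ?_⟩
    simp only [cr, e0, e1]
    ring
  have k1 : 0 < cr (ξ a) (ξ b) := by
    obtain ⟨l, hl, e⟩ := hcr a b
    rw [e]; exact mul_pos hl h1
  have k2 : 0 < cr (ξ p) (ξ q) := by
    obtain ⟨l, hl, e⟩ := hcr p q
    rw [e]; exact mul_pos hl h2
  have Ga : 0 < cr (ξ a) w := by
    have : cr (ξ a) w = t * cr (ξ a) (ξ b) := by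
      rw [hw]; simp only [cr, Pi.add_apply, Pi.smul_apply, smul_eq_mul]; ring
    rw [this]; exact mul_pos ht k1
  have Gb : 0 < cr w (ξ b) := by
    have : cr w (ξ b) = s * cr (ξ a) (ξ b) := by
      rw [hw]; simp only [cr, Pi.add_apply, Pi.smul_apply, smul_eq_mul]; ring
    rw [this]; exact mul_pos hs k1
  have Gp : 0 < cr (ξ p) w := by
    have : cr (ξ p) w = t' * cr (ξ p) (ξ q) := by
      rw [hw']; simp only [cr, Pi.add_apply, Pi.smul_apply, smul_eq_mul]; ring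
    rw [this]; exact mul_pos ht' k2
  have Gq : 0 < cr w (ξ q) := by
    have : cr w (ξ q) = s' * cr (ξ p) (ξ q) := by
      rw [hw']; simp only [cr, Pi.add_apply, Pi.smul_apply, smul_eq_mul]; ring
    rw [this]; exact mul_pos hs' k2
  have ga : 0 < cr (x a) w := by
    obtain ⟨l, hl, e⟩ := hcrl a w
    rw [e] at Ga; exact (mul_pos_iff_of_pos_left hl).1 Ga
  have gb : 0 < cr w (x b) := by
    obtain ⟨l, hl, e⟩ := hcrr b w
    rw [e] at Gb; exact (mul_pos_iff_of_pos_left hl).1 Gb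
  have gp : 0 < cr (x p) w := by
    obtain ⟨l, hl, e⟩ := hcrl p w
    rw [e] at Gp; exact (mul_pos_iff_of_pos_left hl).1 Gp
  have gq : 0 < cr w (x q) := by
    obtain ⟨l, hl, e⟩ := hcrr q w
    rw [e] at Gq; exact (mul_pos_iff_of_pos_left hl).1 Gq
  have neg : ∀ {u v r : V}, Adj u v → 0 < cr (x u) (x v) → 0 < cr (x u) (x r) →
      0 < cr (x r) (x v) → det3 (x u) (x v) (x r) < 0 → det3 (ξ u) (ξ v) (ξ r) < 0 := by
    intro u v r huv c1 c2 c3 c4
    have := hrel u v r huv ⟨mul_pos c2 c1, mul_pos c3 c1⟩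
    by_contra hcon
    push Not at hcon
    nlinarith [mul_nonneg hcon (neg_nonneg.2 c4.le)]
  have pos : ∀ {u v r : V}, Adj u v → 0 < cr (x u) (x v) → 0 < cr (x u) (x r) →
      0 < cr (x r) (x v) → 0 < det3 (x u) (x v) (x r) → 0 < det3 (ξ u) (ξ v) (ξ r) := by
    intro u v r huv c1 c2 c3 c4
    have := hrel u v r huv ⟨mul_pos c2 c1, mul_pos c3 c1⟩
    exact (mul_pos_iff_of_pos_right c4).1 this
  set D : P3 → ℝ := fun g => lin ξ (fun v => ξ v 2) a b g - lin ξ (fun v => ξ v 2) p q g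
    with hD
  have hDw : D w = 0 := by
    simp only [hD]
    have e1 := emb_lin_self ξ a b k1.ne' s t
    have e2 := emb_lin_self ξ p q k2.ne' s' t'
    rw [← hw] at e1
    rw [← hw'] at e2
    rw [e1, e2]
    ring
  -- `D` is positive below or above
  have dpos : ∀ {r : V}, det3 (ξ a) (ξ b) (ξ r) < 0 → lin ξ (fun v => ξ v 2) p q (ξ r) = ξ r 2 →
      0 < D (ξ r) := by
    intro r c1 c2
    simp only [hD]
    rw [c2]
    rw [det3_eq_lin a b (ξ r) k1.ne'] at c1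
    by_contra hcon
    push Not at hcon
    nlinarith [mul_nonneg k1.le (neg_nonneg.2 hcon)]
  have dpos' : ∀ {r : V}, 0 < det3 (ξ p) (ξ q) (ξ r) →
      lin ξ (fun v => ξ v 2) a b (ξ r) = ξ r 2 → 0 < D (ξ r) := by
    intro r c1 c2
    simp only [hD]
    rw [c2]
    rw [det3_eq_lin p q (ξ r) k2.ne'] at c1
    by_contra hcon
    push Not at hcon
    nlinarith [mul_nonneg k2.le (neg_nonneg.2 hcon)]
  obtain ⟨hl, hr⟩ := two_edges hx hab hpq h1 h2 w ga gb gp gq hlt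
  have L : ∃ r, 0 < cr (ξ r) w ∧ 0 ≤ D (ξ r) ∧ (0 < D (ξ r) ∨ p = a) := by
    rcases hl with h | ⟨h3, h4, h5⟩ | ⟨h3, h4, h5⟩
    · refine ⟨a, Ga, ?_, Or.inr h⟩
      subst h
      simp only [hD]
      rw [lin_left _ _ _ k1.ne', lin_left _ _ _ k2.ne']
      simp
    · have := dpos (neg hab h1 h3 h4 h5) (lin_left _ _ _ k2.ne')
      exact ⟨p, Gp, this.le, Or.inl this⟩
    · have := dpos' (pos hpq h2 h3 h4 h5) (lin_left _ _ _ k1.ne')
      exact ⟨a, Ga, this.le, Or.inl this⟩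
  have R : ∃ r, 0 < cr w (ξ r) ∧ 0 ≤ D (ξ r) ∧ (0 < D (ξ r) ∨ q = b) := by
    rcases hr with h | ⟨h3, h4, h5⟩ | ⟨h3, h4, h5⟩
    · refine ⟨b, Gb, ?_, Or.inr h⟩
      subst h
      simp only [hD]
      rw [lin_right _ _ _ k1.ne', lin_right _ _ _ k2.ne']
      simp
    · have := dpos (neg hab h1 h3 h4 h5) (lin_right _ _ _ k2.ne')
      exact ⟨q, Gq, this.le, Or.inl this⟩
    · have := dpos' (pos hpq h2 h3 h4 h5) (lin_right _ _ _ k1.ne')
      exact ⟨b, Gb, this.le, Or.inl this⟩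
  obtain ⟨r, r1, r2, r3⟩ := L
  obtain ⟨r', r1', r2', r3'⟩ := R
  have hc : cr (ξ r) (ξ r') * D w = cr w (ξ r') * D (ξ r) + cr (ξ r) w * D (ξ r') :=
    emb_comb ξ (fun v => ξ v 2) a b p q (ξ r) (ξ r') w
  rw [hDw, mul_zero] at hc
  rcases r3 with r3 | r3
  · nlinarith [mul_pos r1' r3, mul_nonneg r1.le r2']
  · rcases r3' with r3' | r3'
    · nlinarith [mul_pos r1 r3', mul_nonneg r1'.le r2]
    · exact hne ⟨r3.symm, r3'.symm⟩

theorem emb_arc_comm (u v : P3) : arc u v = arc v u := by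
  ext w
  constructor
  · rintro ⟨h, s, t, hs, ht, e⟩
    exact ⟨h, t, s, ht, hs, by rw [e, add_comm]⟩
  · rintro ⟨h, s, t, hs, ht, e⟩
    exact ⟨h, t, s, ht, hs, by rw [e, add_comm]⟩

theorem emb_edge (hx : ConeEmb Adj x) (ξ : V → P3)
    (hξ : ∀ v, ∃ l : ℝ, 0 < l ∧ ξ v 0 = l * x v 0 ∧ ξ v 1 = l * x v 1)
    (hrel : ∀ u v w, Adj u v → InSec x w u v →
      0 < det3 (ξ u) (ξ v) (ξ w) * det3 (x u) (x v) (x w)) {a b p q : V}
    (hab : Adj a b) (hpq : Adj p q)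
    (h1 : 0 < cr (x a) (x b)) (h2 : 0 < cr (x p) (x q)) (hne : ¬ (a = p ∧ b = q)) :
    Disjoint (arc (ξ a) (ξ b)) (arc (ξ p) (ξ q)) := by
  rw [Set.disjoint_left]
  rintro w ⟨-, s, t, hs, ht, hw⟩ ⟨-, s', t', hs', ht', hw'⟩
  rcases lt_trichotomy (lin x (fun v => x v 2) p q w) (lin x (fun v => x v 2) a b w) with
    h | h | h
  · exact emb_key hx ξ hξ hrel hab hpq h1 h2 hne s t s' t' hs ht hs' ht' w hw hw' h
  · -- the two edges do not meet in `x`
    have hh : ∀ {c d : V} (σ τ : ℝ), 0 < σ → 0 < τ → 0 < cr (x c) (x d) →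
        w = σ • ξ c + τ • ξ d → 0 < cr (x c) w ∧ 0 < cr w (x d) := by
      intro c d σ τ hσ hτ hcd hw
      obtain ⟨l, hl, e0, e1⟩ := hξ c
      obtain ⟨m, hm, f0, f1⟩ := hξ d
      constructor
      · have : cr (x c) w = τ * m * cr (x c) (x d) := by
          rw [hw]
          simp only [cr, Pi.add_apply, Pi.smul_apply, smul_eq_mul, e0, e1, f0, f1]
          ring
        rw [this]
        positivity
      · have : cr w (x d) = σ * l * cr (x c) (x d) := by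
          rw [hw]
          simp only [cr, Pi.add_apply, Pi.smul_apply, smul_eq_mul, e0, e1, f0, f1]
          ring
        rw [this]
        positivity
    obtain ⟨ga, gb⟩ := hh s t hs ht h1 hw
    obtain ⟨gp, gq⟩ := hh s' t' hs' ht' h2 hw'
    exact lin_ne hx hab hpq h1 h2 hne w ga gb gp gq h
  · exact emb_key hx ξ hξ hrel hpq hab h2 h1 (fun h => hne ⟨h.1.symm, h.2.symm⟩)
      s' t' s t hs' ht' hs ht w hw' hw h

theorem emb_of_rel (hx : ConeEmb Adj x) (ξ : V → P3)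
    (hξ : ∀ v, ∃ l : ℝ, 0 < l ∧ ξ v 0 = l * x v 0 ∧ ξ v 1 = l * x v 1)
    (hunit : ∀ v, ξ v ⬝ᵥ ξ v = 1)
    (hrel : ∀ u v w, Adj u v → InSec x w u v →
      0 < det3 (ξ u) (ξ v) (ξ w) * det3 (x u) (x v) (x w)) : IsEmb Adj ξ := by
  have hcr : ∀ u v, ∃ l : ℝ, 0 < l ∧ cr (ξ u) (ξ v) = l * cr (x u) (x v) := by
    intro u v
    obtain ⟨l, hl, e0, e1⟩ := hξ u
    obtain ⟨m, hm, f0, f1⟩ := hξ v
    refine ⟨l * m, mul_pos hl hm, ?_⟩
    simp only [cr, e0, e1, f0, f1]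
    ring
  have hcr0 : ∀ u v, u ≠ v → cr (ξ u) (ξ v) ≠ 0 := by
    intro u v huv
    obtain ⟨l, hl, e⟩ := hcr u v
    rw [e]
    exact mul_ne_zero hl.ne' (hx.gen u v huv)
  refine ⟨hunit, ?_, ?_, ?_, ?_⟩
  · intro u v huv
    by_contra hne
    refine hcr0 u v hne ?_
    rw [huv]
    exact cr_self _
  · intro u v huv h
    refine hcr0 u v (hx.irr u v huv) ?_
    rw [h]
    simp only [cr, Pi.neg_apply]
    ring
  · rintro u v w huv ⟨-, s, t, hs, ht, hw⟩
    have hne := hcr0 u v (hx.irr u v huv)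
    have e1 : cr (ξ u) (ξ w) = t * cr (ξ u) (ξ v) := by
      rw [hw]; simp only [cr, Pi.add_apply, Pi.smul_apply, smul_eq_mul]; ring
    have e2 : cr (ξ w) (ξ v) = s * cr (ξ u) (ξ v) := by
      rw [hw]; simp only [cr, Pi.add_apply, Pi.smul_apply, smul_eq_mul]; ring
    have e3 : det3 (ξ u) (ξ v) (ξ w) = 0 := by
      rw [hw]; simp only [det3, Pi.add_apply, Pi.smul_apply, smul_eq_mul]; ring
    obtain ⟨l, hl, f1⟩ := hcr u v
    obtain ⟨m, hm, f2⟩ := hcr u w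
    obtain ⟨k, hk, f3⟩ := hcr w v
    have hc0 : 0 < cr (ξ u) (ξ v) * cr (ξ u) (ξ v) := mul_self_pos.2 hne
    have hsec : InSec x w u v := by
      constructor
      · have h1 : 0 < cr (ξ u) (ξ w) * cr (ξ u) (ξ v) := by
          rw [e1, mul_assoc]
          exact mul_pos ht hc0
        rw [f1, f2] at h1
        have h2 : 0 < (m * l) * (cr (x u) (x w) * cr (x u) (x v)) := by linarith
        exact (mul_pos_iff_of_pos_left (mul_pos hm hl)).1 h2
      · have h1 : 0 < cr (ξ w) (ξ v) * cr (ξ u) (ξ v) := by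
          rw [e2, mul_assoc]
          exact mul_pos hs hc0
        rw [f1, f3] at h1
        have h2 : 0 < (k * l) * (cr (x w) (x v) * cr (x u) (x v)) := by linarith
        exact (mul_pos_iff_of_pos_left (mul_pos hk hl)).1 h2
    have := hrel u v w huv hsec
    rw [e3, zero_mul] at this
    exact lt_irrefl _ this
  · intro u v u' v' huv hu'v' hne hne'
    rcases lt_or_gt_of_ne (hx.gen u v (hx.irr u v huv)) with h1 | h1
    · have h1' : 0 < cr (x v) (x u) := by rw [cr_swap]; linarith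
      rw [emb_arc_comm (ξ u) (ξ v)]
      rcases lt_or_gt_of_ne (hx.gen u' v' (hx.irr u' v' hu'v')) with h2 | h2
      · have h2' : 0 < cr (x v') (x u') := by rw [cr_swap]; linarith
        rw [emb_arc_comm (ξ u') (ξ v')]
        exact emb_edge hx ξ hξ hrel (hx.symm _ _ huv) (hx.symm _ _ hu'v') h1' h2'
          fun h => hne ⟨h.2, h.1⟩
      · exact emb_edge hx ξ hξ hrel (hx.symm _ _ huv) hu'v' h1' h2
          fun h => hne' ⟨h.2, h.1⟩
    · rcases lt_or_gt_of_ne (hx.gen u' v' (hx.irr u' v' hu'v')) with h2 | h2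
      · have h2' : 0 < cr (x v') (x u') := by rw [cr_swap]; linarith
        rw [emb_arc_comm (ξ u') (ξ v')]
        exact emb_edge hx ξ hξ hrel huv (hx.symm _ _ hu'v') h1 h2' hne'
      · exact emb_edge hx ξ hξ hrel huv hu'v' h1 h2 hne

end planar

end Pool.Agent.Sink
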