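import Pool.Agent.Lib.MP_93b8a0_lc.Cone
import Pool.Agent.Lib.MP_93b8a0_lc.Emb

/-!
# The linear program gives a longitudinal morph
-/

open Matrix

namespace Pool.Agent.Sink

section planar
variable {V : Type*} {Adj : V → V → Prop} {x : V → P3}

theorem sinkable_of_LPF [Nontrivial V] (hx : IsEmb Adj x) (hsymm : ∀ u v, Adj u v → Adj v u)
    (gen : ∀ u v, u ≠ v → cr (x u) (x v) ≠ 0) (h : LPF Adj x) : Sinkable Adj x := by
  obtain ⟨ζ, hneg, hrel⟩ := h
  have hce : ConeEmb Adj x := coneEmb_of_isEmb hx hsymm x (fun v => ⟨1, one_pos, (one_smul _ _).symm⟩) gen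
  -- horizontal part nonzero
  have hnz : ∀ v, 0 < x v 0 ^ 2 + x v 1 ^ 2 := by
    intro v
    obtain ⟨u, hu⟩ := exists_ne v
    have h1 := gen u v hu
    by_contra h2
    have h3 : x v 0 = 0 := by nlinarith [sq_nonneg (x v 0), sq_nonneg (x v 1)]
    have h4 : x v 1 = 0 := by nlinarith [sq_nonneg (x v 0), sq_nonneg (x v 1)]
    apply h1
    simp only [cr, h3, h4]
    ring
  -- unnormalised motion
  let z : ℝ → V → ℝ := fun t v => (1 - t) * x v 2 + t * ζ v
  let ρ : ℝ → V → ℝ := fun t v => √(x v 0 ^ 2 + x v 1 ^ 2 + z t v ^ 2)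
  have hρ : ∀ t v, 0 < ρ t v := by
    intro t v
    have := hnz v
    exact Real.sqrt_pos.2 (by positivity)
  let ψ : ℝ → V → P3 := fun t v => ![x v 0, x v 1, z t v]
  let φ : ℝ → V → P3 := fun t v => (ρ t v)⁻¹ • ψ t v
  have hφ0 : ∀ t v, φ t v 0 = (ρ t v)⁻¹ * x v 0 := fun t v => rfl
  have hφ1 : ∀ t v, φ t v 1 = (ρ t v)⁻¹ * x v 1 := fun t v => rfl
  have hφ2 : ∀ t v, φ t v 2 = (ρ t v)⁻¹ * z t v := fun t v => rfl
  have hzc : ∀ v, Continuous fun t => z t v := by
    intro v
    simp only [z]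
    fun_prop
  have hρc : ∀ v, Continuous fun t => ρ t v := by
    intro v
    have := hzc v
    simp only [ρ]
    exact (continuous_const.add (this.pow 2)).sqrt
  refine ⟨φ, ⟨?_, ?_, ?_, ?_⟩, ?_⟩
  · intro v
    apply Continuous.continuousOn
    refine continuous_pi fun i => ?_
    have hi : Continuous fun t => (ρ t v)⁻¹ := (hρc v).inv₀ fun t => (hρ t v).ne'
    fin_cases i
    · exact hi.mul continuous_const
    · exact hi.mul continuous_const
    · exact hi.mul (hzc v)
  · funext v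
    have h1 : ρ 0 v = 1 := by
      have := hx.unit v
      simp only [ρ, z]
      rw [dotProduct, Fin.sum_univ_three] at this
      rw [Real.sqrt_eq_one]
      nlinarith
    ext i
    fin_cases i
    · change φ 0 v 0 = x v 0
      rw [hφ0, h1]
      ring
    · change φ 0 v 1 = x v 1
      rw [hφ1, h1]
      ring
    · change φ 0 v 2 = x v 2
      rw [hφ2, h1]
      simp only [z]
      ring
  · intro t ht
    refine emb_of_rel hce (φ t) (fun v => ⟨(ρ t v)⁻¹, inv_pos.2 (hρ t v), hφ0 t v, hφ1 t v⟩) ?_ ?_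
    · intro v
      rw [dotProduct, Fin.sum_univ_three, hφ0, hφ1, hφ2]
      have h1 : ρ t v ^ 2 = x v 0 ^ 2 + x v 1 ^ 2 + z t v ^ 2 := by
        simp only [ρ]
        have := hnz v
        exact Real.sq_sqrt (by positivity)
      have h2 := hρ t v
      have : (ρ t v)⁻¹ * x v 0 * ((ρ t v)⁻¹ * x v 0) + (ρ t v)⁻¹ * x v 1 * ((ρ t v)⁻¹ * x v 1) +
          (ρ t v)⁻¹ * z t v * ((ρ t v)⁻¹ * z t v) =
          (x v 0 ^ 2 + x v 1 ^ 2 + z t v ^ 2) / ρ t v ^ 2 := by
        field_simp
      rw [this, ← h1, div_self (by positivity)]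
    · intro u v w huv hw
      have h1 := hrel u v w huv hw
      have h2 := hce.vert u v w huv hw
      have e : det3 (φ t u) (φ t v) (φ t w) * det3 (x u) (x v) (x w) =
          (ρ t u)⁻¹ * (ρ t v)⁻¹ * (ρ t w)⁻¹ * ((1 - t) * (det3 (x u) (x v) (x w)) ^ 2 +
          t * ((ζ u * cr (x v) (x w) + ζ v * cr (x w) (x u) + ζ w * cr (x u) (x v)) *
            det3 (x u) (x v) (x w))) := by
        have : det3 (φ t u) (φ t v) (φ t w) = (ρ t u)⁻¹ * (ρ t v)⁻¹ * (ρ t w)⁻¹ *
            ((1 - t) * (det3 (x u) (x v) (x w)) + t * (ζ u * cr (x v) (x w) +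
              ζ v * cr (x w) (x u) + ζ w * cr (x u) (x v))) := by
          simp only [det3, cr, hφ0, hφ1, hφ2, z]
          ring
        rw [this]
        ring
      rw [e]
      have p1 := inv_pos.2 (hρ t u)
      have p2 := inv_pos.2 (hρ t v)
      have p3 := inv_pos.2 (hρ t w)
      refine mul_pos (by positivity) ?_
      have h3 : 0 < det3 (x u) (x v) (x w) ^ 2 := by positivity
      rcases ht.1.lt_or_eq with h0 | h0
      · have : 0 < t * ((ζ u * cr (x v) (x w) + ζ v * cr (x w) (x u) + ζ w * cr (x u) (x v)) *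
            det3 (x u) (x v) (x w)) := mul_pos h0 h1
        have : 0 ≤ (1 - t) * (det3 (x u) (x v) (x w)) ^ 2 :=
          mul_nonneg (by linarith [ht.2]) h3.le
        linarith
      · rw [← h0]
        linarith
  · intro t ht v
    exact ⟨(ρ t v)⁻¹, inv_pos.2 (hρ t v), hφ0 t v, hφ1 t v⟩
  · intro v
    rw [hφ2]
    refine mul_neg_of_pos_of_neg (inv_pos.2 (hρ 1 v)) ?_
    simp only [z]
    have := hneg v
    linarith

end planar

end Pool.Agent.Sink
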