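import Pool.Agent.Lib.MP_93b8a0_lc.Test
import Pool.Agent.Lib.MP_93b8a0_lc.Morph
import Pool.Agent.Lib.MP_93b8a0_lc.Rot

/-!
# Assembly, part 1: from the tests to rotations
-/

open Matrix Polynomial

namespace Pool.Agent.Sink

open Pool.Agent.PolyTime Pool.Agent.SparseNP

theorem adj_symm {n : ℕ} {F : List (Fin n × Fin n × Fin n)} (u v : Fin n) (h : adj F u v) :
    adj F v u := by
  obtain ⟨w, h⟩ := h
  exact ⟨w, by tauto⟩

theorem ne_of_adj {V : Type*} {Adj : V → V → Prop} {x : V → P3} (hx : IsEmb Adj x) {u v : V}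
    (h : Adj u v) : u ≠ v := by
  rintro rfl
  refine hx.vertex u u u h ⟨hx.unit u, 1 / 2, 1 / 2, by norm_num, by norm_num, ?_⟩
  rw [← add_smul]
  norm_num

theorem adj_face {n : ℕ} {F : List (Fin n × Fin n × Fin n)} {f : Fin n × Fin n × Fin n}
    (hf : f ∈ F) : adj F f.1 f.2.1 ∧ adj F f.2.1 f.2.2 ∧ adj F f.1 f.2.2 :=
  ⟨⟨f.2.2, Or.inl hf⟩, ⟨f.1, Or.inr (Or.inr (Or.inl hf))⟩,
    ⟨f.2.1, Or.inr (Or.inr (Or.inr (Or.inr (Or.inl hf))))⟩⟩

theorem det3_face {n : ℕ} {F : List (Fin n × Fin n × Fin n)} {x : Fin n → P3}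
    (hx : IsEmb (adj F) x)
    (three : ∀ u v w, u ≠ v → u ≠ w → v ≠ w → det3 (x u) (x v) (x w) ≠ 0)
    {f : Fin n × Fin n × Fin n} (hf : f ∈ F) : det3 (x f.1) (x f.2.1) (x f.2.2) ≠ 0 := by
  obtain ⟨h1, h2, h3⟩ := adj_face hf
  exact three _ _ _ (ne_of_adj hx h1) (ne_of_adj hx h3) (ne_of_adj hx h2)

theorem toV_Qz (a b c : ℤ) (u : Z3) :
    (toV (Qz a b c u) : P3) = Qm (a : ℝ) b c *ᵥ toV u := by
  ext i
  fin_cases i <;>
  · simp [toV, Qz, Qm, Matrix.mulVec, dotProduct, Fin.sum_univ_three]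
    try ring

theorem gv_ws (I : Input) (a b c : ℤ) (v : Fin I.n) :
    gv (ws I a b c) v = Qz a b c (intVec (I.2.get v)) := by
  unfold gv ws
  rw [List.getD_eq_getElem?_getD, List.getElem?_map]
  have : I.2[(v : ℕ)]? = some (I.2.get v) := List.getElem?_eq_getElem v.2
  rw [this]
  rfl

theorem vW_ws (I : Input) (a b c : ℤ) (v : Fin I.n) :
    vW (ws I a b c) I.n v = Qm (a : ℝ) b c *ᵥ uI I v := by
  unfold vW uI
  rw [gv_ws, toV_Qz]

theorem Qm_smul (D s t : ℝ) : Qm D (D * s) (D * t) = D ^ 2 • Qm 1 s t := by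
  ext i j
  fin_cases i <;> fin_cases j <;> simp [Qm] <;> ring

theorem hom3_frac (r : (ℤ × ℤ) × (ℤ × ℤ)) (h1 : 0 < r.1.2) (h2 : 0 < r.2.2) :
    (((hom3 r).2.1 : ℤ) : ℝ) = ((hom3 r).1 : ℝ) * frac r.1 ∧
    (((hom3 r).2.2 : ℤ) : ℝ) = ((hom3 r).1 : ℝ) * frac r.2 ∧ (0 : ℝ) < (hom3 r).1 := by
  have h1' : (0 : ℝ) < r.1.2 := by exact_mod_cast h1
  have h2' : (0 : ℝ) < r.2.2 := by exact_mod_cast h2
  refine ⟨?_, ?_, ?_⟩
  · simp only [hom3, frac]
    push_cast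
    field_simp
  · simp only [hom3, frac]
    push_cast
    field_simp
  · simp only [hom3]
    push_cast
    positivity

theorem vW_wsq (I : Input) (r : (ℤ × ℤ) × (ℤ × ℤ)) (h1 : 0 < r.1.2) (h2 : 0 < r.2.2)
    (v : Fin I.n) :
    vW (wsq I r) I.n v = ((hom3 r).1 : ℝ) ^ 2 • yq (uI I) (frac r.1, frac r.2) v := by
  obtain ⟨e1, e2, -⟩ := hom3_frac r h1 h2
  unfold wsq yq
  rw [vW_ws, e1, e2, Qm_smul, Matrix.smul_mulVec]

/-- the rotation of a point of the plane -/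
noncomputable def Rq (a b c : ℝ) : Matrix (Fin 3) (Fin 3) ℝ :=
  (a ^ 2 + b ^ 2 + c ^ 2)⁻¹ • Qm a b c

theorem Qm_eq_Rq (a b c : ℝ) (h : 0 < a ^ 2 + b ^ 2 + c ^ 2) :
    Qm a b c = (a ^ 2 + b ^ 2 + c ^ 2) • Rq a b c := by
  unfold Rq
  rw [smul_smul, mul_inv_cancel₀ h.ne', one_smul]

theorem toMat_rotOf (r : (ℤ × ℤ) × (ℤ × ℤ)) :
    toMat (rotOf r) = Rq (hom3 r).1 (hom3 r).2.1 (hom3 r).2.2 := by
  unfold toMat Rq rotOf
  congr 1
  · push_cast
    rfl
  · ext i j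
    fin_cases i <;> fin_cases j <;> simp [Qm, toV]

theorem length_ws (I : Input) (a b c : ℤ) : (ws I a b c).length = I.n := by
  unfold ws Input.n
  rw [List.length_map]

/-- the integral vectors are positive multiples of the points of the triangulation -/
theorem uI_eq (I : Input) (hnz : ∀ v : Fin I.n, I.2.get v ≠ (0, 0, 0)) (v : Fin I.n) :
    ∃ l : ℝ, 0 < l ∧ uI I v = l • I.x v := by
  have hq := hnz v
  have e0 : ∃ d : ℝ, 0 < d ∧ uI I v = d • toP (I.2.get v) := by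
    unfold uI
    generalize I.2.get v = q at *
    refine ⟨(q.1.den : ℝ) * q.2.1.den * q.2.2.den, ?_, ?_⟩
    · have h1 : (0 : ℝ) < q.1.den := by exact_mod_cast q.1.den_pos
      have h2 : (0 : ℝ) < q.2.1.den := by exact_mod_cast q.2.1.den_pos
      have h3 : (0 : ℝ) < q.2.2.den := by exact_mod_cast q.2.2.den_pos
      positivity
    · have k1 : (q.1.num : ℝ) = q.1.den * (q.1 : ℝ) := by
        have := Rat.den_mul_eq_num q.1
        exact_mod_cast this.symm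
      have k2 : (q.2.1.num : ℝ) = q.2.1.den * (q.2.1 : ℝ) := by
        have := Rat.den_mul_eq_num q.2.1
        exact_mod_cast this.symm
      have k3 : (q.2.2.num : ℝ) = q.2.2.den * (q.2.2 : ℝ) := by
        have := Rat.den_mul_eq_num q.2.2
        exact_mod_cast this.symm
      ext i
      fin_cases i
      · simp [toV, intVec, toP, k1]; ring
      · simp [toV, intVec, toP, k2]; ring
      · simp [toV, intVec, toP, k3]; ring
  obtain ⟨d, hd, h1⟩ := e0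
  have hpos : 0 < toP (I.2.get v) ⬝ᵥ toP (I.2.get v) := by
    have h0 : toP (I.2.get v) ≠ 0 := by
      intro h
      apply hq
      generalize I.2.get v = q at *
      obtain ⟨a, b, c⟩ := q
      have h1 := congrFun h 0
      have h2 := congrFun h 1
      have h3 := congrFun h 2
      simp [toP] at h1 h2 h3
      simp [h1, h2, h3]
    have h1 : 0 ≤ toP (I.2.get v) ⬝ᵥ toP (I.2.get v) := by
      simp only [dotProduct, Fin.sum_univ_three]
      nlinarith [mul_self_nonneg (toP (I.2.get v) 0), mul_self_nonneg (toP (I.2.get v) 1),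
        mul_self_nonneg (toP (I.2.get v) 2)]
    rcases h1.lt_or_eq with h | h
    · exact h
    · exact absurd (dotProduct_self_eq_zero.1 h.symm) h0
  refine ⟨d * √(toP (I.2.get v) ⬝ᵥ toP (I.2.get v)), mul_pos hd (Real.sqrt_pos.2 hpos), ?_⟩
  unfold Input.x
  rw [h1, smul_smul, mul_assoc, mul_inv_cancel₀ (Real.sqrt_pos.2 hpos).ne', mul_one]

theorem cr_smul (a b : ℝ) (x y : P3) : cr (a • x) (b • y) = a * b * cr x y := by
  simp only [cr, Pi.smul_apply, smul_eq_mul]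
  ring

theorem det3_smul (a b c : ℝ) (x y z : P3) :
    det3 (a • x) (b • y) (c • z) = a * b * c * det3 x y z := by
  simp only [det3, Pi.smul_apply, smul_eq_mul]
  ring

/-- a rotation which passes the test is a sinkable rotation -/
theorem sinkRot_of_test (I : Input) (F : List (Fin I.n × Fin I.n × Fin I.n)) (hI : Valid I F)
    (K : ℕ) (r : (ℤ × ℤ) × (ℤ × ℤ)) (h1 : 0 < r.1.2) (h2 : 0 < r.2.2)
    (h : testB K (edges I) (wsq I r) = true) : IsSinkRot F I.x (toMat (rotOf r)) := by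
  obtain ⟨-, -, hD⟩ := hom3_frac r h1 h2
  have hpos : (0 : ℝ) < ((hom3 r).1 : ℝ) ^ 2 + ((hom3 r).2.1 : ℝ) ^ 2 + ((hom3 r).2.2 : ℝ) ^ 2 := by
    positivity
  rw [toMat_rotOf]
  set R := Rq (hom3 r).1 (hom3 r).2.1 (hom3 r).2.2 with hRdef
  have hR : IsRot R := isRot_Qm _ _ _ hpos
  have htri : IsTri F (fun v => R *ᵥ I.x v) := isTri_rot hI.tri hR
  have hscale : ∀ v, ∃ l : ℝ, 0 < l ∧ vW (wsq I r) I.n v = l • (R *ᵥ I.x v) := by
    intro v
    obtain ⟨l, hl, hu⟩ := uI_eq I hI.nonzero v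
    refine ⟨(((hom3 r).1 : ℝ) ^ 2 + ((hom3 r).2.1 : ℝ) ^ 2 + ((hom3 r).2.2 : ℝ) ^ 2) * l,
      mul_pos hpos hl, ?_⟩
    unfold wsq
    rw [vW_ws, Qm_eq_Rq _ _ _ hpos, hu, Matrix.mulVec_smul, Matrix.smul_mulVec, smul_smul,
      mul_comm]
  have hgen : (∀ u v, u ≠ v → cr (vW (wsq I r) I.n u) (vW (wsq I r) I.n v) ≠ 0) →
      ∀ u v, u ≠ v → cr (R *ᵥ I.x u) (R *ᵥ I.x v) ≠ 0 := by
    intro hg u v huv h0
    obtain ⟨l, hl, e1⟩ := hscale u
    obtain ⟨l', hl', e2⟩ := hscale v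
    apply hg u v huv
    rw [e1, e2, cr_smul, h0, mul_zero]
  obtain ⟨g, hLP⟩ := testB_sound I F hI (wsq I r) (length_ws I _ _ _) K
    (fun hg => coneEmb_of_isEmb htri.emb adj_symm _ hscale (hgen hg)) h
  have g' := hgen g
  have : Nontrivial (Fin I.n) := by
    have := hI.four
    exact ⟨⟨0, by omega⟩, ⟨1, by omega⟩, by simp⟩
  refine ⟨hR, ⟨htri, ?_, ?_⟩, ?_⟩
  · intro u v w a b c
    rw [det3_rot hR]
    exact hI.three u v w a b c
  · intro u v huv
    rw [det3_north]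
    exact g' u v huv
  · exact sinkable_of_LPF htri.emb adj_symm g' ((LPF_scale hscale).1 hLP)

end Pool.Agent.Sink
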