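import Pool.Agent.Lib.MP_93b8a0_lc.Defs2
import Pool.Agent.Lib.MP_93b8a0_lc.Rot
import Pool.Agent.Lib.MP_93b8a0_lc.Two

/-!
# The direction of the pole
-/

open Matrix Polynomial

namespace Pool.Agent.Sink

theorem det3_cont (a b : P3) : Continuous fun p : P3 => det3 p a b := by
  unfold det3
  fun_prop

theorem det3_smul_left (l : ℝ) (p a b : P3) : det3 (l • p) a b = l * det3 p a b := by
  simp only [det3, Pi.smul_apply, smul_eq_mul]
  ring

theorem det3_self (p a : P3) : det3 p a a = 0 := by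
  simp only [det3]
  ring

theorem isOpen_LPFp {n : ℕ} (Adj : Fin n → Fin n → Prop) (x : Fin n → P3) :
    IsOpen {p : P3 | (∀ u v, u ≠ v → det3 p (x u) (x v) ≠ 0) ∧ LPFp Adj x p} := by
  rw [isOpen_iff_mem_nhds]
  rintro p₀ ⟨hg, ζ, hζ, hrel⟩
  have hc := fun u v => (det3_cont (x u) (x v)).tendsto p₀
  have e1 : ∀ᶠ p in nhds p₀, ∀ u v, u ≠ v → det3 p (x u) (x v) ≠ 0 := by
    rw [Filter.eventually_all]
    intro u
    rw [Filter.eventually_all]
    intro v
    by_cases huv : u = v
    · exact Filter.Eventually.of_forall fun p h => absurd huv h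
    · filter_upwards [(hc u v).eventually_ne (hg u v huv)] with p hp _ using hp
  -- signs of products
  have e2 : ∀ u v w z, (¬ 0 < det3 p₀ (x u) (x v) * det3 p₀ (x w) (x z)) →
      ∀ᶠ p in nhds p₀, ¬ 0 < det3 p (x u) (x v) * det3 p (x w) (x z) := by
    intro u v w z h
    by_cases h1 : u = v
    · refine Filter.Eventually.of_forall fun p => ?_
      rw [h1, det3_self, zero_mul]
      exact lt_irrefl _
    by_cases h2 : w = z
    · refine Filter.Eventually.of_forall fun p => ?_
      rw [h2, det3_self, mul_zero]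
      exact lt_irrefl _
    have h3 : det3 p₀ (x u) (x v) * det3 p₀ (x w) (x z) < 0 :=
      lt_of_le_of_ne (not_lt.1 h) (mul_ne_zero (hg u v h1) (hg w z h2))
    filter_upwards [((hc u v).mul (hc w z)).eventually_lt_const h3] with p hp
    exact not_lt.2 hp.le
  have e3 : ∀ᶠ p in nhds p₀, ∀ u v w, Adj u v →
      0 < det3 p (x u) (x w) * det3 p (x u) (x v) → 0 < det3 p (x w) (x v) * det3 p (x u) (x v) →
      0 < (ζ u * det3 p (x v) (x w) + ζ v * det3 p (x w) (x u) + ζ w * det3 p (x u) (x v)) *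
        det3 (x u) (x v) (x w) := by
    rw [Filter.eventually_all]
    intro u
    rw [Filter.eventually_all]
    intro v
    rw [Filter.eventually_all]
    intro w
    by_cases hA : Adj u v
    · by_cases h1 : 0 < det3 p₀ (x u) (x w) * det3 p₀ (x u) (x v)
      · by_cases h2 : 0 < det3 p₀ (x w) (x v) * det3 p₀ (x u) (x v)
        · have h3 := hrel u v w hA h1 h2
          have ht := (((hc v w).const_mul (ζ u)).add ((hc w u).const_mul (ζ v))).add
            ((hc u v).const_mul (ζ w)) |>.mul_const (det3 (x u) (x v) (x w))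
          filter_upwards [ht.eventually_const_lt h3] with p hp _ _ _ using hp
        · filter_upwards [e2 w v u v h2] with p hp _ _ h using absurd h hp
      · filter_upwards [e2 u w u v h1] with p hp _ h _ using absurd h hp
    · exact Filter.Eventually.of_forall fun p h => absurd h hA
  filter_upwards [e1, e3] with p h1 h3
  exact ⟨h1, ζ, hζ, h3⟩

theorem LPFp_smul {n : ℕ} (Adj : Fin n → Fin n → Prop) (x : Fin n → P3) (p : P3) (l : ℝ)
    (hl : 0 < l) : LPFp Adj x (l • p) ↔ LPFp Adj x p := by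
  unfold LPFp
  have h2 : 0 < l ^ 2 := by positivity
  have k1 : ∀ a b c d : P3, 0 < det3 (l • p) a b * det3 (l • p) c d ↔
      0 < det3 p a b * det3 p c d := by
    intro a b c d
    rw [det3_smul_left, det3_smul_left]
    have : l * det3 p a b * (l * det3 p c d) = l ^ 2 * (det3 p a b * det3 p c d) := by ring
    rw [this, mul_pos_iff_of_pos_left h2]
  have k2 : ∀ (a b c : ℝ) (u v w : P3), 0 < (a * det3 (l • p) v w + b * det3 (l • p) w u +
      c * det3 (l • p) u v) * det3 u v w ↔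
      0 < (a * det3 p v w + b * det3 p w u + c * det3 p u v) * det3 u v w := by
    intro a b c u v w
    rw [det3_smul_left, det3_smul_left, det3_smul_left]
    have : (a * (l * det3 p v w) + b * (l * det3 p w u) + c * (l * det3 p u v)) * det3 u v w =
        l * ((a * det3 p v w + b * det3 p w u + c * det3 p u v) * det3 u v w) := by ring
    rw [this, mul_pos_iff_of_pos_left hl]
  simp only [k1, k2]

/-- `LPF` of the vectors `Q u`, `Q` a positive multiple of a rotation -/
theorem LPF_iff_LPFp {n : ℕ} (Adj : Fin n → Fin n → Prop) (x : Fin n → P3)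
    {R : Matrix (Fin 3) (Fin 3) ℝ} (hR : IsRot R) (c : ℝ) (hc : 0 < c) :
    LPF Adj (fun v => (c • R) *ᵥ x v) ↔ LPFp Adj x (R 2) := by
  have hcr : ∀ a b : P3, cr ((c • R) *ᵥ a) ((c • R) *ᵥ b) = c ^ 2 * det3 (R 2) a b := by
    intro a b
    rw [← cr_rot hR, Matrix.smul_mulVec, Matrix.smul_mulVec]
    simp only [cr, Pi.smul_apply, smul_eq_mul]
    ring
  have hd : ∀ a b d : P3, det3 ((c • R) *ᵥ a) ((c • R) *ᵥ b) ((c • R) *ᵥ d) =
      c ^ 3 * det3 a b d := by
    intro a b d
    rw [← det3_rot hR a b d, Matrix.smul_mulVec, Matrix.smul_mulVec, Matrix.smul_mulVec]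
    simp only [det3, Pi.smul_apply, smul_eq_mul]
    ring
  unfold LPF LPFp InSec
  simp only [hcr, hd]
  have h4 : 0 < c ^ 4 := by positivity
  have h5 : 0 < c ^ 5 := by positivity
  have k1 : ∀ a b : ℝ, 0 < c ^ 2 * a * (c ^ 2 * b) ↔ 0 < a * b := by
    intro a b
    have : c ^ 2 * a * (c ^ 2 * b) = c ^ 4 * (a * b) := by ring
    rw [this, mul_pos_iff_of_pos_left h4]
  have k2 : ∀ a b d e f g z : ℝ, 0 < (a * (c ^ 2 * b) + d * (c ^ 2 * e) + f * (c ^ 2 * g)) *
      (c ^ 3 * z) ↔ 0 < (a * b + d * e + f * g) * z := by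
    intro a b d e f g z
    have : (a * (c ^ 2 * b) + d * (c ^ 2 * e) + f * (c ^ 2 * g)) * (c ^ 3 * z) =
        c ^ 5 * ((a * b + d * e + f * g) * z) := by ring
    rw [this, mul_pos_iff_of_pos_left h5]
  simp only [k1, k2, and_imp]

theorem exists_not_root (p : ℝ[X]) (hp : p ≠ 0) (O : Set ℝ) (hO : IsOpen O)
    (hne : O.Nonempty) : ∃ s ∈ O, p.eval s ≠ 0 := by
  by_contra hcon
  push Not at hcon
  obtain ⟨s, hs⟩ := hne
  apply hp
  apply Polynomial.eq_zero_of_infinite_isRoot
  exact (infinite_of_mem_nhds s (hO.mem_nhds hs)).mono fun z hz => hcon z hz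

/-- a nonzero polynomial does not vanish on a nonempty open set -/
theorem exists_ev_ne_zero (P : ℤ[X][X]) (hP : P ≠ 0) (O : Set (ℝ × ℝ)) (hO : IsOpen O)
    (hne : O.Nonempty) : ∃ q ∈ O, ev P q ≠ 0 := by
  obtain ⟨q, hq⟩ := hne
  obtain ⟨A, B, hA, hB, hqA, hqB, hAB⟩ := isOpen_prod_iff.1 hO q.1 q.2 hq
  obtain ⟨j, hj⟩ : ∃ j, P.coeff j ≠ 0 := by
    by_contra h
    push Not at h
    exact hP (Polynomial.ext fun j => by rw [h j, Polynomial.coeff_zero])
  have h1 : (P.coeff j).map (Int.castRingHom ℝ) ≠ 0 := by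
    rw [Ne, Polynomial.map_eq_zero_iff (RingHom.injective_int _)]
    exact hj
  obtain ⟨s, hs, hs'⟩ := exists_not_root _ h1 A hA ⟨_, hqA⟩
  have h2 : fib P s ≠ 0 := by
    intro h0
    apply hs'
    have := congrArg (fun p => p.coeff j) h0
    simp only [fib, Polynomial.coeff_map, Polynomial.coeff_zero, evS,
      Polynomial.coe_eval₂RingHom] at this
    rw [Polynomial.eval_map]
    exact this
  obtain ⟨t, ht, ht'⟩ := exists_not_root _ h2 B hB ⟨_, hqB⟩
  exact ⟨(s, t), hAB ⟨hs, ht⟩, ht'⟩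

end Pool.Agent.Sink
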