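import Pool.Agent.Lib.MP_93b8a0_lc.Fin1
import Pool.Agent.Lib.MP_93b8a0_lc.OpenP

/-!
# Assembly, part 2: choice of a point of the plane
-/

open Matrix Polynomial

namespace Pool.Agent.Sink

open Pool.Agent.PolyTime Pool.Agent.SparseNP

theorem ev_mul (P Q : ℤ[X][X]) (q : ℝ × ℝ) : ev (P * Q) q = ev P q * ev Q q := by
  simp [ev, fib, Polynomial.map_mul]

theorem ev_one (q : ℝ × ℝ) : ev 1 q = 1 := by
  simp [ev, fib]

theorem ev_list_prod (L : List ℤ[X][X]) (q : ℝ × ℝ) : ev L.prod q = (L.map fun P => ev P q).prod := by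
  induction L with
  | nil => simp [ev_one]
  | cons P L ih => rw [List.prod_cons, ev_mul, ih, List.map_cons, List.prod_cons]

/-- the polynomial of the third coordinate -/
noncomputable def Zp (u : Z3) : ℤ[X][X] :=
  C (C u.2.2 + X * C (2 * u.2.1) - X ^ 2 * C u.2.2) - X * C (C (2 * u.1)) -
    X ^ 2 * C (C u.2.2)

theorem ev_Zp (u : Z3) (q : ℝ × ℝ) :
    ev (Zp u) q = (Qm (1 : ℝ) q.1 q.2 *ᵥ toV u) 2 := by
  simp [ev, fib, evS, Zp, Qm, Matrix.mulVec, dotProduct, Fin.sum_univ_three, toV]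
  ring

theorem Zp_ne_zero (u : Z3) (hu : (toV u : P3) ≠ 0) : Zp u ≠ 0 := by
  intro h
  have hev : ∀ q : ℝ × ℝ, (Qm (1 : ℝ) q.1 q.2 *ᵥ toV u) 2 = 0 := by
    intro q
    rw [← ev_Zp, h]
    simp [ev, fib]
  apply hu
  have e1 := hev (0, 0)
  have e2 := hev (1, 0)
  have e3 := hev (0, 1)
  simp [Qm, Matrix.mulVec, dotProduct, Fin.sum_univ_three, toV] at e1 e2 e3
  ext i
  fin_cases i
  · simp [toV, e3]
  · simp [toV, e2]
  · simp [toV, e1]

/-- the third row -/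
theorem row_cont : Continuous fun q : ℝ × ℝ => (Qm (1 : ℝ) q.1 q.2 2 : P3) := by
  refine continuous_pi fun i => ?_
  fin_cases i <;> simp [Qm] <;> fun_prop

/-- an open cone of directions gives an open set of points of the plane -/
theorem exists_open (O : Set P3) (hO : IsOpen O) (hne : O.Nonempty)
    (hcone : ∀ p ∈ O, ∀ l : ℝ, 0 < l → l • p ∈ O) :
    IsOpen {q : ℝ × ℝ | (Qm (1 : ℝ) q.1 q.2 2 : P3) ∈ O} ∧
      {q : ℝ × ℝ | (Qm (1 : ℝ) q.1 q.2 2 : P3) ∈ O}.Nonempty := by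
  refine ⟨hO.preimage row_cont, ?_⟩
  obtain ⟨p, hp⟩ := hne
  have : ∃ p' ∈ O, p' 0 ≠ 0 ∨ p' 1 ≠ 0 := by
    by_cases h0 : p 0 ≠ 0 ∨ p 1 ≠ 0
    · exact ⟨p, hp, h0⟩
    · push Not at h0
      have hc : Continuous fun δ : ℝ => p + δ • (![1, 0, 0] : P3) := by fun_prop
      have h1 : {δ : ℝ | p + δ • (![1, 0, 0] : P3) ∈ O} ∈ nhds (0 : ℝ) := by
        apply (hO.preimage hc).mem_nhds
        rw [Set.mem_preimage, zero_smul, add_zero]
        exact hp
      obtain ⟨ε, hε, hb⟩ := Metric.mem_nhds_iff.1 h1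
      have h2 : p + (ε / 2) • (![1, 0, 0] : P3) ∈ O := by
        apply hb
        rw [Metric.mem_ball, dist_zero_right, Real.norm_eq_abs, abs_of_pos (by positivity)]
        linarith
      refine ⟨_, h2, Or.inl ?_⟩
      simp [h0.1]
      exact hε.ne'
  obtain ⟨p', hp', h⟩ := this
  obtain ⟨q, l, hl, e⟩ := exists_row p' h
  exact ⟨q, by
    change (Qm (1 : ℝ) q.1 q.2 2 : P3) ∈ O
    rw [e]
    exact hcone p' hp' l hl⟩

theorem yq_two {n : ℕ} (u : Fin n → P3) (q : ℝ × ℝ) (v : Fin n) :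
    yq u q v 2 = (Qm (1 : ℝ) q.1 q.2 2 : P3) ⬝ᵥ u v := rfl

theorem one_pos' (q : ℝ × ℝ) : (0 : ℝ) < 1 ^ 2 + q.1 ^ 2 + q.2 ^ 2 := by positivity

theorem yq_eq {n : ℕ} (u : Fin n → P3) (q : ℝ × ℝ) (v : Fin n) :
    yq u q v = (1 ^ 2 + q.1 ^ 2 + q.2 ^ 2) • (Rq 1 q.1 q.2 *ᵥ u v) := by
  unfold yq
  rw [Qm_eq_Rq _ _ _ (one_pos' q), Matrix.smul_mulVec]

theorem isRot_Rq (q : ℝ × ℝ) : IsRot (Rq 1 q.1 q.2) := isRot_Qm _ _ _ (one_pos' q)

theorem row_eq (q : ℝ × ℝ) :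
    (Qm (1 : ℝ) q.1 q.2 2 : P3) = (1 ^ 2 + q.1 ^ 2 + q.2 ^ 2) • (Rq 1 q.1 q.2 2 : P3) := by
  have := Qm_eq_Rq 1 q.1 q.2 (one_pos' q)
  conv_lhs => rw [this]
  rfl

theorem cr_yq {n : ℕ} (u : Fin n → P3) (q : ℝ × ℝ) (a b : Fin n) :
    cr (yq u q a) (yq u q b) =
      (1 ^ 2 + q.1 ^ 2 + q.2 ^ 2) * det3 (Qm (1 : ℝ) q.1 q.2 2 : P3) (u a) (u b) := by
  have h := row_eq q
  set c := (1 : ℝ) ^ 2 + q.1 ^ 2 + q.2 ^ 2 with hc
  rw [yq_eq, yq_eq, cr_smul, cr_rot (isRot_Rq q), h]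
  have : det3 (c • (Rq 1 q.1 q.2 2 : P3)) (u a) (u b) =
      c * det3 (Rq 1 q.1 q.2 2 : P3) (u a) (u b) := by
    have := det3_smul c 1 1 (Rq 1 q.1 q.2 2 : P3) (u a) (u b)
    simpa using this
  rw [this]
  ring

theorem cr_yq_ne {n : ℕ} (u : Fin n → P3) (q : ℝ × ℝ) (a b : Fin n) :
    cr (yq u q a) (yq u q b) ≠ 0 ↔ det3 (Qm (1 : ℝ) q.1 q.2 2 : P3) (u a) (u b) ≠ 0 := by
  rw [cr_yq]
  have := one_pos' q
  constructor
  · intro h h0
    exact h (by rw [h0, mul_zero])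
  · intro h
    exact mul_ne_zero this.ne' h

theorem LPF_yq {n : ℕ} (Adj : Fin n → Fin n → Prop) (u : Fin n → P3) (q : ℝ × ℝ) :
    LPF Adj (yq u q) ↔ LPFp Adj u (Qm (1 : ℝ) q.1 q.2 2 : P3) := by
  rw [row_eq, LPFp_smul _ _ _ _ (one_pos' q), ← LPF_iff_LPFp Adj u (isRot_Rq q) _ (one_pos' q)]
  have : (fun v => ((1 ^ 2 + q.1 ^ 2 + q.2 ^ 2 : ℝ) • Rq 1 q.1 q.2) *ᵥ u v) = yq u q := by
    funext v
    rw [Matrix.smul_mulVec, yq_eq]
  rw [this]

/-- uniform scaling -/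
theorem Above_smul {V : Type*} {x : V → P3} {c : ℝ} (hc : 0 < c) (w u v : V) :
    Above (fun v => c • x v) w u v ↔ Above x w u v := by
  unfold Above InSec
  simp only [cr_smul, det3_smul]
  have e1 : c * c * cr (x u) (x w) * (c * c * cr (x u) (x v)) =
      c ^ 4 * (cr (x u) (x w) * cr (x u) (x v)) := by ring
  have e2 : c * c * cr (x w) (x v) * (c * c * cr (x u) (x v)) =
      c ^ 4 * (cr (x w) (x v) * cr (x u) (x v)) := by ring
  have e3 : c * c * c * det3 (x u) (x v) (x w) * (c * c * cr (x u) (x v)) =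
      c ^ 5 * (det3 (x u) (x v) (x w) * cr (x u) (x v)) := by ring
  have h4 : 0 < c ^ 4 := by positivity
  have h5 : 0 < c ^ 5 := by positivity
  rw [e1, e2, e3, mul_pos_iff_of_pos_left h4, mul_pos_iff_of_pos_left h4]
  have : c ^ 5 * (det3 (x u) (x v) (x w) * cr (x u) (x v)) < 0 ↔
      det3 (x u) (x v) (x w) * cr (x u) (x v) < 0 := by
    constructor
    · intro h
      by_contra h'
      exact absurd h (not_lt.2 (mul_nonneg h5.le (not_lt.1 h')))
    · intro h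
      exact mul_neg_of_pos_of_neg h5 h
  rw [this]

theorem IsTopMap_smul {V : Type*} {Adj : V → V → Prop} {x : V → P3} {c : ℝ} (hc : 0 < c)
    {N : V → Option (V × V)} :
    IsTopMap Adj (fun v => c • x v) N ↔ IsTopMap Adj x N := by
  have h2 : 0 < c * c := by positivity
  have key : ∀ v a b a' b' : V,
      (-det3 (c • x a) (c • x b) (c • x v) * cr (c • x a') (c • x b') ≤
        -det3 (c • x a') (c • x b') (c • x v) * cr (c • x a) (c • x b)) ↔
      (-det3 (x a) (x b) (x v) * cr (x a') (x b') ≤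
        -det3 (x a') (x b') (x v) * cr (x a) (x b)) := by
    intro v a b a' b'
    simp only [cr_smul, det3_smul]
    have e1 : -(c * c * c * det3 (x a) (x b) (x v)) * (c * c * cr (x a') (x b')) =
      c ^ 5 * (-det3 (x a) (x b) (x v) * cr (x a') (x b')) := by ring
    have e2 : -(c * c * c * det3 (x a') (x b') (x v)) * (c * c * cr (x a) (x b)) =
      c ^ 5 * (-det3 (x a') (x b') (x v) * cr (x a) (x b)) := by ring
    have h5 : 0 < c ^ 5 := by positivity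
    rw [e1, e2, mul_le_mul_iff_right₀ h5]
  constructor
  · intro h
    refine ⟨fun v hv a b hab => ?_, fun v a b hv => ?_, fun v a b hv a' b' h1 h3 h4 => ?_⟩
    · rw [← Above_smul hc]
      exact h.hnone v hv a b hab
    · obtain ⟨h1, h3, h4⟩ := h.hsome v a b hv
      rw [cr_smul] at h3
      exact ⟨h1, (mul_pos_iff_of_pos_left h2).1 h3, (Above_smul hc _ _ _).1 h4⟩
    · rw [← key]
      refine h.hlow v a b hv a' b' h1 ?_ ((Above_smul hc _ _ _).2 h4)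
      rw [cr_smul]
      exact mul_pos h2 h3
  · intro h
    refine ⟨fun v hv a b hab => ?_, fun v a b hv => ?_, fun v a b hv a' b' h1 h3 h4 => ?_⟩
    · rw [Above_smul hc]
      exact h.hnone v hv a b hab
    · obtain ⟨h1, h3, h4⟩ := h.hsome v a b hv
      refine ⟨h1, ?_, (Above_smul hc _ _ _).2 h4⟩
      rw [cr_smul]
      exact mul_pos h2 h3
    · rw [key]
      rw [cr_smul] at h3
      exact h.hlow v a b hv a' b' h1 ((mul_pos_iff_of_pos_left h2).1 h3)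
        ((Above_smul hc _ _ _).1 h4)

theorem TopTriple_smul {V : Type*} {x : V → P3} {c : ℝ} (hc : 0 < c)
    {N : V → Option (V × V)} (h : TopTriple x N) : TopTriple (fun v => c • x v) N := by
  have h2 : 0 < c * c := by positivity
  obtain ⟨A, B, C, h0, h1, h3, h4⟩ := h
  refine ⟨A, B, C, h0, ?_, ?_, ?_⟩ <;> rw [cr_smul] <;> positivity

theorem NF_smul {V : Type*} {x : V → P3} {c : ℝ} (hc : 0 < c)
    {N : V → Option (V × V)} (h : NF x N) : NF (fun v => c • x v) N := by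
  obtain ⟨y, h1, h3⟩ := h
  refine ⟨y, h1, fun v a b hv => ?_⟩
  have := h3 v a b hv
  simp only [cr_smul]
  have h2 : 0 < c * c := by positivity
  nlinarith [mul_pos h2 (sub_pos.2 this)]

end Pool.Agent.Sink
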