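import Pool.Agent.Lib.MP_93b8a0_lc.Defs2

/-!
# MP_93b8a0_lc module MMAT: M-matrix lemmas
-/

open Matrix Polynomial

namespace Pool.Agent.Sink

open Pool.Agent.PolyTime Pool.Agent.SparseNP

theorem NM_row_none {R : Type*} [CommRing R] {n : ℕ} (x : Fin n → Fin 3 → R)
    (N : Fin n → Option (Fin n × Fin n)) (z : Fin n → R) (v : Fin n) (h : N v = none) :
    (NM x N *ᵥ z) v = z v := by
  simp only [NM, mulVec, dotProduct, Matrix.of_apply, h]
  simp

theorem NM_row_some {R : Type*} [CommRing R] {n : ℕ} (x : Fin n → Fin 3 → R)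
    (N : Fin n → Option (Fin n × Fin n)) (z : Fin n → R) (v a b : Fin n) (h : N v = some (a, b)) :
    (NM x N *ᵥ z) v =
      cr (x a) (x b) * z v - cr (x v) (x b) * z a - cr (x a) (x v) * z b := by
  simp only [NM, mulVec, dotProduct, Matrix.of_apply, h]
  simp [sub_mul, Finset.sum_sub_distrib]

theorem topMap_signs {n : ℕ} {Adj : Fin n → Fin n → Prop} {x : Fin n → P3}
    {N : Fin n → Option (Fin n × Fin n)} (hN : IsTopMap Adj x N) {v a b : Fin n}
    (h : N v = some (a, b)) :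
    0 < cr (x a) (x b) ∧ 0 < cr (x v) (x b) ∧ 0 < cr (x a) (x v) := by
  obtain ⟨_, h1, ⟨h2, h3⟩, _⟩ := hN.hsome v a b h
  exact ⟨h1, (pos_iff_pos_of_mul_pos h3).2 h1, (pos_iff_pos_of_mul_pos h2).2 h1⟩

/-- comparison: `M z > 0` implies `z > 0` -/
theorem pos_of_NF {n : ℕ} {Adj : Fin n → Fin n → Prop} {x : Fin n → P3}
    {N : Fin n → Option (Fin n × Fin n)} (hN : IsTopMap Adj x N) (h : NF x N)
    (z : Fin n → ℝ) (hz : ∀ v, 0 < (NM x N *ᵥ z) v) : ∀ v, 0 < z v := by
  obtain ⟨y, hy, hy2⟩ := h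
  intro v0
  have : Nonempty (Fin n) := ⟨v0⟩
  obtain ⟨v, hv⟩ := Finite.exists_min (fun v => z v / y v)
  by_contra hcon
  have hρ : z v / y v ≤ 0 := (hv v0).trans
    (div_nonpos_of_nonpos_of_nonneg (not_lt.1 hcon) (hy v0).le)
  set ρ := z v / y v with hρd
  have hzv : z v = ρ * y v := by rw [hρd, div_mul_cancel₀ _ (hy v).ne']
  have hge : ∀ u, ρ * y u ≤ z u := fun u => (le_div_iff₀ (hy u)).1 (hv u)
  cases hNv : N v with
  | none =>
    have h1 := hz v
    rw [NM_row_none x N z v hNv, hzv] at h1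
    nlinarith [hy v]
  | some e =>
    obtain ⟨a, b⟩ := e
    have h1 := hz v
    rw [NM_row_some x N z v a b hNv, hzv] at h1
    obtain ⟨s1, s2, s3⟩ := topMap_signs hN hNv
    have h2 := hy2 v a b hNv
    have h3 := mul_le_mul_of_nonneg_left (hge a) s2.le
    have h4 := mul_le_mul_of_nonneg_left (hge b) s3.le
    have h5 : ρ * (cr (x a) (x b) * y v - (cr (x v) (x b) * y a + cr (x a) (x v) * y b)) ≤ 0 :=
      mul_nonpos_of_nonpos_of_nonneg hρ (by linarith)
    nlinarith

theorem det_ne_zero_of_NF {n : ℕ} {Adj : Fin n → Fin n → Prop} {x : Fin n → P3}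
    {N : Fin n → Option (Fin n × Fin n)} (hN : IsTopMap Adj x N) (h : NF x N) :
    (NM x N).det ≠ 0 := by
  intro hdet
  obtain ⟨z, hz0, hz⟩ := Matrix.exists_mulVec_eq_zero_iff.2 hdet
  obtain ⟨y, hy, hy2⟩ := h
  obtain ⟨v0, hv0⟩ := Function.ne_iff.1 hz0
  have : Nonempty (Fin n) := ⟨v0⟩
  obtain ⟨v, hv⟩ := Finite.exists_max (fun v => |z v| / y v)
  have hρ : 0 < |z v| / y v := lt_of_lt_of_le (div_pos (abs_pos.2 hv0) (hy v0)) (hv v0)
  set ρ := |z v| / y v with hρd
  have hzv : |z v| = ρ * y v := by rw [hρd, div_mul_cancel₀ _ (hy v).ne']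
  have hle : ∀ u, |z u| ≤ ρ * y u := fun u => (div_le_iff₀ (hy u)).1 (hv u)
  cases hNv : N v with
  | none =>
    have h1 := congrFun hz v
    rw [NM_row_none x N z v hNv] at h1
    have h2 : |z v| = 0 := by rw [h1]; simp
    rw [h2] at hzv
    have := mul_pos hρ (hy v)
    linarith
  | some e =>
    obtain ⟨a, b⟩ := e
    have h1 := congrFun hz v
    rw [NM_row_some x N z v a b hNv, Pi.zero_apply] at h1
    obtain ⟨s1, s2, s3⟩ := topMap_signs hN hNv
    have h2 := hy2 v a b hNv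
    have h3 : cr (x a) (x b) * |z v| ≤ cr (x v) (x b) * |z a| + cr (x a) (x v) * |z b| := by
      have h4 : cr (x a) (x b) * z v = cr (x v) (x b) * z a + cr (x a) (x v) * z b := by linarith
      calc cr (x a) (x b) * |z v| = |cr (x a) (x b) * z v| := by rw [abs_mul, abs_of_pos s1]
        _ = |cr (x v) (x b) * z a + cr (x a) (x v) * z b| := by rw [h4]
        _ ≤ |cr (x v) (x b) * z a| + |cr (x a) (x v) * z b| := abs_add_le _ _
        _ = _ := by rw [abs_mul, abs_mul, abs_of_pos s2, abs_of_pos s3]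
    have h4 := mul_le_mul_of_nonneg_left (hle a) s2.le
    have h5 := mul_le_mul_of_nonneg_left (hle b) s3.le
    rw [hzv] at h3
    have h6 := mul_lt_mul_of_pos_left h2 hρ
    nlinarith

/-- a nonnegative solution of `M z = 1` is positive and proves `NF` -/
theorem NF_of_nonneg {n : ℕ} {Adj : Fin n → Fin n → Prop} {x : Fin n → P3}
    {N : Fin n → Option (Fin n × Fin n)} (hN : IsTopMap Adj x N)
    (z : Fin n → ℝ) (hz : NM x N *ᵥ z = 1) (h0 : ∀ v, 0 ≤ z v) : (∀ v, 0 < z v) ∧ NF x N := by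
  have hpos : ∀ v, 0 < z v := by
    intro v
    have h1 := congrFun hz v
    cases hNv : N v with
    | none =>
      rw [NM_row_none x N z v hNv, Pi.one_apply] at h1
      rw [h1]; exact one_pos
    | some e =>
      obtain ⟨a, b⟩ := e
      rw [NM_row_some x N z v a b hNv, Pi.one_apply] at h1
      obtain ⟨s1, s2, s3⟩ := topMap_signs hN hNv
      have h2 := mul_nonneg s2.le (h0 a)
      have h3 := mul_nonneg s3.le (h0 b)
      by_contra hcon
      have h4 : z v = 0 := le_antisymm (not_lt.1 hcon) (h0 v)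
      rw [h4] at h1
      nlinarith
  refine ⟨hpos, z, hpos, ?_⟩
  intro v a b hNv
  have h1 := congrFun hz v
  rw [NM_row_some x N z v a b hNv, Pi.one_apply] at h1
  linarith

theorem NM_continuous {n : ℕ} (u : Fin n → P3) (N : Fin n → Option (Fin n × Fin n)) :
    Continuous fun q : ℝ × ℝ => NM (yq u q) N := by
  have hy : ∀ v i, Continuous fun q : ℝ × ℝ => yq u q v i := by
    intro v i
    unfold yq Qm
    simp only [mulVec, dotProduct]
    refine continuous_finsetSum _ fun j _ => Continuous.mul ?_ continuous_const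
    fin_cases i <;> fin_cases j <;> simp <;> fun_prop
  have hc : ∀ a b, Continuous fun q : ℝ × ℝ => cr (yq u q a) (yq u q b) := by
    intro a b
    unfold cr
    exact ((hy a 0).mul (hy b 1)).sub ((hy a 1).mul (hy b 0))
  refine continuous_matrix fun v w => ?_
  simp only [NM, Matrix.of_apply]
  cases N v with
  | none => exact continuous_const
  | some e =>
    refine Continuous.sub (Continuous.sub ?_ ?_) ?_
    · split_ifs
      · exact hc _ _
      · exact continuous_const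
    · split_ifs
      · exact hc _ _
      · exact continuous_const
    · split_ifs
      · exact hc _ _
      · exact continuous_const

theorem NF_const {n : ℕ} {Adj : Fin n → Fin n → Prop} {u : Fin n → P3}
    {N : Fin n → Option (Fin n × Fin n)} {U : Set (ℝ × ℝ)} (hU : IsPreconnected U)
    (hN : ∀ q ∈ U, IsTopMap Adj (yq u q) N) (hdet : ∀ q ∈ U, (NM (yq u q) N).det ≠ 0)
    {q q' : ℝ × ℝ} (hq : q ∈ U) (hq' : q' ∈ U) (h : NF (yq u q) N) : NF (yq u q') N := by
  rcases isEmpty_or_nonempty (Fin n) with hE | hne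
  · exact ⟨fun _ => 1, fun v => (hE.false v).elim, fun v => (hE.false v).elim⟩
  let z : ℝ × ℝ → Fin n → ℝ := fun q =>
    (NM (yq u q) N).det⁻¹ • ((NM (yq u q) N).adjugate *ᵥ 1)
  have hz : ∀ q ∈ U, NM (yq u q) N *ᵥ z q = 1 := by
    intro q hq
    simp only [z]
    rw [mulVec_smul, mulVec_mulVec, mul_adjugate, smul_mulVec, one_mulVec, smul_smul,
      inv_mul_cancel₀ (hdet q hq), one_smul]
  have hzc : ∀ v, ContinuousOn (fun q => z q v) U := by
    intro v
    have h1 : ContinuousOn (fun q => (NM (yq u q) N).det⁻¹) U :=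
      (NM_continuous u N).matrix_det.continuousOn.inv₀ hdet
    have h2 : Continuous fun q => ((NM (yq u q) N).adjugate *ᵥ (1 : Fin n → ℝ)) v :=
      (continuous_apply v).comp ((NM_continuous u N).matrix_adjugate.matrix_mulVec continuous_const)
    exact h1.mul h2.continuousOn
  let f : ℝ × ℝ → ℝ := fun q => Finset.univ.inf' Finset.univ_nonempty (z q)
  have hfc : ContinuousOn f U := ContinuousOn.finset_inf'_apply _ fun v _ => hzc v
  by_contra hcon
  have hfq : 0 < f q := by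
    have h1 := pos_of_NF (hN q hq) h (z q) (by
      intro v; rw [hz q hq, Pi.one_apply]; exact one_pos)
    exact (Finset.lt_inf'_iff _).2 fun v _ => h1 v
  have hfq' : f q' < 0 := by
    by_contra h1
    apply hcon
    refine (NF_of_nonneg (hN q' hq') (z q') (hz q' hq') ?_).2
    intro v
    exact (not_lt.1 h1).trans (Finset.inf'_le _ (Finset.mem_univ v))
  obtain ⟨p, hp, hfp⟩ := hU.intermediate_value hq' hq hfc ⟨hfq'.le, hfq.le⟩
  have h1 : ∀ v, 0 ≤ z p v := by
    intro v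
    rw [← hfp]
    exact Finset.inf'_le _ (Finset.mem_univ v)
  have h2 := (NF_of_nonneg (hN p hp) (z p) (hz p hp) h1).1
  have h3 : 0 < f p := (Finset.lt_inf'_iff _).2 fun v _ => h2 v
  rw [hfp] at h3
  exact lt_irrefl _ h3

theorem NM_map {n : ℕ} (w : Fin n → Fin 3 → ℤ) (N : Fin n → Option (Fin n × Fin n)) :
    (NM w N).map (Int.castRingHom ℝ) = NM (fun v i => (w v i : ℝ)) N := by
  ext v u
  simp only [NM, Matrix.map_apply, Matrix.of_apply]
  cases N v with
  | none => split_ifs <;> simp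
  | some e =>
    simp only [cr]
    split_ifs <;> simp

theorem NM_entry_le {n : ℕ} (w : Fin n → Fin 3 → ℤ) (N : Fin n → Option (Fin n × Fin n)) (L : ℕ)
    (hw : ∀ v i, |w v i| ≤ 2 ^ L) (v u : Fin n) : |NM w N v u| ≤ 2 ^ (2 * L + 3) := by
  have hcr : ∀ a b, |cr (w a) (w b)| ≤ 2 ^ (2 * L + 1) := by
    intro a b
    unfold cr
    have h1 : |w a 0 * w b 1| ≤ 2 ^ L * 2 ^ L := by
      rw [abs_mul]; exact mul_le_mul (hw _ _) (hw _ _) (abs_nonneg _) (by positivity)
    have h2 : |w a 1 * w b 0| ≤ 2 ^ L * 2 ^ L := by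
      rw [abs_mul]; exact mul_le_mul (hw _ _) (hw _ _) (abs_nonneg _) (by positivity)
    have h3 : (2 : ℤ) ^ (2 * L + 1) = 2 ^ L * 2 ^ L + 2 ^ L * 2 ^ L := by ring
    rw [h3]
    exact (abs_sub _ _).trans (add_le_add h1 h2)
  have hK : (1 : ℤ) ≤ 2 ^ (2 * L + 1) := one_le_pow₀ (by norm_num)
  have h4 : (2 : ℤ) ^ (2 * L + 3) = 4 * 2 ^ (2 * L + 1) := by ring
  simp only [NM, Matrix.of_apply]
  rw [h4]
  cases N v with
  | none =>
    split_ifs
    · simp; linarith
    · simp
  | some e =>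
    have hif : ∀ (P : Prop) [Decidable P] (c : ℤ), |c| ≤ 2 ^ (2 * L + 1) →
        |if P then c else 0| ≤ 2 ^ (2 * L + 1) := by
      intro P _ c hc
      split_ifs
      · exact hc
      · simp
    have a1 := hif (u = v) _ (hcr e.1 e.2)
    have a2 := hif (u = e.1) _ (hcr v e.2)
    have a3 := hif (u = e.2) _ (hcr e.1 v)
    refine (abs_sub _ _).trans ?_
    refine (add_le_add (abs_sub _ _) le_rfl).trans ?_
    linarith

/-- for integral vectors: an integral solution of bounded size -/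
theorem exists_int_of_NF {n : ℕ} {Adj : Fin n → Fin n → Prop} (w : Fin n → Fin 3 → ℤ)
    {N : Fin n → Option (Fin n × Fin n)}
    (hN : IsTopMap Adj (fun v i => (w v i : ℝ)) N) (h : NF (fun v i => (w v i : ℝ)) N) (L : ℕ)
    (hw : ∀ v i, |w v i| ≤ 2 ^ L) : ∃ y : Fin n → ℤ, (∀ v, 1 ≤ y v) ∧
      (∀ v, 1 ≤ (NM w N *ᵥ y) v) ∧ (∀ v, y v ≤ 2 ^ ((2 * L + n + 4) * (n + 1))) ∧
      (∀ v, (NM w N *ᵥ y) v ≤ 2 ^ ((2 * L + n + 4) * (n + 1))) := by
  set M := NM w N with hM
  have hdetR : (NM (fun v i => (w v i : ℝ)) N).det ≠ 0 := det_ne_zero_of_NF hN h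
  have hdet : M.det ≠ 0 := by
    intro h0
    apply hdetR
    rw [← NM_map, ← RingHom.mapMatrix_apply, ← RingHom.map_det, ← hM, h0, map_zero]
  let y : Fin n → ℤ := M.det.sign • (M.adjugate *ᵥ 1)
  have hMy : M *ᵥ y = fun _ => |M.det| := by
    simp only [y]
    rw [mulVec_smul, mulVec_mulVec, mul_adjugate, smul_mulVec, one_mulVec, smul_smul]
    ext v
    simp
  -- sizes
  have hent := NM_entry_le w N L hw
  have hx1 : (1 : ℤ) ≤ 2 ^ (2 * L + 3) := one_le_pow₀ (by norm_num)
  have hdetle : ∀ A : Matrix (Fin n) (Fin n) ℤ, (∀ i j, |A i j| ≤ 2 ^ (2 * L + 3)) →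
      |A.det| ≤ (n.factorial : ℤ) * (2 ^ (2 * L + 3)) ^ n := by
    intro A hA
    have := Matrix.det_le (A := A) (abv := AbsoluteValue.abs) (x := 2 ^ (2 * L + 3)) hA
    simpa using this
  have hfac : ((n : ℤ) + 1) * ((n.factorial : ℤ) * (2 ^ (2 * L + 3)) ^ n) ≤
      2 ^ ((2 * L + n + 4) * (n + 1)) := by
    have h1 : (n + 1) * n.factorial ≤ 2 ^ ((n + 1) * (n + 1)) := by
      calc (n + 1) * n.factorial = (n + 1).factorial := (Nat.factorial_succ n).symm
        _ ≤ (n + 1) ^ (n + 1) := Nat.factorial_le_pow _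
        _ ≤ (2 ^ (n + 1)) ^ (n + 1) := Nat.pow_le_pow_left Nat.lt_two_pow_self.le _
        _ = _ := by rw [← pow_mul]
    have h2 : ((2 : ℤ) ^ (2 * L + 3)) ^ n ≤ 2 ^ ((2 * L + 3) * (n + 1)) := by
      rw [← pow_mul]
      exact pow_le_pow_right₀ (by norm_num) (Nat.mul_le_mul_left _ (Nat.le_succ n))
    have h1' : ((n : ℤ) + 1) * (n.factorial : ℤ) ≤ 2 ^ ((n + 1) * (n + 1)) := by exact_mod_cast h1
    calc ((n : ℤ) + 1) * ((n.factorial : ℤ) * (2 ^ (2 * L + 3)) ^ n)
        = (((n : ℤ) + 1) * (n.factorial : ℤ)) * (2 ^ (2 * L + 3)) ^ n := by ring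
      _ ≤ 2 ^ ((n + 1) * (n + 1)) * 2 ^ ((2 * L + 3) * (n + 1)) :=
          mul_le_mul h1' h2 (by positivity) (by positivity)
      _ = 2 ^ ((2 * L + n + 4) * (n + 1)) := by rw [← pow_add]; congr 1; ring
  have hbase : (0 : ℤ) ≤ (n.factorial : ℤ) * (2 ^ (2 * L + 3)) ^ n := by positivity
  have hadj : ∀ i j, |M.adjugate i j| ≤ (n.factorial : ℤ) * (2 ^ (2 * L + 3)) ^ n := by
    intro i j
    rw [adjugate_apply]
    apply hdetle
    intro i' j'
    rw [updateRow_apply]
    split_ifs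
    · rw [Pi.single_apply]
      split_ifs
      · simpa using hx1
      · simp
    · exact hent _ _
  refine ⟨y, ?_, ?_, ?_, ?_⟩
  · -- positivity
    have hpos := pos_of_NF hN h (fun v => (y v : ℝ)) (by
      intro v
      have h1 : (NM (fun v i => (w v i : ℝ)) N *ᵥ fun v => (y v : ℝ)) v =
          (((M *ᵥ y) v : ℤ) : ℝ) := by
        rw [← NM_map]
        simp [mulVec, dotProduct, hM]
      rw [h1, hMy]
      exact_mod_cast abs_pos.2 hdet)
    intro v
    have h1 : 0 < y v := by exact_mod_cast hpos v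
    exact h1
  · intro v
    rw [hMy]
    exact Int.one_le_abs hdet
  · intro v
    have h1 : |y v| ≤ |(M.adjugate *ᵥ (1 : Fin n → ℤ)) v| := by
      simp only [y, Pi.smul_apply, smul_eq_mul, abs_mul]
      have : |M.det.sign| ≤ 1 := by
        rcases lt_trichotomy M.det 0 with h0 | h0 | h0
        · rw [Int.sign_eq_neg_one_of_neg h0]; norm_num
        · exact absurd h0 hdet
        · rw [Int.sign_eq_one_of_pos h0]; norm_num
      nlinarith [abs_nonneg ((M.adjugate *ᵥ (1 : Fin n → ℤ)) v)]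
    have h2 : |(M.adjugate *ᵥ (1 : Fin n → ℤ)) v| ≤
        (n : ℤ) * ((n.factorial : ℤ) * (2 ^ (2 * L + 3)) ^ n) := by
      simp only [mulVec, dotProduct, Pi.one_apply, mul_one]
      refine (Finset.abs_sum_le_sum_abs _ _).trans ?_
      refine (Finset.sum_le_card_nsmul _ _ _ fun j _ => hadj v j).trans ?_
      simp
    have h3 := (le_abs_self (y v)).trans (h1.trans h2)
    linarith
  · intro v
    rw [hMy]
    have h1 := hdetle M hent
    have h2 : (0 : ℤ) ≤ n * ((n.factorial : ℤ) * (2 ^ (2 * L + 3)) ^ n) := by positivity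
    show |M.det| ≤ _
    linarith

end Pool.Agent.Sink
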