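import Pool.Agent.Lib.MP_93b8a0_lc.Cone

/-!
# A longitudinal morph gives the linear program
-/

open Matrix

namespace Pool.Agent.Sink

section planar
variable {V : Type*} {Adj : V → V → Prop} {x : V → P3}

theorem NF_of_LPF {N : V → Option (V × V)} (hN : IsTopMap Adj x N) (h : LPF Adj x) :
    NF x N := by
  obtain ⟨ζ, h1, h2⟩ := h
  refine ⟨fun v => -ζ v, fun v => by have := h1 v; linarith, fun v a b hv => ?_⟩
  obtain ⟨c1, c2, c3⟩ := hN.hsome v a b hv
  have h3 := h2 a b v c1 c3.1
  have h4 : det3 (x a) (x b) (x v) < 0 := by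
    by_contra h6
    exact absurd c3.2 (not_lt.2 (mul_nonneg (not_lt.1 h6) c2.le))
  have h5 : ζ a * cr (x b) (x v) + ζ b * cr (x v) (x a) + ζ v * cr (x a) (x b) < 0 := by
    by_contra h6
    exact absurd h3 (not_lt.2 (mul_nonpos_of_nonneg_of_nonpos (not_lt.1 h6) h4.le))
  rw [cr_swap (x b) (x v), cr_swap (x v) (x a)] at h5
  linarith

theorem LPF_of_sinkable [Nontrivial V] (gen : ∀ u v, u ≠ v → cr (x u) (x v) ≠ 0)
    (h : Sinkable Adj x) : LPF Adj x := by
  obtain ⟨φ, hφ, hs⟩ := h
  -- horizontal norm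
  have hnz : ∀ v, 0 < x v 0 ^ 2 + x v 1 ^ 2 := by
    intro v
    obtain ⟨u, hu⟩ := exists_ne v
    have h1 := gen u v hu
    by_contra h2
    have h3 : x v 0 = 0 := by nlinarith [sq_nonneg (x v 0), sq_nonneg (x v 1)]
    have h4 : x v 1 = 0 := by nlinarith [sq_nonneg (x v 0), sq_nonneg (x v 1)]
    apply h1
    simp only [cr, h3, h4]
    ring
  -- the scalar product with the horizontal part
  let lam : ℝ → V → ℝ := fun t v => (φ t v 0 * x v 0 + φ t v 1 * x v 1) / (x v 0 ^ 2 + x v 1 ^ 2)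
  have hlam : ∀ t ∈ Set.Icc (0 : ℝ) 1, ∀ v, 0 < lam t v ∧ φ t v 0 = lam t v * x v 0 ∧
      φ t v 1 = lam t v * x v 1 := by
    intro t ht v
    obtain ⟨l, hl, e0, e1⟩ := hφ.long t ht v
    have : lam t v = l := by
      simp only [lam, e0, e1]
      have := hnz v
      field_simp
    rw [this]
    exact ⟨hl, e0, e1⟩
  have hlamc : ∀ v, ContinuousOn (fun t => lam t v) (Set.Icc 0 1) := by
    intro v
    have h0 : ContinuousOn (fun t => φ t v 0) (Set.Icc 0 1) :=
      (continuous_apply (0 : Fin 3)).comp_continuousOn (hφ.cont v)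
    have h1 : ContinuousOn (fun t => φ t v 1) (Set.Icc 0 1) :=
      (continuous_apply (1 : Fin 3)).comp_continuousOn (hφ.cont v)
    exact ((h0.mul continuousOn_const).add (h1.mul continuousOn_const)).div_const _
  let ζ : ℝ → V → ℝ := fun t v => φ t v 2 / lam t v
  have hζc : ∀ v, ContinuousOn (fun t => ζ t v) (Set.Icc 0 1) := by
    intro v
    have h2 : ContinuousOn (fun t => φ t v 2) (Set.Icc 0 1) :=
      (continuous_apply (2 : Fin 3)).comp_continuousOn (hφ.cont v)
    exact h2.div (hlamc v) fun t ht => (hlam t ht v).1.ne'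
  have hlam0 : ∀ v, lam 0 v = 1 := by
    intro v
    simp only [lam, hφ.start]
    have := hnz v
    field_simp
  have hζ0 : ∀ v, ζ 0 v = x v 2 := by
    intro v
    simp only [ζ, hlam0, hφ.start]
    ring
  refine ⟨ζ 1, fun v => div_neg_of_neg_of_pos (hs v)
    (hlam 1 (Set.right_mem_Icc.2 zero_le_one) v).1, ?_⟩
  intro u v w huv hw
  let D : ℝ → ℝ := fun t => ζ t u * cr (x v) (x w) + ζ t v * cr (x w) (x u) +
    ζ t w * cr (x u) (x v)
  have hDc : ContinuousOn D (Set.Icc 0 1) :=
    (((hζc u).mul continuousOn_const).add ((hζc v).mul continuousOn_const)).add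
      ((hζc w).mul continuousOn_const)
  have hD0 : D 0 = det3 (x u) (x v) (x w) := by
    simp only [D, hζ0, det3, cr]
    ring
  have huvne : u ≠ v := by
    rintro rfl
    have := hw.1
    rw [cr_self, mul_zero] at this
    exact lt_irrefl _ this
  have hcr := gen u v huvne
  have hDne : ∀ t ∈ Set.Icc (0 : ℝ) 1, D t ≠ 0 := by
    intro t ht h0
    obtain ⟨lu, eu0, eu1⟩ := hlam t ht u
    obtain ⟨lv, ev0, ev1⟩ := hlam t ht v
    obtain ⟨lw, ew0, ew1⟩ := hlam t ht w
    have eu2 : φ t u 2 = lam t u * ζ t u := by simp only [ζ]; field_simp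
    have ev2 : φ t v 2 = lam t v * ζ t v := by simp only [ζ]; field_simp
    have ew2 : φ t w 2 = lam t w * ζ t w := by simp only [ζ]; field_simp
    have hcr2 : cr (φ t u) (φ t v) = lam t u * lam t v * cr (x u) (x v) := by
      simp only [cr, eu0, eu1, ev0, ev1]
      ring
    have hne : cr (φ t u) (φ t v) ≠ 0 := by
      rw [hcr2]
      exact mul_ne_zero (by positivity) hcr
    have hdet : det3 (φ t u) (φ t v) (φ t w) = 0 := by
      have : det3 (φ t u) (φ t v) (φ t w) = lam t u * lam t v * lam t w * D t := by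
        simp only [det3, D, cr, eu0, eu1, ev0, ev1, ew0, ew1, eu2, ev2, ew2]
        ring
      rw [this, h0, mul_zero]
    have hcr3 : cr (φ t w) (φ t v) = lam t w * lam t v * cr (x w) (x v) := by
      simp only [cr, ew0, ew1, ev0, ev1]
      ring
    have hcr4 : cr (φ t u) (φ t w) = lam t u * lam t w * cr (x u) (x w) := by
      simp only [cr, eu0, eu1, ew0, ew1]
      ring
    refine (hφ.emb t ht).vertex u v w huv ⟨(hφ.emb t ht).unit w, _, _, ?_, ?_,
      pos_comb_of_inSec hne hdet⟩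
    · rw [hcr3, hcr2]
      have : lam t w * lam t v * cr (x w) (x v) / (lam t u * lam t v * cr (x u) (x v)) =
          (lam t w / lam t u) * (cr (x w) (x v) * cr (x u) (x v) / (cr (x u) (x v)) ^ 2) := by
        field_simp
      rw [this]
      exact mul_pos (div_pos lw lu) (div_pos hw.2 (by positivity))
    · rw [hcr4, hcr2]
      have : lam t u * lam t w * cr (x u) (x w) / (lam t u * lam t v * cr (x u) (x v)) =
          (lam t w / lam t v) * (cr (x u) (x w) * cr (x u) (x v) / (cr (x u) (x v)) ^ 2) := by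
        field_simp
      rw [this]
      exact mul_pos (div_pos lw lv) (div_pos hw.1 (by positivity))
  rw [← hD0]
  change 0 < D 1 * D 0
  have m0 : (0 : ℝ) ∈ Set.Icc (0 : ℝ) 1 := Set.left_mem_Icc.2 zero_le_one
  have m1 : (1 : ℝ) ∈ Set.Icc (0 : ℝ) 1 := Set.right_mem_Icc.2 zero_le_one
  by_contra hcon
  rw [not_lt] at hcon
  rcases lt_or_gt_of_ne (hDne 0 m0) with h0 | h0
  · have h1 : 0 ≤ D 1 := by
      by_contra h2
      rw [not_le] at h2
      nlinarith [mul_pos_of_neg_of_neg h2 h0]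
    obtain ⟨z, hz, h3⟩ := isPreconnected_Icc.intermediate_value m0 m1 hDc ⟨h0.le, h1⟩
    exact hDne z hz h3
  · have h1 : D 1 ≤ 0 := by
      by_contra h2
      rw [not_le] at h2
      nlinarith [mul_pos h2 h0]
    obtain ⟨z, hz, h3⟩ := isPreconnected_Icc.intermediate_value m1 m0 hDc ⟨h1, h0.le⟩
    exact hDne z hz h3

end planar

end Pool.Agent.Sink
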