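import Pool.Agent.Lib.MP_93b8a0_lc.Defs2

/-!
# The computed pattern
-/

open Matrix Polynomial

namespace Pool.Agent.Sink

theorem edges_iff (I : Input) (F : List (Fin I.n × Fin I.n × Fin I.n))
    (hI : I.1 = F.map fun f => ((f.1 : ℕ), (f.2.1 : ℕ), (f.2.2 : ℕ))) (e : ℕ × ℕ) :
    e ∈ edges I ↔ ∃ a b : Fin I.n, e = ((a : ℕ), (b : ℕ)) ∧ adj F a b := by
  unfold edges
  rw [List.mem_flatMap]
  constructor
  · rintro ⟨f, hf, he⟩
    rw [hI, List.mem_map] at hf
    obtain ⟨g, hg, rfl⟩ := hf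
    have hg' : (g.1, g.2.1, g.2.2) ∈ F := hg
    simp only [List.mem_cons, List.not_mem_nil, or_false] at he
    rcases he with rfl | rfl | rfl | rfl | rfl | rfl
    · exact ⟨g.1, g.2.1, rfl, g.2.2, by tauto⟩
    · exact ⟨g.2.1, g.1, rfl, g.2.2, by tauto⟩
    · exact ⟨g.2.1, g.2.2, rfl, g.1, by tauto⟩
    · exact ⟨g.2.2, g.2.1, rfl, g.1, by tauto⟩
    · exact ⟨g.2.2, g.1, rfl, g.2.1, by tauto⟩
    · exact ⟨g.1, g.2.2, rfl, g.2.1, by tauto⟩
  · rintro ⟨a, b, rfl, w, h⟩
    have key : ∀ f ∈ F, ((f.1 : ℕ), (f.2.1 : ℕ), (f.2.2 : ℕ)) ∈ I.1 := by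
      intro f hf
      rw [hI]
      exact List.mem_map.2 ⟨f, hf, rfl⟩
    rcases h with h | h | h | h | h | h
    · exact ⟨_, key _ h, by simp⟩
    · exact ⟨_, key _ h, by simp⟩
    · exact ⟨_, key _ h, by simp⟩
    · exact ⟨_, key _ h, by simp⟩
    · exact ⟨_, key _ h, by simp⟩
    · exact ⟨_, key _ h, by simp⟩

theorem okPat_pat (I : Input) (F : List (Fin I.n × Fin I.n × Fin I.n)) (hI : Valid I F)
    (W : List Z3) : okPat I.n (pat (edges I) W) := by
  intro e he
  unfold pat at he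
  rw [List.mem_map] at he
  obtain ⟨v, -, hv⟩ := he
  have h1 := List.mem_of_find?_eq_some hv
  obtain ⟨a, b, rfl, -⟩ := (edges_iff I F hI.faces e).1 h1
  exact ⟨a.2, b.2⟩

theorem cr_toV (a b : Z3) : cr (toV a : P3) (toV b) = ((crZ a b : ℤ) : ℝ) := by
  simp [cr, toV, crZ]

theorem det3_toV (a b c : Z3) : det3 (toV a : P3) (toV b) (toV c) = ((detZ a b c : ℤ) : ℝ) := by
  simp [det3, toV, detZ]

theorem aboveB_iff (W : List Z3) (n : ℕ) (v a b : Fin n) :
    aboveB W v a b = true ↔ 0 < cr (vW W n a) (vW W n b) ∧ Above (vW W n) v a b := by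
  unfold aboveB Above InSec vW
  rw [cr_toV, cr_toV, cr_toV, det3_toV]
  simp only [Bool.and_eq_true, decide_eq_true_eq]
  have c1 : ∀ z : ℤ, (0 : ℝ) < z ↔ 0 < z := fun z => Int.cast_pos
  constructor
  · rintro ⟨h1, h2, h3, h4⟩
    have h1' : (0 : ℝ) < ((crZ (gv W a) (gv W b) : ℤ) : ℝ) := Int.cast_pos.2 h1
    have h2' : (0 : ℝ) < ((crZ (gv W a) (gv W v) : ℤ) : ℝ) := Int.cast_pos.2 h2
    have h3' : (0 : ℝ) < ((crZ (gv W v) (gv W b) : ℤ) : ℝ) := Int.cast_pos.2 h3
    have h4' : ((detZ (gv W a) (gv W b) (gv W v) : ℤ) : ℝ) < 0 := Int.cast_lt_zero.2 h4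
    exact ⟨h1', ⟨mul_pos h2' h1', mul_pos h3' h1'⟩, mul_neg_of_neg_of_pos h4' h1'⟩
  · rintro ⟨h1, ⟨h2, h3⟩, h4⟩
    refine ⟨Int.cast_pos.1 h1, Int.cast_pos.1 ((mul_pos_iff_of_pos_right h1).1 h2),
      Int.cast_pos.1 ((mul_pos_iff_of_pos_right h1).1 h3), ?_⟩
    have h5 : ((detZ (gv W a) (gv W b) (gv W v) : ℤ) : ℝ) < 0 := by
      by_contra h6
      exact absurd h4 (not_lt.2 (mul_nonneg (not_lt.1 h6) h1.le))
    exact Int.cast_lt_zero.1 h5

/-- a list of pairs of integers with positive second entries and a member has a smallest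
fraction -/
theorem exists_min_frac {β : Type*} (l : List β) (N D : β → ℤ) (P : β → Prop)
    (hD : ∀ e ∈ l, P e → 0 < D e) (hne : ∃ e ∈ l, P e) :
    ∃ e ∈ l, P e ∧ ∀ e' ∈ l, P e' → N e * D e' ≤ N e' * D e := by
  classical
  have hfin : (l.filter fun e => decide (P e)) ≠ [] := by
    obtain ⟨e, he, hP⟩ := hne
    exact List.ne_nil_of_mem (List.mem_filter.2 ⟨he, by simpa using hP⟩)
  obtain ⟨m, hm⟩ : ∃ m, m ∈ (l.filter fun e => decide (P e)) ∧
      ∀ e' ∈ (l.filter fun e => decide (P e)), (N m : ℚ) / D m ≤ (N e' : ℚ) / D e' := by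
    obtain ⟨m, h1, h2⟩ := (l.filter fun e => decide (P e)).toFinset.exists_min_image
      (fun e => (N e : ℚ) / D e) (by
        obtain ⟨e, he, hP⟩ := hne
        exact ⟨e, by simpa using ⟨he, hP⟩⟩)
    exact ⟨m, List.mem_toFinset.1 h1, fun e' he' => h2 e' (List.mem_toFinset.2 he')⟩
  obtain ⟨hm1, hm2⟩ := hm
  rw [List.mem_filter] at hm1
  have hPm : P m := by simpa using hm1.2
  refine ⟨m, hm1.1, hPm, fun e' he' hP' => ?_⟩
  have h1 := hm2 e' (List.mem_filter.2 ⟨he', by simpa using hP'⟩)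
  have d1 : (0 : ℚ) < D m := Int.cast_pos.2 (hD m hm1.1 hPm)
  have d2 : (0 : ℚ) < D e' := Int.cast_pos.2 (hD e' he' hP')
  rw [div_le_div_iff₀ d1 d2] at h1
  exact_mod_cast h1

theorem pat_topMap (I : Input) (F : List (Fin I.n × Fin I.n × Fin I.n)) (hI : Valid I F)
    (W : List Z3) (hW : W.length = I.n) (_hc : ConeEmb (adj F) (vW W I.n)) :
    IsTopMap (adj F) (vW W I.n) (toN I.n (pat (edges I) W)) := by
  have hE := edges_iff I F hI.faces
  -- the entry of the pattern
  have hpat : ∀ v : Fin I.n, (pat (edges I) W).getD v none =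
      (edges I).find? fun e => lowB W (edges I) v e := by
    intro v
    unfold pat
    rw [List.getD_eq_getElem?_getD, List.getElem?_map, List.getElem?_range (by rw [hW]; exact v.2)]
    rfl
  have hcrZ : ∀ a b : Fin I.n, cr (vW W I.n a) (vW W I.n b) =
      ((crZ (gv W a) (gv W b) : ℤ) : ℝ) := fun a b => cr_toV _ _
  have hdetZ : ∀ a b c : Fin I.n, det3 (vW W I.n a) (vW W I.n b) (vW W I.n c) =
      ((detZ (gv W a) (gv W b) (gv W c) : ℤ) : ℝ) := fun a b c => det3_toV _ _ _
  -- the value of the pattern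
  have hsome : ∀ (v : Fin I.n) a b, toN I.n (pat (edges I) W) v = some (a, b) →
      adj F a b ∧ lowB W (edges I) v ((a : ℕ), (b : ℕ)) = true := by
    intro v a b h
    unfold toN at h
    rw [hpat] at h
    cases hf : (edges I).find? fun e => lowB W (edges I) v e with
    | none => rw [hf] at h; simp at h
    | some e =>
      rw [hf] at h
      have h1 := List.find?_some hf
      have h2 := List.mem_of_find?_eq_some hf
      obtain ⟨a', b', rfl, hab⟩ := (hE e).1 h2
      rw [Option.bind_some, dif_pos ⟨a'.2, b'.2⟩, Option.some_inj, Prod.mk.injEq] at h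
      obtain ⟨rfl, rfl⟩ := h
      exact ⟨hab, h1⟩
  refine ⟨?_, ?_, ?_⟩
  · intro v hv a b hab habove
    -- a positively oriented edge above `v`
    have hex : ∃ e ∈ edges I, aboveB W v e.1 e.2 = true := by
      have hadj : adj F b a := by
        obtain ⟨w, h⟩ := hab
        exact ⟨w, by tauto⟩
      rcases lt_trichotomy (cr (vW W I.n a) (vW W I.n b)) 0 with h0 | h0 | h0
      · refine ⟨((b : ℕ), (a : ℕ)), (hE _).2 ⟨b, a, rfl, hadj⟩, ?_⟩
        rw [aboveB_iff]
        have e1 : ∀ p q : P3, cr p q = - cr q p := fun p q => by simp only [cr]; ring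
        have e2 : ∀ p q r : P3, det3 p q r = - det3 q p r := fun p q r => by
          simp only [det3]; ring
        refine ⟨by rw [e1]; linarith, ⟨?_, ?_⟩, ?_⟩
        · have := habove.1.2
          rw [e1 (vW W I.n b) (vW W I.n v), e1 (vW W I.n b) (vW W I.n a)]
          linarith
        · have := habove.1.1
          rw [e1 (vW W I.n v) (vW W I.n a), e1 (vW W I.n b) (vW W I.n a)]
          linarith
        · have := habove.2
          rw [e2 (vW W I.n b), e1 (vW W I.n b) (vW W I.n a)]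
          linarith
      · exfalso
        have := habove.1.1
        rw [h0, mul_zero] at this
        exact lt_irrefl _ this
      · exact ⟨((a : ℕ), (b : ℕ)), (hE _).2 ⟨a, b, rfl, hab⟩, (aboveB_iff W I.n v a b).2
          ⟨h0, habove⟩⟩
    obtain ⟨e, he, hA, hmin⟩ := exists_min_frac (edges I)
      (fun e => -detZ (gv W e.1) (gv W e.2) (gv W v)) (fun e => crZ (gv W e.1) (gv W e.2))
      (fun e => aboveB W v e.1 e.2 = true) (by
        intro e he h
        unfold aboveB at h
        simp only [Bool.and_eq_true, decide_eq_true_eq] at h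
        exact h.1) hex
    have hlow : lowB W (edges I) v e = true := by
      unfold lowB
      rw [Bool.and_eq_true, List.all_eq_true]
      refine ⟨hA, fun e' he' => ?_⟩
      rw [Bool.or_eq_true, decide_eq_true_eq]
      by_cases h : aboveB W v e'.1 e'.2 = true
      · exact Or.inr (hmin e' he' h)
      · left
        simpa using h
    have hnone : (edges I).find? (fun e => lowB W (edges I) v e) = none := by
      unfold toN at hv
      rw [hpat] at hv
      cases hf : (edges I).find? fun e => lowB W (edges I) v e with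
      | none => rfl
      | some e =>
        rw [hf] at hv
        have h2 := List.mem_of_find?_eq_some hf
        obtain ⟨a', b', rfl, hab⟩ := (hE e).1 h2
        rw [Option.bind_some, dif_pos ⟨a'.2, b'.2⟩] at hv
        exact absurd hv (by simp)
    rw [List.find?_eq_none] at hnone
    exact hnone e he hlow
  · intro v a b h
    obtain ⟨h1, h2⟩ := hsome v a b h
    unfold lowB at h2
    rw [Bool.and_eq_true] at h2
    exact ⟨h1, (aboveB_iff W I.n v a b).1 h2.1⟩
  · intro v a b h a' b' hab' hc' hA'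
    obtain ⟨h1, h2⟩ := hsome v a b h
    unfold lowB at h2
    rw [Bool.and_eq_true, List.all_eq_true] at h2
    have h3 := h2.2 ((a' : ℕ), (b' : ℕ)) ((hE _).2 ⟨a', b', rfl, hab'⟩)
    rw [Bool.or_eq_true, decide_eq_true_eq] at h3
    have h4 : aboveB W v a' b' = true := (aboveB_iff W I.n v a' b').2 ⟨hc', hA'⟩
    rcases h3 with h3 | h3
    · simp only at h3
      rw [h4] at h3
      simp at h3
    · rw [hcrZ, hcrZ, hdetZ, hdetZ]
      simp only at h3
      exact_mod_cast h3

end Pool.Agent.Sink
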