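import Pool.Agent.Lib.MP_93b8a0_lc.Defs

open Matrix

namespace Pool.Agent.Sink

/-- If some face is larger than a hemisphere then all vertices are in an open hemisphere. -/
theorem exists_southern {n : ℕ} {F : List (Fin n × Fin n × Fin n)} {x : Fin n → P3}
    (hx : IsTri F x) {f : Fin n × Fin n × Fin n} (hf : f ∈ F)
    (hneg : det3 (x f.1) (x f.2.1) (x f.2.2) < 0) : ∃ p : P3, ∀ v, p ⬝ᵥ x v < 0 := by
  set A := x f.1 with hA
  set B := x f.2.1 with hB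
  set C := x f.2.2 with hC
  refine ⟨![(B 1 * C 2 - B 2 * C 1) + (C 1 * A 2 - C 2 * A 1) + (A 1 * B 2 - A 2 * B 1),
    (B 2 * C 0 - B 0 * C 2) + (C 2 * A 0 - C 0 * A 2) + (A 2 * B 0 - A 0 * B 2),
    (B 0 * C 1 - B 1 * C 0) + (C 0 * A 1 - C 1 * A 0) + (A 0 * B 1 - A 1 * B 0)], fun v => ?_⟩
  have hv := hx.face_vertex f hf v
  have hu := hx.emb.unit v
  have h1 : ∃ α β γ : ℝ, 0 ≤ α ∧ 0 ≤ β ∧ 0 ≤ γ ∧ x v = α • A + β • B + γ • C := by
    by_contra hcon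
    exact hv ⟨hu, Or.inr ⟨hneg, hcon⟩⟩
  obtain ⟨α, β, γ, hα, hβ, hγ, hxv⟩ := h1
  have hpos : 0 < α + β + γ := by
    rcases lt_or_eq_of_le (add_nonneg (add_nonneg hα hβ) hγ) with h | h
    · exact h
    · exfalso
      have e1 : α = 0 := by linarith
      have e2 : β = 0 := by linarith
      have e3 : γ = 0 := by linarith
      rw [hxv, e1, e2, e3] at hu
      simp at hu
  have key : (![(B 1 * C 2 - B 2 * C 1) + (C 1 * A 2 - C 2 * A 1) + (A 1 * B 2 - A 2 * B 1),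
    (B 2 * C 0 - B 0 * C 2) + (C 2 * A 0 - C 0 * A 2) + (A 2 * B 0 - A 0 * B 2),
    (B 0 * C 1 - B 1 * C 0) + (C 0 * A 1 - C 1 * A 0) + (A 0 * B 1 - A 1 * B 0)] : P3) ⬝ᵥ x v =
      (α + β + γ) * det3 A B C := by
    rw [hxv]
    simp only [dotProduct, Fin.sum_univ_three, Matrix.cons_val_zero, Matrix.cons_val_one,
      Matrix.cons_val, Pi.add_apply, Pi.smul_apply, smul_eq_mul, det3]
    ring
  rw [key]
  exact mul_neg_of_pos_of_neg hpos hneg

end Pool.Agent.Sink
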