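import Pool.Agent.Lib.MP_93b8a0_lc.Two

/-!
# The top face
-/

open Matrix

namespace Pool.Agent.Sink

theorem top_cr_smul (l m : ℝ) (a b : P3) : cr (l • a) (m • b) = l * m * cr a b := by
  simp only [cr, Pi.smul_apply, smul_eq_mul]; ring

theorem top_det3_smul (l m k : ℝ) (a b c : P3) :
    det3 (l • a) (m • b) (k • c) = l * m * k * det3 a b c := by
  simp only [det3, Pi.smul_apply, smul_eq_mul]; ring

theorem top_above_iff {V : Type*} {x y : V → P3} (hy : ∀ v, ∃ l : ℝ, 0 < l ∧ y v = l • x v)
    (w u v : V) : Above y w u v ↔ Above x w u v := by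
  obtain ⟨l, hl, el⟩ := hy u
  obtain ⟨m, hm, em⟩ := hy v
  obtain ⟨k, hk, ek⟩ := hy w
  unfold Above InSec
  rw [el, em, ek, top_cr_smul, top_cr_smul, top_cr_smul, top_det3_smul]
  have e1 : l * k * cr (x u) (x w) * (l * m * cr (x u) (x v)) =
      (l * k * (l * m)) * (cr (x u) (x w) * cr (x u) (x v)) := by ring
  have e2 : k * m * cr (x w) (x v) * (l * m * cr (x u) (x v)) =
      (k * m * (l * m)) * (cr (x w) (x v) * cr (x u) (x v)) := by ring
  have e3 : l * m * k * det3 (x u) (x v) (x w) * (l * m * cr (x u) (x v)) =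
      (l * m * k * (l * m)) * (det3 (x u) (x v) (x w) * cr (x u) (x v)) := by ring
  have p1 : 0 < l * k * (l * m) := by positivity
  have p2 : 0 < k * m * (l * m) := by positivity
  rw [e1, e2, e3, mul_pos_iff_of_pos_left p1, mul_pos_iff_of_pos_left p2]
  have h : 0 < l * m * k * (l * m) := by positivity
  have e4 : ∀ z : ℝ, (l * m * k * (l * m)) * z < 0 ↔ z < 0 := fun z => by
    constructor
    · intro hz
      by_contra hcon
      push Not at hcon
      nlinarith [mul_nonneg h.le hcon]
    · intro hz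
      exact mul_neg_of_pos_of_neg h hz
  rw [e4]

theorem top_tau (c₁ c₂ c₃ p₁ p₂ p₃ : ℝ) (h₁ : 0 < p₁) (h₂ : 0 < p₂) (h₃ : 0 < p₃) :
    ∃ τ : ℝ, 0 ≤ τ ∧ 0 ≤ c₁ + τ * p₁ ∧ 0 ≤ c₂ + τ * p₂ ∧ 0 ≤ c₃ + τ * p₃ ∧
      (τ = 0 ∨ c₁ + τ * p₁ = 0 ∨ c₂ + τ * p₂ = 0 ∨ c₃ + τ * p₃ = 0) := by
  have key : ∀ c p τ : ℝ, 0 < p → -c / p ≤ τ → 0 ≤ c + τ * p := by
    intro c p τ hp h
    rw [div_le_iff₀ hp] at h
    linarith
  have key' : ∀ c p : ℝ, 0 < p → c + (-c / p) * p = 0 := by
    intro c p hp
    rw [div_mul_cancel₀ _ hp.ne']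
    ring
  refine ⟨max 0 (max (-c₁ / p₁) (max (-c₂ / p₂) (-c₃ / p₃))), le_max_left _ _,
    key _ _ _ h₁ ((le_max_left _ _).trans (le_max_right _ _)),
    key _ _ _ h₂ (((le_max_left _ _).trans (le_max_right _ _)).trans (le_max_right _ _)),
    key _ _ _ h₃ (((le_max_right _ _).trans (le_max_right _ _)).trans (le_max_right _ _)), ?_⟩
  rcases max_choice 0 (max (-c₁ / p₁) (max (-c₂ / p₂) (-c₃ / p₃))) with h | h
  · exact Or.inl h
  · rw [h]
    rcases max_choice (-c₁ / p₁) (max (-c₂ / p₂) (-c₃ / p₃)) with h' | h'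
    · rw [h']
      exact Or.inr (Or.inl (key' _ _ h₁))
    · rw [h']
      rcases max_choice (-c₂ / p₂) (-c₃ / p₃) with h'' | h''
      · rw [h'']
        exact Or.inr (Or.inr (Or.inl (key' _ _ h₂)))
      · rw [h'']
        exact Or.inr (Or.inr (Or.inr (key' _ _ h₃)))

/-- coordinates in a basis -/
theorem top_cramer (A B C w : P3) (h : det3 A B C ≠ 0) :
    w = (det3 w B C / det3 A B C) • A + (det3 A w C / det3 A B C) • B +
      (det3 A B w / det3 A B C) • C := by
  have e : ∀ i, det3 A B C * w i = det3 w B C * A i + det3 A w C * B i + det3 A B w * C i := by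
    intro i
    fin_cases i <;> simp only [Fin.zero_eta, Fin.mk_one, Fin.reduceFinMk, det3] <;> ring
  ext i
  simp only [Pi.add_apply, Pi.smul_apply, smul_eq_mul]
  field_simp
  rw [mul_comm (w i), e i]

theorem top_dot_pos {w : P3} (h : w ≠ 0) : 0 < w ⬝ᵥ w := by
  have h1 : w ⬝ᵥ w = w 0 * w 0 + w 1 * w 1 + w 2 * w 2 := by
    simp [dotProduct, Fin.sum_univ_three]
  rw [h1]
  by_contra hcon
  push Not at hcon
  apply h
  have h0 := mul_self_nonneg (w 0)
  have h1 := mul_self_nonneg (w 1)
  have h2 := mul_self_nonneg (w 2)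
  ext i
  fin_cases i
  · simp only [Fin.zero_eta, Pi.zero_apply]
    exact mul_self_eq_zero.1 (by linarith)
  · simp only [Fin.mk_one, Pi.zero_apply]
    exact mul_self_eq_zero.1 (by linarith)
  · simp only [Fin.reduceFinMk, Pi.zero_apply]
    exact mul_self_eq_zero.1 (by linarith)

/-- normalisation -/
theorem top_normal {w : P3} (h : w ≠ 0) : ∃ r : ℝ, 0 < r ∧ (r • w) ⬝ᵥ (r • w) = 1 := by
  have hp := top_dot_pos h
  refine ⟨(√(w ⬝ᵥ w))⁻¹, by positivity, ?_⟩
  rw [smul_dotProduct, dotProduct_smul, smul_eq_mul, smul_eq_mul, ← mul_assoc, ← mul_inv,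
    Real.mul_self_sqrt hp.le, inv_mul_cancel₀ hp.ne']

theorem top_adj_symm {n : ℕ} {F : List (Fin n × Fin n × Fin n)} {u v : Fin n}
    (h : adj F u v) : adj F v u := by
  obtain ⟨w, h⟩ := h
  exact ⟨w, by tauto⟩

theorem topTriple_of_tri {n : ℕ} {F : List (Fin n × Fin n × Fin n)} {x : Fin n → P3}
    (hx : IsGeneric F x) (hn : 2 ≤ n) (hpos : ∀ f ∈ F, 0 < det3 (x f.1) (x f.2.1) (x f.2.2))
    {y : Fin n → P3} (hy : ∀ v, ∃ l : ℝ, 0 < l ∧ y v = l • x v)
    {N : Fin n → Option (Fin n × Fin n)} (hN : IsTopMap (adj F) y N) : TopTriple y N := by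
  have hE := hx.tri.emb
  have hpole : ∀ u v, u ≠ v → cr (x u) (x v) ≠ 0 := fun u v huv => by
    rw [← det3_north]; exact hx.poles u v huv
  have hother : ∀ v : Fin n, ∃ u, u ≠ v := fun v => by
    have : Nontrivial (Fin n) := Fin.nontrivial_iff_two_le.2 hn
    exact exists_ne v
  have hirr : ∀ u v, adj F u v → u ≠ v := by
    intro u v h huv
    subst huv
    exact hE.vertex u u u h ⟨hE.unit u, 1 / 2, 1 / 2, by norm_num, by norm_num, by
      rw [← add_smul]; norm_num⟩
  have hne0 : ∀ v, x v ≠ 0 := fun v h => by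
    have := hE.unit v
    rw [h] at this
    simp at this
  -- the face which contains the pole
  have hnorth : north ⬝ᵥ north = 1 := by
    simp [north, dotProduct, Fin.sum_univ_three]
  obtain ⟨A, B, C, hf, α, β, γ, hα, hβ, hγ, hNe⟩ : ∃ A B C : Fin n, (A, B, C) ∈ F ∧
      ∃ α β γ : ℝ, 0 < α ∧ 0 < β ∧ 0 < γ ∧ north = α • x A + β • x B + γ • x C := by
    rcases hx.tri.cover north hnorth with ⟨v, hv⟩ | ⟨u, v, huv, -, s, t, hs, ht, e⟩ |
      ⟨⟨A, B, C⟩, hf, hr⟩
    · obtain ⟨u, hu⟩ := hother v
      refine absurd ?_ (hx.poles u v hu)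
      rw [← hv]
      simp only [det3]; ring
    · refine absurd ?_ (hx.poles u v (hirr u v huv))
      rw [e]
      simp only [det3, Pi.add_apply, Pi.smul_apply, smul_eq_mul]; ring
    · have hd := hpos _ hf
      simp only at hd hr
      obtain ⟨-, ⟨-, α, β, γ, hα, hβ, hγ, e⟩ | ⟨hneg, -⟩⟩ := hr
      · exact ⟨A, B, C, hf, α, β, γ, hα, hβ, hγ, e⟩
      · exact absurd hd (not_lt.2 hneg.le)
  have hd : 0 < det3 (x A) (x B) (x C) := hpos _ hf
  have hAB : adj F A B := ⟨C, Or.inl hf⟩
  have hBC : adj F B C := ⟨A, Or.inr (Or.inr (Or.inl hf))⟩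
  have hCA : adj F C A := ⟨B, Or.inr (Or.inl hf)⟩
  have cAB : 0 < cr (x A) (x B) := by
    have : cr (x A) (x B) = γ * det3 (x A) (x B) (x C) := by
      rw [← det3_north, hNe]
      simp only [det3, Pi.add_apply, Pi.smul_apply, smul_eq_mul]; ring
    rw [this]; exact mul_pos hγ hd
  have cBC : 0 < cr (x B) (x C) := by
    have : cr (x B) (x C) = α * det3 (x A) (x B) (x C) := by
      rw [← det3_north, hNe]
      simp only [det3, Pi.add_apply, Pi.smul_apply, smul_eq_mul]; ring
    rw [this]; exact mul_pos hα hd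
  have cCA : 0 < cr (x C) (x A) := by
    have : cr (x C) (x A) = β * det3 (x A) (x B) (x C) := by
      rw [← det3_north, hNe]
      simp only [det3, Pi.add_apply, Pi.smul_apply, smul_eq_mul]; ring
    rw [this]; exact mul_pos hβ hd
  have hcy : ∀ u v, 0 < cr (x u) (x v) → 0 < cr (y u) (y v) := by
    intro u v h
    obtain ⟨l, hl, el⟩ := hy u
    obtain ⟨m, hm, em⟩ := hy v
    rw [el, em, top_cr_smul]
    positivity
  have hcy' : ∀ u v, 0 < cr (y u) (y v) → 0 < cr (x u) (x v) := by
    intro u v h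
    obtain ⟨l, hl, el⟩ := hy u
    obtain ⟨m, hm, em⟩ := hy v
    rw [el, em, top_cr_smul] at h
    exact (mul_pos_iff_of_pos_left (mul_pos hl hm)).1 h
  have n0 : north 0 = 0 := rfl
  have n1 : north 1 = 0 := rfl
  have n2 : north 2 = 1 := rfl
  -- an edge above a vertex
  have hup : ∀ v a b, adj F a b → 0 < cr (x a) (x b) → Above x v a b →
      ∃ s t τ : ℝ, 0 < s ∧ 0 < t ∧ 0 < τ ∧ s • x a + t • x b = x v + τ • north := by
    intro v a b hab h1 hv
    have v1 := (mul_pos_iff_of_pos_right h1).1 hv.1.1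
    have v2 := (mul_pos_iff_of_pos_right h1).1 hv.1.2
    have v3 : det3 (x a) (x b) (x v) < 0 := by
      have := hv.2
      by_contra hcon
      push Not at hcon
      nlinarith [mul_nonneg hcon h1.le]
    refine ⟨_, _, lin x (fun v => x v 2) a b (x v) - x v 2, div_pos v2 h1, div_pos v1 h1, ?_, ?_⟩
    · rw [det3_eq_lin a b (x v) h1.ne'] at v3
      by_contra hcon
      push Not at hcon
      nlinarith [mul_nonneg h1.le (neg_nonneg.2 hcon)]
    · rw [edge_point a b (x v) h1.ne']
      ext i
      fin_cases i <;> simp [n0, n1, n2]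
  -- no edge above `A`, `B`, `C`
  have hnot : ∀ v, (∀ τ : ℝ, 0 < τ → ∃ c₁ c₂ c₃ : ℝ, 0 < c₁ ∧ 0 < c₂ ∧ 0 < c₃ ∧
      x v + τ • north = c₁ • x A + c₂ • x B + c₃ • x C) → N v = none := by
    intro v hv
    rcases hNv : N v with _ | ⟨a, b⟩
    · rfl
    · exfalso
      obtain ⟨hab, h1, habv⟩ := hN.hsome v a b hNv
      obtain ⟨s, t, τ, hs, ht, hτ, e⟩ := hup v a b hab (hcy' _ _ h1) ((top_above_iff hy _ _ _).1 habv)
      obtain ⟨c₁, c₂, c₃, h₁, h₂, h₃, e'⟩ := hv τ hτ
      have hw0 : s • x a + t • x b ≠ 0 := by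
        intro h0
        refine hpole a b (hirr a b hab) ?_
        have : t * cr (x a) (x b) = cr (x a) (s • x a + t • x b) := by
          simp only [cr, Pi.add_apply, Pi.smul_apply, smul_eq_mul]; ring
        rw [h0] at this
        have h3 : t * cr (x a) (x b) = 0 := by
          rw [this]; simp [cr]
        rcases mul_eq_zero.1 h3 with h4 | h4
        · exact absurd h4 ht.ne'
        · exact h4
      obtain ⟨r, hr, hr1⟩ := top_normal hw0
      have hdis := hx.tri.face_edge _ hf a b hab
      rw [Set.disjoint_left] at hdis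
      refine hdis (a := r • (s • x a + t • x b)) ⟨hr1, r * s, r * t, by positivity, by positivity,
        by rw [smul_add, smul_smul, smul_smul]⟩ ⟨hr1, Or.inl ⟨hd, r * c₁, r * c₂, r * c₃,
          by positivity, by positivity, by positivity, ?_⟩⟩
      rw [e, e', smul_add, smul_add, smul_smul, smul_smul, smul_smul]
  refine ⟨A, B, C, fun v => ⟨fun hv => ?_, ?_⟩, hcy _ _ cAB, hcy _ _ cBC, hcy _ _ cCA⟩
  · -- conversely
    by_contra hcon
    push Not at hcon
    obtain ⟨hvA, hvB, hvC⟩ := hcon
    have hnab : ∀ a b, adj F a b → ¬ Above x v a b := fun a b hab h =>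
      hN.hnone v hv a b hab ((top_above_iff hy _ _ _).2 h)
    -- not in the cone of an edge
    have hcone : ∀ (a b : Fin n) (s t τ : ℝ), adj F a b → 0 < s → 0 < t → 0 < τ →
        x v + τ • north ≠ s • x a + t • x b := by
      have main : ∀ (a b : Fin n) (s t τ : ℝ), adj F a b → 0 < s → 0 < t → 0 < τ →
          0 < cr (x a) (x b) → x v + τ • north ≠ s • x a + t • x b := by
        intro a b s t τ hab hs ht hτ h1 e
        have exv : x v = s • x a + t • x b - τ • north := by rw [← e]; simp
        refine hnab a b hab ⟨⟨?_, ?_⟩, ?_⟩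
        · refine mul_pos ?_ h1
          have : cr (x a) (x v) = t * cr (x a) (x b) := by
            rw [exv]
            simp only [cr, Pi.add_apply, Pi.sub_apply, Pi.smul_apply, smul_eq_mul, n0, n1]; ring
          rw [this]; positivity
        · refine mul_pos ?_ h1
          have : cr (x v) (x b) = s * cr (x a) (x b) := by
            rw [exv]
            simp only [cr, Pi.add_apply, Pi.sub_apply, Pi.smul_apply, smul_eq_mul, n0, n1]; ring
          rw [this]; positivity
        · have : det3 (x a) (x b) (x v) = -(τ * cr (x a) (x b)) := by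
            rw [exv]
            simp only [cr, det3, Pi.add_apply, Pi.sub_apply, Pi.smul_apply, smul_eq_mul, n0, n1,
              n2]; ring
          rw [this]
          have : 0 < τ * cr (x a) (x b) * cr (x a) (x b) := by positivity
          linarith
      intro a b s t τ hab hs ht hτ e
      rcases lt_or_gt_of_ne (hpole a b (hirr a b hab)) with h1 | h1
      · refine main b a t s τ (top_adj_symm hab) ht hs hτ (by rw [cr_swap]; linarith) ?_
        rw [e, add_comm]
      · exact main a b s t τ hab hs ht hτ h1 e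
    -- not on the axis
    have haxis : ∀ c τ : ℝ, x v ≠ c • north := by
      intro c τ e
      obtain ⟨u, hu⟩ := hother v
      refine hpole u v hu ?_
      rw [e]
      simp only [cr, Pi.smul_apply, smul_eq_mul, n0, n1]; ring
    have hray : ∀ (u : Fin n) (s τ : ℝ), 0 < s → 0 < τ → x v + τ • north ≠ s • x u := by
      intro u s τ hs hτ e
      by_cases huv : u = v
      · subst huv
        by_cases hs1 : s = 1
        · subst hs1
          have := congrFun e 2
          simp only [Pi.add_apply, Pi.smul_apply, smul_eq_mul, n2] at this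
          linarith
        · refine haxis (τ / (s - 1)) 0 ?_
          have hs1' : s - 1 ≠ 0 := sub_ne_zero.2 hs1
          ext i
          have := congrFun e i
          simp only [Pi.add_apply, Pi.smul_apply, smul_eq_mul] at this ⊢
          field_simp
          linarith
      · refine hpole u v huv ?_
        have : s * cr (x u) (x v) = cr (s • x u) (x v) := by
          simp only [cr, Pi.smul_apply, smul_eq_mul]; ring
        have h3 : s * cr (x u) (x v) = 0 := by
          rw [this, ← e]
          simp only [cr, Pi.add_apply, Pi.smul_apply, smul_eq_mul, n0, n1]; ring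
        rcases mul_eq_zero.1 h3 with h4 | h4
        · exact absurd h4 hs.ne'
        · exact h4
    -- the coordinates
    have hcr := top_cramer (x A) (x B) (x C) (x v) hd.ne'
    set c₁ := det3 (x v) (x B) (x C) / det3 (x A) (x B) (x C) with hc₁
    set c₂ := det3 (x A) (x v) (x C) / det3 (x A) (x B) (x C) with hc₂
    set c₃ := det3 (x A) (x B) (x v) / det3 (x A) (x B) (x C) with hc₃
    obtain ⟨τ, hτ, k₁, k₂, k₃, hz⟩ := top_tau c₁ c₂ c₃ α β γ hα hβ hγ
    have hw : x v + τ • north =
        (c₁ + τ * α) • x A + (c₂ + τ * β) • x B + (c₃ + τ * γ) • x C := by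
      conv_lhs => rw [hcr, hNe]
      simp only [smul_add, add_smul, smul_smul]
      abel
    -- the cone of an edge, all `τ ≥ 0`
    have E : ∀ (a b : Fin n) (s t : ℝ), adj F a b → 0 < s → 0 < t →
        x v + τ • north ≠ s • x a + t • x b := by
      intro a b s t hab hs ht e
      rcases hτ.eq_or_lt with h0 | h0
      · rw [← h0, zero_smul, add_zero] at e
        exact hE.vertex a b v hab ⟨hE.unit v, s, t, hs, ht, e⟩
      · exact hcone a b s t τ hab hs ht h0 e
    have Rr : ∀ (u : Fin n) (s : ℝ), u ≠ v → 0 < s → x v + τ • north ≠ s • x u := by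
      intro u s huv hs e
      rcases hτ.eq_or_lt with h0 | h0
      · rw [← h0, zero_smul, add_zero] at e
        refine hpole u v huv ?_
        rw [e]
        simp only [cr, Pi.smul_apply, smul_eq_mul]; ring
      · exact hray u s τ hs h0 e
    have Z : x v + τ • north ≠ 0 := by
      intro e
      refine haxis (-τ) 0 ?_
      rw [neg_smul]
      exact eq_neg_of_add_eq_zero_left e
    rcases k₁.eq_or_lt with z₁ | z₁
    · rcases k₂.eq_or_lt with z₂ | z₂
      · rcases k₃.eq_or_lt with z₃ | z₃
        · rw [← z₁, ← z₂, ← z₃] at hw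
          exact Z (by rw [hw]; simp)
        · rw [← z₁, ← z₂] at hw
          exact Rr C _ (Ne.symm hvC) z₃ (by rw [hw]; simp)
      · rcases k₃.eq_or_lt with z₃ | z₃
        · rw [← z₁, ← z₃] at hw
          exact Rr B _ (Ne.symm hvB) z₂ (by rw [hw]; simp)
        · rw [← z₁] at hw
          exact E B C _ _ hBC z₂ z₃ (by rw [hw]; simp)
    · rcases k₂.eq_or_lt with z₂ | z₂
      · rcases k₃.eq_or_lt with z₃ | z₃
        · rw [← z₂, ← z₃] at hw
          exact Rr A _ (Ne.symm hvA) z₁ (by rw [hw]; simp)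
        · rw [← z₂] at hw
          exact E C A _ _ hCA z₃ z₁ (by rw [hw]; simp [add_comm])
      · rcases k₃.eq_or_lt with z₃ | z₃
        · rw [← z₃] at hw
          exact E A B _ _ hAB z₁ z₂ (by rw [hw]; simp)
        · -- all positive
          have h0 : τ = 0 := by
            rcases hz with h | h | h | h
            · exact h
            · exact absurd h z₁.ne'
            · exact absurd h z₂.ne'
            · exact absurd h z₃.ne'
          rw [h0, zero_smul, add_zero, zero_mul, zero_mul, zero_mul] at hw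
          rw [h0, zero_mul, add_zero] at z₁ z₂ z₃
          simp only [add_zero] at hw
          exact hx.tri.face_vertex _ hf v ⟨hE.unit v, Or.inl ⟨hd, c₁, c₂, c₃, z₁, z₂, z₃, hw⟩⟩
  · rintro (h | h | h)
    · subst h
      refine hnot v fun τ hτ => ⟨1 + τ * α, τ * β, τ * γ, by positivity, by positivity,
        by positivity, ?_⟩
      rw [hNe]
      simp only [smul_add, add_smul, smul_smul, one_smul]
      abel
    · subst h
      refine hnot v fun τ hτ => ⟨τ * α, 1 + τ * β, τ * γ, by positivity, by positivity,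
        by positivity, ?_⟩
      rw [hNe]
      simp only [smul_add, add_smul, smul_smul, one_smul]
      abel
    · subst h
      refine hnot v fun τ hτ => ⟨τ * α, τ * β, 1 + τ * γ, by positivity, by positivity,
        by positivity, ?_⟩
      rw [hNe]
      simp only [smul_add, add_smul, smul_smul, one_smul]
      abel

end Pool.Agent.Sink
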