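import Pool.Agent.Lib.MP_93b8a0_lc.Fin2
import Pool.Agent.Lib.MP_93b8a0_lc.Nec
import Pool.Agent.Lib.MP_93b8a0_lc.Top
import Pool.Agent.Lib.MP_93b8a0_lc.South
import Pool.Agent.Lib.MP_93b8a0_lc.Const
import Pool.Agent.Lib.MP_93b8a0_lc.MMat
import Pool.Agent.Lib.MP_93b8a0_lc.Pat

/-!
# Assembly, part 3: completeness
-/

open Matrix Polynomial

namespace Pool.Agent.Sink

open Pool.Agent.PolyTime Pool.Agent.SparseNP

theorem neg_const {U : Set (ℝ × ℝ)} (hU : IsPreconnected U) {f : ℝ × ℝ → ℝ} (hf : Continuous f)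
    (hne : ∀ q ∈ U, f q ≠ 0) {q q' : ℝ × ℝ} (hq : q ∈ U) (hq' : q' ∈ U) (h : f q < 0) :
    f q' < 0 := by
  by_contra h'
  rw [not_lt] at h'
  obtain ⟨z, hz, h0⟩ := hU.intermediate_value hq hq' hf.continuousOn ⟨h.le, h'⟩
  exact hne z hz h0

theorem cont_yq {n : ℕ} (u : Fin n → P3) (v : Fin n) (i : Fin 3) :
    Continuous fun q : ℝ × ℝ => yq u q v i := by
  unfold yq Matrix.mulVec dotProduct
  refine continuous_finsetSum _ fun j _ => ?_
  fin_cases i <;> fin_cases j <;> simp [Qm] <;> fun_prop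

/-- the product of the horizontal cross products -/
theorem prod_cr_ne {n : ℕ} (y : Fin n → P3)
    (h : ∏ i, ∏ j, (if i = j then 1 else cr (y i) (y j)) ≠ 0) (a b : Fin n) (hab : a ≠ b) :
    cr (y a) (y b) ≠ 0 := by
  rw [Finset.prod_ne_zero_iff] at h
  have h1 := h a (Finset.mem_univ _)
  rw [Finset.prod_ne_zero_iff] at h1
  have h2 := h1 b (Finset.mem_univ _)
  rwa [if_neg hab] at h2

theorem prod_cr_ne' {n : ℕ} (y : Fin n → P3) (h : ∀ a b, a ≠ b → cr (y a) (y b) ≠ 0) :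
    ∏ i, ∏ j, (if i = j then 1 else cr (y i) (y j)) ≠ 0 := by
  rw [Finset.prod_ne_zero_iff]
  intro i _
  rw [Finset.prod_ne_zero_iff]
  intro j _
  split_ifs with hij
  · exact one_ne_zero
  · exact h i j hij

/-- geometric data of a valid input at a point of the plane -/
theorem data_of_gen (I : Input) (F : List (Fin I.n × Fin I.n × Fin I.n)) (hI : Valid I F)
    (q : ℝ × ℝ) (hg : ∀ a b, a ≠ b → cr (yq (uI I) q a) (yq (uI I) q b) ≠ 0) :
    (∀ v, ∃ l : ℝ, 0 < l ∧ yq (uI I) q v = l • (Rq 1 q.1 q.2 *ᵥ I.x v)) ∧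
    IsGeneric F (fun v => Rq 1 q.1 q.2 *ᵥ I.x v) ∧ ConeEmb (adj F) (yq (uI I) q) := by
  have hs : ∀ v, ∃ l : ℝ, 0 < l ∧ yq (uI I) q v = l • (Rq 1 q.1 q.2 *ᵥ I.x v) := by
    intro v
    obtain ⟨l, hl, hu⟩ := uI_eq I hI.nonzero v
    refine ⟨(1 ^ 2 + q.1 ^ 2 + q.2 ^ 2) * l, mul_pos (one_pos' q) hl, ?_⟩
    rw [yq_eq, hu, Matrix.mulVec_smul, smul_smul]
  have hg' : ∀ a b, a ≠ b → cr (Rq 1 q.1 q.2 *ᵥ I.x a) (Rq 1 q.1 q.2 *ᵥ I.x b) ≠ 0 := by
    intro a b hab h0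
    obtain ⟨l, hl, e1⟩ := hs a
    obtain ⟨l', hl', e2⟩ := hs b
    apply hg a b hab
    rw [e1, e2, cr_smul, h0, mul_zero]
  have htri := isTri_rot hI.tri (isRot_Rq q)
  refine ⟨hs, ⟨htri, ?_, ?_⟩, coneEmb_of_isEmb htri.emb adj_symm _ hs hg'⟩
  · intro u v w a b c
    rw [det3_rot (isRot_Rq q)]
    exact hI.three u v w a b c
  · intro u v huv
    rw [det3_north]
    exact hg' u v huv

theorem ConeEmb_vW (I : Input) (F : List (Fin I.n × Fin I.n × Fin I.n)) (hI : Valid I F)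
    (r : (ℤ × ℤ) × (ℤ × ℤ)) (h1 : 0 < r.1.2) (h2 : 0 < r.2.2)
    (hg : ∀ a b, a ≠ b → cr (yq (uI I) (frac r.1, frac r.2) a)
      (yq (uI I) (frac r.1, frac r.2) b) ≠ 0) :
    ConeEmb (adj F) (vW (wsq I r) I.n) := by
  obtain ⟨hs, hgen, -⟩ := data_of_gen I F hI _ hg
  obtain ⟨-, -, hD⟩ := hom3_frac r h1 h2
  refine coneEmb_of_isEmb (x := fun v => Rq 1 (frac r.1) (frac r.2) *ᵥ I.x v)
    hgen.tri.emb adj_symm _ ?_ ?_
  · intro v
    obtain ⟨l, hl, e⟩ := hs v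
    refine ⟨((hom3 r).1 : ℝ) ^ 2 * l, by positivity, ?_⟩
    rw [vW_wsq I r h1 h2, e, smul_smul]
  · intro a b hab
    rw [← det3_north]
    exact hgen.poles a b hab

theorem vW_fun (I : Input) (r : (ℤ × ℤ) × (ℤ × ℤ)) (h1 : 0 < r.1.2) (h2 : 0 < r.2.2) :
    vW (wsq I r) I.n =
      fun v => ((hom3 r).1 : ℝ) ^ 2 • yq (uI I) (frac r.1, frac r.2) v :=
  funext fun v => vW_wsq I r h1 h2 v

theorem complete (I : Input) (F : List (Fin I.n × Fin I.n × Fin I.n)) (hI : Valid I F)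
    (R : Matrix (Fin 3) (Fin 3) ℝ) (hR : IsSinkRot F I.x R)
    (S₁ : List ((ℤ × ℤ) × (ℤ × ℤ))) (P₁ : ℤ[X][X])
    (hP₁ : ∀ q, ev P₁ q = ∏ i, ∏ j, if i = j then 1 else cr (yq (uI I) q i) (yq (uI I) q j))
    (hS₁ : ∀ q, ev P₁ q ≠ 0 → ∃ r ∈ S₁, 0 < r.1.2 ∧ 0 < r.2.2 ∧
      Linked {q | ev P₁ q ≠ 0} q (frac r.1, frac r.2))
    (L : List (List (Option (ℕ × ℕ)))) (Pσ : List (Option (ℕ × ℕ)) → ℤ[X][X])
    (hPσ : ∀ σ, okPat I.n σ → ∀ q, ev (Pσ σ) q = (NM (yq (uI I) q) (toN I.n σ)).det ^ 2)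
    (hL : ∀ σ ∈ L, okPat I.n σ ∧ Pσ σ ≠ 0)
    (hL' : ∀ r ∈ S₁, Pσ (pat (edges I) (wsq I r)) ≠ 0 → pat (edges I) (wsq I r) ∈ L)
    (P₂ : ℤ[X][X])
    (hP₂ : ∀ q, ev P₂ q =
      (∏ i, ∏ j, if i = j then 1 else cr (yq (uI I) q i) (yq (uI I) q j)) *
      ((∏ i, yq (uI I) q i 2) *
        (L.map fun σ => (NM (yq (uI I) q) (toN I.n σ)).det ^ 2).prod))
    (S₂ : List ((ℤ × ℤ) × (ℤ × ℤ)))
    (hS₂ : ∀ q, ev P₂ q ≠ 0 → ∃ r ∈ S₂, 0 < r.1.2 ∧ 0 < r.2.2 ∧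
      Linked {q | ev P₂ q ≠ 0} q (frac r.1, frac r.2)) :
    ∃ r ∈ S₂, 0 < r.1.2 ∧ 0 < r.2.2 ∧ ConeEmb (adj F) (vW (wsq I r) I.n) ∧
      ((∀ v, vW (wsq I r) I.n v 2 < 0) ∨ ∃ N, IsTopMap (adj F) (vW (wsq I r) I.n) N ∧
        TopTriple (vW (wsq I r) I.n) N ∧ NF (vW (wsq I r) I.n) N) := by
  have hn : 2 ≤ I.n := le_trans (by norm_num) hI.four
  have hnt : Nontrivial (Fin I.n) := ⟨⟨0, by omega⟩, ⟨1, by omega⟩, by simp⟩
  obtain ⟨hRr, hRg, hRs⟩ := hR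
  set u := uI I with hu_def
  have hu := uI_eq I hI.nonzero
  have hunz : ∀ v, u v ≠ 0 := by
    intro v h0
    obtain ⟨l, hl, e⟩ := hu v
    have h1 := hI.tri.emb.unit v
    have h2 : l • I.x v = 0 := by rw [← e]; exact h0
    rw [smul_eq_zero] at h2
    rcases h2 with h2 | h2
    · exact hl.ne' h2
    · rw [h2] at h1
      simp at h1
  -- the set of good directions
  have hRgen : ∀ a b, a ≠ b → det3 (R 2) (u a) (u b) ≠ 0 := by
    intro a b hab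
    obtain ⟨l, hl, e1⟩ := hu a
    obtain ⟨l', hl', e2⟩ := hu b
    have h1 := hRg.poles a b hab
    rw [det3_north, cr_rot hRr] at h1
    rw [hu_def, e1, e2]
    have h2 := det3_smul 1 l l' (R 2) (I.x a) (I.x b)
    rw [one_smul] at h2
    rw [h2]
    have : (1 * l * l') ≠ 0 := by positivity
    exact mul_ne_zero this h1
  have hRL : LPFp (adj F) u (R 2) := by
    have h1 : LPF (adj F) (fun v => R *ᵥ I.x v) := by
      refine LPF_of_sinkable ?_ hRs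
      intro a b hab
      rw [← det3_north]
      exact hRg.poles a b hab
    have h2 : LPF (adj F) (fun v => R *ᵥ u v) := by
      refine (LPF_scale (x := fun v => R *ᵥ I.x v) (y := fun v => R *ᵥ u v) ?_).2 h1
      intro v
      obtain ⟨l, hl, e⟩ := hu v
      exact ⟨l, hl, by rw [hu_def, e, Matrix.mulVec_smul]⟩
    have h3 := (LPF_iff_LPFp (adj F) u hRr 1 one_pos).1 (by simpa using h2)
    exact h3
  obtain ⟨hO₁, hO₁ne⟩ := exists_open
    {p : P3 | (∀ a b, a ≠ b → det3 p (u a) (u b) ≠ 0) ∧ LPFp (adj F) u p}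
    (isOpen_LPFp (adj F) u) ⟨R 2, hRgen, hRL⟩ (by
      rintro p ⟨h1, h2⟩ l hl
      refine ⟨fun a b hab => ?_, (LPFp_smul _ _ _ _ hl).2 h2⟩
      have h3 := det3_smul l 1 1 p (u a) (u b)
      rw [one_smul, one_smul] at h3
      rw [h3, mul_one, mul_one]
      exact mul_ne_zero hl.ne' (h1 a b hab))
  -- the polynomials are nonzero
  have hP₁0 : P₁ ≠ 0 := by
    obtain ⟨q, hq1, -⟩ := hO₁ne
    intro h0
    have h1 := hP₁ q
    have h2 : ev P₁ q = 0 := by rw [h0]; simp [ev, fib]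
    rw [h2] at h1
    exact prod_cr_ne' (yq u q) (fun a b hab => (cr_yq_ne u q a b).2 (hq1 a b hab)) h1.symm
  set PP : ℤ[X][X] := P₁ * ((∏ v : Fin I.n, Zp (intVec (I.2.get v))) * (L.map Pσ).prod) with hPP
  have hPP0 : PP ≠ 0 := by
    refine mul_ne_zero hP₁0 (mul_ne_zero ?_ ?_)
    · exact Finset.prod_ne_zero_iff.2 fun v _ => Zp_ne_zero _ (hunz v)
    · rw [Ne, List.prod_eq_zero_iff]
      intro h0
      obtain ⟨σ, hσ, h1⟩ := List.mem_map.1 h0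
      exact (hL σ hσ).2 h1
  -- points where all polynomials are nonzero
  have key : ∀ O : Set (ℝ × ℝ), IsOpen O → O.Nonempty → ∃ q ∈ O,
      (∀ a b, a ≠ b → cr (yq u q a) (yq u q b) ≠ 0) ∧ (∀ v, yq u q v 2 ≠ 0) ∧
      (∀ σ ∈ L, (NM (yq u q) (toN I.n σ)).det ≠ 0) ∧ ev P₁ q ≠ 0 ∧ ev P₂ q ≠ 0 := by
    intro O hO hOne
    obtain ⟨q, hq, hev⟩ := exists_ev_ne_zero PP hPP0 O hO hOne
    rw [hPP, ev_mul, ev_mul] at hev
    have h1 : ev P₁ q ≠ 0 := left_ne_zero_of_mul hev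
    have h2 := left_ne_zero_of_mul (right_ne_zero_of_mul hev)
    have h3 := right_ne_zero_of_mul (right_ne_zero_of_mul hev)
    have g1 : ∀ a b, a ≠ b → cr (yq u q a) (yq u q b) ≠ 0 := by
      rw [hP₁] at h1
      exact prod_cr_ne _ h1
    have evprod : ∀ (s : Finset (Fin I.n)) (f : Fin I.n → ℤ[X][X]),
        ev (∏ v ∈ s, f v) q = ∏ v ∈ s, ev (f v) q := by
      intro s f
      induction s using Finset.induction_on with
      | empty => simp [ev_one]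
      | insert a s ha ih => rw [Finset.prod_insert ha, Finset.prod_insert ha, ev_mul, ih]
    have g2 : ∀ v, yq u q v 2 ≠ 0 := by
      intro v
      rw [evprod, Finset.prod_ne_zero_iff] at h2
      have h4 := h2 v (Finset.mem_univ _)
      rw [ev_Zp] at h4
      exact h4
    have g3 : ∀ σ ∈ L, (NM (yq u q) (toN I.n σ)).det ≠ 0 := by
      intro σ hσ h0
      apply h3
      rw [ev_list_prod, List.map_map]
      apply List.prod_eq_zero
      refine List.mem_map.2 ⟨σ, hσ, ?_⟩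
      rw [Function.comp_apply, hPσ σ (hL σ hσ).1, h0]
      norm_num
    refine ⟨q, hq, g1, g2, g3, h1, ?_⟩
    rw [hP₂]
    refine mul_ne_zero (prod_cr_ne' _ g1) (mul_ne_zero ?_ ?_)
    · exact Finset.prod_ne_zero_iff.2 fun v _ => g2 v
    · rw [Ne, List.prod_eq_zero_iff]
      intro h0
      obtain ⟨σ, hσ, h4⟩ := List.mem_map.1 h0
      exact g3 σ hσ (by simpa using h4)
  -- facts on a link
  have facts : ∀ q, ev P₂ q ≠ 0 → (∀ a b, a ≠ b → cr (yq u q a) (yq u q b) ≠ 0) ∧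
      (∀ v, yq u q v 2 ≠ 0) ∧ (∀ σ ∈ L, (NM (yq u q) (toN I.n σ)).det ≠ 0) := by
    intro q hq
    rw [hP₂] at hq
    refine ⟨prod_cr_ne _ (left_ne_zero_of_mul hq), fun v => ?_, fun σ hσ h0 => ?_⟩
    · have h1 := left_ne_zero_of_mul (right_ne_zero_of_mul hq)
      rw [Finset.prod_ne_zero_iff] at h1
      exact h1 v (Finset.mem_univ _)
    · apply right_ne_zero_of_mul (right_ne_zero_of_mul hq)
      apply List.prod_eq_zero
      refine List.mem_map.2 ⟨σ, hσ, ?_⟩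
      rw [h0]
      norm_num
  by_cases hface : ∀ f ∈ F, 0 < det3 (I.x f.1) (I.x f.2.1) (I.x f.2.2)
  · -- all faces are small
    obtain ⟨q, ⟨hq1, hq2⟩, g1, g2, g3, g4, g5⟩ := key _ hO₁ hO₁ne
    have hLPF : LPF (adj F) (yq u q) := (LPF_yq (adj F) u q).2 hq2
    -- the pattern
    obtain ⟨r₁, hr₁, hd1, hd2, C₁, hC₁, hC₁p, hqC, hrC⟩ := hS₁ q g4
    have hgC : ∀ q' ∈ C₁, ∀ a b, a ≠ b → cr (yq u q' a) (yq u q' b) ≠ 0 := by
      intro q' hq'
      have h1 : ev P₁ q' ≠ 0 := hC₁ hq'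
      rw [hP₁] at h1
      exact prod_cr_ne _ h1
    have hce := ConeEmb_vW I F hI r₁ hd1 hd2 (hgC _ hrC)
    obtain ⟨-, -, hD⟩ := hom3_frac r₁ hd1 hd2
    set σ := pat (edges I) (wsq I r₁) with hσ
    have hok : okPat I.n σ := okPat_pat I F hI _
    have htop : IsTopMap (adj F) (yq u (frac r₁.1, frac r₁.2)) (toN I.n σ) := by
      have h1 := pat_topMap I F hI (wsq I r₁) (length_ws I _ _ _) hce
      rw [vW_fun I r₁ hd1 hd2, IsTopMap_smul (by positivity)] at h1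
      exact h1
    have htop' : IsTopMap (adj F) (yq u q) (toN I.n σ) :=
      topMap_const hI.tri.emb hu hC₁p hgC hrC hqC htop
    have hNF : NF (yq u q) (toN I.n σ) := NF_of_LPF htop' hLPF
    have hdet := det_ne_zero_of_NF htop' hNF
    have hPne : Pσ σ ≠ 0 := by
      intro h0
      have h1 := hPσ σ hok q
      rw [h0] at h1
      have h2 : ev (0 : ℤ[X][X]) q = 0 := by simp [ev, fib]
      rw [h2] at h1
      exact hdet (by simpa using h1.symm)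
    have hσL : σ ∈ L := hL' r₁ hr₁ hPne
    -- second sample
    obtain ⟨r, hr, hd3, hd4, C₂, hC₂, hC₂p, hqC2, hrC2⟩ := hS₂ q g5
    have hg2 : ∀ q' ∈ C₂, ∀ a b, a ≠ b → cr (yq u q' a) (yq u q' b) ≠ 0 :=
      fun q' hq' => (facts q' (hC₂ hq')).1
    have htop2 : ∀ q' ∈ C₂, IsTopMap (adj F) (yq u q') (toN I.n σ) := fun q' hq' =>
      topMap_const hI.tri.emb hu hC₂p hg2 hqC2 hq' htop'
    have hNF2 : NF (yq u (frac r.1, frac r.2)) (toN I.n σ) :=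
      NF_const hC₂p htop2 (fun q' hq' => (facts q' (hC₂ hq')).2.2 σ hσL) hqC2 hrC2 hNF
    obtain ⟨hs, hgen, -⟩ := data_of_gen I F hI _ (hg2 _ hrC2)
    have hTT : TopTriple (yq u (frac r.1, frac r.2)) (toN I.n σ) := by
      refine topTriple_of_tri hgen hn ?_ hs (htop2 _ hrC2)
      intro f hf
      rw [det3_rot (isRot_Rq _)]
      exact hface f hf
    obtain ⟨-, -, hD2⟩ := hom3_frac r hd3 hd4
    have hD2' : (0 : ℝ) < ((hom3 r).1 : ℝ) ^ 2 := by positivity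
    refine ⟨r, hr, hd3, hd4, ConeEmb_vW I F hI r hd3 hd4 (hg2 _ hrC2), Or.inr
      ⟨toN I.n σ, ?_, ?_, ?_⟩⟩
    · rw [vW_fun I r hd3 hd4, IsTopMap_smul hD2']
      exact htop2 _ hrC2
    · rw [vW_fun I r hd3 hd4]
      exact TopTriple_smul hD2' hTT
    · rw [vW_fun I r hd3 hd4]
      exact NF_smul hD2' hNF2
  · -- a face which is not contained in a hemisphere
    push Not at hface
    obtain ⟨f, hf, hneg⟩ := hface
    have hneg' : det3 (I.x f.1) (I.x f.2.1) (I.x f.2.2) < 0 :=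
      lt_of_le_of_ne hneg (det3_face hI.tri.emb hI.three hf)
    obtain ⟨p, hp⟩ := exists_southern hI.tri hf hneg'
    have hcont : ∀ v, Continuous fun p : P3 => p ⬝ᵥ u v := by
      intro v
      unfold dotProduct
      fun_prop
    obtain ⟨hO₂, hO₂ne⟩ := exists_open {p : P3 | ∀ v, p ⬝ᵥ u v < 0}
      (by
        have : {p : P3 | ∀ v, p ⬝ᵥ u v < 0} = ⋂ v, {p : P3 | p ⬝ᵥ u v < 0} := by
          ext p
          simp
        rw [this]
        exact isOpen_iInter_of_finite fun v => isOpen_lt (hcont v) continuous_const)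
      ⟨p, fun v => by
        obtain ⟨l, hl, e⟩ := hu v
        rw [hu_def, e, dotProduct_smul, smul_eq_mul]
        exact mul_neg_of_pos_of_neg hl (hp v)⟩
      (by
        intro p hp l hl v
        rw [smul_dotProduct, smul_eq_mul]
        exact mul_neg_of_pos_of_neg hl (hp v))
    obtain ⟨q, hq, g1, g2, g3, g4, g5⟩ := key _ hO₂ hO₂ne
    obtain ⟨r, hr, hd3, hd4, C₂, hC₂, hC₂p, hqC2, hrC2⟩ := hS₂ q g5
    have hg2 : ∀ q' ∈ C₂, ∀ a b, a ≠ b → cr (yq u q' a) (yq u q' b) ≠ 0 :=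
      fun q' hq' => (facts q' (hC₂ hq')).1
    refine ⟨r, hr, hd3, hd4, ConeEmb_vW I F hI r hd3 hd4 (hg2 _ hrC2), Or.inl ?_⟩
    intro v
    obtain ⟨-, -, hD2⟩ := hom3_frac r hd3 hd4
    have hD2' : (0 : ℝ) < ((hom3 r).1 : ℝ) ^ 2 := by positivity
    rw [vW_wsq I r hd3 hd4]
    refine mul_neg_of_pos_of_neg hD2' ?_
    exact neg_const hC₂p (cont_yq u v 2) (fun q' hq' => (facts q' (hC₂ hq')).2.1 v) hqC2 hrC2
      (hq v)

end Pool.Agent.Sink
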