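import Pool.Agent.Lib.MP_93b8a0_lc.AlgDefs
import Pool.Agent.Lib.MP_69a69c_lc.IntTime

/-!
# Polynomial time of the one-variable sampler
-/

open Matrix Polynomial

namespace Pool.Agent.Sink

open Pool.Agent.PolyTime Pool.Agent.SparseNP

theorem s1t_int_size {z : ℤ} {k : ℕ} (h : z.natAbs ≤ 2 ^ k) : size (enc z) ≤ 4 * k + 9 := by
  have h1 : z.natAbs < 2 ^ (k + 1) := by
    have : 2 ^ k < 2 ^ (k + 1) := Nat.pow_lt_pow_right (by norm_num) (by omega)
    omega
  have := size_int_le_of_lt h1
  omega

theorem s1t_mem_natAbs {l : List ℤ} {z : ℤ} (h : z ∈ l) : z.natAbs ≤ 2 ^ size (enc l) := by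
  have h1 := natAbs_lt_size z
  have h2 := size_le_of_mem h
  exact h1.le.trans (Nat.pow_le_pow_right (by norm_num) (by omega))

/-! ### Horner evaluation -/

theorem s1t_horFold (a M : ℤ) (P : ℕ) (ha : a.natAbs ≤ 2 ^ P) (hM : M.natAbs ≤ 2 ^ P)
    (l : List ℤ) : (∀ c ∈ l, c.natAbs ≤ 2 ^ P) →
    ((l.foldl (fun s c => (s.1 * a + c * s.2, s.2 * M)) ((0 : ℤ), (1 : ℤ))).1).natAbs ≤
      2 ^ ((P + 1) * l.length) ∧
    ((l.foldl (fun s c => (s.1 * a + c * s.2, s.2 * M)) ((0 : ℤ), (1 : ℤ))).2).natAbs ≤
      2 ^ ((P + 1) * l.length) := by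
  induction l using List.reverseRecOn with
  | nil => intro _; simp
  | append_singleton l c ih =>
    intro hl
    obtain ⟨h1, h2⟩ := ih fun c hc => hl c (List.mem_append_left _ hc)
    have hc : c.natAbs ≤ 2 ^ P := hl c (by simp)
    rw [List.foldl_append, List.foldl_cons, List.foldl_nil]
    set s := l.foldl (fun s c => (s.1 * a + c * s.2, s.2 * M)) ((0 : ℤ), (1 : ℤ)) with hs
    have e : 2 ^ ((P + 1) * (l ++ [c]).length) = 2 * (2 ^ P * 2 ^ ((P + 1) * l.length)) := by
      rw [List.length_append, List.length_singleton, mul_add, mul_one, pow_add, pow_succ]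
      ring
    rw [e]
    have e1 : (s.1 * a).natAbs ≤ 2 ^ ((P + 1) * l.length) * 2 ^ P := by
      rw [Int.natAbs_mul]; exact Nat.mul_le_mul h1 ha
    have e2 : (c * s.2).natAbs ≤ 2 ^ P * 2 ^ ((P + 1) * l.length) := by
      rw [Int.natAbs_mul]; exact Nat.mul_le_mul hc h2
    have e3 : (s.2 * M).natAbs ≤ 2 ^ ((P + 1) * l.length) * 2 ^ P := by
      rw [Int.natAbs_mul]; exact Nat.mul_le_mul h2 hM
    have e4 := Int.natAbs_add_le (s.1 * a) (c * s.2)
    have e5 : 2 ^ ((P + 1) * l.length) * 2 ^ P = 2 ^ P * 2 ^ ((P + 1) * l.length) := mul_comm _ _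
    rw [e5] at e1 e3
    generalize 2 ^ P * 2 ^ ((P + 1) * l.length) = Q at *
    exact ⟨by dsimp only; omega, by dsimp only; omega⟩

theorem hor_ptime {α : Type} [Enc α] {a M : α → ℤ} {l : α → List ℤ} (ha : PTime a)
    (hM : PTime M) (hl : PTime l) : PTime (fun x => hor (a x) (M x) (l x)) := by
  obtain ⟨A, hA, hAm, hAs⟩ := ha.size_le
  obtain ⟨N, hN, hNm, hNs⟩ := hM.size_le
  obtain ⟨L, hL, hLm, hLs⟩ := hl.size_le
  have hstep : PTime (fun p : α × ((ℤ × ℤ) × ℤ) =>
      (p.2.1.1 * a p.1 + p.2.2 * p.2.1.2, p.2.1.2 * M p.1)) := by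
    have e1 : PTime (fun p : α × ((ℤ × ℤ) × ℤ) => p.2.1.1) := (PTime.snd.fst').fst'
    have e2 : PTime (fun p : α × ((ℤ × ℤ) × ℤ) => p.2.1.2) := (PTime.snd.fst').snd'
    have e3 : PTime (fun p : α × ((ℤ × ℤ) × ℤ) => p.2.2) := PTime.snd.snd'
    exact (ptime_intAdd (ptime_intMul e1 (ha.comp PTime.fst)) (ptime_intMul e3 e2)).pair
      (ptime_intMul e2 (hM.comp PTime.fst))
  have hfold : PTime (fun x => (l x).reverse.foldl
      (fun (s : ℤ × ℤ) c => (s.1 * a x + c * s.2, s.2 * M x)) ((0 : ℤ), (1 : ℤ))) := by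
    refine PTime.foldl (h := fun x (s : ℤ × ℤ) (c : ℤ) => (s.1 * a x + c * s.2, s.2 * M x))
      hl.reverse (PTime.const _) hstep
      (B := fun n => 8 * ((A n + N n + L n + 1) * L n) + 19) ?_ ?_
    · exact ((PBd.const 8).mul ((((hA.add hN).add hL).add (PBd.const 1)).mul hL)).add
        (PBd.const 19)
    · intro x l₁ l₂ h
      have hA1 := hAs x
      have hN1 := hNs x
      have hL1 := hLs x
      generalize size (enc x) = n at *
      have ha1 : (a x).natAbs ≤ 2 ^ (A n + N n + L n) :=
        (natAbs_lt_size _).le.trans (Nat.pow_le_pow_right (by norm_num) (by omega))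
      have hM1 : (M x).natAbs ≤ 2 ^ (A n + N n + L n) :=
        (natAbs_lt_size _).le.trans (Nat.pow_le_pow_right (by norm_num) (by omega))
      have hc : ∀ c ∈ l₁, c.natAbs ≤ 2 ^ (A n + N n + L n) := by
        intro c hc
        have : c ∈ l x := by
          rw [← List.mem_reverse, h]
          exact List.mem_append_left _ hc
        exact (s1t_mem_natAbs this).trans (Nat.pow_le_pow_right (by norm_num) (by omega))
      have hlen : l₁.length ≤ L n := by
        have h1 : (l x).reverse.length = l₁.length + l₂.length := by rw [h]; simp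
        rw [List.length_reverse] at h1
        have h2 := length_le_size (l x)
        omega
      obtain ⟨h1, h2⟩ := s1t_horFold (a x) (M x) _ ha1 hM1 l₁ hc
      have hmul : (A n + N n + L n + 1) * l₁.length ≤ (A n + N n + L n + 1) * L n :=
        Nat.mul_le_mul_left _ hlen
      have h3 := s1t_int_size h1
      have h4 := s1t_int_size h2
      rw [size_pair]
      omega
  exact hfold.fst'

/-! ### Bisection -/

theorem ptime_half {α : Type} [Enc α] {f : α → ℤ} (hf : PTime f) :
    PTime (fun x => f x / 2) := by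
  refine (ptime_natSub ((ptime_toNat hf).div (PTime.const 2))
    (((ptime_toNat (ptime_neg hf)).add (PTime.const 1)).div (PTime.const 2))).of_eq fun x => ?_
  push_cast
  omega

theorem s1t_foldl_iter {σ β : Type*} (f : σ → σ) (l : List β) : ∀ s : σ,
    l.foldl (fun s _ => f s) s = f^[l.length] s := by
  induction l with
  | nil => intro s; rfl
  | cons b l ih =>
    intro s
    rw [List.foldl_cons, ih, List.length_cons, Function.iterate_succ_apply]

theorem s1t_bisStep_le (l : List ℤ) (M : ℤ) (K : ℕ) (s : ℤ × ℤ)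
    (h : s.1.natAbs ≤ K ∧ s.2.natAbs ≤ K) :
    (bisStep l M s).1.natAbs ≤ K ∧ (bisStep l M s).2.natAbs ≤ K := by
  unfold bisStep
  obtain ⟨h1, h2⟩ := h
  split
  · exact ⟨h1, h2⟩
  · split
    · dsimp only
      constructor <;> omega
    · dsimp only
      constructor <;> omega

theorem s1t_bisIter_le (l : List ℤ) (M : ℤ) (K : ℕ) (k : ℕ) : ∀ (s : ℤ × ℤ),
    (s.1.natAbs ≤ K ∧ s.2.natAbs ≤ K) →
    ((bisStep l M)^[k] s).1.natAbs ≤ K ∧ ((bisStep l M)^[k] s).2.natAbs ≤ K := by
  induction k with
  | zero => intro s h; exact h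
  | succ k ih =>
    intro s h
    rw [Function.iterate_succ_apply]
    exact ih _ (s1t_bisStep_le l M K s h)

section
variable {α : Type} [Enc α]

theorem s1t_bisStep_ptime {l : α → List ℤ} {M : α → ℤ} {s : α → ℤ × ℤ} (hl : PTime l)
    (hM : PTime M) (hs : PTime s) : PTime (fun x => bisStep (l x) (M x) (s x)) := by
  unfold bisStep
  have hmid : PTime (fun x => ((s x).1 + (s x).2) / 2) := ptime_half (ptime_intAdd hs.fst' hs.snd')
  have h1 : PTime (fun x => decide ((s x).2 - (s x).1 ≤ 1)) :=
    ptime_intLe (ptime_intSub hs.snd' hs.fst') (PTime.const 1)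
  have h2 : PTime (fun x => decide (0 < hor (((s x).1 + (s x).2) / 2) (M x) (l x) *
      hor (s x).1 (M x) (l x))) := by
    have h3 := ptime_isNeg (ptime_neg (ptime_intMul (hor_ptime hmid hM hl)
      (hor_ptime hs.fst' hM hl)))
    refine h3.of_eq fun x => ?_
    rw [Bool.eq_iff_iff]
    simp only [decide_eq_true_eq]
    omega
  exact PTime.iteP h1 hs (PTime.iteP h2 (hmid.pair hs.snd') (hs.fst'.pair hmid))

theorem s1t_bis_ptime {β : Type} [Enc β] {u : α → List β} {l : α → List ℤ} {M : α → ℤ}
    {s : α → ℤ × ℤ} (hu : PTime u) (hl : PTime l) (hM : PTime M) (hs : PTime s) :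
    PTime (fun x => bis (u x).length (l x) (M x) (s x)) := by
  obtain ⟨S, hS, hSm, hSs⟩ := hs.size_le
  have hfold : PTime (fun x => (u x).foldl (fun s _ => bisStep (l x) (M x) s) (s x)) := by
    refine PTime.foldl (h := fun x (s : ℤ × ℤ) (_ : β) => bisStep (l x) (M x) s) hu hs
      (s1t_bisStep_ptime (hl.comp PTime.fst) (hM.comp PTime.fst) (PTime.snd.fst'))
      (B := fun n => 8 * S n + 19) (((PBd.const 8).mul hS).add (PBd.const 19)) ?_
    intro x l₁ l₂ _
    rw [s1t_foldl_iter]
    have h1 : size (enc (s x)) = size (enc (s x).1) + size (enc (s x).2) + 1 :=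
      size_pair (s x).1 (s x).2
    have h2 := hSs x
    have h3 := s1t_bisIter_le (l x) (M x) (2 ^ S (size (enc x))) l₁.length (s x)
      ⟨(natAbs_lt_size _).le.trans (Nat.pow_le_pow_right (by norm_num) (by omega)),
        (natAbs_lt_size _).le.trans (Nat.pow_le_pow_right (by norm_num) (by omega))⟩
    have h4 := s1t_int_size h3.1
    have h5 := s1t_int_size h3.2
    have h6 : size (enc ((bisStep (l x) (M x))^[l₁.length] (s x))) =
      size (enc ((bisStep (l x) (M x))^[l₁.length] (s x)).1) +
      size (enc ((bisStep (l x) (M x))^[l₁.length] (s x)).2) + 1 := size_pair _ _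
    omega
  refine hfold.snd'.of_eq fun x => ?_
  rw [s1t_foldl_iter]
  rfl

/-! ### One level -/

theorem s1t_outs_ptime {β : Type} [Enc β] {u : α → List β} {l X : α → List ℤ} {M B : α → ℤ}
    (hu : PTime u) (hl : PTime l) (hX : PTime X) (hM : PTime M) (hB : PTime B) :
    PTime (fun x => outs (u x).length (M x) (B x) (l x) (X x)) := by
  unfold outs
  refine PTime.flatMap (f := fun x => (X x).zip ((X x).tail ++ [B x]))
    (g := fun x (p : ℤ × ℤ) => if hor p.1 (M x) (l x) = 0 then [p.1]
      else if hor p.1 (M x) (l x) * hor p.2 (M x) (l x) < 0 then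
        [bis (u x).length (l x) (M x) p] else [])
    (hX.zip (hX.tail.append (hB.cons (PTime.const [])))) ?_
  have hp1 : PTime (fun p : α × (ℤ × ℤ) => p.2.1) := PTime.snd.fst'
  have hp2 : PTime (fun p : α × (ℤ × ℤ) => p.2.2) := PTime.snd.snd'
  have hl' : PTime (fun p : α × (ℤ × ℤ) => l p.1) := hl.comp PTime.fst
  have hM' : PTime (fun p : α × (ℤ × ℤ) => M p.1) := hM.comp PTime.fst
  have hu' : PTime (fun p : α × (ℤ × ℤ) => u p.1) := hu.comp PTime.fst
  refine PTime.iteP (PTime.eq (hor_ptime hp1 hM' hl') (PTime.const 0))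
    (hp1.cons (PTime.const []))
    (PTime.iteP (ptime_isNeg (ptime_intMul (hor_ptime hp1 hM' hl') (hor_ptime hp2 hM' hl')))
      ((s1t_bis_ptime hu' hl' hM' PTime.snd).cons (PTime.const [])) (PTime.const []))

theorem s1t_lvl_ptime {β : Type} [Enc β] {u : α → List β} {g X : α → List ℤ} {M B : α → ℤ}
    (hu : PTime u) (hg : PTime g) (hX : PTime X) (hM : PTime M) (hB : PTime B) :
    PTime (fun x => lvl (u x).length (M x) (B x) (X x) (g x)) :=
  (ptime_neg hB).cons ((s1t_outs_ptime hu hg hX hM hB).append (hB.cons (PTime.const [])))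

end

theorem s1t_outs_mem (k : ℕ) (M B : ℤ) (l X : List ℤ) (K : ℕ) (hB : B.natAbs ≤ K)
    (hX : ∀ z ∈ X, z.natAbs ≤ K) : ∀ z ∈ outs k M B l X, z.natAbs ≤ K := by
  intro z hz
  rw [outs, List.mem_flatMap] at hz
  obtain ⟨p, hp, hz⟩ := hz
  have h1 : p.1.natAbs ≤ K := hX _ (List.of_mem_zip hp).1
  have h2 : p.2.natAbs ≤ K := by
    have h3 := (List.of_mem_zip hp).2
    rw [List.mem_append] at h3
    rcases h3 with h3 | h3
    · exact hX _ (List.mem_of_mem_tail h3)
    · rw [List.mem_singleton] at h3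
      rw [h3]; exact hB
  split at hz
  · rw [List.mem_singleton] at hz
    rw [hz]; exact h1
  · split at hz
    · rw [List.mem_singleton] at hz
      rw [hz]
      exact (s1t_bisIter_le l M K k p ⟨h1, h2⟩).2
    · simp at hz

theorem s1t_outs_length (k : ℕ) (M B : ℤ) (l X : List ℤ) :
    (outs k M B l X).length ≤ X.length := by
  rw [outs]
  refine le_trans (?_ : _ ≤ (X.zip (X.tail ++ [B])).length) ?_
  · generalize X.zip (X.tail ++ [B]) = Z
    induction Z with
    | nil => simp
    | cons p Z ih =>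
      rw [List.flatMap_cons, List.length_append, List.length_cons]
      have : (if hor p.1 M l = 0 then [p.1] else if hor p.1 M l * hor p.2 M l < 0 then
        [bis k l M p] else []).length ≤ 1 := by
        split
        · simp
        · split <;> simp
      omega
  · rw [List.length_zip]
    exact min_le_left _ _

theorem s1t_fold_lvl (k : ℕ) (M B : ℤ) (K : ℕ) (hB : B.natAbs ≤ K) (L : List (List ℤ)) :
    ∀ X : List ℤ, (∀ z ∈ X, z.natAbs ≤ K) →
      (∀ z ∈ L.foldl (lvl k M B) X, z.natAbs ≤ K) ∧
      (L.foldl (lvl k M B) X).length ≤ X.length + 2 * L.length := by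
  induction L with
  | nil => intro X hX; exact ⟨hX, by simp⟩
  | cons g L ih =>
    intro X hX
    rw [List.foldl_cons]
    have h1 : ∀ z ∈ lvl k M B X g, z.natAbs ≤ K := by
      intro z hz
      rw [lvl, List.mem_cons, List.mem_append, List.mem_singleton] at hz
      rcases hz with hz | hz | hz
      · rw [hz, Int.natAbs_neg]; exact hB
      · exact s1t_outs_mem k M B g X K hB hX z hz
      · rw [hz]; exact hB
    have h2 : (lvl k M B X g).length ≤ X.length + 2 := by
      rw [lvl, List.length_cons, List.length_append, List.length_singleton]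
      have := s1t_outs_length k M B g X
      omega
    obtain ⟨h3, h4⟩ := ih _ h1
    refine ⟨h3, ?_⟩
    rw [List.length_cons]
    omega

/-! ### The list of derivatives -/

theorem s1t_der_length (l : List ℤ) : (der l).length ≤ l.length := by
  rw [der, List.length_tail, List.length_map, List.length_zipIdx]
  omega

theorem s1t_der_mem (l : List ℤ) (c : ℕ) (h : ∀ z ∈ l, z.natAbs ≤ 2 ^ c) :
    ∀ z ∈ der l, z.natAbs ≤ 2 ^ (c + l.length) := by
  intro z hz
  rw [der] at hz
  have hz := List.mem_of_mem_tail hz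
  rw [List.mem_map] at hz
  obtain ⟨⟨a, i⟩, hp, rfl⟩ := hz
  have h1 := List.mem_zipIdx' hp
  have h2 : a ∈ l := by
    rw [h1.2]; exact List.getElem_mem _
  have h3 := h a h2
  have h4 : i ≤ 2 ^ l.length := h1.1.le.trans Nat.lt_two_pow_self.le
  rw [Int.natAbs_mul, Int.natAbs_natCast, pow_add]
  exact Nat.mul_le_mul h3 h4

theorem s1t_der_ptime {α : Type} [Enc α] {l : α → List ℤ} (hl : PTime l) :
    PTime (fun x => der (l x)) := by
  unfold der
  refine (PTime.map (g := fun (_ : α) (p : ℤ × ℕ) => p.1 * (p.2 : ℤ)) hl.zipIdx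
    (ptime_intMul (PTime.snd.fst') (ptime_natCast (PTime.snd.snd')))).tail.of_eq fun x => ?_
  rw [List.zipIdx_eq_zip_range', List.range_eq_range']

theorem s1t_chainFold (n c : ℕ) {β : Type*} (w : List β) : ∀ (D : List (List ℤ)) (j : ℕ),
    (∀ r ∈ D, r.length ≤ n ∧ ∀ z ∈ r, z.natAbs ≤ 2 ^ (c + j * n)) →
    (∀ r ∈ w.foldl (fun D _ => der (D.headD []) :: D) D, r.length ≤ n ∧
      ∀ z ∈ r, z.natAbs ≤ 2 ^ (c + (j + w.length) * n)) ∧
    (w.foldl (fun D _ => der (D.headD []) :: D) D).length = D.length + w.length := by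
  induction w with
  | nil => intro D j h; exact ⟨by simpa using h, by simp⟩
  | cons b w ih =>
    intro D j h
    rw [List.foldl_cons]
    have hhead : (D.headD []).length ≤ n ∧ ∀ z ∈ D.headD [], z.natAbs ≤ 2 ^ (c + j * n) := by
      cases D with
      | nil => simp
      | cons r D => exact h r (by simp)
    obtain ⟨h1, h2⟩ := ih (der (D.headD []) :: D) (j + 1) (by
      intro r hr
      rw [List.mem_cons] at hr
      rcases hr with rfl | hr
      · refine ⟨(s1t_der_length _).trans hhead.1, fun z hz => ?_⟩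
        refine (s1t_der_mem _ _ hhead.2 z hz).trans (Nat.pow_le_pow_right (by norm_num) ?_)
        have : (j + 1) * n = j * n + n := by ring
        have := hhead.1
        omega
      · refine ⟨(h r hr).1, fun z hz => ((h r hr).2 z hz).trans
          (Nat.pow_le_pow_right (by norm_num) ?_)⟩
        have : (j + 1) * n = j * n + n := by ring
        omega)
    refine ⟨fun r hr => ⟨(h1 r hr).1, fun z hz => ?_⟩, ?_⟩
    · have := (h1 r hr).2 z hz
      rw [List.length_cons]
      convert this using 3
      ring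
    · rw [h2, List.length_cons, List.length_cons]
      omega

theorem s1t_size_list {l : List ℤ} {n k : ℕ} (hn : l.length ≤ n)
    (h : ∀ z ∈ l, z.natAbs ≤ 2 ^ k) : size (enc l) ≤ n * (4 * k + 10) + 1 := by
  have h1 := size_list_le l (4 * k + 9) fun z hz => s1t_int_size (h z hz)
  have h2 : l.length * (4 * k + 9 + 1) ≤ n * (4 * k + 9 + 1) := Nat.mul_le_mul_right _ hn
  have h3 : n * (4 * k + 9 + 1) = n * (4 * k + 10) := by ring
  omega

theorem s1t_chain_ptime {α : Type} [Enc α] {l : α → List ℤ} (hl : PTime l) :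
    PTime (fun x => chain (l x)) := by
  obtain ⟨L, hL, hLm, hLs⟩ := hl.size_le
  unfold chain
  refine PTime.foldl (h := fun x (D : List (List ℤ)) (_ : ℤ) => der (D.headD []) :: D) hl
    ((s1t_der_ptime hl).cons (PTime.const [])) ?_
    (B := fun n => (L n + 1) * (L n * (4 * (L n + (L n + 1) * L n) + 10) + 2) + 1) ?_ ?_
  · have e1 : PTime (fun p : α × (List (List ℤ) × ℤ) => p.2.1) := PTime.snd.fst'
    refine (s1t_der_ptime ?_).cons e1
    refine (e1.head?.getD (PTime.const [])).of_eq fun p => ?_
    rw [List.headD_eq_head?_getD]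
  · have h1 : PBd fun n => L n + (L n + 1) * L n := hL.add ((hL.add (PBd.const 1)).mul hL)
    exact ((hL.add (PBd.const 1)).mul ((hL.mul (((PBd.const 4).mul h1).add
      (PBd.const 10))).add (PBd.const 2))).add (PBd.const 1)
  · intro x l₁ l₂ h
    have hLx := hLs x
    generalize size (enc x) = n at *
    have hlen : (l x).length ≤ L n := by
      have := length_le_size (l x)
      omega
    have hlen1 : l₁.length ≤ L n := by
      have : (l x).length = l₁.length + l₂.length := by rw [h]; simp
      omega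
    obtain ⟨h1, h2⟩ := s1t_chainFold (L n) (L n) l₁ [der (l x)] 1 (by
      intro r hr
      rw [List.mem_singleton] at hr
      subst hr
      refine ⟨(s1t_der_length _).trans hlen, fun z hz => ?_⟩
      refine (s1t_der_mem (l x) (L n) (fun z hz => (s1t_mem_natAbs hz).trans
        (Nat.pow_le_pow_right (by norm_num) hLx)) z hz).trans
        (Nat.pow_le_pow_right (by norm_num) ?_)
      omega)
    have h3 : ∀ r ∈ l₁.foldl (fun D _ => der (D.headD []) :: D) [der (l x)],
        size (enc r) ≤ L n * (4 * (L n + (L n + 1) * L n) + 10) + 1 := by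
      intro r hr
      refine s1t_size_list (h1 r hr).1 fun z hz => ((h1 r hr).2 z hz).trans
        (Nat.pow_le_pow_right (by norm_num) ?_)
      have : (1 + l₁.length) * L n ≤ (L n + 1) * L n := Nat.mul_le_mul_right _ (by omega)
      omega
    have h4 := size_list_le _ _ h3
    rw [h2, List.length_singleton] at h4
    have h5 : (1 + l₁.length) * (L n * (4 * (L n + (L n + 1) * L n) + 10) + 1 + 1) ≤
        (L n + 1) * (L n * (4 * (L n + (L n + 1) * L n) + 10) + 2) :=
      Nat.mul_le_mul (by omega) (by omega)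
    omega

/-! ### The sampler -/

theorem samp1_ptime : PTime (fun p : List Unit × List ℤ => samp1 p.1.length p.2) := by
  have hl : PTime (fun p : List Unit × List ℤ => p.2) := PTime.snd
  have hu : PTime (fun p : List Unit × List ℤ => p.1) := PTime.fst
  obtain ⟨L, hL, hLm, hLs⟩ := (s1t_chain_ptime hl).size_le
  -- unary list of length `3 m + 3`
  have hU : PTime (fun p : List Unit × List ℤ => p.1 ++ (p.1 ++ (p.1 ++ [(), (), ()]))) :=
    hu.append (hu.append (hu.append (PTime.const _)))
  have hM : PTime (fun p : List Unit × List ℤ => (2 : ℤ) ^ p.1.length) :=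
    (ptime_natCast (ptime_pow2 hu.length hu fun _ => le_refl _)).of_eq fun p => by push_cast; rfl
  have hB : PTime (fun p : List Unit × List ℤ => (4 : ℤ) ^ p.1.length) :=
    (ptime_intMul hM hM).of_eq fun p => by
      rw [← mul_pow]; norm_num
  have hX : PTime (fun p : List Unit × List ℤ => [-((4 : ℤ) ^ p.1.length), 4 ^ p.1.length]) :=
    (ptime_neg hB).cons (hB.cons (PTime.const []))
  have hfold : PTime (fun p : List Unit × List ℤ => (chain p.2).foldl
      (lvl (p.1 ++ (p.1 ++ (p.1 ++ [(), (), ()]))).length (2 ^ p.1.length) (4 ^ p.1.length))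
      [-(4 ^ p.1.length), 4 ^ p.1.length]) := by
    refine PTime.foldl (h := fun (p : List Unit × List ℤ) (X : List ℤ) (g : List ℤ) =>
      lvl (p.1 ++ (p.1 ++ (p.1 ++ [(), (), ()]))).length (2 ^ p.1.length) (4 ^ p.1.length) X g)
      (s1t_chain_ptime hl) hX
      (s1t_lvl_ptime (hU.comp PTime.fst) PTime.snd.snd' PTime.snd.fst' (hM.comp PTime.fst)
        (hB.comp PTime.fst))
      (B := fun n => (2 + 2 * L n) * (4 * (2 * n) + 10) + 1) ?_ ?_
    · exact ((((PBd.const 2).add ((PBd.const 2).mul hL))).mul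
        (((PBd.const 4).mul ((PBd.const 2).mul PBd.id)).add (PBd.const 10))).add (PBd.const 1)
    · intro p l₁ l₂ h
      have hB1 : ((4 : ℤ) ^ p.1.length).natAbs ≤ 2 ^ (2 * p.1.length) := by
        rw [Int.natAbs_pow, pow_mul]
        norm_num
      obtain ⟨h1, h2⟩ := s1t_fold_lvl (p.1 ++ (p.1 ++ (p.1 ++ [(), (), ()]))).length
        (2 ^ p.1.length) (4 ^ p.1.length) _ hB1 l₁ [-(4 ^ p.1.length), 4 ^ p.1.length] (by
          intro z hz
          simp only [List.mem_cons, List.not_mem_nil, or_false] at hz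
          rcases hz with rfl | rfl
          · rw [Int.natAbs_neg]; exact hB1
          · exact hB1)
      have hlen : l₁.length ≤ L (size (enc p)) := by
        have h3 : (chain p.2).length = l₁.length + l₂.length := by rw [h]; simp
        have h4 := length_le_size (chain p.2)
        have h5 := hLs p
        omega
      have hm : p.1.length ≤ size (enc p) := by
        have h3 := length_le_size p.1
        have h4 : size (enc p) = size (enc p.1) + size (enc p.2) + 1 := size_pair p.1 p.2
        omega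
      refine (s1t_size_list (n := 2 + 2 * L (size (enc p))) ?_ h1).trans ?_
      · simp only [List.length_cons, List.length_nil] at h2
        omega
      · have : (2 + 2 * L (size (enc p))) * (4 * (2 * p.1.length) + 10) ≤
            (2 + 2 * L (size (enc p))) * (4 * (2 * size (enc p)) + 10) :=
          Nat.mul_le_mul_left _ (by omega)
        omega
  refine hfold.of_eq fun p => ?_
  rw [samp1]
  have : (p.1 ++ (p.1 ++ (p.1 ++ [(), (), ()]))).length = 3 * p.1.length + 3 := by
    simp; ring
  rw [this]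

end Pool.Agent.Sink
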