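import Pool.Agent.Lib.MP_93b8a0_lc.Samp1
import Pool.Agent.Lib.MP_93b8a0_lc.Samp1T

/-!
# The sampler in one variable
-/

open Matrix Polynomial

namespace Pool.Agent.Sink

open Pool.Agent.PolyTime Pool.Agent.SparseNP

theorem exists_good1 : ∃ F : List ℤ → List (ℤ × ℤ), PTime F ∧ Good1 F := by
  obtain ⟨p, hp⟩ := samp1_correct
  obtain ⟨c, hc, hcl⟩ := PTime.clock (α := List ℤ) (T := fun n => p.eval n)
    ⟨p, fun n => le_rfl⟩
  refine ⟨fun l => (samp1 (c l).length l).map fun a => (a, (2 : ℤ) ^ (c l).length), ?_, ?_⟩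
  · have hM : PTime (fun l : List ℤ => (2 : ℤ) ^ (c l).length) :=
      (ptime_natCast (ptime_pow2 hc.length hc fun _ => le_refl _)).of_eq fun l => by push_cast; rfl
    exact PTime.map (g := fun (l : List ℤ) (a : ℤ) => (a, (2 : ℤ) ^ (c l).length))
      ((samp1_ptime.comp (hc.pair PTime.id)).of_eq fun l => rfl)
      (PTime.snd.pair (hM.comp PTime.fst))
  · intro l
    constructor
    · intro s hs
      obtain ⟨a, _, rfl⟩ := List.mem_map.1 hs
      positivity
    · intro x hx
      have hlen : l.length ≤ size (enc l) := (Nat.le_succ _).trans (length_le_size l)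
      have hmem : ∀ z ∈ l, |z| < 2 ^ size (enc l) := by
        intro z hz
        have h1 := natAbs_lt_size z
        have h2 := size_le_of_mem hz
        have h3 : z.natAbs < 2 ^ size (enc l) :=
          lt_of_lt_of_le h1 (Nat.pow_le_pow_right (by norm_num) (by omega))
        rw [Int.abs_eq_natAbs]
        exact_mod_cast h3
      obtain ⟨a, ha, ha'⟩ := hp l (size (enc l)) (c l).length hlen hmem (hcl l) x hx
      refine ⟨(a, 2 ^ (c l).length), List.mem_map_of_mem ha, ?_⟩
      intro y hy
      exact ha' y hy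

end Pool.Agent.Sink
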