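import Pool.Agent.Lib.MP_93b8a0_lc.PT2
import Pool.Agent.Lib.MP_93b8a0_lc.IntDiv

/-!
# Polynomial time, part 3
-/

namespace Pool.Agent.Sink

open Pool.Agent.PolyTime Pool.Agent.SparseNP

theorem rangeLen_ptime {α β : Type} [Enc α] [Enc β] {W : α → List β} (hW : PTime W) :
    PTime (fun x => List.range (W x).length) := PTime.rangeLength hW

theorem unitRows_ptime {α β : Type} [Enc α] [Enc β] {W : α → List β} (hW : PTime W) :
    PTime (fun x => unitRows (W x).length) := by
  unfold unitRows
  refine PTime.map (g := fun (x : α) (v : ℕ) =>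
    (List.range (W x).length).map fun u => if u = v then (1 : ℤ) else 0)
    (rangeLen_ptime hW) ?_
  refine PTime.map (g := fun (p : α × ℕ) (u : ℕ) => if u = p.2 then (1 : ℤ) else 0)
    (rangeLen_ptime (hW.comp PTime.fst)) ?_
  exact PTime.iteP (PTime.eq PTime.snd (PTime.snd' PTime.fst)) (PTime.const 1) (PTime.const 0)

theorem lpB_ptime {α : Type} [Enc α] {u : α → List Unit} {W : α → List Z3}
    {σ : α → List (Option (ℕ × ℕ))} (hu : PTime u) (hW : PTime W) (hσ : PTime σ) :
    PTime (fun x => lpB (u x).length (W x) (σ x)) := by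
  unfold lpB
  have hL : PTime (fun x => unitRows (W x).length ++ nmRows (W x) (σ x)) :=
    (unitRows_ptime hW).append (nmRows_ptime hW hσ)
  have hU : PTime (fun x => (W x).map fun _ => ()) :=
    PTime.map (g := fun (_ : α) (_ : Z3) => ()) hW (PTime.const ())
  refine ptime_lp (D := fun x => (W x).length) (U := fun x => (W x).map fun _ => ())
    hW.length hU (fun x => by simp) ?_ hL hu
  exact ((PTime.const 4).mul hL.length).mul (hL.length.add (PTime.const 1))

theorem hom3_ptime {α : Type} [Enc α] {q : α → (ℤ × ℤ) × (ℤ × ℤ)} (hq : PTime q) :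
    PTime (fun x => hom3 (q x)) := by
  unfold hom3
  have a1 := (hq.fst').fst'
  have a2 := (hq.fst').snd'
  have a3 := (hq.snd').fst'
  have a4 := (hq.snd').snd'
  exact (ptime_intMul a2 a4).pair ((ptime_intMul a1 a4).pair (ptime_intMul a3 a2))

theorem wsq_ptime {α : Type} [Enc α] {I : α → Input} {q : α → (ℤ × ℤ) × (ℤ × ℤ)}
    (hI : PTime I) (hq : PTime q) : PTime (fun x => wsq (I x) (q x)) := by
  unfold wsq
  have h := hom3_ptime hq
  exact ws_ptime hI h.fst' (h.snd').fst' (h.snd').snd'

theorem testB_ptime {α : Type} [Enc α] {u : α → List Unit} {E : α → List (ℕ × ℕ)}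
    {W : α → List Z3} (hu : PTime u) (hE : PTime E) (hW : PTime W) :
    PTime (fun x => testB (u x).length (E x) (W x)) := by
  unfold testB
  have h1 : PTime (fun x => !decide (prodCr (W x) = 0)) :=
    (PTime.eq (prodCr_ptime hW) (PTime.const (0 : ℤ))).not
  have h2 : PTime (fun x => (W x).all fun u => decide (u.2.2 < 0)) := by
    refine PTime.all (g := fun (_ : α) (u : Z3) => decide (u.2.2 < 0)) hW ?_
    exact ptime_isNeg ((PTime.snd.snd').snd')
  have hp := pat_ptime hE hW
  exact h1.and (h2.or ((topB_ptime hW hp).and (lpB_ptime hu hW hp)))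

theorem rotOf_ptime {α : Type} [Enc α] {q : α → (ℤ × ℤ) × (ℤ × ℤ)} (hq : PTime q) :
    PTime (fun x => rotOf (q x)) := by
  have h := hom3_ptime hq
  have a := h.fst'
  have b := (h.snd').fst'
  have c := (h.snd').snd'
  have sq : ∀ {f : α → ℤ}, PTime f → PTime (fun x => f x ^ 2) := fun {f} hf =>
    (ptime_intMul hf hf).of_eq fun x => (pow_two _).symm
  have two : PTime (fun _ : α => (2 : ℤ)) := PTime.const 2
  have e1 := sq a
  have e2 := sq b
  have e3 := sq c
  have m1 : PTime (fun x => 2 * (hom3 (q x)).2.1 * (hom3 (q x)).2.2) :=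
    ptime_intMul (ptime_intMul two b) c
  have m2 : PTime (fun x => 2 * (hom3 (q x)).1 * (hom3 (q x)).2.2) :=
    ptime_intMul (ptime_intMul two a) c
  have m3 : PTime (fun x => 2 * (hom3 (q x)).1 * (hom3 (q x)).2.1) :=
    ptime_intMul (ptime_intMul two a) b
  have r1 := (ptime_intSub (ptime_intAdd e1 e2) e3).pair (m1.pair m2)
  have r2 := m1.pair ((ptime_intAdd (ptime_intSub e1 e2) e3).pair (ptime_neg m3))
  have r3 := (ptime_neg m2).pair (m3.pair (ptime_intSub (ptime_intSub e1 e2) e3))
  exact (r1.pair (r2.pair r3)).pair (ptime_intAdd (ptime_intAdd e1 e2) e3)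

theorem final_ptime {α : Type} [Enc α] {u : α → List Unit} {I : α → Input}
    {L : α → List ((ℤ × ℤ) × (ℤ × ℤ))} (hu : PTime u) (hI : PTime I) (hL : PTime L) :
    PTime (fun x => final (u x).length (I x) (L x)) := by
  unfold final
  refine PTime.omap (g := fun (_ : α) (q : (ℤ × ℤ) × (ℤ × ℤ)) => rotOf q) ?_
    (rotOf_ptime PTime.snd)
  refine PTime.find? (g := fun (x : α) (q : (ℤ × ℤ) × (ℤ × ℤ)) =>
    testB (u x).length (edges (I x)) (wsq (I x) q)) hL ?_
  exact testB_ptime (hu.comp PTime.fst) (edges_ptime.comp (hI.comp PTime.fst))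
    (wsq_ptime (hI.comp PTime.fst) PTime.snd)

end Pool.Agent.Sink
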