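import Pool.Agent.Lib.MP_93b8a0_lc.Defs2
import Pool.Agent.Lib.MP_93b8a0_lc.IntDiv
import Pool.Agent.Lib.MP_69a69c_lc.LPTime

/-!
# Gram determinants
-/

open Matrix Polynomial

namespace Pool.Agent.Sink

open Pool.Agent.PolyTime Pool.Agent.SparseNP

theorem gram_HM (d : ℕ) (l : List (List ℤ)) : HM d l = 1 + GM d l := rfl

theorem gram_vec (d : ℕ) (c : ℤ) (r : List ℤ) :
    vec d (r.map fun z => c * z) = c • vec d r := by
  ext i
  simp only [SparseNP.vec, Pi.smul_apply, smul_eq_mul]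
  by_cases hi : (i : ℕ) < r.length
  · rw [List.getD_eq_getElem _ _ (by simpa using hi), List.getD_eq_getElem _ _ hi,
      List.getElem_map]
  · rw [List.getD_eq_default _ _ (by simpa using hi), List.getD_eq_default _ _ (by omega),
      mul_zero]

theorem gram_scale (d : ℕ) (c : ℤ) (l : List (List ℤ)) :
    GM d (l.map fun r => r.map fun z => c * z) = c ^ 2 • GM d l := by
  unfold GM
  induction l with
  | nil => simp
  | cons r l ih =>
    rw [List.map_cons, List.map_cons, List.sum_cons, ih, List.map_cons, List.sum_cons, smul_add]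
    congr 1
    rw [gram_vec]
    ext i j
    simp [vecMulVec_apply]
    ring

theorem gram_psd (d : ℕ) (l : List (List ℤ)) :
    ((GM d l).map (Int.cast : ℤ → ℝ)).PosSemidef := by
  unfold GM
  induction l with
  | nil =>
    have : ((([] : List (List ℤ)).map fun r => vecMulVec (vec d r) (vec d r)).sum.map
        (Int.cast : ℤ → ℝ)) = (0 : Matrix (Fin d) (Fin d) ℝ) := by
      ext i j
      simp
    rw [this]
    exact PosSemidef.zero
  | cons r l ih =>
    rw [List.map_cons, List.sum_cons]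
    have h : ((vecMulVec (vec d r) (vec d r) +
        (l.map fun r => vecMulVec (vec d r) (vec d r)).sum).map (Int.cast : ℤ → ℝ)) =
        vecMulVec (fun i => ((vec d r i : ℤ) : ℝ)) (star fun i => ((vec d r i : ℤ) : ℝ)) +
          ((l.map fun r => vecMulVec (vec d r) (vec d r)).sum.map (Int.cast : ℤ → ℝ)) := by
      ext i j
      simp [vecMulVec_apply]
    rw [h]
    exact (posSemidef_vecMulVec_self_star _).add ih

theorem gram_det {d : ℕ} {A : Matrix (Fin d) (Fin d) ℝ} (hA : A.IsHermitian) (t : ℝ) :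
    (t • (1 : Matrix (Fin d) (Fin d) ℝ) + A).det = ∏ i, (t + hA.eigenvalues i) := by
  have h1 : (evalRingHom (-t)) A.charpoly = (-1) ^ d * (t • (1 : Matrix (Fin d) (Fin d) ℝ) + A).det := by
    unfold Matrix.charpoly
    rw [RingHom.map_det]
    have h2 : (evalRingHom (-t)).mapMatrix (charmatrix A) =
        (-1 : ℝ) • (t • (1 : Matrix (Fin d) (Fin d) ℝ) + A) := by
      ext i j
      by_cases hij : i = j
      · subst hij
        simp
        ring
      · simp [hij]
    rw [h2, det_smul, Fintype.card_fin]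
  have h3 : (evalRingHom (-t)) A.charpoly = (-1) ^ d * ∏ i, (t + hA.eigenvalues i) := by
    rw [hA.charpoly_eq, map_prod]
    have h4 : ∀ i, (evalRingHom (-t)) ((X : ℝ[X]) - C (RCLike.ofReal (hA.eigenvalues i) : ℝ)) =
        (-1) * (t + hA.eigenvalues i) := by
      intro i
      simp
      ring
    rw [Finset.prod_congr rfl fun i _ => h4 i, Finset.prod_mul_distrib]
    simp
  have h5 := h1.symm.trans h3
  exact mul_left_cancel₀ (pow_ne_zero _ (by norm_num)) h5

theorem gram_prod {ι : Type*} (s : Finset ι) (f : ι → ℝ) (hf : ∀ i ∈ s, 0 ≤ f i) {ε : ℝ}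
    (h0 : 0 ≤ ε) (h1 : ε ≤ 1) : ∏ i ∈ s, (ε + f i) ≤
      ∏ i ∈ s, f i + ε * (∏ i ∈ s, (1 + f i) - ∏ i ∈ s, f i) := by
  classical
  induction s using Finset.induction_on with
  | empty => simp
  | insert a s ha ih =>
    rw [Finset.prod_insert ha, Finset.prod_insert ha, Finset.prod_insert ha]
    have ih' := ih fun i hi => hf i (Finset.mem_insert_of_mem hi)
    have hfa := hf a (Finset.mem_insert_self _ _)
    have hA : 0 ≤ ∏ i ∈ s, f i := Finset.prod_nonneg fun i hi => hf i (Finset.mem_insert_of_mem hi)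
    have hAB : ∏ i ∈ s, f i ≤ ∏ i ∈ s, (1 + f i) :=
      Finset.prod_le_prod (fun i hi => hf i (Finset.mem_insert_of_mem hi)) fun i _ => by linarith
    calc (ε + f a) * ∏ i ∈ s, (ε + f i)
        ≤ (ε + f a) * (∏ i ∈ s, f i + ε * (∏ i ∈ s, (1 + f i) - ∏ i ∈ s, f i)) := by
          gcongr
      _ = f a * ∏ i ∈ s, f i + ε * (∏ i ∈ s, f i +
            (ε + f a) * (∏ i ∈ s, (1 + f i) - ∏ i ∈ s, f i)) := by ring
      _ ≤ f a * ∏ i ∈ s, f i + ε * (∏ i ∈ s, f i +
            (1 + f a) * (∏ i ∈ s, (1 + f i) - ∏ i ∈ s, f i)) := by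
          have : 0 ≤ ∏ i ∈ s, (1 + f i) - ∏ i ∈ s, f i := by linarith
          gcongr
      _ = f a * ∏ i ∈ s, f i + ε * ((1 + f a) * ∏ i ∈ s, (1 + f i) - f a * ∏ i ∈ s, f i) := by
          ring

theorem gram_idiv {z w q : ℤ} (hw : 0 < w) (hq : 0 ≤ q) (h1 : w * q ≤ z) (h2 : z < w * (q + 1)) :
    idiv z w = q := by
  have hz : 0 ≤ z := (mul_nonneg hw.le hq).trans h1
  unfold idiv mkInt
  rw [if_neg (by simpa using hz)]
  lift z to ℕ using hz
  lift w to ℕ using hw.le
  lift q to ℕ using hq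
  norm_cast at h1 h2 hw ⊢
  exact Nat.div_eq_of_lt_le (by rw [mul_comm]; exact h1) (by rw [mul_comm]; exact h2)

theorem gram_eq (d : ℕ) (l : List (List ℤ)) : gram d l = (GM d l).det := by
  have hi := invL_inv d l
  have hi' := invL_inv d (l.map fun r => r.map fun z => ((invL d l).2 + 1) * z)
  unfold gram
  rw [hi'.det, gram_HM, gram_scale]
  set c : ℤ := (invL d l).2 + 1 with hc
  have hc2 : 2 ≤ c := by have := hi.pos; omega
  have hcR : (2 : ℝ) ≤ c := by exact_mod_cast hc2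
  have hpsd := gram_psd d l
  set A : Matrix (Fin d) (Fin d) ℝ := (GM d l).map (Int.cast : ℤ → ℝ) with hA
  have hH : A.IsHermitian := hpsd.isHermitian
  have hnn : ∀ i, 0 ≤ hH.eigenvalues i := hpsd.eigenvalues_nonneg
  have hd0 : (((GM d l).det : ℤ) : ℝ) = ∏ i, hH.eigenvalues i := by
    have h1 : (((GM d l).det : ℤ) : ℝ) = A.det := (Int.castRingHom ℝ).map_det (GM d l)
    have h2 := gram_det hH 0
    rw [zero_smul, zero_add] at h2
    rw [h1, h2]
    simp
  have hd1 : ((c : ℤ) : ℝ) - 1 = ∏ i, (1 + hH.eigenvalues i) := by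
    have h1 : (((HM d l).det : ℤ) : ℝ) = ((1 : ℝ) • (1 : Matrix (Fin d) (Fin d) ℝ) + A).det := by
      have h2 := (Int.castRingHom ℝ).map_det (HM d l)
      rw [show (((HM d l).det : ℤ) : ℝ) = (Int.castRingHom ℝ) (HM d l).det from rfl, h2, gram_HM]
      congr 1
      ext i j
      simp [hA, Matrix.one_apply]
    rw [← gram_det hH 1, ← h1, ← hi.det, hc]
    push_cast
    ring
  have hd2 : ((((1 : Matrix (Fin d) (Fin d) ℤ) + c ^ 2 • GM d l).det : ℤ) : ℝ) =
      (c : ℝ) ^ (2 * d) * ∏ i, (((c : ℝ) ^ 2)⁻¹ + hH.eigenvalues i) := by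
    have h2 := (Int.castRingHom ℝ).map_det ((1 : Matrix (Fin d) (Fin d) ℤ) + c ^ 2 • GM d l)
    rw [show ((((1 : Matrix (Fin d) (Fin d) ℤ) + c ^ 2 • GM d l).det : ℤ) : ℝ) =
      (Int.castRingHom ℝ) ((1 : Matrix (Fin d) (Fin d) ℤ) + c ^ 2 • GM d l).det from rfl, h2,
      ← gram_det hH, pow_mul]
    have h3 : (Int.castRingHom ℝ).mapMatrix ((1 : Matrix (Fin d) (Fin d) ℤ) + c ^ 2 • GM d l) =
        ((c : ℝ) ^ 2) • ((((c : ℝ) ^ 2)⁻¹) • (1 : Matrix (Fin d) (Fin d) ℝ) + A) := by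
      rw [smul_add, smul_smul, mul_inv_cancel₀ (by positivity), one_smul]
      ext i j
      simp [-zsmul_eq_mul, hA, Matrix.one_apply]
    rw [h3, det_smul, Fintype.card_fin]
  have hcpos : (0 : ℝ) < (c : ℝ) ^ (2 * d) := by positivity
  have hq0 : 0 ≤ (GM d l).det := by
    have : (0 : ℝ) ≤ (((GM d l).det : ℤ) : ℝ) := by
      rw [hd0]; exact Finset.prod_nonneg fun i _ => hnn i
    exact_mod_cast this
  refine gram_idiv (by positivity) hq0 ?_ ?_
  · have h1 : (c : ℝ) ^ (2 * d) * (((GM d l).det : ℤ) : ℝ) ≤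
        ((((1 : Matrix (Fin d) (Fin d) ℤ) + c ^ 2 • GM d l).det : ℤ) : ℝ) := by
      rw [hd2, hd0]
      gcongr with i _
      · intro i _; exact hnn i
      · have : (0 : ℝ) ≤ ((c : ℝ) ^ 2)⁻¹ := by positivity
        linarith
    exact_mod_cast h1
  · have h1 : ((((1 : Matrix (Fin d) (Fin d) ℤ) + c ^ 2 • GM d l).det : ℤ) : ℝ) <
        (c : ℝ) ^ (2 * d) * ((((GM d l).det : ℤ) : ℝ) + 1) := by
      rw [hd2]
      have hε1 : ((c : ℝ) ^ 2)⁻¹ ≤ 1 := inv_le_one_of_one_le₀ (by nlinarith)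
      have h2 := gram_prod Finset.univ hH.eigenvalues (fun i _ => hnn i)
        (by positivity : (0 : ℝ) ≤ ((c : ℝ) ^ 2)⁻¹) hε1
      rw [← hd0, ← hd1] at h2
      have h3 : ((c : ℝ) ^ 2)⁻¹ * ((c : ℝ) - 1 - (((GM d l).det : ℤ) : ℝ)) < 1 := by
        have h4 : (0 : ℝ) ≤ (((GM d l).det : ℤ) : ℝ) := by exact_mod_cast hq0
        have h5 : ((c : ℝ) - 1 - (((GM d l).det : ℤ) : ℝ)) < (c : ℝ) ^ 2 := by nlinarith
        rw [inv_mul_lt_iff₀ (by positivity)]
        linarith
      have h6 : ∏ i, (((c : ℝ) ^ 2)⁻¹ + hH.eigenvalues i) < (((GM d l).det : ℤ) : ℝ) + 1 := by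
        linarith
      exact mul_lt_mul_of_pos_left h6 hcpos
    exact_mod_cast h1

theorem gram_ptime {α : Type} [Enc α] {D : α → ℕ} {U : α → List Unit} (hD : PTime D)
    (hU : PTime U) (hDU : ∀ x, D x ≤ (U x).length) {l : α → List (List ℤ)} (hl : PTime l) :
    PTime (fun x => gram (D x) (l x)) := by
  unfold gram
  obtain ⟨c, hc⟩ : ∃ c : α → ℤ, c = fun x => (invL (D x) (l x)).2 + 1 := ⟨_, rfl⟩
  have hc' : PTime c := by
    rw [hc]
    exact ptime_intAdd (ptime_invL hD hU hDU hl).snd' (PTime.const 1)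
  have h1 : PTime (fun x => (l x).map fun r => r.map fun z => c x * z) :=
    PTime.map (g := fun (x : α) (r : List ℤ) => r.map fun z => c x * z) hl
      (PTime.map (g := fun (p : α × List ℤ) (z : ℤ) => c p.1 * z) PTime.snd
        (ptime_intMul (hc'.comp (PTime.fst' PTime.fst)) PTime.snd))
  have h2 : PTime (fun x => (c x) ^ (2 * D x)) := by
    refine ptime_intPow (g := fun x => U x ++ U x) hc' ?_ (hU.append hU) fun x => ?_
    · exact ((hD.add hD).of_eq fun x => by ring)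
    · have := hDU x
      rw [List.length_append]
      omega
  subst hc
  exact ptime_idiv (ptime_invL hD hU hDU h1).snd' h2

end Pool.Agent.Sink
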