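import Pool.Agent.Lib.MP_93b8a0_lc.Defs2
import Pool.Agent.Lib.MP_93b8a0_lc.Gram

/-!
# The polynomials of the algorithm

Degrees and coefficients are bounded by a submultiplicative norm.
-/

open Matrix Polynomial

namespace Pool.Agent.Sink

open Pool.Agent.PolyTime Pool.Agent.SparseNP

namespace PolysAux

/-! ## Norms -/

/-- a submultiplicative norm with values in the natural numbers -/
structure Nrm (R : Type*) [CommRing R] where
  v : R → ℕ
  zero : v 0 = 0
  one : v 1 ≤ 1
  neg : ∀ a, v (-a) = v a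
  add : ∀ a b, v (a + b) ≤ v a + v b
  mul : ∀ a b, v (a * b) ≤ v a * v b

namespace Nrm

variable {R : Type*} [CommRing R] (N : Nrm R)

theorem sub (a b : R) : N.v (a - b) ≤ N.v a + N.v b := by
  rw [sub_eq_add_neg]
  exact (N.add _ _).trans (by rw [N.neg])

theorem sum {ι : Type*} (s : Finset ι) (f : ι → R) : N.v (∑ i ∈ s, f i) ≤ ∑ i ∈ s, N.v (f i) := by
  classical
  induction s using Finset.induction_on with
  | empty => simp [N.zero]
  | insert a s ha ih =>
    rw [Finset.sum_insert ha, Finset.sum_insert ha]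
    exact (N.add _ _).trans (by omega)

theorem prod {ι : Type*} (s : Finset ι) (f : ι → R) (b : ℕ) (hb : ∀ i ∈ s, N.v (f i) ≤ b) :
    N.v (∏ i ∈ s, f i) ≤ b ^ s.card := by
  classical
  induction s using Finset.induction_on with
  | empty => simpa using N.one
  | insert a s ha ih =>
    rw [Finset.prod_insert ha, Finset.card_insert_of_notMem ha, pow_succ']
    exact (N.mul _ _).trans (Nat.mul_le_mul (hb _ (Finset.mem_insert_self _ _))
      (ih fun i hi => hb i (Finset.mem_insert_of_mem hi)))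

theorem lprod (l : List R) (b : ℕ) (hb : ∀ a ∈ l, N.v a ≤ b) : N.v l.prod ≤ b ^ l.length := by
  induction l with
  | nil => simpa using N.one
  | cons a l ih =>
    rw [List.prod_cons, List.length_cons, pow_succ']
    exact (N.mul _ _).trans (Nat.mul_le_mul (hb _ (by simp))
      (ih fun i hi => hb i (by simp [hi])))

theorem pow (a : R) (k : ℕ) : N.v (a ^ k) ≤ N.v a ^ k := by
  induction k with
  | zero => simpa using N.one
  | succ k ih =>
    rw [pow_succ, pow_succ]
    exact (N.mul _ _).trans (Nat.mul_le_mul ih le_rfl)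

theorem det {n : ℕ} (M : Matrix (Fin n) (Fin n) R) (b : ℕ) (hb : ∀ i j, N.v (M i j) ≤ b) :
    N.v M.det ≤ n.factorial * b ^ n := by
  rw [Matrix.det_apply]
  refine (N.sum _ _).trans ?_
  have h : ∀ σ : Equiv.Perm (Fin n), N.v (Equiv.Perm.sign σ • ∏ i, M (σ i) i) ≤ b ^ n := by
    intro σ
    have h1 : N.v (∏ i, M (σ i) i) ≤ b ^ n := by
      have := N.prod Finset.univ (fun i => M (σ i) i) b (fun i _ => hb _ _)
      simpa using this
    rcases Int.units_eq_one_or (Equiv.Perm.sign σ) with h | h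
    · rw [h]
      simpa using h1
    · rw [h]
      simpa [N.neg] using h1
  refine (Finset.sum_le_sum fun σ _ => h σ).trans ?_
  simp [Fintype.card_perm]

/-- the weighted sum of the norms of the coefficients -/
noncomputable def pv (P : R[X]) : ℕ := P.sum fun j a => N.v a * 2 ^ j

theorem pv_monomial (k : ℕ) (a : R) : N.pv (monomial k a) = N.v a * 2 ^ k :=
  Polynomial.sum_monomial_index a _ (by simp [N.zero])

theorem pv_add (P Q : R[X]) : N.pv (P + Q) ≤ N.pv P + N.pv Q := by
  have h : (P + Q).natDegree < max P.natDegree Q.natDegree + 1 :=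
    Nat.lt_succ_of_le (Polynomial.natDegree_add_le P Q)
  unfold pv
  rw [Polynomial.sum_over_range' _ (by simp [N.zero]) _ h,
    Polynomial.sum_over_range' P (by simp [N.zero]) (max P.natDegree Q.natDegree + 1)
      (Nat.lt_succ_of_le (le_max_left _ _)),
    Polynomial.sum_over_range' Q (by simp [N.zero]) (max P.natDegree Q.natDegree + 1)
      (Nat.lt_succ_of_le (le_max_right _ _)), ← Finset.sum_add_distrib]
  refine Finset.sum_le_sum fun i _ => ?_
  rw [Polynomial.coeff_add, ← add_mul]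
  exact Nat.mul_le_mul_right _ (N.add _ _)

theorem pv_sum {ι : Type*} (s : Finset ι) (f : ι → R[X]) :
    N.pv (∑ i ∈ s, f i) ≤ ∑ i ∈ s, N.pv (f i) := by
  classical
  induction s using Finset.induction_on with
  | empty => simp [pv]
  | insert a s ha ih =>
    rw [Finset.sum_insert ha, Finset.sum_insert ha]
    exact (N.pv_add _ _).trans (by omega)

theorem pv_mul (P Q : R[X]) : N.pv (P * Q) ≤ N.pv P * N.pv Q := by
  rw [Polynomial.mul_eq_sum_sum]
  refine (N.pv_sum _ _).trans ?_
  rw [show N.pv P = ∑ i ∈ P.support, N.v (P.coeff i) * 2 ^ i from rfl, Finset.sum_mul]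
  refine Finset.sum_le_sum fun i _ => ?_
  rw [Polynomial.sum_def]
  refine (N.pv_sum _ _).trans ?_
  rw [show N.pv Q = ∑ j ∈ Q.support, N.v (Q.coeff j) * 2 ^ j from rfl, Finset.mul_sum]
  refine Finset.sum_le_sum fun j _ => ?_
  rw [pv_monomial]
  calc N.v (P.coeff i * Q.coeff j) * 2 ^ (i + j)
      ≤ N.v (P.coeff i) * N.v (Q.coeff j) * 2 ^ (i + j) := Nat.mul_le_mul_right _ (N.mul _ _)
    _ = _ := by ring

/-- the norm on polynomials -/
noncomputable def poly : Nrm R[X] where
  v := N.pv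
  zero := by simp [pv]
  one := by
    have h := N.pv_monomial 0 1
    rw [Polynomial.monomial_zero_one] at h
    rw [h]
    simpa using N.one
  neg P := by
    unfold pv
    rw [Polynomial.sum_over_range' _ (by simp [N.zero]) (P.natDegree + 1) (by simp),
      Polynomial.sum_over_range' _ (by simp [N.zero]) (P.natDegree + 1) (by simp)]
    exact Finset.sum_congr rfl fun i _ => by rw [Polynomial.coeff_neg, N.neg]
  add := N.pv_add
  mul := N.pv_mul

theorem le_poly (P : R[X]) (i : ℕ) : N.v (P.coeff i) * 2 ^ i ≤ N.poly.v P := by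
  change _ ≤ ∑ i ∈ P.support, N.v (P.coeff i) * 2 ^ i
  by_cases hi : i ∈ P.support
  · exact Finset.single_le_sum (f := fun i => N.v (P.coeff i) * 2 ^ i) (fun _ _ => Nat.zero_le _) hi
  · rw [Polynomial.notMem_support_iff] at hi
    rw [hi, N.zero]
    simp

theorem poly_monomial (k : ℕ) (a : R) : N.poly.v (monomial k a) = N.v a * 2 ^ k :=
  N.pv_monomial k a

theorem poly_C (a : R) : N.poly.v (C a) = N.v a := by
  rw [← Polynomial.monomial_zero_left, poly_monomial]
  simp

theorem poly_X : N.poly.v X ≤ 2 := by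
  rw [← Polynomial.monomial_one_one_eq_X, poly_monomial]
  have := N.one
  omega

end Nrm

/-- absolute value -/
def nZ : Nrm ℤ where
  v := Int.natAbs
  zero := rfl
  one := le_rfl
  neg := Int.natAbs_neg
  add := Int.natAbs_add_le
  mul a b := (Int.natAbs_mul a b).le

/-- the norm -/
noncomputable def nA : Nrm ℤ[X][X] := nZ.poly.poly

theorem nA_C (a : ℤ) : nA.v (C (C a)) = a.natAbs := by
  rw [nA, Nrm.poly_C, Nrm.poly_C]
  rfl

theorem nA_intCast (a : ℤ) : nA.v (a : ℤ[X][X]) = a.natAbs := by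
  rw [← nA_C]
  simp

theorem nA_s : nA.v (C X) ≤ 2 := by
  rw [nA, Nrm.poly_C]
  exact Nrm.poly_X _

theorem nA_t : nA.v X ≤ 2 := Nrm.poly_X _

theorem bd2_of {P : ℤ[X][X]} {m : ℕ} (h : nA.v P < 2 ^ m) : Bd2 P m := by
  have h1 : ∀ j, nZ.poly.v (P.coeff j) * 2 ^ j < 2 ^ m := fun j => (nZ.poly.le_poly P j).trans_lt h
  have h2 : ∀ j i, ((P.coeff j).coeff i).natAbs * 2 ^ i ≤ nZ.poly.v (P.coeff j) :=
    fun j i => nZ.le_poly (P.coeff j) i
  have h3 : ∀ j, nZ.poly.v (P.coeff j) < 2 ^ m := fun j =>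
    (Nat.le_mul_of_pos_right _ (by positivity)).trans_lt (h1 j)
  have hz : ∀ a k : ℕ, m ≤ k → a * 2 ^ k < 2 ^ m → a = 0 := by
    intro a k hk ha
    by_contra hne
    have : 2 ^ m ≤ a * 2 ^ k := by
      calc 2 ^ m ≤ 2 ^ k := Nat.pow_le_pow_right (by norm_num) hk
        _ ≤ a * 2 ^ k := Nat.le_mul_of_pos_left _ (by omega)
    omega
  refine ⟨fun j hj => ?_, fun j i hi => ?_, fun j i => ?_⟩
  · have h4 := hz _ j hj (h1 j)
    ext i
    have h5 := h2 j i
    rw [h4] at h5
    have : ((P.coeff j).coeff i).natAbs = 0 := by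
      have : 0 < 2 ^ i := by positivity
      by_contra hne
      have : 0 < ((P.coeff j).coeff i).natAbs * 2 ^ i := by positivity
      omega
    simpa using this
  · have := hz _ i hi ((h2 j i).trans_lt (h3 j))
    simpa using this
  · have h6 : ((P.coeff j).coeff i).natAbs < 2 ^ m :=
      ((Nat.le_mul_of_pos_right _ (by positivity)).trans (h2 j i)).trans_lt (h3 j)
    rw [Int.abs_eq_natAbs]
    exact_mod_cast h6

/-! ## The formulas in a commutative ring -/

section
variable {R S : Type*} [CommRing R] [CommRing S] {n : ℕ}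

/-- the rotated vectors -/
def wV (u : Fin n → Z3) (s t : R) (v : Fin n) : Fin 3 → R := Qm 1 s t *ᵥ toV (u v)

/-- the product of the cross products -/
def prodG (w : Fin n → Fin 3 → R) : R := ∏ i, ∏ j, if i = j then 1 else cr (w i) (w j)

/-- the product of the coordinates and the determinants -/
def prodH (w : Fin n → Fin 3 → R) (L : List (List (Option (ℕ × ℕ)))) : R :=
  prodG w * ((∏ i, w i 2) * (L.map fun σ => (NM w (toN n σ)).det ^ 2).prod)

theorem map_wV (f : R →+* S) (u : Fin n → Z3) (s t : R) (v : Fin n) :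
    f ∘ wV u s t v = wV u (f s) (f t) v := by
  have h2 : f 2 = 2 := map_ofNat f 2
  funext k
  fin_cases k <;>
    simp [wV, Qm, toV, Matrix.mulVec, dotProduct, Fin.sum_univ_three, h2] <;> ring

theorem map_cr (f : R →+* S) (a b : Fin 3 → R) : f (cr a b) = cr (f ∘ a) (f ∘ b) := by
  simp [cr]

theorem map_prodG (f : R →+* S) (w : Fin n → Fin 3 → R) :
    f (prodG w) = prodG fun v => f ∘ w v := by
  unfold prodG
  rw [map_prod]
  refine Finset.prod_congr rfl fun i _ => ?_
  rw [map_prod]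
  refine Finset.prod_congr rfl fun j _ => ?_
  rw [← map_cr]
  split_ifs <;> simp

theorem map_NM (f : R →+* S) (w : Fin n → Fin 3 → R) (N : Fin n → Option (Fin n × Fin n)) :
    (NM w N).map f = NM (fun v => f ∘ w v) N := by
  ext v u
  simp only [NM, Matrix.map_apply, Matrix.of_apply]
  rcases N v with _ | e
  · simp only
    split_ifs <;> simp
  · simp only [map_sub, ← map_cr]
    split_ifs <;> simp

theorem map_det2 (f : R →+* S) (w : Fin n → Fin 3 → R) (N : Fin n → Option (Fin n × Fin n)) :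
    f ((NM w N).det ^ 2) = (NM (fun v => f ∘ w v) N).det ^ 2 := by
  rw [map_pow, RingHom.map_det, RingHom.mapMatrix_apply, map_NM]

theorem map_prodH (f : R →+* S) (w : Fin n → Fin 3 → R) (L : List (List (Option (ℕ × ℕ)))) :
    f (prodH w L) = prodH (fun v => f ∘ w v) L := by
  unfold prodH
  rw [map_mul, map_mul, map_prodG, map_prod, map_list_prod, List.map_map]
  congr 2
  · congr 1
    congr 1
    funext σ
    exact map_det2 f w _

end

/-! ## Evaluation -/

/-- evaluation at an integral point -/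
noncomputable def hZ (s t : ℤ) : ℤ[X][X] →+* ℤ :=
  (evalRingHom t).comp (mapRingHom (evalRingHom s))

/-- evaluation at a real point -/
noncomputable def hR (q : ℝ × ℝ) : ℤ[X][X] →+* ℝ :=
  (evalRingHom q.2).comp (mapRingHom (evS q.1))

theorem hZ_apply (s t : ℤ) (P : ℤ[X][X]) : evZ P s t = hZ s t P := rfl

theorem hR_apply (q : ℝ × ℝ) (P : ℤ[X][X]) : ev P q = hR q P := rfl

theorem hZ_s (s t : ℤ) : hZ s t (C X) = s := by simp [hZ]
theorem hZ_t (s t : ℤ) : hZ s t X = t := by simp [hZ]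
theorem hR_s (q : ℝ × ℝ) : hR q (C X) = q.1 := by simp [hR, evS]
theorem hR_t (q : ℝ × ℝ) : hR q X = q.2 := by simp [hR]

/-! ## The programs -/

theorem toV_Qz (a b c : ℤ) (u : Z3) : (toV (Qz a b c u) : Fin 3 → ℤ) = Qm a b c *ᵥ toV u := by
  funext k
  fin_cases k <;>
    simp [Qz, Qm, toV, Matrix.mulVec, dotProduct, Fin.sum_univ_three]
  ring

theorem crZ_eq (u v : Z3) : crZ u v = cr (toV u : Fin 3 → ℤ) (toV v) := by
  simp [crZ, cr, toV]

/-- the integral vectors -/
def uZ (I : Input) (v : Fin I.n) : Z3 := intVec (I.2.get v)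

theorem ws_length (I : Input) (s t : ℤ) : (ws I 1 s t).length = I.n := by
  simp [ws, Input.n]

theorem gv_ws (I : Input) (s t : ℤ) (v : Fin I.n) :
    (toV (gv (ws I 1 s t) v) : Fin 3 → ℤ) = wV (uZ I) s t v := by
  have hv : (v : ℕ) < I.2.length := v.2
  unfold wV uZ
  rw [← toV_Qz]
  congr 1
  unfold gv ws
  rw [List.getD_eq_getElem?_getD, List.getElem?_map, List.getElem?_eq_getElem hv]
  rfl

theorem prod_range_map {R : Type*} [CommMonoid R] (n : ℕ) (f : ℕ → R) :
    ((List.range n).map f).prod = ∏ i : Fin n, f i := by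
  rw [← Finset.prod_range]
  induction n with
  | zero => rfl
  | succ n ih => rw [List.range_succ, List.map_append, List.prod_append, ih,
      Finset.prod_range_succ]; simp

theorem prodCr_ws (I : Input) (s t : ℤ) : prodCr (ws I 1 s t) = prodG (wV (uZ I) s t) := by
  unfold prodCr prodG
  rw [ws_length, prod_range_map]
  refine Finset.prod_congr rfl fun i _ => ?_
  rw [prod_range_map]
  refine Finset.prod_congr rfl fun j _ => ?_
  rw [crZ_eq, gv_ws, gv_ws]
  simp only [Fin.ext_iff]

theorem GM_eq {n : ℕ} (f : ℕ → List ℤ) (M : Matrix (Fin n) (Fin n) ℤ)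
    (h : ∀ v u : Fin n, (f v).getD u 0 = M v u) :
    GM n ((List.range n).map f) = Mᵀ * M := by
  have hs : ∀ (m : ℕ) (g : ℕ → Matrix (Fin n) (Fin n) ℤ),
      ((List.range m).map g).sum = ∑ i : Fin m, g i := by
    intro m g
    rw [← Finset.sum_range]
    induction m with
    | zero => rfl
    | succ m ih => rw [List.range_succ, List.map_append, List.sum_append, ih,
        Finset.sum_range_succ]; simp
  unfold GM
  rw [List.map_map, hs]
  ext i j
  rw [Matrix.sum_apply, Matrix.mul_apply]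
  refine Finset.sum_congr rfl fun v _ => ?_
  simp only [Function.comp_apply, Matrix.vecMulVec_apply, Matrix.transpose_apply,
    Pool.Agent.SparseNP.vec, h]

theorem nmRow_getD (I : Input) (s t : ℤ) (σ : List (Option (ℕ × ℕ))) (hσ : okPat I.n σ)
    (v u : Fin I.n) :
    (nmRow (ws I 1 s t) (σ.getD v none) v).getD u 0 =
      NM (wV (uZ I) s t) (toN I.n σ) v u := by
  have hu : (u : ℕ) < I.n := u.2
  unfold nmRow
  rw [ws_length, List.getD_eq_getElem?_getD, List.getElem?_map,
    List.getElem?_range hu, Option.map_some, Option.getD_some]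
  unfold NM
  rw [Matrix.of_apply]
  unfold toN
  rcases hs : σ.getD v none with _ | e
  · simp only [Option.bind_none, Fin.ext_iff]
  · have he : some e ∈ σ := by
      rw [List.getD_eq_getElem?_getD] at hs
      rcases h : σ[(v : ℕ)]? with _ | x
      · rw [h] at hs
        simp at hs
      · rw [h] at hs
        simp only [Option.getD_some] at hs
        rw [← hs]
        exact List.mem_of_getElem? h
    obtain ⟨h1, h2⟩ := hσ e he
    have h3 := gv_ws I s t ⟨e.1, h1⟩
    have h4 := gv_ws I s t ⟨e.2, h2⟩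
    have h5 := gv_ws I s t v
    simp only at h3 h4
    simp only [Option.bind_some, h1, h2, and_self, dif_pos, Fin.ext_iff, crZ_eq, h3, h4, h5]

theorem gram_ws (I : Input) (s t : ℤ) (σ : List (Option (ℕ × ℕ))) (hσ : okPat I.n σ) :
    gram (ws I 1 s t).length (nmRows (ws I 1 s t) σ) =
      (NM (wV (uZ I) s t) (toN I.n σ)).det ^ 2 := by
  rw [gram_eq]
  unfold nmRows
  rw [ws_length, GM_eq _ _ fun v u => nmRow_getD I s t σ hσ v u, Matrix.det_mul,
    Matrix.det_transpose, sq]

theorem prod_map_ws (I : Input) (s t : ℤ) :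
    ((ws I 1 s t).map fun u => u.2.2).prod = ∏ i, wV (uZ I) s t i 2 := by
  have h1 : ((ws I 1 s t).map fun u => u.2.2) =
      (List.range I.n).map fun i => (gv (ws I 1 s t) i).2.2 := by
    apply List.ext_getElem
    · simp [ws_length]
    · intro i h h'
      have hi : i < (ws I 1 s t).length := by simpa using h
      simp [gv, List.getD_eq_getElem?_getD, List.getElem?_eq_getElem hi]
  rw [h1, prod_range_map]
  refine Finset.prod_congr rfl fun i _ => ?_
  rw [← gv_ws]
  simp [toV]

/-! ## Bounds -/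

theorem natAbs_lt_size (z : ℤ) : z.natAbs < 2 ^ size (enc z) := by
  have h : size (enc z) = size (enc (decide (z < 0))) + size (enc z.natAbs) + 1 :=
    size_pair _ _
  exact (lt_two_pow_size z.natAbs).trans_le (Nat.pow_le_pow_right (by norm_num) (by omega))

theorem size_rat (q : ℚ) : size (enc q) = size (enc q.num) + size (enc q.den) + 1 :=
  size_pair _ _

theorem num_lt (q : ℚ) : q.num.natAbs < 2 ^ size (enc q) := by
  have := size_rat q
  exact (natAbs_lt_size _).trans_le (Nat.pow_le_pow_right (by norm_num) (by omega))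

theorem den_lt (q : ℚ) : q.den < 2 ^ size (enc q) := by
  have := size_rat q
  exact (lt_two_pow_size _).trans_le (Nat.pow_le_pow_right (by norm_num) (by omega))

theorem mul3_le {a b c x y z S : ℕ} (ha : a < 2 ^ x) (hb : b < 2 ^ y) (hc : c < 2 ^ z)
    (h : x + y + z ≤ S) : a * b * c ≤ 2 ^ S := by
  calc a * b * c ≤ 2 ^ x * 2 ^ y * 2 ^ z := by gcongr
    _ = 2 ^ (x + y + z) := by rw [pow_add, pow_add]
    _ ≤ 2 ^ S := Nat.pow_le_pow_right (by norm_num) h

theorem intVec_le (q : Q3) :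
    (intVec q).1.natAbs ≤ 2 ^ size (enc q) ∧ (intVec q).2.1.natAbs ≤ 2 ^ size (enc q) ∧
      (intVec q).2.2.natAbs ≤ 2 ^ size (enc q) := by
  obtain ⟨a, b, c⟩ := q
  have h1 : size (enc (a, b, c)) = size (enc a) + size (enc (b, c)) + 1 := size_pair _ _
  have h2 : size (enc (b, c)) = size (enc b) + size (enc c) + 1 := size_pair _ _
  have e : ∀ (x : ℤ) (y z : ℕ), (x * y * z).natAbs = x.natAbs * y * z := by
    intro x y z
    rw [Int.natAbs_mul, Int.natAbs_mul, Int.natAbs_natCast, Int.natAbs_natCast]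
  simp only [intVec]
  rw [e, e, e]
  exact ⟨mul3_le (num_lt a) (den_lt b) (den_lt c) (by omega),
    mul3_le (num_lt b) (den_lt a) (den_lt c) (by omega),
    mul3_le (num_lt c) (den_lt a) (den_lt b) (by omega)⟩

theorem uZ_le (I : Input) (v : Fin I.n) (k : Fin 3) :
    nA.v ((toV (uZ I v) : Fin 3 → ℤ[X][X]) k) ≤ 2 ^ size (enc I) := by
  have h0 : size (enc I) = size (enc I.1) + size (enc I.2) + 1 := size_pair _ _
  have hm : I.2.get v ∈ I.2 := List.get_mem _ _
  have h1 := size_le_of_mem hm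
  have h2 : 2 ^ size (enc (I.2.get v)) ≤ 2 ^ size (enc I) :=
    Nat.pow_le_pow_right (by norm_num) (by omega)
  obtain ⟨h3, h4, h5⟩ := intVec_le (I.2.get v)
  unfold uZ
  fin_cases k
  · exact (nA_intCast _).le.trans (h3.trans h2)
  · exact (nA_intCast _).le.trans (h4.trans h2)
  · exact (nA_intCast _).le.trans (h5.trans h2)

theorem nA_two : nA.v 2 = 2 := nA_intCast 2

theorem Qm_le (i j : Fin 3) :
    nA.v ((Qm (1 : ℤ[X][X]) (C X) X) i j) ≤ 9 := by
  have h1 : nA.v ((1 : ℤ[X][X]) ^ 2) ≤ 1 := by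
    rw [one_pow]
    exact nA.one
  have h2 : nA.v ((C X : ℤ[X][X]) ^ 2) ≤ 4 :=
    (nA.pow _ _).trans (Nat.pow_le_pow_left nA_s 2)
  have h3 : nA.v ((X : ℤ[X][X]) ^ 2) ≤ 4 :=
    (nA.pow _ _).trans (Nat.pow_le_pow_left nA_t 2)
  have m : ∀ a b : ℤ[X][X], ∀ x y : ℕ, nA.v a ≤ x → nA.v b ≤ y → nA.v (a * b) ≤ x * y :=
    fun a b x y ha hb => (nA.mul _ _).trans (Nat.mul_le_mul ha hb)
  have h4 : nA.v (2 * (C X : ℤ[X][X]) * X) ≤ 8 :=
    m _ _ 4 2 (m _ _ 2 2 nA_two.le nA_s) nA_t
  have h5 : nA.v (2 * (1 : ℤ[X][X]) * X) ≤ 4 :=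
    m _ _ 2 2 (m _ _ 2 1 nA_two.le nA.one) nA_t
  have h6 : nA.v (2 * (1 : ℤ[X][X]) * C X) ≤ 4 :=
    m _ _ 2 2 (m _ _ 2 1 nA_two.le nA.one) nA_s
  have h7 := nA.add ((1 : ℤ[X][X]) ^ 2) ((C X : ℤ[X][X]) ^ 2)
  have h8 := nA.sub ((1 : ℤ[X][X]) ^ 2) ((C X : ℤ[X][X]) ^ 2)
  have h9 := nA.sub ((1 : ℤ[X][X]) ^ 2 + (C X : ℤ[X][X]) ^ 2) ((X : ℤ[X][X]) ^ 2)
  have h10 := nA.add ((1 : ℤ[X][X]) ^ 2 - (C X : ℤ[X][X]) ^ 2) ((X : ℤ[X][X]) ^ 2)
  have h11 := nA.sub ((1 : ℤ[X][X]) ^ 2 - (C X : ℤ[X][X]) ^ 2) ((X : ℤ[X][X]) ^ 2)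
  fin_cases i <;> fin_cases j
  · exact h9.trans (by omega)
  · exact h4.trans (by norm_num)
  · exact h5.trans (by norm_num)
  · exact h4.trans (by norm_num)
  · exact h10.trans (by omega)
  · exact (nA.neg _).le.trans (h6.trans (by norm_num))
  · exact (nA.neg _).le.trans (h5.trans (by norm_num))
  · exact h6.trans (by norm_num)
  · exact h11.trans (by omega)

/-- the vectors in the ring of polynomials -/
noncomputable def wA (I : Input) (v : Fin I.n) : Fin 3 → ℤ[X][X] := wV (uZ I) (C X) X v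

theorem wA_le (I : Input) (v : Fin I.n) (k : Fin 3) :
    nA.v (wA I v k) ≤ 2 ^ (size (enc I) + 5) := by
  have h : wA I v k = ∑ j, (Qm (1 : ℤ[X][X]) (C X) X) k j * (toV (uZ I v) : Fin 3 → ℤ[X][X]) j :=
    rfl
  rw [h]
  refine (nA.sum _ _).trans ?_
  refine (Finset.sum_le_sum fun j _ =>
    (nA.mul _ _).trans (Nat.mul_le_mul (Qm_le k j) (uZ_le I v j))).trans ?_
  simp only [Finset.sum_const, Finset.card_univ, Fintype.card_fin, smul_eq_mul, pow_add]
  omega

theorem cr_le (I : Input) (u v : Fin I.n) :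
    nA.v (cr (wA I u) (wA I v)) ≤ 2 ^ (2 * size (enc I) + 11) := by
  refine (nA.sub _ _).trans ?_
  have h : ∀ i j, nA.v (wA I u i * wA I v j) ≤ 2 ^ (2 * size (enc I) + 10) := by
    intro i j
    refine (nA.mul _ _).trans ((Nat.mul_le_mul (wA_le I u i) (wA_le I v j)).trans ?_)
    rw [← pow_add]
    exact Nat.pow_le_pow_right (by norm_num) (by omega)
  have h1 := h 0 1
  have h2 := h 1 0
  rw [show 2 * size (enc I) + 11 = 2 * size (enc I) + 10 + 1 from rfl, pow_succ]
  omega

theorem n_le (I : Input) : I.n ≤ size (enc I) := by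
  have h0 : size (enc I) = size (enc I.1) + size (enc I.2) + 1 := size_pair _ _
  have := length_le_size I.2
  have h2 : I.n = I.2.length := rfl
  omega

theorem prodG_le (I : Input) :
    nA.v (prodG (wA I)) ≤ 2 ^ ((2 * size (enc I) + 11) * size (enc I) * size (enc I)) := by
  have hn := n_le I
  have h1 : ∀ i, nA.v (∏ j, if i = j then 1 else cr (wA I i) (wA I j)) ≤
      2 ^ ((2 * size (enc I) + 11) * I.n) := by
    intro i
    have := nA.prod Finset.univ (fun j => if i = j then 1 else cr (wA I i) (wA I j))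
      (2 ^ (2 * size (enc I) + 11)) (fun j _ => by
        split_ifs
        · exact nA.one.trans Nat.one_le_two_pow
        · exact cr_le I i j)
    rw [← pow_mul] at this
    simpa using this
  have h2 := nA.prod Finset.univ _ _ fun i _ => h1 i
  unfold prodG
  refine h2.trans ?_
  rw [← pow_mul]
  simp only [Finset.card_univ, Fintype.card_fin]
  exact Nat.pow_le_pow_right (by norm_num) (Nat.mul_le_mul (Nat.mul_le_mul le_rfl hn) hn)

theorem NM_le (I : Input) (N : Fin I.n → Option (Fin I.n × Fin I.n)) (v u : Fin I.n) :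
    nA.v (NM (wA I) N v u) ≤ 2 ^ (2 * size (enc I) + 13) := by
  have h1 : ∀ (P : Prop) [Decidable P] (a b : Fin I.n),
      nA.v (if P then cr (wA I a) (wA I b) else 0) ≤ 2 ^ (2 * size (enc I) + 11) := by
    intro P _ a b
    split_ifs
    · exact cr_le I a b
    · rw [nA.zero]
      exact Nat.zero_le _
  have h2 : 2 ^ (2 * size (enc I) + 13) = 4 * 2 ^ (2 * size (enc I) + 11) := by
    rw [show 2 * size (enc I) + 13 = 2 * size (enc I) + 11 + 2 from rfl, pow_add]
    ring
  unfold NM
  rw [Matrix.of_apply]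
  rcases N v with _ | e
  · simp only
    split_ifs
    · exact nA.one.trans Nat.one_le_two_pow
    · rw [nA.zero]
      exact Nat.zero_le _
  · simp only
    have h3 := h1 (u = v) e.1 e.2
    have h4 := h1 (u = e.1) v e.2
    have h5 := h1 (u = e.2) e.1 v
    refine (nA.sub _ _).trans ?_
    have h6 := nA.sub (if u = v then cr (wA I e.1) (wA I e.2) else 0)
      (if u = e.1 then cr (wA I v) (wA I e.2) else 0)
    omega

theorem det_le (I : Input) (N : Fin I.n → Option (Fin I.n × Fin I.n)) :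
    nA.v ((NM (wA I) N).det ^ 2) ≤ 2 ^ ((3 * size (enc I) + 13) * size (enc I) * 2) := by
  refine (nA.pow _ _).trans ?_
  have hn := n_le I
  rw [pow_mul]
  refine Nat.pow_le_pow_left ?_ 2
  refine (nA.det _ _ (NM_le I N)).trans ?_
  rw [← pow_mul]
  have h1 : I.n.factorial ≤ 2 ^ (size (enc I) * size (enc I)) := by
    calc I.n.factorial ≤ I.n ^ I.n := Nat.factorial_le_pow _
      _ ≤ (2 ^ size (enc I)) ^ I.n := Nat.pow_le_pow_left (hn.trans Nat.lt_two_pow_self.le) _
      _ ≤ (2 ^ size (enc I)) ^ size (enc I) := Nat.pow_le_pow_right (by positivity) hn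
      _ = _ := by rw [← pow_mul]
  calc I.n.factorial * 2 ^ ((2 * size (enc I) + 13) * I.n)
      ≤ 2 ^ (size (enc I) * size (enc I)) * 2 ^ ((2 * size (enc I) + 13) * size (enc I)) :=
        Nat.mul_le_mul h1 (Nat.pow_le_pow_right (by norm_num) (Nat.mul_le_mul le_rfl hn))
    _ = 2 ^ ((3 * size (enc I) + 13) * size (enc I)) := by
        rw [← pow_add]
        congr 1
        ring

theorem z_le (I : Input) :
    nA.v (∏ i, wA I i 2) ≤ 2 ^ ((size (enc I) + 5) * size (enc I)) := by
  have h := nA.prod Finset.univ (fun i => wA I i 2) _ (fun i _ => wA_le I i 2)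
  refine h.trans ?_
  rw [← pow_mul]
  simp only [Finset.card_univ, Fintype.card_fin]
  exact Nat.pow_le_pow_right (by norm_num) (Nat.mul_le_mul le_rfl (n_le I))

/-! ## The theorems -/

theorem wA_hZ (I : Input) (s t : ℤ) : (fun v => hZ s t ∘ wA I v) = wV (uZ I) s t := by
  funext v
  unfold wA
  rw [map_wV, hZ_s, hZ_t]

theorem wA_hR (I : Input) (q : ℝ × ℝ) : (fun v => hR q ∘ wA I v) = yq (uI I) q := by
  funext v
  unfold wA
  rw [map_wV, hR_s, hR_t]
  rfl

end PolysAux

open PolysAux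

theorem E1_poly : ∃ p : Polynomial ℕ, ∀ I : Input, ∃ P : ℤ[X][X],
    Bd2 P (p.eval (size (enc I))) ∧ (∀ s t, E1 I s t = evZ P s t) ∧
    ∀ q, ev P q = ∏ i, ∏ j, if i = j then 1 else cr (yq (uI I) q i) (yq (uI I) q j) := by
  refine ⟨(2 * X + 11) * X * X + 1, fun I => ⟨prodG (wA I), bd2_of ?_, fun s t => ?_,
    fun q => ?_⟩⟩
  · refine (prodG_le I).trans_lt (Nat.pow_lt_pow_right (by norm_num) ?_)
    simp
  · rw [hZ_apply, map_prodG, wA_hZ]
    exact prodCr_ws I s t
  · rw [hR_apply, map_prodG, wA_hR]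
    rfl

theorem gram_poly : ∃ p : Polynomial ℕ, ∀ (I : Input) (σ : List (Option (ℕ × ℕ))),
    okPat I.n σ → ∃ P : ℤ[X][X], Bd2 P (p.eval (size (enc I))) ∧
    (∀ s t, gram (ws I 1 s t).length (nmRows (ws I 1 s t) σ) = evZ P s t) ∧
    ∀ q, ev P q = (NM (yq (uI I) q) (toN I.n σ)).det ^ 2 := by
  refine ⟨(3 * X + 13) * X * 2 + 1, fun I σ hσ => ⟨(NM (wA I) (toN I.n σ)).det ^ 2, bd2_of ?_,
    fun s t => ?_, fun q => ?_⟩⟩
  · refine (det_le I _).trans_lt (Nat.pow_lt_pow_right (by norm_num) ?_)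
    simp
  · rw [hZ_apply, map_det2, wA_hZ]
    exact gram_ws I s t σ hσ
  · rw [hR_apply, map_det2, wA_hR]

theorem E2_poly : ∃ p : Polynomial ℕ, ∀ (I : Input) (L : List (List (Option (ℕ × ℕ)))),
    (∀ σ ∈ L, okPat I.n σ) → ∃ P : ℤ[X][X], Bd2 P (p.eval (size (enc (I, L)))) ∧
    (∀ s t, E2 (I, L) s t = evZ P s t) ∧
    ∀ q, ev P q = (∏ i, ∏ j, if i = j then 1 else cr (yq (uI I) q i) (yq (uI I) q j)) *
      ((∏ i, yq (uI I) q i 2) *
        (L.map fun σ => (NM (yq (uI I) q) (toN I.n σ)).det ^ 2).prod) := by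
  refine ⟨(2 * X + 11) * X * X + (X + 5) * X + (3 * X + 13) * X * 2 * X + 1, fun I L hL =>
    ⟨prodH (wA I) L, bd2_of ?_, fun s t => ?_, fun q => ?_⟩⟩
  · have h0 : size (enc (I, L)) = size (enc I) + size (enc L) + 1 := size_pair _ _
    have hl := length_le_size L
    set T := size (enc (I, L)) with hT
    have hI : size (enc I) ≤ T := by omega
    have hLT : L.length ≤ T := by omega
    have h1 := prodG_le I
    have h2 := z_le I
    have h3 : nA.v (L.map fun σ => (NM (wA I) (toN I.n σ)).det ^ 2).prod ≤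
        2 ^ ((3 * size (enc I) + 13) * size (enc I) * 2 * L.length) := by
      have := nA.lprod (L.map fun σ => (NM (wA I) (toN I.n σ)).det ^ 2) _ (by
        intro a ha
        obtain ⟨σ, _, rfl⟩ := List.mem_map.1 ha
        exact det_le I _)
      rw [← pow_mul, List.length_map] at this
      exact this
    have h4 : nA.v (prodH (wA I) L) ≤
        2 ^ ((2 * size (enc I) + 11) * size (enc I) * size (enc I)) *
        (2 ^ ((size (enc I) + 5) * size (enc I)) *
          2 ^ ((3 * size (enc I) + 13) * size (enc I) * 2 * L.length)) :=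
      (nA.mul _ _).trans (Nat.mul_le_mul h1 ((nA.mul _ _).trans (Nat.mul_le_mul h2 h3)))
    refine h4.trans_lt ?_
    rw [← pow_add, ← pow_add]
    refine Nat.pow_lt_pow_right (by norm_num) ?_
    have h5 : (2 * size (enc I) + 11) * size (enc I) * size (enc I) ≤ (2 * T + 11) * T * T := by
      gcongr
    have h6 : (size (enc I) + 5) * size (enc I) ≤ (T + 5) * T := by gcongr
    have h7 : (3 * size (enc I) + 13) * size (enc I) * 2 * L.length ≤
        (3 * T + 13) * T * 2 * T := by gcongr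
    simp only [eval_add, eval_mul, eval_X, eval_ofNat, eval_one]
    omega
  · rw [hZ_apply, map_prodH, wA_hZ]
    unfold E2 prodH
    simp only
    rw [prodCr_ws, prod_map_ws]
    congr 2
    congr 1
    exact List.map_congr_left fun σ hσ => gram_ws I s t σ (hL σ hσ)
  · rw [hR_apply, map_prodH, wA_hR]
    rfl

end Pool.Agent.Sink
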