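import Pool.Agent.Lib.MP_93b8a0_lc.Defs2
import Pool.Agent.Lib.MP_93b8a0_lc.Gram
import Pool.Agent.Lib.MP_93b8a0_lc.Dig
import Pool.Agent.Lib.MP_93b8a0_lc.Samp1T

/-!
# Polynomial time of the sampler in two variables
-/

open Matrix Polynomial

namespace Pool.Agent.Sink

open Pool.Agent.PolyTime Pool.Agent.SparseNP

theorem s2t_size_reverse {β : Type} [Enc β] (l : List β) :
    size (enc l.reverse) = size (enc l) := by
  induction l with
  | nil => rfl
  | cons x l ih =>
    have := size_append l.reverse [x]
    rw [List.reverse_cons]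
    rw [size_lcons x []] at this
    rw [size_lcons]
    simp only [enc_nil, size_nil] at this
    omega

theorem s2t_fold {β : Type} (p : β → Bool) (l s : List β) :
    l.foldl (fun s c => if (s.isEmpty && p c) = true then s else c :: s) s =
      if s.isEmpty = true then (l.dropWhile p).reverse else l.reverse ++ s := by
  induction l generalizing s with
  | nil => cases s <;> simp
  | cons c l ih =>
    rw [List.foldl_cons, ih]
    cases s with
    | nil =>
      cases hp : p c
      · simp [hp]
      · simp [hp]
    | cons a s => simp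

theorem s2t_trim {α : Type} [Enc α] {cc : α → List (List ℤ)} (hc : PTime cc) :
    PTime (fun x => trim (cc x)) := by
  obtain ⟨F, hF, hFm, hFs⟩ := hc.reverse.size_le
  have hz : PTime (fun p : α × (List (List ℤ) × List ℤ) =>
      p.2.2.all fun z => decide (z = 0)) :=
    PTime.all (g := fun (_ : α × (List (List ℤ) × List ℤ)) (z : ℤ) => decide (z = 0))
      (PTime.snd' PTime.snd) (PTime.eq PTime.snd (PTime.const 0))
  have h1 : PTime (fun p : α × (List (List ℤ) × List ℤ) =>
      (p.2.1.isEmpty && p.2.2.all fun z => decide (z = 0))) :=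
    (PTime.fst' PTime.snd).isEmpty.and hz
  have h2 : PTime (fun p : α × (List (List ℤ) × List ℤ) =>
      if (p.2.1.isEmpty && p.2.2.all fun z => decide (z = 0)) = true then p.2.1 else
        p.2.2 :: p.2.1) :=
    PTime.ite h1 (PTime.fst' PTime.snd) ((PTime.snd' PTime.snd).cons (PTime.fst' PTime.snd))
  refine (PTime.foldl (h := fun (_ : α) (s : List (List ℤ)) (c : List ℤ) =>
    if (s.isEmpty && c.all fun z => decide (z = 0)) = true then s else c :: s) hc.reverse
    (PTime.const []) h2 hF ?_).of_eq fun x => ?_
  · intro a l₁ l₂ h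
    rw [s2t_fold (fun c : List ℤ => c.all fun z => decide (z = 0))]
    simp only [List.isEmpty_nil, if_true]
    rw [s2t_size_reverse]
    have h3 : size (enc (l₁.dropWhile fun c : List ℤ => c.all fun z => decide (z = 0))) ≤
        size (enc ((cc a).reverse)) := by
      refine size_sublist ((List.dropWhile_sublist _).trans ?_)
      rw [h]
      simp
    exact h3.trans (hFs a)
  · rw [s2t_fold (fun c : List ℤ => c.all fun z => decide (z = 0))]
    simp only [List.isEmpty_nil, if_true]
    rfl

theorem s2t_cf {α : Type} [Enc α] {a : α → List ℤ} {i j : α → ℕ} (ha : PTime a) (hi : PTime i)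
    (hj : PTime j) : PTime (fun x => cf (fun i => (a x).getD i 0) (i x) (j x)) := by
  unfold cf
  exact PTime.iteP (PTime.le hj hi) (ha.listGetD (hi.sub hj) (PTime.const 0)) (PTime.const 0)

theorem s2t_cf' {α : Type} [Enc α] {a : α → List ℤ} {i j : α → ℕ} (ha : PTime a) (hi : PTime i)
    (hj : PTime j) : PTime (fun x => cf (fun i => ((i + 1 : ℕ) : ℤ) * (a x).getD (i + 1) 0)
      (i x) (j x)) := by
  unfold cf
  exact PTime.iteP (PTime.le hj hi) (ptime_intMul (ptime_natCast (hi.sub hj).succ)
    (ha.listGetD (hi.sub hj).succ (PTime.const 0))) (PTime.const 0)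

theorem s2t_sylE {α : Type} [Enc α] {a : α → List ℤ} {k i j : α → ℕ} (ha : PTime a)
    (hk : PTime k) (hi : PTime i) (hj : PTime j) :
    PTime (fun x => sylE (fun i => (a x).getD i 0) (k x) (i x) (j x)) := by
  unfold sylE
  exact PTime.iteP (PTime.lt hj hk) (s2t_cf ha hi hj) (s2t_cf' ha hi (hj.sub hk))

theorem s2t_sylRows {α : Type} [Enc α] {a : α → List ℤ} {n k : α → ℕ} {U : α → List Unit}
    (ha : PTime a) (hn : PTime n) (hk : PTime k) (hU : PTime U)
    (h1 : ∀ x, n x + k x ≤ (U x).length) (h2 : ∀ x, 2 * k x + 1 ≤ (U x).length) :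
    PTime (fun x => sylRows (a x) (n x) (k x)) := by
  unfold sylRows
  have hk2 : PTime (fun x => 2 * k x + 1) := ((hk.add hk).of_eq fun x => by ring).succ
  exact PTime.map (g := fun (x : α) (i : ℕ) => (List.range (2 * k x + 1)).map fun j =>
      sylE (fun i => (a x).getD i 0) (k x) i j) (PTime.rangeLe (hn.add hk) hU h1)
    (PTime.map (g := fun (p : α × ℕ) (j : ℕ) =>
      sylE (fun i => (a p.1).getD i 0) (k p.1) p.2 j)
      (PTime.rangeLe (hk2.comp PTime.fst) (hU.comp PTime.fst) fun p => h2 p.1)
      (s2t_sylE (ha.comp (PTime.fst' PTime.fst)) (hk.comp (PTime.fst' PTime.fst))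
        (PTime.snd' PTime.fst) PTime.snd))

theorem s2t_gk {α : Type} [Enc α] {a : α → List ℤ} {k : α → ℕ} (ha : PTime a) (hk : PTime k)
    (h : ∀ x, k x ≤ (a x).length) : PTime (fun x => gk (a x) (k x)) := by
  unfold gk
  have hU : PTime (fun x => () :: ((a x ++ a x).map fun _ => ())) :=
    (PTime.const ()).cons (PTime.map (g := fun (_ : α) (_ : ℤ) => ()) (ha.append ha)
      (PTime.const ()))
  have hk2 : PTime (fun x => 2 * k x + 1) := ((hk.add hk).of_eq fun x => by ring).succ
  refine gram_ptime hk2 hU (fun x => ?_) (s2t_sylRows ha (ha.length.sub (PTime.const 1)) hk hU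
    (fun x => ?_) (fun x => ?_))
  all_goals
    have := h x
    simp only [List.length_cons, List.length_map, List.length_append]
    omega

theorem s2t_find {β : Type} (p q : β → Bool) (l : List β) (h : ∀ x ∈ l, p x = q x) :
    l.find? p = l.find? q := by
  induction l with
  | nil => rfl
  | cons a l ih =>
    rw [List.find?_cons, List.find?_cons, h a (by simp), ih fun x hx => h x (by simp [hx])]

theorem s2t_crit {α : Type} [Enc α] {u : α → List Unit} {a : α → List ℤ} (hu : PTime u)
    (ha : PTime a) : PTime (fun x => crit (u x).length (a x)) := by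
  -- the index
  have hmin : ∀ {k : (α × ℕ) → ℕ}, PTime k →
      PTime (fun p : α × ℕ => min (k p) (a p.1).length) := by
    intro k hk
    refine (PTime.iteP (PTime.le hk (ha.comp PTime.fst).length) hk
      (ha.comp PTime.fst).length).of_eq fun p => ?_
    split
    · next h => rw [min_eq_left h]
    · next h => rw [min_eq_right (by omega)]
  have hfind : PTime (fun x => ((List.range ((a x).length - 1)).find? fun k =>
      decide (gk (a x) (k + 1) = 0)).getD 0) := by
    refine PTime.getD ?_ (PTime.const 0)
    have hg : PTime₂ (fun (x : α) (k : ℕ) => decide (gk (a x) (min (k + 1) (a x).length) = 0)) :=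
      PTime.eq (s2t_gk (a := fun p : α × ℕ => a p.1)
        (k := fun p : α × ℕ => min (p.2 + 1) (a p.1).length) (ha.comp PTime.fst)
        (hmin PTime.snd.succ) fun p => min_le_right _ _) (PTime.const 0)
    refine (PTime.find? (PTime.rangeLe (ha.length.sub (PTime.const 1)) ha fun x => by omega)
      hg).of_eq fun x => ?_
    refine s2t_find _ _ _ fun k hk => ?_
    have := List.mem_range.1 hk
    rw [min_eq_left (by omega)]
  obtain ⟨m, hm⟩ : ∃ m : α → ℕ, m = fun x => ((List.range ((a x).length - 1)).find? fun k =>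
      decide (gk (a x) (k + 1) = 0)).getD 0 := ⟨_, rfl⟩
  have hmb : ∀ x, m x ≤ (a x).length := by
    intro x
    rw [hm]
    dsimp only
    cases h : (List.range ((a x).length - 1)).find? fun k => decide (gk (a x) (k + 1) = 0) with
    | none => simp
    | some k =>
      have := List.mem_range.1 (List.mem_of_find?_eq_some h)
      simp only [Option.getD_some]
      omega
  have hm' : PTime m := by rw [hm]; exact hfind
  have hlast : PTime (fun x => (a x).getLastD 0) :=
    (PTime.getD ha.reverse.head? (PTime.const 0)).of_eq fun x => by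
      rw [List.head?_reverse, List.getLastD_eq_getLast?]
  unfold crit
  refine dig_ptime hu hu (ptime_intMul hlast ?_)
  refine (PTime.iteP (c := fun x => (a x).length ≤ 1) (PTime.le ha.length (PTime.const 1))
    (PTime.const 1) (s2t_gk ha hm' hmb)).of_eq fun x => ?_
  rw [hm]

theorem samp2_ptime (F : List ℤ → List (ℤ × ℤ)) (hF : PTime F) :
    PTime (fun p : List Unit × List (List ℤ) => samp2 F p.1.length p.2) := by
  unfold samp2
  have ht : PTime (fun p : List Unit × List (List ℤ) => trim p.2) := s2t_trim PTime.snd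
  have hpow : PTime (fun p : List Unit × List (List ℤ) => (2 : ℤ) ^ p.1.length) :=
    ptime_intPow2 PTime.fst.length PTime.fst fun x => le_rfl
  have h1 : PTime (fun p : List Unit × List (List ℤ) =>
      (trim p.2).map fun c => hor (2 ^ p.1.length) 1 c) :=
    PTime.map (g := fun (p : List Unit × List (List ℤ)) (c : List ℤ) =>
      hor (2 ^ p.1.length) 1 c) ht
      (hor_ptime (hpow.comp PTime.fst) (PTime.const 1) PTime.snd)
  refine PTime.flatMap (g := fun (p : List Unit × List (List ℤ)) (s : ℤ × ℤ) =>
    (F ((trim p.2).map fun c => hor s.1 s.2 c)).map fun t => (s, t))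
    (hF.comp (s2t_crit PTime.fst h1)) ?_
  have h2 : PTime (fun q : (List Unit × List (List ℤ)) × (ℤ × ℤ) =>
      (trim q.1.2).map fun c => hor q.2.1 q.2.2 c) :=
    PTime.map (g := fun (q : (List Unit × List (List ℤ)) × (ℤ × ℤ)) (c : List ℤ) =>
      hor q.2.1 q.2.2 c) (ht.comp PTime.fst)
      (hor_ptime (PTime.fst' (PTime.snd' PTime.fst)) (PTime.snd' (PTime.snd' PTime.fst))
        PTime.snd)
  exact PTime.map (g := fun (q : (List Unit × List (List ℤ)) × (ℤ × ℤ)) (t : ℤ × ℤ) =>
    (q.2, t)) (hF.comp h2) ((PTime.snd' PTime.fst).pair PTime.snd)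

end Pool.Agent.Sink
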