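import Pool.Agent.Lib.MP_93b8a0_lc.Samp2
import Pool.Agent.Lib.MP_93b8a0_lc.IntDiv
import Pool.Agent.Lib.MP_93b8a0_lc.Good
import Pool.Agent.Lib.MP_93b8a0_lc.Samp2T
import Pool.Agent.Lib.PolyTime.Codes

open Matrix Polynomial
namespace Pool.Agent.Sink
open Pool.Agent.PolyTime Pool.Agent.SparseNP

theorem sampler_poly2 (P : ℤ[X][X]) (m : ℕ) (hP : Bd2 P m) :
    poly2 ((List.range m).map fun j => (List.range m).map fun i => (P.coeff j).coeff i) = P := by
  ext1 j
  rw [samp2_coeff_poly2]
  rcases lt_or_ge j m with hj | hj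
  · rw [List.getD_eq_getElem _ _ (by simpa using hj)]
    simp only [List.getElem_map, List.getElem_range]
    exact samp2_poly_range _ _ (fun i hi => hP.d1 j i hi)
  · rw [List.getD_eq_default _ _ (by simpa using hj), hP.d2 j hj]
    rfl

theorem sampler_mono {P : ℤ[X][X]} {m m' : ℕ} (hP : Bd2 P m) (h : m ≤ m') : Bd2 P m' :=
  ⟨fun j hj => hP.d2 j (h.trans hj), fun j i hi => hP.d1 j i (h.trans hi), fun j i =>
    lt_of_lt_of_le (hP.h j i) (pow_le_pow_right₀ (by norm_num) h)⟩

theorem exists_sampler {α : Type} [Enc α] (E : α → ℤ → ℤ → ℤ)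
    (hE : PTime (fun p : α × (ℤ × ℤ) => E p.1 p.2.1 p.2.2)) (p : Polynomial ℕ) :
    ∃ S : α → List ((ℤ × ℤ) × (ℤ × ℤ)), PTime S ∧ ∀ x (P : ℤ[X][X]),
      Bd2 P (p.eval (size (enc x))) → (∀ s t, E x s t = evZ P s t) →
      ∀ q : ℝ × ℝ, ev P q ≠ 0 → ∃ r ∈ S x, 0 < r.1.2 ∧ 0 < r.2.2 ∧
        Linked {q | ev P q ≠ 0} q (frac r.1, frac r.2) := by
  obtain ⟨F, hF, hF1⟩ := exists_good1
  obtain ⟨p2, hp2⟩ := samp2_correct
  obtain ⟨c, hc, hc1⟩ := PTime.clock (α := α) (T := fun n => p.eval n) ⟨p, fun n => le_rfl⟩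
  have hτ : PTime (fun x => List.replicate (p2.eval (c x).length) ()) := PTime.unaryPoly hc p2
  have hlen : PTime (fun x => (c x).length + 1) := (PTime.length hc).add (PTime.const 1)
  have hsq : PTime (fun x => ((c x).length + 1) * ((c x).length + 1)) := hlen.mul hlen
  have hun : PTime (fun x => List.replicate (((X + 1) * (X + 1) : Polynomial ℕ).eval
      (c x).length) ()) := PTime.unaryPoly hc _
  have hs : PTime (fun x => (2 : ℤ) ^ ((c x).length + 1)) := by
    refine ptime_intPow2 hlen hun (fun x => ?_)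
    rw [List.length_replicate]
    simp only [eval_mul, eval_add, eval_X, eval_one]
    nlinarith
  have ht : PTime (fun x => (2 : ℤ) ^ (((c x).length + 1) * ((c x).length + 1))) := by
    refine ptime_intPow2 hsq hun (fun x => ?_)
    rw [List.length_replicate]
    simp only [eval_mul, eval_add, eval_X, eval_one]
    exact le_rfl
  have hN : PTime (fun x => E x (2 ^ ((c x).length + 1))
      (2 ^ (((c x).length + 1) * ((c x).length + 1)))) :=
    (hE.comp (PTime.id.pair (hs.pair ht))).of_eq fun x => rfl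
  refine ⟨fun x => samp2 F (List.replicate (p2.eval (c x).length) ()).length
    (dig2 (c x).length (E x (2 ^ ((c x).length + 1))
      (2 ^ (((c x).length + 1) * ((c x).length + 1))))),
    ((samp2_ptime F hF).comp (hτ.pair (dig2_ptime hc hN))).of_eq fun x => rfl, ?_⟩
  intro x P hP hEP q hq
  have hP' : Bd2 P (c x).length := sampler_mono hP (hc1 x)
  beta_reduce
  rw [hEP, dig2_eq _ _ hP', List.length_replicate]
  set m := (c x).length with hm
  have h1 := hp2 F hF1 ((List.range m).map fun j => (List.range m).map fun i =>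
    (P.coeff j).coeff i) m (p2.eval m) (by simp) (by
      intro c hc
      obtain ⟨j, -, rfl⟩ := List.mem_map.1 hc
      simp) (by
      intro c hc z hz
      obtain ⟨j, -, rfl⟩ := List.mem_map.1 hc
      obtain ⟨i, -, rfl⟩ := List.mem_map.1 hz
      exact hP'.h j i) le_rfl
  rw [sampler_poly2 P m hP'] at h1
  exact h1 q hq

end Pool.Agent.Sink
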