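import Pool.Agent.Lib.MP_93b8a0_lc.Fin3
import Pool.Agent.Lib.MP_93b8a0_lc.Polys
import Pool.Agent.Lib.MP_93b8a0_lc.Dig
import Pool.Agent.Lib.MP_93b8a0_lc.PT3
import Pool.Agent.Lib.MP_93b8a0_lc.Sampler
import Pool.Agent.Lib.MP_93b8a0_lc.Claim
import Pool.Agent.Lib.MP_93b8a0_lc.Good
import Pool.Agent.Lib.MP_93b8a0_lc.Samp2T

/-!
# Assembly, part 4: the algorithm
-/

open Matrix Polynomial

namespace Pool.Agent.Sink

open Pool.Agent.PolyTime Pool.Agent.SparseNP

theorem PBd_eval (p : Polynomial ℕ) : PBd fun n => p.eval n := ⟨p, fun _ => le_refl _⟩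

theorem Bd2.mono {P : ℤ[X][X]} {m m' : ℕ} (h : Bd2 P m) (hm : m ≤ m') : Bd2 P m' :=
  ⟨fun j hj => h.d2 j (hm.trans hj), fun j i hi => h.d1 j i (hm.trans hi), fun j i =>
    (h.h j i).trans_le (pow_le_pow_right₀ (by norm_num) hm)⟩

theorem sink_main : ∃ f : Input → Option Output, IsPolyTime enc enc f ∧
    ∀ (I : Input) (F : List (Fin I.n × Fin I.n × Fin I.n)), Valid I F →
      (∀ r, f I = some r → IsSinkRot F I.x (toMat r)) ∧
      (f I = none → ∀ R, ¬ IsSinkRot F I.x R) := by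
  obtain ⟨p₁, hp₁⟩ := E1_poly
  obtain ⟨pg, hpg⟩ := gram_poly
  obtain ⟨p₂, hp₂⟩ := E2_poly
  obtain ⟨pt, hpt⟩ := testB_complete
  obtain ⟨S₁, hS₁t, hS₁⟩ := exists_sampler (α := Input) (fun I s t => E1 I s t) E1_ptime p₁
  obtain ⟨S₂, hS₂t, hS₂⟩ := exists_sampler (α := Input × List (List (Option (ℕ × ℕ))))
    (fun x s t => E2 x s t) E2_ptime p₂
  obtain ⟨c₁, hc₁t, hc₁⟩ := PTime.clock (α := Input) (PBd_eval pg)
  -- size of the rotated vectors
  have hwt : PTime (fun x : Input × ((ℤ × ℤ) × (ℤ × ℤ)) => wsq x.1 x.2) := by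
    have h1 : PTime (fun x : Input × ((ℤ × ℤ) × (ℤ × ℤ)) => hom3 x.2) := by
      have a1 : PTime (fun x : Input × ((ℤ × ℤ) × (ℤ × ℤ)) => x.2.1.1) :=
        (PTime.snd.fst').fst'
      have a2 : PTime (fun x : Input × ((ℤ × ℤ) × (ℤ × ℤ)) => x.2.1.2) :=
        (PTime.snd.fst').snd'
      have a3 : PTime (fun x : Input × ((ℤ × ℤ) × (ℤ × ℤ)) => x.2.2.1) :=
        (PTime.snd.snd').fst'
      have a4 : PTime (fun x : Input × ((ℤ × ℤ) × (ℤ × ℤ)) => x.2.2.2) :=
        (PTime.snd.snd').snd'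
      exact (ptime_intMul a2 a4).pair ((ptime_intMul a1 a4).pair (ptime_intMul a3 a2))
    exact ws_ptime PTime.fst h1.fst' (h1.snd').fst' (h1.snd').snd'
  obtain ⟨G, hG, hGm, hGs⟩ := hwt.size_le
  have hT : PBd fun n => pt.eval (G n) := (PBd_eval pt).comp hG
  obtain ⟨c₂, hc₂t, hc₂⟩ := PTime.clock
    (α := Input × List ((ℤ × ℤ) × (ℤ × ℤ))) hT
  -- the algorithm
  let Lf : Input → List (List (Option (ℕ × ℕ))) := fun I =>
    nzPats (c₁ I).length I (patsAt I (S₁ I))
  let Sf : Input → List ((ℤ × ℤ) × (ℤ × ℤ)) := fun I =>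
    (S₂ (I, Lf I)).filter fun r => decide (0 < r.1.2) && decide (0 < r.2.2)
  let f : Input → Option Output := fun I => final (c₂ (I, Sf I)).length I (Sf I)
  have hLf : PTime Lf := nzPats_ptime hc₁t PTime.id (patsAt_ptime PTime.id hS₁t)
  have hSf : PTime Sf := by
    refine PTime.filter (g := fun (_ : Input) (r : (ℤ × ℤ) × (ℤ × ℤ)) =>
      decide (0 < r.1.2) && decide (0 < r.2.2)) (hS₂t.comp (PTime.id.pair hLf)) ?_
    have b1 : PTime (fun x : Input × ((ℤ × ℤ) × (ℤ × ℤ)) => decide (0 < x.2.1.2)) := by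
      refine (ptime_intLe (PTime.const 0) (PTime.snd.fst').snd' |>.and
        (PTime.eq (PTime.snd.fst').snd' (PTime.const (0 : ℤ))).not).of_eq fun x => ?_
      rw [Bool.eq_iff_iff]
      simp
      omega
    have b2 : PTime (fun x : Input × ((ℤ × ℤ) × (ℤ × ℤ)) => decide (0 < x.2.2.2)) := by
      refine (ptime_intLe (PTime.const 0) (PTime.snd.snd').snd' |>.and
        (PTime.eq (PTime.snd.snd').snd' (PTime.const (0 : ℤ))).not).of_eq fun x => ?_
      rw [Bool.eq_iff_iff]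
      simp
      omega
    exact b1.and b2
  have hf : PTime f := final_ptime (hc₂t.comp (PTime.id.pair hSf)) PTime.id hSf
  refine ⟨f, hf.isPolyTime, ?_⟩
  intro I F hI
  constructor
  · -- soundness
    intro r hr
    simp only [f, final] at hr
    rw [Option.map_eq_some_iff] at hr
    obtain ⟨q, hq, rfl⟩ := hr
    have h1 := List.find?_some hq
    have h2 := List.mem_of_find?_eq_some hq
    simp only [Sf] at h2
    rw [List.mem_filter] at h2
    have h3 := h2.2
    rw [Bool.and_eq_true, decide_eq_true_eq, decide_eq_true_eq] at h3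
    exact sinkRot_of_test I F hI _ q h3.1 h3.2 h1
  · -- completeness
    intro hnone R hR
    obtain ⟨P₁, hb₁, he₁, hv₁⟩ := hp₁ I
    -- the polynomials of the patterns
    have hex : ∀ σ : List (Option (ℕ × ℕ)), ∃ P : ℤ[X][X], okPat I.n σ →
        Bd2 P (pg.eval (size (enc I))) ∧
        (∀ s t, gram (ws I 1 s t).length (nmRows (ws I 1 s t) σ) = evZ P s t) ∧
        ∀ q, ev P q = (NM (yq (uI I) q) (toN I.n σ)).det ^ 2 := by
      intro σ
      by_cases h : okPat I.n σ
      · obtain ⟨P, h1, h2, h3⟩ := hpg I σ h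
        exact ⟨P, fun _ => ⟨h1, h2, h3⟩⟩
      · exact ⟨0, fun h' => absurd h' h⟩
    choose Pσ hPσ using hex
    have hok : ∀ σ ∈ Lf I, okPat I.n σ := by
      intro σ hσ
      simp only [Lf, nzPats] at hσ
      rw [List.mem_filter] at hσ
      obtain ⟨r, -, rfl⟩ := List.mem_map.1 hσ.1
      exact okPat_pat I F hI _
    obtain ⟨P₂, hb₂, he₂, hv₂⟩ := hp₂ I (Lf I) hok
    obtain ⟨r, hr, hd1, hd2, hce, hgood⟩ := complete I F hI R hR (S₁ I) P₁ hv₁
      (hS₁ I P₁ hb₁ he₁) (Lf I) Pσ (fun σ hσ => (hPσ σ hσ).2.2)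
      (by
        intro σ hσ
        refine ⟨hok σ hσ, ?_⟩
        intro h0
        have h1 := (hPσ σ (hok σ hσ)).2.1 (2 ^ ((c₁ I).length + 1))
          (2 ^ (((c₁ I).length + 1) * ((c₁ I).length + 1)))
        rw [h0] at h1
        have h2 : evZ 0 (2 ^ ((c₁ I).length + 1))
          (2 ^ (((c₁ I).length + 1) * ((c₁ I).length + 1))) = 0 := by simp [evZ]
        rw [h2] at h1
        simp only [Lf, nzPats] at hσ
        rw [List.mem_filter] at hσ
        have h3 := hσ.2
        rw [h1] at h3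
        simp at h3)
      (by
        intro r hr hne
        have hok' : okPat I.n (pat (edges I) (wsq I r)) := okPat_pat I F hI _
        obtain ⟨h1, h2, -⟩ := hPσ _ hok'
        simp only [Lf, nzPats]
        rw [List.mem_filter]
        refine ⟨List.mem_map.2 ⟨r, hr, rfl⟩, ?_⟩
        rw [h2]
        have h3 : evZ (Pσ (pat (edges I) (wsq I r))) (2 ^ ((c₁ I).length + 1))
            (2 ^ (((c₁ I).length + 1) * ((c₁ I).length + 1))) ≠ 0 := by
          intro h0
          exact hne (eq_zero_of_evZ _ _ (h1.mono (hc₁ I)) h0)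
        simpa using h3)
      P₂ hv₂ (S₂ (I, Lf I)) (hS₂ (I, Lf I) P₂ hb₂ he₂)
    have hrS : r ∈ Sf I := by
      simp only [Sf]
      rw [List.mem_filter]
      refine ⟨hr, ?_⟩
      rw [Bool.and_eq_true, decide_eq_true_eq, decide_eq_true_eq]
      exact ⟨hd1, hd2⟩
    simp only [f, final] at hnone
    rw [Option.map_eq_none_iff, List.find?_eq_none] at hnone
    apply hnone r hrS
    refine hpt I F hI (wsq I r) _ (length_ws I _ _ _) ?_ hce hgood
    refine le_trans ?_ (hc₂ (I, Sf I))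
    apply eval_mono
    refine (hGs (I, r)).trans (hGm ?_)
    have e1 := size_pair I r
    have e2 := size_pair I (Sf I)
    have := size_le_of_mem hrS
    omega

end Pool.Agent.Sink
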