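import Pool.Agent.Lib.MP_93b8a0_lc.Defs2

/-!
# Root bounds and a lower bound for the values at critical points
-/

open Matrix Polynomial

namespace Pool.Agent.Sink

open Pool.Agent.PolyTime Pool.Agent.SparseNP

/-- Cauchy's bound for integral polynomials -/
theorem gap_root {P : ℤ[X]} (hP : P ≠ 0) {A : ℝ} (hA : 0 ≤ A) (h : ∀ i, |(P.coeff i : ℝ)| ≤ A)
    {z : ℂ} (hz : (P.map (Int.castRingHom ℂ)).eval z = 0) : ‖z‖ < A + 1 := by
  have hinj : Function.Injective (Int.castRingHom ℂ) := RingHom.injective_int _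
  have hP' : P.map (Int.castRingHom ℂ) ≠ 0 := (Polynomial.map_ne_zero_iff hinj).2 hP
  have h1 := IsRoot.norm_lt_cauchyBound hP' hz
  have h2 : (cauchyBound (P.map (Int.castRingHom ℂ)) : ℝ) ≤ A + 1 := by
    have hlc : (1 : ℝ) ≤ ‖(P.map (Int.castRingHom ℂ)).leadingCoeff‖ := by
      rw [leadingCoeff_map_of_injective hinj]
      have : P.leadingCoeff ≠ 0 := leadingCoeff_ne_zero.2 hP
      have h3 : (1 : ℤ) ≤ |P.leadingCoeff| := Int.one_le_abs this
      have h4 : ‖(Int.castRingHom ℂ) P.leadingCoeff‖ = |(P.leadingCoeff : ℝ)| := by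
        simp
      rw [h4]
      exact_mod_cast h3
    have hlc' : (1 : NNReal) ≤ ‖(P.map (Int.castRingHom ℂ)).leadingCoeff‖₊ := by
      exact_mod_cast hlc
    have hs : (Finset.sup (Finset.range (P.map (Int.castRingHom ℂ)).natDegree)
        fun i => ‖(P.map (Int.castRingHom ℂ)).coeff i‖₊) ≤ A.toNNReal := by
      refine Finset.sup_le fun i _ => ?_
      rw [← NNReal.coe_le_coe, Real.coe_toNNReal A hA]
      have h8 : ‖(P.map (Int.castRingHom ℂ)).coeff i‖ = |(P.coeff i : ℝ)| := by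
        rw [coeff_map]
        exact Complex.norm_intCast _
      rw [coe_nnnorm, h8]
      exact h i
    have h5 : (Finset.sup (Finset.range (P.map (Int.castRingHom ℂ)).natDegree)
        fun i => ‖(P.map (Int.castRingHom ℂ)).coeff i‖₊) /
          ‖(P.map (Int.castRingHom ℂ)).leadingCoeff‖₊ ≤ A.toNNReal :=
      (div_le_self bot_le hlc').trans hs
    have h6 : cauchyBound (P.map (Int.castRingHom ℂ)) ≤ A.toNNReal + 1 := by
      unfold cauchyBound
      gcongr
    have h7 := NNReal.coe_le_coe.2 h6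
    rw [NNReal.coe_add, Real.coe_toNNReal A hA] at h7
    simpa using h7
  have h1' : ‖z‖ < (cauchyBound (P.map (Int.castRingHom ℂ)) : ℝ) := by exact_mod_cast h1
  linarith

/-- a bound for the values -/
theorem gap_val {P : ℤ[X]} {K : ℕ} {A R : ℝ} (hd : P.natDegree < K)
    (h : ∀ i, |(P.coeff i : ℝ)| ≤ A) (hR : 1 ≤ R)
    {z : ℂ} (hz : ‖z‖ ≤ R) : ‖(P.map (Int.castRingHom ℂ)).eval z‖ ≤ K * (A * R ^ K) := by
  have hA : 0 ≤ A := (abs_nonneg _).trans (h 0)
  rw [eval_eq_sum_range' (n := K) (lt_of_le_of_lt natDegree_map_le hd)]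
  refine (norm_sum_le _ _).trans ?_
  calc ∑ i ∈ Finset.range K, ‖(P.map (Int.castRingHom ℂ)).coeff i * z ^ i‖
      ≤ ∑ i ∈ Finset.range K, A * R ^ K := by
        refine Finset.sum_le_sum fun i hi => ?_
        rw [norm_mul, norm_pow]
        have h1 : ‖(P.map (Int.castRingHom ℂ)).coeff i‖ ≤ A := by simpa using h i
        have h2 : ‖z‖ ^ i ≤ R ^ K :=
          (pow_le_pow_left₀ (norm_nonneg _) hz i).trans
            (pow_le_pow_right₀ hR (Finset.mem_range.1 hi).le)
        exact mul_le_mul h1 h2 (by positivity) hA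
    _ = K * (A * R ^ K) := by simp

/-- the product over the non-zero critical values -/
theorem gap_prod {F : ℤ[X]} (hF : F.derivative ≠ 0) :
    (1 : ℝ) ≤ |(F.derivative.leadingCoeff : ℝ)| ^ F.natDegree *
      ((((F.derivative.map (Int.castRingHom ℂ)).roots.map
        (F.map (Int.castRingHom ℂ)).eval).filter (· ≠ 0)).map norm).prod := by
  classical
  have hinj : Function.Injective (Int.castRingHom ℂ) := RingHom.injective_int _
  set φ : ℤ[X] →+* ℂ[X] := mapRingHom (Int.castRingHom ℂ) with hφ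
  set G : ℤ[X] := F.derivative with hG
  set f : ℤ[X][X] := G.map C with hf
  set g : ℤ[X][X] := F.map C - C X with hg
  set Gc : ℂ[X] := G.map (Int.castRingHom ℂ) with hGc
  set Fc : ℂ[X] := F.map (Int.castRingHom ℂ) with hFc
  have hφC : φ.comp C = (C : ℂ →+* ℂ[X]).comp (Int.castRingHom ℂ) := Subsingleton.elim _ _
  have hfφ : f.map φ = Gc.map C := by
    rw [hf, hGc, Polynomial.map_map, Polynomial.map_map, hφC]
  have hgφ : g.map φ = Fc.map C - C X := by
    rw [hg, hFc, Polynomial.map_sub, Polynomial.map_map, Polynomial.map_map, hφC]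
    simp [hφ]
  have hGc0 : Gc ≠ 0 := (Polynomial.map_ne_zero_iff hinj).2 hF
  have hsp : Gc.Splits := IsAlgClosed.splits Gc
  have hCinj : Function.Injective (C : ℂ →+* ℂ[X]) := C_injective
  have hdeg : (Gc.map (C : ℂ →+* ℂ[X])).natDegree = G.natDegree := by
    rw [natDegree_map_eq_of_injective hCinj, hGc, natDegree_map_eq_of_injective hinj]
  have hgd : (Fc.map (C : ℂ →+* ℂ[X]) - C X).natDegree ≤ F.natDegree := by
    refine (natDegree_sub_le _ _).trans ?_
    rw [natDegree_map_eq_of_injective hCinj, hFc, natDegree_map_eq_of_injective hinj]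
    simp
  have hW : φ (resultant f g G.natDegree F.natDegree) =
      C ((G.leadingCoeff : ℂ) ^ F.natDegree) *
        ((Gc.roots.map Fc.eval).map fun v => C v - X).prod := by
    rw [← resultant_map_map, hfφ, hgφ, ← hdeg,
      resultant_eq_prod_eval _ _ _ hgd (hsp.map _), leadingCoeff_map_of_injective hCinj,
      hsp.roots_map_of_injective hCinj, hGc, leadingCoeff_map_of_injective hinj]
    rw [map_pow]
    congr 1
    rw [Multiset.map_map, Multiset.map_map]
    congr 1
    refine Multiset.map_congr rfl fun v _ => ?_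
    simp [eval_map, eval₂_at_apply]
  set s : Multiset ℂ := Gc.roots.map Fc.eval with hs
  -- split the product
  have hsplit : s.filter (· = 0) + s.filter (· ≠ 0) = s := Multiset.filter_add_not _ _
  set k : ℕ := (s.filter (· = 0)).card with hk
  have h0 : s.filter (· = 0) = Multiset.replicate k 0 := by
    rw [Multiset.eq_replicate]
    refine ⟨rfl, fun b hb => ?_⟩
    exact (Multiset.mem_filter.1 hb).2
  have hprod : (s.map fun v => C v - X).prod =
      (-X) ^ k * ((s.filter (· ≠ 0)).map fun v => C v - X).prod := by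
    conv_lhs => rw [← hsplit]
    rw [Multiset.map_add, Multiset.prod_add, h0]
    simp
  have hcoef : (φ (resultant f g G.natDegree F.natDegree)).coeff k =
      (-1) ^ k * ((G.leadingCoeff : ℂ) ^ F.natDegree * (s.filter (· ≠ 0)).prod) := by
    rw [hW, hprod, neg_pow, show (C ((G.leadingCoeff : ℂ) ^ F.natDegree) *
      (((-1) ^ k * X ^ k) * ((s.filter (· ≠ 0)).map fun v => C v - X).prod) : ℂ[X]) =
      X ^ k * (C ((G.leadingCoeff : ℂ) ^ F.natDegree) *
      ((-1) ^ k * ((s.filter (· ≠ 0)).map fun v => C v - X).prod)) by ring,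
      coeff_X_pow_mul', if_pos le_rfl, Nat.sub_self, coeff_zero_eq_eval_zero]
    rw [eval_mul, eval_mul, eval_C, eval_pow, eval_neg, eval_one, eval_multiset_prod,
      Multiset.map_map]
    have : ((s.filter (· ≠ 0)).map ((fun p : ℂ[X] => eval 0 p) ∘ fun v => C v - X)) =
        s.filter (· ≠ 0) := by
      conv_rhs => rw [← Multiset.map_id (s.filter (· ≠ 0))]
      refine Multiset.map_congr rfl fun v _ => ?_
      simp
    rw [this]
    ring
  have hint : (φ (resultant f g G.natDegree F.natDegree)).coeff k =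
      (((resultant f g G.natDegree F.natDegree).coeff k : ℤ) : ℂ) := by
    simp [hφ]
  set w : ℤ := (resultant f g G.natDegree F.natDegree).coeff k with hw
  have hlc : (G.leadingCoeff : ℂ) ≠ 0 := by
    exact_mod_cast leadingCoeff_ne_zero.2 hF
  have hne : (w : ℂ) ≠ 0 := by
    rw [← hint, hcoef]
    refine mul_ne_zero (pow_ne_zero _ (by norm_num)) (mul_ne_zero (pow_ne_zero _ hlc) ?_)
    rw [Ne, Multiset.prod_eq_zero_iff]
    intro h
    exact (Multiset.mem_filter.1 h).2 rfl
  have hw1 : (1 : ℝ) ≤ ‖(w : ℂ)‖ := by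
    have : w ≠ 0 := by exact_mod_cast hne
    have h3 : (1 : ℤ) ≤ |w| := Int.one_le_abs this
    have h4 : ‖(w : ℂ)‖ = |(w : ℝ)| := by simp
    rw [h4]
    exact_mod_cast h3
  have hn : ‖(w : ℂ)‖ = |(G.leadingCoeff : ℝ)| ^ F.natDegree *
      ((s.filter (· ≠ 0)).map norm).prod := by
    rw [← hint, hcoef, norm_mul, norm_mul, norm_pow, norm_pow]
    have h5 : ‖(s.filter (· ≠ 0)).prod‖ = ((s.filter (· ≠ 0)).map norm).prod := by
      exact map_multiset_prod (normHom : ℂ →*₀ ℝ) _
    rw [h5]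
    simp
  rw [← hn]
  exact hw1

theorem gap_lower {K : ℕ} {F : ℤ[X]} (hK : 2 ≤ K) (hd : F.natDegree < K)
    (hc : ∀ i, |F.coeff i| < 2 ^ K) {c : ℝ} (h0 : (toR F.derivative).eval c = 0)
    (h1 : (toR F).eval c ≠ 0) (hF : F.derivative ≠ 0) :
    |c| ≤ 2 ^ (4 * K) ∧ (1 : ℝ) ≤ |(toR F).eval c| * 2 ^ (8 * K ^ 3) := by
  classical
  have hKp : (K : ℝ) ≤ 2 ^ K := by exact_mod_cast (Nat.lt_two_pow_self).le
  have hcR : ∀ i, |(F.coeff i : ℝ)| ≤ 2 ^ K := fun i => by exact_mod_cast (hc i).le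
  -- coefficients of the derivative
  have hdc : ∀ i, |(F.derivative.coeff i : ℝ)| ≤ 2 ^ (2 * K) := by
    intro i
    rw [coeff_derivative]
    by_cases hi : i + 1 < K
    · push_cast
      rw [abs_mul]
      have h2 : |((i : ℝ) + 1)| ≤ 2 ^ K := by
        rw [abs_of_nonneg (by positivity)]
        have : ((i : ℝ) + 1) ≤ K := by exact_mod_cast hi.le
        linarith
      calc |(F.coeff (i + 1) : ℝ)| * |((i : ℝ) + 1)| ≤ 2 ^ K * 2 ^ K :=
            mul_le_mul (hcR _) h2 (abs_nonneg _) (by positivity)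
        _ = 2 ^ (2 * K) := by rw [← pow_add]; congr 1; ring
    · have : F.coeff (i + 1) = 0 := coeff_eq_zero_of_natDegree_lt (by omega)
      rw [this]
      simp
  have hroot : ∀ z : ℂ, (F.derivative.map (Int.castRingHom ℂ)).eval z = 0 →
      ‖z‖ ≤ 2 ^ (4 * K) := by
    intro z hz
    have h3 := gap_root hF (by positivity) hdc hz
    have h4 : (2 : ℝ) ^ (2 * K) + 1 ≤ 2 ^ (4 * K) := by
      have h5 : (1 : ℝ) ≤ 2 ^ (2 * K) := one_le_pow₀ (by norm_num)
      have h6 : (2 : ℝ) ^ (2 * K + 1) ≤ 2 ^ (4 * K) :=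
        pow_le_pow_right₀ (by norm_num) (by omega)
      rw [pow_succ] at h6
      linarith
    linarith
  have hcc : (F.derivative.map (Int.castRingHom ℂ)).eval (c : ℂ) = 0 := by
    have h2 : (F.derivative.map (Int.castRingHom ℂ)) =
        (toR F.derivative).map (algebraMap ℝ ℂ) := by
      rw [Polynomial.map_map]
      congr 1
    rw [h2, show ((c : ℂ)) = algebraMap ℝ ℂ c from rfl, eval_map_apply, h0, map_zero]
  have hFc : (F.map (Int.castRingHom ℂ)).eval (c : ℂ) = ((toR F).eval c : ℝ) := by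
    have h2 : (F.map (Int.castRingHom ℂ)) =
        (toR F).map (algebraMap ℝ ℂ) := by
      rw [Polynomial.map_map]
      congr 1
    rw [h2, show ((c : ℂ)) = algebraMap ℝ ℂ c from rfl, eval_map_apply]
    rfl
  refine ⟨by simpa using hroot _ hcc, ?_⟩
  have hp := gap_prod hF
  set s : Multiset ℂ := (F.derivative.map (Int.castRingHom ℂ)).roots.map
        (F.map (Int.castRingHom ℂ)).eval with hs
  have hG0 : F.derivative.map (Int.castRingHom ℂ) ≠ 0 :=
    (Polynomial.map_ne_zero_iff (RingHom.injective_int _)).2 hF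
  -- all values are bounded
  have hval : ∀ v ∈ s, ‖v‖ ≤ 2 ^ (6 * K ^ 2) := by
    intro v hv
    rw [hs, Multiset.mem_map] at hv
    obtain ⟨z, hz, rfl⟩ := hv
    have hz' := (mem_roots hG0).1 hz
    have h3 := gap_val (P := F) hd hcR (one_le_pow₀ (by norm_num : (1 : ℝ) ≤ 2)) (hroot z hz')
    refine h3.trans ?_
    calc (K : ℝ) * (2 ^ K * (2 ^ (4 * K)) ^ K) ≤ 2 ^ K * (2 ^ K * (2 ^ (4 * K)) ^ K) := by
          gcongr
      _ = 2 ^ (2 * K + 4 * K ^ 2) := by
          rw [← pow_mul, ← pow_add, ← pow_add]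
          congr 1
          ring
      _ ≤ 2 ^ (6 * K ^ 2) := by
          refine pow_le_pow_right₀ (by norm_num) ?_
          nlinarith
  have hcard : s.card ≤ K := by
    rw [hs, Multiset.card_map]
    refine (card_roots' _).trans (natDegree_map_le.trans ?_)
    exact (natDegree_derivative_le F).trans (by omega)
  set t : Multiset ℂ := s.filter (· ≠ 0) with ht
  have hmem : (((toR F).eval c : ℝ) : ℂ) ∈ t := by
    rw [ht, Multiset.mem_filter]
    refine ⟨?_, by exact_mod_cast h1⟩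
    rw [hs, Multiset.mem_map]
    exact ⟨c, (mem_roots hG0).2 hcc, hFc⟩
  obtain ⟨t', ht'⟩ := Multiset.exists_cons_of_mem hmem
  have hb : |(F.derivative.leadingCoeff : ℝ)| ^ F.natDegree ≤ 2 ^ (2 * K ^ 2) := by
    have h3 : |(F.derivative.leadingCoeff : ℝ)| ≤ 2 ^ (2 * K) := hdc _
    calc |(F.derivative.leadingCoeff : ℝ)| ^ F.natDegree ≤ (2 ^ (2 * K)) ^ F.natDegree := by
          gcongr
      _ ≤ (2 ^ (2 * K)) ^ K := pow_le_pow_right₀ (one_le_pow₀ (by norm_num)) hd.le
      _ = 2 ^ (2 * K ^ 2) := by rw [← pow_mul]; congr 1; ring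
  have ht'b : (t'.map norm).prod ≤ 2 ^ (6 * K ^ 3) := by
    have h3 : ∀ r : Multiset ℂ, (∀ v ∈ r, ‖v‖ ≤ 2 ^ (6 * K ^ 2)) →
        (r.map norm).prod ≤ (2 ^ (6 * K ^ 2)) ^ r.card := by
      intro r
      induction r using Multiset.induction_on with
      | empty => intro _; simp
      | cons a r ih =>
        intro h
        rw [Multiset.map_cons, Multiset.prod_cons, Multiset.card_cons, pow_succ']
        have h5 : 0 ≤ (r.map norm).prod := by
          refine Multiset.prod_nonneg fun x hx => ?_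
          obtain ⟨y, -, rfl⟩ := Multiset.mem_map.1 hx
          exact norm_nonneg _
        exact mul_le_mul (h a (Multiset.mem_cons_self _ _))
          (ih fun v hv => h v (Multiset.mem_cons_of_mem hv)) h5 (by positivity)
    have h4 : t'.card ≤ K := by
      have h5 : t.card ≤ s.card := Multiset.card_le_card (Multiset.filter_le _ _)
      rw [ht', Multiset.card_cons] at h5
      omega
    refine (h3 t' fun v hv => hval v ?_).trans ?_
    · have : v ∈ t := by rw [ht']; exact Multiset.mem_cons_of_mem hv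
      exact (Multiset.mem_filter.1 this).1
    · calc ((2 : ℝ) ^ (6 * K ^ 2)) ^ t'.card ≤ (2 ^ (6 * K ^ 2)) ^ K :=
            pow_le_pow_right₀ (one_le_pow₀ (by norm_num)) h4
        _ = 2 ^ (6 * K ^ 3) := by rw [← pow_mul]; congr 1; ring
  rw [ht', Multiset.map_cons, Multiset.prod_cons] at hp
  have hnn : 0 ≤ (t'.map norm).prod := by
    refine Multiset.prod_nonneg fun x hx => ?_
    obtain ⟨y, -, rfl⟩ := Multiset.mem_map.1 hx
    exact norm_nonneg _
  have hnv : ‖(((toR F).eval c : ℝ) : ℂ)‖ = |(toR F).eval c| := by simp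
  rw [hnv] at hp
  calc (1 : ℝ) ≤ |(F.derivative.leadingCoeff : ℝ)| ^ F.natDegree *
        (|(toR F).eval c| * (t'.map norm).prod) := hp
    _ ≤ 2 ^ (2 * K ^ 2) * (|(toR F).eval c| * 2 ^ (6 * K ^ 3)) := by gcongr
    _ = |(toR F).eval c| * 2 ^ (2 * K ^ 2 + 6 * K ^ 3) := by rw [pow_add]; ring
    _ ≤ |(toR F).eval c| * 2 ^ (8 * K ^ 3) := by
        gcongr
        · norm_num
        · nlinarith [Nat.zero_le (K ^ 2)]

theorem gap_pow {R c x : ℝ} (hR : 1 ≤ R) (hc : |c| ≤ R) (hx : |x| ≤ R) (i : ℕ) :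
    |c ^ i - x ^ i| ≤ i * (R ^ i * |x - c|) := by
  induction i with
  | zero => simp
  | succ i ih =>
    have h1 : c ^ (i + 1) - x ^ (i + 1) = c * (c ^ i - x ^ i) + (c - x) * x ^ i := by ring
    have h2 : |x ^ i| ≤ R ^ (i + 1) := by
      rw [abs_pow]
      exact (pow_le_pow_left₀ (abs_nonneg _) hx i).trans (pow_le_pow_right₀ hR (Nat.le_succ i))
    have h3 : |c - x| = |x - c| := abs_sub_comm _ _
    calc |c ^ (i + 1) - x ^ (i + 1)| ≤ |c * (c ^ i - x ^ i)| + |(c - x) * x ^ i| := by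
          rw [h1]; exact abs_add_le _ _
      _ = |c| * |c ^ i - x ^ i| + |x - c| * |x ^ i| := by rw [abs_mul, abs_mul, h3]
      _ ≤ R * (i * (R ^ i * |x - c|)) + |x - c| * R ^ (i + 1) := by
          gcongr
      _ = ((i + 1 : ℕ) : ℝ) * (R ^ (i + 1) * |x - c|) := by push_cast; ring

theorem gap : ∃ e : ℕ, ∀ (K : ℕ) (F : ℤ[X]), 2 ≤ K → F.natDegree < K →
    (∀ i, |F.coeff i| < 2 ^ K) →
    (F ≠ 0 → ∀ x : ℝ, (toR F).eval x = 0 → |x| < 2 ^ (K ^ e)) ∧
    ∀ c x : ℝ, (toR F.derivative).eval c = 0 → (toR F).eval c ≠ 0 →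
      |x - c| ≤ (2 ^ (K ^ e))⁻¹ → (toR F).eval x ≠ 0 := by
  refine ⟨8, fun K F hK hd hc => ?_⟩
  have hcR : ∀ i, |(F.coeff i : ℝ)| ≤ 2 ^ K := fun i => by exact_mod_cast (hc i).le
  have hKp : (K : ℝ) ≤ 2 ^ K := by exact_mod_cast (Nat.lt_two_pow_self).le
  have hK8 : 32 * K ^ 3 ≤ K ^ 8 := by
    have h1 : 2 ^ 5 ≤ K ^ 5 := Nat.pow_le_pow_left hK 5
    calc 32 * K ^ 3 ≤ K ^ 5 * K ^ 3 := Nat.mul_le_mul_right _ (by simpa using h1)
      _ = K ^ 8 := by ring
  have hK23 : K ^ 2 ≤ K ^ 3 := Nat.pow_le_pow_right (by omega) (by norm_num)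
  have hK12 : 2 * K ≤ K ^ 2 := by nlinarith
  refine ⟨fun hF x hx => ?_, fun c x h0 h1 hxc hx => ?_⟩
  · have h2 : (F.map (Int.castRingHom ℂ)).eval (x : ℂ) = 0 := by
      have h2 : (F.map (Int.castRingHom ℂ)) = (toR F).map (algebraMap ℝ ℂ) := by
        rw [Polynomial.map_map]
        congr 1
      rw [h2, show ((x : ℂ)) = algebraMap ℝ ℂ x from rfl, eval_map_apply, hx, map_zero]
    have h3 := gap_root hF (by positivity) hcR h2
    have h4 : (2 : ℝ) ^ K + 1 ≤ 2 ^ (K ^ 8) := by
      have h5 : (1 : ℝ) ≤ 2 ^ K := one_le_pow₀ (by norm_num)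
      have h6 : (2 : ℝ) ^ (K + 1) ≤ 2 ^ (K ^ 8) := by
        refine pow_le_pow_right₀ (by norm_num) ?_
        omega
      rw [pow_succ] at h6
      linarith
    have h7 : ‖(x : ℂ)‖ = |x| := by simp
    rw [h7] at h3
    linarith
  · by_cases hF : F.derivative = 0
    · have h2 := derivative_eq_zero.1 hF
      obtain ⟨a, ha⟩ := natDegree_eq_zero.1 h2
      rw [← ha] at h1 hx
      simp only [toR, Polynomial.map_C, eval_C] at h1 hx
      exact h1 hx
    · obtain ⟨hcb, hlow⟩ := gap_lower hK hd hc h0 h1 hF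
      set R : ℝ := 2 ^ (5 * K) with hR
      have hR1 : (1 : ℝ) ≤ R := one_le_pow₀ (by norm_num)
      have hcR' : |c| ≤ R := hcb.trans (pow_le_pow_right₀ (by norm_num) (by omega))
      have hd1 : |x - c| ≤ 1 := by
        refine hxc.trans ?_
        exact inv_le_one_of_one_le₀ (one_le_pow₀ (by norm_num))
      have hxR : |x| ≤ R := by
        have h2 : |x| ≤ |x - c| + |c| := by
          have := abs_add_le (x - c) c
          simpa using this
        have h3 : (2 : ℝ) ^ (4 * K) + 1 ≤ R := by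
          have h5 : (1 : ℝ) ≤ 2 ^ (4 * K) := one_le_pow₀ (by norm_num)
          have h6 : (2 : ℝ) ^ (4 * K + 1) ≤ R :=
            pow_le_pow_right₀ (by norm_num) (by omega)
          rw [pow_succ] at h6
          linarith
        linarith
      have hdiff : |(toR F).eval c - (toR F).eval x| ≤ 2 ^ (7 * K ^ 2) * |x - c| := by
        rw [eval_eq_sum_range' (n := K) (lt_of_le_of_lt natDegree_map_le hd),
          eval_eq_sum_range' (n := K) (lt_of_le_of_lt natDegree_map_le hd),
          ← Finset.sum_sub_distrib]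
        refine (Finset.abs_sum_le_sum_abs _ _).trans ?_
        calc ∑ i ∈ Finset.range K, |(toR F).coeff i * c ^ i - (toR F).coeff i * x ^ i|
            ≤ ∑ i ∈ Finset.range K, 2 ^ K * (2 ^ K * (R ^ K * |x - c|)) := by
              refine Finset.sum_le_sum fun i hi => ?_
              have hi' := Finset.mem_range.1 hi
              rw [← mul_sub, abs_mul]
              have h4 : |(toR F).coeff i| ≤ 2 ^ K := by simpa using hcR i
              have h5 := gap_pow hR1 hcR' hxR i
              have h6 : (i : ℝ) ≤ 2 ^ K := by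
                have : (i : ℝ) ≤ K := by exact_mod_cast hi'.le
                linarith
              have h7 : R ^ i ≤ R ^ K := pow_le_pow_right₀ hR1 hi'.le
              calc |(toR F).coeff i| * |c ^ i - x ^ i| ≤ 2 ^ K * (i * (R ^ i * |x - c|)) := by
                    gcongr
                _ ≤ 2 ^ K * (2 ^ K * (R ^ K * |x - c|)) := by
                    gcongr
          _ = K * (2 ^ K * (2 ^ K * (R ^ K * |x - c|))) := by simp
          _ ≤ 2 ^ K * (2 ^ K * (2 ^ K * (R ^ K * |x - c|))) := by gcongr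
          _ = 2 ^ (3 * K + 5 * K ^ 2) * |x - c| := by
              rw [hR, ← pow_mul]
              rw [show 3 * K + 5 * K ^ 2 = K + (K + (K + 5 * K * K)) by ring, pow_add, pow_add,
                pow_add]
              ring
          _ ≤ 2 ^ (7 * K ^ 2) * |x - c| := by
              gcongr
              · norm_num
              · omega
      rw [hx, sub_zero] at hdiff
      have h8 : |(toR F).eval c| ≤ 2 ^ (7 * K ^ 2) * (2 ^ (K ^ 8))⁻¹ :=
        hdiff.trans (by gcongr)
      have h9 : (1 : ℝ) ≤ 2 ^ (7 * K ^ 2) * (2 ^ (K ^ 8))⁻¹ * 2 ^ (8 * K ^ 3) :=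
        hlow.trans (by gcongr)
      have h10 : (2 : ℝ) ^ (K ^ 8) ≤ 2 ^ (7 * K ^ 2 + 8 * K ^ 3) := by
        have h11 : (0 : ℝ) < 2 ^ (K ^ 8) := by positivity
        calc (2 : ℝ) ^ (K ^ 8) = 2 ^ (K ^ 8) * 1 := by ring
          _ ≤ 2 ^ (K ^ 8) * (2 ^ (7 * K ^ 2) * (2 ^ (K ^ 8))⁻¹ * 2 ^ (8 * K ^ 3)) := by gcongr
          _ = 2 ^ (7 * K ^ 2 + 8 * K ^ 3) := by
              rw [pow_add]
              field_simp
      have h12 : 7 * K ^ 2 + 8 * K ^ 3 < K ^ 8 := by
        have : 0 < K ^ 3 := by positivity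
        omega
      have h13 : (2 : ℝ) ^ (7 * K ^ 2 + 8 * K ^ 3) < 2 ^ (K ^ 8) :=
        pow_lt_pow_right₀ (by norm_num) h12
      linarith

end Pool.Agent.Sink
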