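import Pool.Agent.Lib.MP_93b8a0_lc.Defs2

/-!
# List polynomials: coefficients, derivative, Horner value
-/

open Matrix Polynomial

namespace Pool.Agent.Sink

open Pool.Agent.PolyTime Pool.Agent.SparseNP

@[simp] theorem poly_nil : poly [] = 0 := rfl

theorem poly_cons (c : ℤ) (l : List ℤ) : poly (c :: l) = C c + X * poly l := rfl

theorem coeff_poly (l : List ℤ) (i : ℕ) : (poly l).coeff i = l.getD i 0 := by
  induction l generalizing i with
  | nil => simp
  | cons c l ih =>
    rw [poly_cons]
    cases i with
    | zero => simp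
    | succ i => rw [coeff_add, coeff_C_succ, coeff_X_mul, ih, zero_add, List.getD_cons_succ]

theorem poly_der (l : List ℤ) : poly (der l) = derivative (poly l) := by
  ext i
  rw [coeff_poly, coeff_derivative, coeff_poly]
  unfold der
  rw [List.getD_eq_getElem?_getD, List.getD_eq_getElem?_getD, List.getElem?_tail,
    List.getElem?_map, List.getElem?_zipIdx]
  cases l[i + 1]? with
  | none => simp
  | some c => simp

theorem hor_eq_foldr (a M : ℤ) (l : List ℤ) :
    hor a M l = (l.foldr (fun c s => (s.1 * a + c * s.2, s.2 * M)) ((0 : ℤ), (1 : ℤ))).1 := by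
  unfold hor
  rw [List.foldl_reverse]

theorem hor_foldr_snd (a M : ℤ) (l : List ℤ) :
    (l.foldr (fun c s => (s.1 * a + c * s.2, s.2 * M)) ((0 : ℤ), (1 : ℤ))).2 = M ^ l.length := by
  induction l with
  | nil => simp
  | cons c l ih => rw [List.foldr_cons, List.length_cons, pow_succ, ← ih]

@[simp] theorem hor_nil (a M : ℤ) : hor a M [] = 0 := rfl

theorem hor_cons (a M c : ℤ) (l : List ℤ) :
    hor a M (c :: l) = hor a M l * a + c * M ^ l.length := by
  rw [hor_eq_foldr, hor_eq_foldr, List.foldr_cons, hor_foldr_snd]

theorem hor_eq (a M : ℤ) (hM : M ≠ 0) (l : List ℤ) :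
    (M : ℝ) * hor a M l = (M : ℝ) ^ l.length * (toR (poly l)).eval ((a : ℝ) / M) := by
  have hM' : (M : ℝ) ≠ 0 := by exact_mod_cast hM
  induction l with
  | nil => simp
  | cons c l ih =>
    rw [hor_cons, poly_cons]
    push_cast
    simp only [Polynomial.map_add, Polynomial.map_mul, map_C, map_X, eval_add, eval_mul, eval_C,
      eval_X, List.length_cons]
    have : (M : ℝ) * (hor a M l * a + c * M ^ l.length) =
        (M * hor a M l) * a + c * M ^ (l.length + 1) := by ring
    rw [this, ih]
    field_simp
    simp
    ring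

theorem hor_one (a : ℤ) (l : List ℤ) : hor a 1 l = (poly l).eval a := by
  induction l with
  | nil => simp
  | cons c l ih =>
    rw [hor_cons, poly_cons, ih]
    simp
    ring

end Pool.Agent.Sink
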