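import Pool.Agent.Lib.MP_93b8a0_lc.Hor
import Pool.Agent.Lib.MP_93b8a0_lc.Bis

/-!
# One level of the root isolation recursion
-/

open Matrix Polynomial

namespace Pool.Agent.Sink

open Pool.Agent.PolyTime Pool.Agent.SparseNP

namespace Lvl

/-! ### Real analysis -/

lemma sign_const (Q : ℝ[X]) (s t : ℝ) (h : ∀ y ∈ Set.uIcc s t, Q.eval y ≠ 0) :
    0 < Q.eval s * Q.eval t := by
  by_contra hcon
  have hs := h s Set.left_mem_uIcc
  have ht := h t Set.right_mem_uIcc
  have hlt : Q.eval s * Q.eval t < 0 := lt_of_le_of_ne (not_lt.1 hcon) (mul_ne_zero hs ht)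
  have h0 : (0 : ℝ) ∈ Set.uIcc (Q.eval s) (Q.eval t) := by
    rw [Set.mem_uIcc]
    rcases mul_neg_iff.1 hlt with ⟨h1, h2⟩ | ⟨h1, h2⟩
    · exact Or.inr ⟨h2.le, h1.le⟩
    · exact Or.inl ⟨h1.le, h2.le⟩
  obtain ⟨y, hy, hy0⟩ := intermediate_value_uIcc (f := fun y => Q.eval y) (a := s) (b := t)
    Q.continuous.continuousOn h0
  exact h y hy hy0

lemma exists_left (Q : ℝ[X]) (hQ : Q ≠ 0) {α c : ℝ} (h : α < c) :
    ∃ x, α < x ∧ x < c ∧ ∀ y, x ≤ y → y < c → Q.eval y ≠ 0 := by
  classical
  set S : Finset ℝ := insert α (Q.roots.toFinset.filter (· < c)) with hS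
  have hne : S.Nonempty := ⟨α, Finset.mem_insert_self _ _⟩
  have hm : S.max' hne < c := by
    rw [Finset.max'_lt_iff]
    intro y hy
    rcases Finset.mem_insert.1 hy with rfl | hy
    · exact h
    · exact (Finset.mem_filter.1 hy).2
  have hα : α ≤ S.max' hne := S.le_max' _ (Finset.mem_insert_self _ _)
  refine ⟨(S.max' hne + c) / 2, by linarith, by linarith, fun y hy hyc h0 => ?_⟩
  have h1 : y ∈ S := by
    refine Finset.mem_insert_of_mem (Finset.mem_filter.2 ⟨?_, hyc⟩)
    rw [Multiset.mem_toFinset, mem_roots hQ]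
    exact h0
  have h2 := S.le_max' _ h1
  linarith

lemma exists_right (Q : ℝ[X]) (hQ : Q ≠ 0) {β c : ℝ} (h : c < β) :
    ∃ x, x < β ∧ c < x ∧ ∀ y, y ≤ x → c < y → Q.eval y ≠ 0 := by
  classical
  set S : Finset ℝ := insert β (Q.roots.toFinset.filter (c < ·)) with hS
  have hne : S.Nonempty := ⟨β, Finset.mem_insert_self _ _⟩
  have hm : c < S.min' hne := by
    rw [Finset.lt_min'_iff]
    intro y hy
    rcases Finset.mem_insert.1 hy with rfl | hy
    · exact h
    · exact (Finset.mem_filter.1 hy).2
  have hβ : S.min' hne ≤ β := S.min'_le _ (Finset.mem_insert_self _ _)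
  refine ⟨(S.min' hne + c) / 2, by linarith, by linarith, fun y hy hyc h0 => ?_⟩
  have h1 : y ∈ S := by
    refine Finset.mem_insert_of_mem (Finset.mem_filter.2 ⟨?_, hyc⟩)
    rw [Multiset.mem_toFinset, mem_roots hQ]
    exact h0
  have h2 := S.min'_le _ h1
  linarith

lemma key_pos (P : ℝ[X]) {α β : ℝ} (hαβ : α < β) (hα : P.eval α = 0) (hβ : P.eval β = 0)
    (h : ∀ y, α < y → y < β → 0 < P.eval y) :
    ∃ c x x' : ℝ, α < x ∧ x < c ∧ c < x' ∧ x' < β ∧ P.derivative.eval c = 0 ∧
      (∀ y, x ≤ y → y < c → P.derivative.eval y ≠ 0) ∧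
      (∀ y, y ≤ x' → c < y → P.derivative.eval y ≠ 0) ∧
      P.derivative.eval x * P.derivative.eval x' < 0 := by
  obtain ⟨c, hc, hmax⟩ := isCompact_Icc.exists_isMaxOn (s := Set.Icc α β)
    ⟨α, Set.left_mem_Icc.2 hαβ.le⟩ (f := fun y => P.eval y) P.continuous.continuousOn
  have hmax' : ∀ y ∈ Set.Icc α β, P.eval y ≤ P.eval c := hmax
  have hmid := h ((α + β) / 2) (by linarith) (by linarith)
  have hcpos : 0 < P.eval c :=
    lt_of_lt_of_le hmid (hmax' _ ⟨by linarith, by linarith⟩)
  have hcα : α < c := by
    refine lt_of_le_of_ne hc.1 fun h0 => ?_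
    rw [← h0, hα] at hcpos
    exact lt_irrefl _ hcpos
  have hcβ : c < β := by
    refine lt_of_le_of_ne hc.2 fun h0 => ?_
    rw [h0, hβ] at hcpos
    exact lt_irrefl _ hcpos
  have hder : P.derivative.eval c = 0 := by
    have h1 : IsLocalMax (fun y => P.eval y) c := by
      have h2 : Set.Icc α β ∈ nhds c := Icc_mem_nhds hcα hcβ
      exact hmax.isLocalMax h2
    exact h1.hasDerivAt_eq_zero (P.hasDerivAt c)
  have hQ : P.derivative ≠ 0 := by
    intro h0
    have h1 := derivative_eq_zero.1 h0
    rw [eq_C_of_natDegree_eq_zero h1, eval_C] at hα hcpos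
    rw [hα] at hcpos
    exact lt_irrefl _ hcpos
  obtain ⟨x, hx1, hx2, hx3⟩ := exists_left P.derivative hQ hcα
  obtain ⟨x', hx1', hx2', hx3'⟩ := exists_right P.derivative hQ hcβ
  have hpx : 0 < P.derivative.eval x := by
    by_contra hcon
    have hneg : P.derivative.eval x < 0 := lt_of_le_of_ne (not_lt.1 hcon) (hx3 x le_rfl hx2)
    have hanti : StrictAntiOn (fun y => P.eval y) (Set.Icc x c) := by
      refine strictAntiOn_of_deriv_neg (convex_Icc _ _) P.continuous.continuousOn ?_
      intro y hy
      rw [interior_Icc] at hy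
      rw [P.deriv]
      have h1 := sign_const P.derivative x y (by
        intro z hz
        rw [Set.uIcc_of_le hy.1.le] at hz
        exact hx3 z hz.1 (lt_of_le_of_lt hz.2 hy.2))
      by_contra h2
      have h3 := mul_nonpos_of_nonpos_of_nonneg hneg.le (not_lt.1 h2)
      linarith
    have h1 := hanti (Set.left_mem_Icc.2 hx2.le) (Set.right_mem_Icc.2 hx2.le) hx2
    have h2 := hmax' x ⟨hx1.le, (hx2.trans hcβ).le⟩
    simp only at h1
    linarith
  have hpx' : P.derivative.eval x' < 0 := by
    by_contra hcon
    have hpos : 0 < P.derivative.eval x' :=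
      lt_of_le_of_ne (not_lt.1 hcon) (hx3' x' le_rfl hx2').symm
    have hmono : StrictMonoOn (fun y => P.eval y) (Set.Icc c x') := by
      refine strictMonoOn_of_deriv_pos (convex_Icc _ _) P.continuous.continuousOn ?_
      intro y hy
      rw [interior_Icc] at hy
      rw [P.deriv]
      have h1 := sign_const P.derivative y x' (by
        intro z hz
        rw [Set.uIcc_of_le hy.2.le] at hz
        exact hx3' z hz.2 (lt_of_lt_of_le hy.1 hz.1))
      by_contra h2
      have h3 := mul_nonpos_of_nonpos_of_nonneg (not_lt.1 h2) hpos.le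
      linarith
    have h1 := hmono (Set.left_mem_Icc.2 hx2'.le) (Set.right_mem_Icc.2 hx2'.le) hx2'
    have h2 := hmax' x' ⟨(hcα.trans hx2').le, hx1'.le⟩
    simp only at h1
    linarith
  exact ⟨c, x, x', hx1, hx2, hx2', hx1', hder, hx3, hx3', mul_neg_of_pos_of_neg hpx hpx'⟩

lemma key (P : ℝ[X]) {α β : ℝ} (hαβ : α < β) (hα : P.eval α = 0) (hβ : P.eval β = 0)
    (h : ∀ y, α < y → y < β → P.eval y ≠ 0) :
    ∃ c x x' : ℝ, α < x ∧ x < c ∧ c < x' ∧ x' < β ∧ P.derivative.eval c = 0 ∧
      (∀ y, x ≤ y → y < c → P.derivative.eval y ≠ 0) ∧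
      (∀ y, y ≤ x' → c < y → P.derivative.eval y ≠ 0) ∧
      P.derivative.eval x * P.derivative.eval x' < 0 := by
  have hmid := h ((α + β) / 2) (by linarith) (by linarith)
  have hs : ∀ y, α < y → y < β → 0 < P.eval ((α + β) / 2) * P.eval y := by
    intro y h1 h2
    refine sign_const P _ _ fun z hz => ?_
    rw [Set.mem_uIcc] at hz
    rcases hz with hz | hz
    · exact h z (by linarith) (by linarith)
    · exact h z (by linarith) (by linarith)
  rcases lt_or_gt_of_ne hmid with hneg | hpos
  · obtain ⟨c, x, x', h1, h2, h3, h4, h5, h6, h7, h8⟩ := key_pos (-P) hαβ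
      (by rw [eval_neg, hα, neg_zero]) (by rw [eval_neg, hβ, neg_zero]) (by
        intro y hy1 hy2
        have h1 := hs y hy1 hy2
        rw [eval_neg, neg_pos]
        exact neg_of_mul_pos_right h1 hneg.le)
    simp only [derivative_neg, eval_neg, neg_eq_zero, ne_eq, neg_mul_neg] at h5 h6 h7 h8
    exact ⟨c, x, x', h1, h2, h3, h4, h5, h6, h7, h8⟩
  · exact key_pos P hαβ hα hβ fun y hy1 hy2 => (pos_iff_pos_of_mul_pos (hs y hy1 hy2)).1 hpos

/-! ### Lists -/

lemma zip_cons (a b B : ℤ) (t : List ℤ) :
    (a :: b :: t).zip ((a :: b :: t).tail ++ [B]) = (a, b) :: (b :: t).zip ((b :: t).tail ++ [B]) :=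
  rfl

lemma exists_pair (B : ℤ) {M : ℝ} (hM : 0 < M) {c : ℝ} : ∀ (X : List ℤ) (_ : X.Pairwise (· ≤ ·))
    (a b : ℤ) (_ : a ∈ X) (_ : b ∈ X) (_ : (a : ℝ) / M < c) (_ : c < (b : ℝ) / M),
    ∃ p ∈ X.zip (X.tail ++ [B]), a ≤ p.1 ∧ (p.1 : ℝ) / M < c ∧ c ≤ (p.2 : ℝ) / M ∧ p.2 ≤ b ∧
      p.2 ∈ X := by
  intro X
  have hlt : ∀ u w : ℤ, (u : ℝ) / M < c → c ≤ (w : ℝ) / M → u < w := by
    intro u w h1 h2
    have h3 := lt_of_lt_of_le h1 h2
    rw [div_lt_div_iff_of_pos_right hM] at h3
    exact_mod_cast h3
  induction X with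
  | nil => intro _ a b ha; simp at ha
  | cons z t ih =>
    cases t with
    | nil =>
      intro _ a b ha hb hac hcb
      rw [List.mem_singleton] at ha hb
      have := hlt a b hac hcb.le
      omega
    | cons w t =>
      intro hX a b ha hb hac hcb
      have hzw : z ≤ w := (List.pairwise_cons.1 hX).1 w List.mem_cons_self
      have hX' := (List.pairwise_cons.1 hX).2
      have hw : ∀ u ∈ w :: t, w ≤ u := by
        intro u hu
        rcases List.mem_cons.1 hu with rfl | hu
        · exact le_rfl
        · exact (List.pairwise_cons.1 hX').1 u hu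
      by_cases hcw : c ≤ (w : ℝ) / M
      · have haw := hlt a w hac hcw
        have haz : a = z := by
          rcases List.mem_cons.1 ha with h | h
          · exact h
          · have := hw a h
            omega
        have hbt : b ∈ w :: t := by
          rcases List.mem_cons.1 hb with h | h
          · have := hlt a b hac hcb.le
            omega
          · exact h
        refine ⟨(z, w), ?_, ?_, ?_, hcw, hw b hbt, ?_⟩
        · rw [zip_cons]
          exact List.mem_cons_self
        · exact haz.le
        · rw [← haz]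
          exact hac
        · exact List.mem_cons_of_mem _ List.mem_cons_self
      · have hcw' := not_le.1 hcw
        have hwb := hlt w b hcw' hcb.le
        have hbt : b ∈ w :: t := by
          rcases List.mem_cons.1 hb with h | h
          · omega
          · exact h
        obtain ⟨p, hp, h1, h2, h3, h4, h5⟩ : ∃ p ∈ (w :: t).zip ((w :: t).tail ++ [B]),
            a ≤ p.1 ∧ (p.1 : ℝ) / M < c ∧ c ≤ (p.2 : ℝ) / M ∧ p.2 ≤ b ∧ p.2 ∈ w :: t := by
          rcases List.mem_cons.1 ha with h | h
          · obtain ⟨p, hp, h1, h2⟩ := ih hX' w b List.mem_cons_self hbt hcw' hcb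
            exact ⟨p, hp, by omega, h2⟩
          · exact ih hX' a b h hbt hac hcb
        refine ⟨p, ?_, h1, h2, h3, h4, List.mem_cons_of_mem _ h5⟩
        rw [zip_cons]
        exact List.mem_cons_of_mem _ hp

lemma own_pair (B : ℤ) {X : List ℤ} {u : ℤ} (hu : u ∈ X) :
    ∃ w, (u, w) ∈ X.zip (X.tail ++ [B]) := by
  have hlen : X.length ≤ (X.tail ++ [B]).length := by
    rw [List.length_append, List.length_tail, List.length_singleton]
    omega
  have h := List.map_fst_zip hlen
  rw [← h] at hu
  obtain ⟨p, hp, rfl⟩ := List.mem_map.1 hu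
  exact ⟨p.2, hp⟩

/-- the shape of the output -/
lemma outs_sorted {k : ℕ} {M B : ℤ} (hM : 0 < M) (hk : 2 * B ≤ 2 ^ k) (g : List ℤ) :
    ∀ X : List ℤ, X.Pairwise (· ≤ ·) → (∀ z ∈ X, -B ≤ z ∧ z ≤ B) →
      (outs k M B g X).Pairwise (· ≤ ·) ∧
      ∀ r ∈ outs k M B g X, r ≤ B ∧ ∀ z, X.head? = some z → z ≤ r := by
  -- one pair
  have hone : ∀ p : ℤ × ℤ, p.1 ≤ p.2 → -B ≤ p.1 → p.2 ≤ B → ∀ r ∈ (if hor p.1 M g = 0 then [p.1]
      else if hor p.1 M g * hor p.2 M g < 0 then [bis k g M p] else []), p.1 ≤ r ∧ r ≤ p.2 := by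
    intro p h1 h2 h3 r hr
    split_ifs at hr with h4 h5
    · rw [List.mem_singleton] at hr
      subst hr
      exact ⟨le_rfl, h1⟩
    · rw [List.mem_singleton] at hr
      subst hr
      have h6 : p.1 < p.2 := by
        refine lt_of_le_of_ne h1 fun h7 => ?_
        rw [h7] at h5
        exact absurd h5 (not_lt.2 (mul_self_nonneg _))
      obtain ⟨h7, h8, _⟩ := bis_spec k g M p.1 p.2 hM h6 (by linarith) h5
      exact ⟨h7.le, h8⟩
    · simp at hr
  have hpw : ∀ p : ℤ × ℤ, (if hor p.1 M g = 0 then [p.1]
      else if hor p.1 M g * hor p.2 M g < 0 then [bis k g M p] else []).Pairwise (· ≤ ·) := by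
    intro p
    split_ifs
    · exact List.pairwise_singleton _ _
    · exact List.pairwise_singleton _ _
    · exact List.Pairwise.nil
  intro X
  induction X with
  | nil =>
    intro _ _
    refine ⟨?_, ?_⟩
    · simp [outs]
    · intro r hr
      simp [outs] at hr
  | cons z t ih =>
    intro hX hB
    have hz := hB z List.mem_cons_self
    cases t with
    | nil =>
      have e : outs k M B g [z] = if hor z M g = 0 then [z]
          else if hor z M g * hor B M g < 0 then [bis k g M (z, B)] else [] := by
        simp [outs]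
      rw [e]
      refine ⟨hpw (z, B), fun r hr => ?_⟩
      obtain ⟨h1, h2⟩ := hone (z, B) hz.2 hz.1 le_rfl r hr
      refine ⟨h2, fun y hy => ?_⟩
      simp only [List.head?_cons, Option.some.injEq] at hy
      rw [← hy]
      exact h1
    | cons w t =>
      have hzw : z ≤ w := (List.pairwise_cons.1 hX).1 w List.mem_cons_self
      have hw := hB w (List.mem_cons_of_mem _ List.mem_cons_self)
      obtain ⟨ih1, ih2⟩ := ih (List.pairwise_cons.1 hX).2
        (fun y hy => hB y (List.mem_cons_of_mem _ hy))
      have e : outs k M B g (z :: w :: t) = (if hor z M g = 0 then [z]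
          else if hor z M g * hor w M g < 0 then [bis k g M (z, w)] else []) ++
            outs k M B g (w :: t) := by
        unfold outs
        rw [zip_cons, List.flatMap_cons]
      rw [e]
      refine ⟨?_, fun r hr => ?_⟩
      · rw [List.pairwise_append]
        refine ⟨hpw (z, w), ih1, fun r hr s hs => ?_⟩
        obtain ⟨_, h2⟩ := hone (z, w) hzw hz.1 hw.2 r hr
        exact h2.trans ((ih2 s hs).2 w rfl)
      · rcases List.mem_append.1 hr with hr | hr
        · obtain ⟨h1, h2⟩ := hone (z, w) hzw hz.1 hw.2 r hr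
          refine ⟨h2.trans hw.2, fun y hy => ?_⟩
          simp only [List.head?_cons, Option.some.injEq] at hy
          rw [← hy]
          exact h1
        · obtain ⟨h1, h2⟩ := ih2 r hr
          refine ⟨h1, fun y hy => ?_⟩
          simp only [List.head?_cons, Option.some.injEq] at hy
          rw [← hy]
          exact hzw.trans (h2 w rfl)

lemma srt_bounds {B : ℤ} {X : List ℤ} (hX : Srt B X) : ∀ z ∈ X, -B ≤ z ∧ z ≤ B := by
  intro z hz
  constructor
  · cases X with
    | nil => simp at hz
    | cons a t =>
      have h1 := hX.fst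
      simp only [List.head?_cons, Option.some.injEq] at h1
      rcases List.mem_cons.1 hz with h | h
      · rw [h, h1]
      · rw [← h1]
        exact (List.pairwise_cons.1 hX.sorted).1 z h
  · have h1 := hX.lst
    obtain ⟨t, ht⟩ := List.getLast?_eq_some_iff.1 h1
    have h2 := hX.sorted
    rw [ht] at hz h2
    rcases List.mem_append.1 hz with h | h
    · exact (List.pairwise_append.1 h2).2.2 z h B (List.mem_singleton_self B)
    · rw [List.mem_singleton] at h
      exact h.le

end Lvl

open Lvl in
theorem lvl_spec (k : ℕ) (l : List ℤ) (M B : ℤ) (X : List ℤ) (hM : 0 < M) (hB : 0 < B)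
    (hk : 2 * B ≤ 2 ^ k) (hX : Srt B X) (hcov : Cov M X (toR (poly (der l))))
    (hroot : poly l ≠ 0 → ∀ x : ℝ, (toR (poly l)).eval x = 0 → |x| < (B : ℝ) / M)
    (hroot' : poly (der l) ≠ 0 → ∀ x : ℝ, (toR (poly (der l))).eval x = 0 → |x| < (B : ℝ) / M)
    (hgap : ∀ c x : ℝ, (toR (poly (der l))).eval c = 0 → (toR (poly l)).eval c ≠ 0 →
      |x - c| ≤ 1 / M → (toR (poly l)).eval x ≠ 0) :
    Srt B (lvl k M B X (der l)) ∧ Cov M (lvl k M B X (der l)) (toR (poly l)) := by
  have hbd := srt_bounds hX
  obtain ⟨hs1, hs2⟩ := outs_sorted (B := B) hM hk (der l) X hX.sorted hbd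
  have hMR : (0 : ℝ) < M := by exact_mod_cast hM
  refine ⟨⟨?_, rfl, ?_⟩, ?_⟩
  · unfold lvl
    rw [List.pairwise_cons]
    constructor
    · intro r hr
      rcases List.mem_append.1 hr with hr | hr
      · exact (hs2 r hr).2 _ hX.fst
      · rw [List.mem_singleton] at hr
        rw [hr]
        linarith
    · rw [List.pairwise_append]
      refine ⟨hs1, List.pairwise_singleton _ _, fun r hr s hs => ?_⟩
      rw [List.mem_singleton] at hs
      rw [hs]
      exact (hs2 r hr).1
  · unfold lvl
    rw [← List.cons_append]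
    exact List.getLast?_concat
  · intro x hx
    set P := toR (poly l) with hP
    set Q := toR (poly (der l)) with hQdef
    have hQ : Q = derivative P := by
      rw [hQdef, hP, poly_der]
      exact (derivative_map _ _).symm
    have hP0 : P ≠ 0 := by
      intro h0
      rw [h0, eval_zero] at hx
      exact hx rfl
    have hpl : poly l ≠ 0 := by
      intro h0
      apply hP0
      rw [hP, h0]
      exact Polynomial.map_zero _
    have hr := hroot hpl
    by_cases h1 : ∃ y, y < x ∧ P.eval y = 0
    · by_cases h2 : ∃ y, x < y ∧ P.eval y = 0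
      · -- the interesting case
        classical
        obtain ⟨y1, hy1, hy1'⟩ := h1
        obtain ⟨y2, hy2, hy2'⟩ := h2
        set S : Finset ℝ := P.roots.toFinset.filter (· < x) with hS
        set T : Finset ℝ := P.roots.toFinset.filter (x < ·) with hT
        have hmemS : ∀ y, y ∈ S ↔ P.eval y = 0 ∧ y < x := by
          intro y
          rw [hS, Finset.mem_filter, Multiset.mem_toFinset, mem_roots hP0]
          rfl
        have hmemT : ∀ y, y ∈ T ↔ P.eval y = 0 ∧ x < y := by
          intro y
          rw [hT, Finset.mem_filter, Multiset.mem_toFinset, mem_roots hP0]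
          rfl
        have hSne : S.Nonempty := ⟨y1, (hmemS y1).2 ⟨hy1', hy1⟩⟩
        have hTne : T.Nonempty := ⟨y2, (hmemT y2).2 ⟨hy2', hy2⟩⟩
        obtain ⟨α, hα⟩ : ∃ α, α = S.max' hSne := ⟨_, rfl⟩
        obtain ⟨β, hβ⟩ : ∃ β, β = T.min' hTne := ⟨_, rfl⟩
        obtain ⟨hα0, hαx⟩ := (hmemS α).1 (hα ▸ S.max'_mem hSne)
        obtain ⟨hβ0, hxβ⟩ := (hmemT β).1 (hβ ▸ T.min'_mem hTne)
        have hno : ∀ y, α < y → y < β → P.eval y ≠ 0 := by
          intro y hy1 hy2 h0
          rcases lt_trichotomy y x with h | h | h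
          · have := S.le_max' y ((hmemS y).2 ⟨h0, h⟩)
            rw [← hα] at this
            linarith
          · rw [h] at h0
            exact hx h0
          · have := T.min'_le y ((hmemT y).2 ⟨h0, h⟩)
            rw [← hβ] at this
            linarith
        obtain ⟨c, z, z', hz1, hz2, hz3, hz4, hc0, hzl, hzr, hsgn⟩ :=
          key P (hαx.trans hxβ) hα0 hβ0 hno
        rw [← hQ] at hc0 hzl hzr hsgn
        have hcα : α < c := hz1.trans hz2
        have hcβ : c < β := hz3.trans hz4
        have hPc : P.eval c ≠ 0 := hno c hcα hcβ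
        -- sample points next to `c`
        obtain ⟨a, ha, ha'⟩ := hcov z (hzl z le_rfl hz2)
        obtain ⟨b, hb, hb'⟩ := hcov z' (hzr z' le_rfl hz3)
        have hac : (a : ℝ) / M < c := by
          by_contra hcon
          refine ha' c ?_ hc0
          rw [Set.mem_uIcc]
          exact Or.inl ⟨hz2.le, not_lt.1 hcon⟩
        have hcb : c < (b : ℝ) / M := by
          by_contra hcon
          refine hb' c ?_ hc0
          rw [Set.mem_uIcc]
          exact Or.inr ⟨not_lt.1 hcon, hz3.le⟩
        have hleft : ∀ y, (a : ℝ) / M ≤ y → y < c → Q.eval y ≠ 0 := by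
          intro y hy1 hy2
          by_cases h : z ≤ y
          · exact hzl y h hy2
          · refine ha' y ?_
            rw [Set.mem_uIcc]
            exact Or.inr ⟨hy1, (not_le.1 h).le⟩
        have hright : ∀ y, y ≤ (b : ℝ) / M → c < y → Q.eval y ≠ 0 := by
          intro y hy1 hy2
          by_cases h : y ≤ z'
          · exact hzr y h hy2
          · refine hb' y ?_
            rw [Set.mem_uIcc]
            exact Or.inl ⟨(not_le.1 h).le, hy1⟩
        obtain ⟨p, hp, hp1, hp2, hp3, hp4, hp5⟩ := exists_pair B hMR X hX.sorted a b ha hb hac hcb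
        have hp1' : (a : ℝ) / M ≤ (p.1 : ℝ) / M := by
          have : (a : ℝ) ≤ p.1 := by exact_mod_cast hp1
          gcongr
        have hp4' : (p.2 : ℝ) / M ≤ (b : ℝ) / M := by
          have : (p.2 : ℝ) ≤ b := by exact_mod_cast hp4
          gcongr
        -- it suffices to find an output between `α` and `β`
        suffices hsuf : ∃ r ∈ outs k M B (der l) X, α < (r : ℝ) / M ∧ (r : ℝ) / M < β by
          obtain ⟨r, hr1, hr2, hr3⟩ := hsuf
          refine ⟨r, ?_, fun y hy => ?_⟩
          · unfold lvl
            exact List.mem_cons_of_mem _ (List.mem_append_left _ hr1)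
          · rw [Set.mem_uIcc] at hy
            rcases hy with hy | hy
            · exact hno y (lt_of_lt_of_le hαx hy.1) (lt_of_le_of_lt hy.2 hr3)
            · exact hno y (lt_of_lt_of_le hr2 hy.1) (lt_of_le_of_lt hy.2 hxβ)
        have hhor : ∀ u : ℤ, (M : ℝ) * hor u M (der l) =
            (M : ℝ) ^ (der l).length * Q.eval ((u : ℝ) / M) := fun u => hor_eq u M hM.ne' (der l)
        have hMp : (0 : ℝ) < (M : ℝ) ^ (der l).length := pow_pos hMR _
        rcases eq_or_lt_of_le hp3 with h3 | h3
        · -- the point `c` is a sample point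
          have h4 : hor p.2 M (der l) = 0 := by
            have h5 := hhor p.2
            rw [← h3, hc0, mul_zero] at h5
            have h6 := (mul_eq_zero.1 h5).resolve_left hMR.ne'
            exact_mod_cast h6
          obtain ⟨w, hw⟩ := own_pair B hp5
          refine ⟨p.2, ?_, ?_, ?_⟩
          · unfold outs
            rw [List.mem_flatMap]
            refine ⟨(p.2, w), hw, ?_⟩
            rw [if_pos h4]
            exact List.mem_singleton_self _
          · rw [← h3]
            exact hcα
          · rw [← h3]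
            exact hcβ
        · -- a sign change
          have hne1 : hor p.1 M (der l) ≠ 0 := by
            intro h4
            have h5 := hhor p.1
            rw [h4, Int.cast_zero, mul_zero] at h5
            exact hleft _ hp1' hp2 ((mul_eq_zero.1 h5.symm).resolve_left hMp.ne')
          have hs3 : 0 < Q.eval z * Q.eval ((p.1 : ℝ) / M) := by
            refine sign_const Q _ _ fun y hy => ?_
            rw [Set.mem_uIcc] at hy
            rcases hy with hy | hy
            · exact hzl y hy.1 (lt_of_le_of_lt hy.2 hp2)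
            · exact hleft y (hp1'.trans hy.1) (lt_of_le_of_lt hy.2 hz2)
          have hs4 : 0 < Q.eval z' * Q.eval ((p.2 : ℝ) / M) := by
            refine sign_const Q _ _ fun y hy => ?_
            rw [Set.mem_uIcc] at hy
            rcases hy with hy | hy
            · exact hright y (hy.2.trans hp4') (lt_of_lt_of_le hz3 hy.1)
            · exact hzr y hy.2 (lt_of_lt_of_le h3 hy.1)
          have hprod : Q.eval ((p.1 : ℝ) / M) * Q.eval ((p.2 : ℝ) / M) < 0 := by
            by_contra hcon
            have h5 := mul_pos hs3 hs4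
            have h6 : Q.eval z * Q.eval ((p.1 : ℝ) / M) * (Q.eval z' * Q.eval ((p.2 : ℝ) / M)) =
                (Q.eval z * Q.eval z') * (Q.eval ((p.1 : ℝ) / M) * Q.eval ((p.2 : ℝ) / M)) := by
              ring
            rw [h6] at h5
            have h7 := mul_nonpos_of_nonpos_of_nonneg hsgn.le (not_lt.1 hcon)
            linarith
          have hneg : hor p.1 M (der l) * hor p.2 M (der l) < 0 := by
            have h5 : ((M : ℝ) * hor p.1 M (der l)) * ((M : ℝ) * hor p.2 M (der l)) < 0 := by
              rw [hhor, hhor]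
              have h6 : (M : ℝ) ^ (der l).length * Q.eval ((p.1 : ℝ) / M) *
                  ((M : ℝ) ^ (der l).length * Q.eval ((p.2 : ℝ) / M)) =
                  ((M : ℝ) ^ (der l).length * (M : ℝ) ^ (der l).length) *
                    (Q.eval ((p.1 : ℝ) / M) * Q.eval ((p.2 : ℝ) / M)) := by ring
              rw [h6]
              exact mul_neg_of_pos_of_neg (mul_pos hMp hMp) hprod
            have h7 : ((hor p.1 M (der l) * hor p.2 M (der l) : ℤ) : ℝ) < 0 := by
              push_cast
              have h8 : ((M : ℝ) * hor p.1 M (der l)) * ((M : ℝ) * hor p.2 M (der l)) =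
                  ((M : ℝ) * M) * ((hor p.1 M (der l) : ℝ) * hor p.2 M (der l)) := by ring
              rw [h8] at h5
              by_contra hcon
              have := mul_nonneg (mul_pos hMR hMR).le (not_lt.1 hcon)
              linarith
            exact_mod_cast h7
          have hlt : p.1 < p.2 := by
            have h5 : (p.1 : ℝ) / M < (p.2 : ℝ) / M := hp2.trans h3
            rw [div_lt_div_iff_of_pos_right hMR] at h5
            exact_mod_cast h5
          have hp1mem : p.1 ∈ X := (List.of_mem_zip hp).1
          obtain ⟨_, _, c', hc1, hc2, hc3, hc4⟩ := bis_spec k (der l) M p.1 p.2 hM hlt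
            (by have h5 := hbd p.1 hp1mem; have h6 := hbd p.2 hp5; linarith) hneg
          have hcc : c' = c := by
            rcases lt_trichotomy c' c with h | h | h
            · exact absurd hc3 (hleft c' (hp1'.trans hc1.le) h)
            · exact h
            · exact absurd hc3 (hright c' (hc2.le.trans hp4') h)
          rw [hcc] at hc4
          refine ⟨bis k (der l) M (p.1, p.2), ?_, ?_, ?_⟩
          · unfold outs
            rw [List.mem_flatMap]
            refine ⟨p, hp, ?_⟩
            rw [if_neg hne1, if_pos hneg]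
            exact List.mem_singleton_self _
          · by_contra hcon
            refine hgap c α hc0 hPc ?_ hα0
            rw [abs_le] at hc4 ⊢
            constructor
            · linarith [not_lt.1 hcon]
            · have : (0 : ℝ) ≤ 1 / M := by positivity
              linarith
          · by_contra hcon
            refine hgap c β hc0 hPc ?_ hβ0
            rw [abs_le] at hc4 ⊢
            constructor
            · have : (0 : ℝ) ≤ 1 / M := by positivity
              linarith
            · linarith [not_lt.1 hcon]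
      · -- no zero to the right
        refine ⟨B, ?_, fun y hy h0 => ?_⟩
        · unfold lvl
          exact List.mem_cons_of_mem _ (List.mem_append_right _ (List.mem_singleton_self _))
        · have h3 : y ≤ x := by
            by_contra hcon
            exact h2 ⟨y, not_le.1 hcon, h0⟩
          have h4 := abs_lt.1 (hr y h0)
          rw [Set.mem_uIcc] at hy
          rcases hy with hy | hy
          · have : y = x := le_antisymm h3 hy.1
            rw [this] at h0
            exact hx h0
          · linarith [h4.2, hy.1]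
    · -- no zero to the left
      refine ⟨-B, ?_, fun y hy h0 => ?_⟩
      · unfold lvl
        exact List.mem_cons_self
      · have h3 : x ≤ y := by
          by_contra hcon
          exact h1 ⟨y, not_le.1 hcon, h0⟩
        have h4 := abs_lt.1 (hr y h0)
        rw [Set.mem_uIcc] at hy
        rcases hy with hy | hy
        · have h5 : (((-B : ℤ) : ℝ) / M) = - ((B : ℝ) / M) := by
            push_cast
            ring
          rw [h5] at hy
          linarith [h4.1, hy.2]
        · have : y = x := le_antisymm hy.2 h3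
          rw [this] at h0
          exact hx h0

end Pool.Agent.Sink
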