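import Pool.Agent.Lib.MP_93b8a0_lc.Defs2

/-!
# MP_93b8a0_lc module NORM: bounds for the coefficients of the Gram determinants
-/

open Matrix Polynomial

namespace Pool.Agent.Sink

open Pool.Agent.PolyTime Pool.Agent.SparseNP

/-- `P` is dominated by a polynomial with natural coefficients, of degree `≤ d` and with sum of
coefficients `≤ S`. -/
def Dm (P : ℤ[X]) (d S : ℕ) : Prop :=
  ∃ Q : ℕ[X], Q.natDegree ≤ d ∧ Q.eval 1 ≤ S ∧ ∀ i, |P.coeff i| ≤ (Q.coeff i : ℤ)

theorem Dm.mono {P : ℤ[X]} {d S d' S' : ℕ} (h : Dm P d S) (hd : d ≤ d') (hS : S ≤ S') :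
    Dm P d' S' := by
  obtain ⟨Q, h1, h2, h3⟩ := h
  exact ⟨Q, h1.trans hd, h2.trans hS, h3⟩

theorem Dm.zero (d S : ℕ) : Dm 0 d S := ⟨0, by simp, by simp, by simp⟩

theorem Dm.natCast (m : ℕ) : Dm ((m : ℕ) : ℤ[X]) 0 m := by
  refine ⟨((m : ℕ) : ℕ[X]), by simp, by simp, ?_⟩
  intro i
  rw [coeff_natCast_ite, coeff_natCast_ite]
  split_ifs <;> simp

theorem Dm.add {P P' : ℤ[X]} {d S S' : ℕ} (h : Dm P d S) (h' : Dm P' d S') :
    Dm (P + P') d (S + S') := by
  obtain ⟨Q, h1, h2, h3⟩ := h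
  obtain ⟨Q', h1', h2', h3'⟩ := h'
  refine ⟨Q + Q', (natDegree_add_le _ _).trans (max_le h1 h1'), ?_, ?_⟩
  · rw [eval_add]; exact add_le_add h2 h2'
  · intro i
    rw [coeff_add, coeff_add]
    push_cast
    exact (abs_add_le _ _).trans (add_le_add (h3 i) (h3' i))

theorem Dm.neg {P : ℤ[X]} {d S : ℕ} (h : Dm P d S) : Dm (-P) d S := by
  obtain ⟨Q, h1, h2, h3⟩ := h
  refine ⟨Q, h1, h2, ?_⟩
  intro i
  rw [coeff_neg, abs_neg]
  exact h3 i

theorem Dm.mul {P P' : ℤ[X]} {d S d' S' : ℕ} (h : Dm P d S) (h' : Dm P' d' S') :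
    Dm (P * P') (d + d') (S * S') := by
  obtain ⟨Q, h1, h2, h3⟩ := h
  obtain ⟨Q', h1', h2', h3'⟩ := h'
  refine ⟨Q * Q', natDegree_mul_le.trans (add_le_add h1 h1'), ?_, ?_⟩
  · rw [eval_mul]; exact Nat.mul_le_mul h2 h2'
  · intro i
    rw [coeff_mul, coeff_mul]
    push_cast
    refine (Finset.abs_sum_le_sum_abs _ _).trans (Finset.sum_le_sum fun x _ => ?_)
    rw [abs_mul]
    exact mul_le_mul (h3 _) (h3' _) (abs_nonneg _) (by positivity)

theorem Dm.sum {ι : Type*} (s : Finset ι) (f : ι → ℤ[X]) {d S : ℕ} (h : ∀ i ∈ s, Dm (f i) d S) :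
    Dm (∑ i ∈ s, f i) d (s.card * S) := by
  classical
  induction s using Finset.induction_on with
  | empty => simpa using Dm.zero d 0
  | insert a s ha ih =>
    rw [Finset.sum_insert ha, Finset.card_insert_of_notMem ha]
    have h1 := (h a (Finset.mem_insert_self a s)).add
      (ih fun i hi => h i (Finset.mem_insert_of_mem hi))
    exact h1.mono le_rfl (le_of_eq (by ring))

theorem Dm.prod {ι : Type*} (s : Finset ι) (f : ι → ℤ[X]) {d S : ℕ} (h : ∀ i ∈ s, Dm (f i) d S) :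
    Dm (∏ i ∈ s, f i) (s.card * d) (S ^ s.card) := by
  classical
  induction s using Finset.induction_on with
  | empty =>
    have := Dm.natCast 1
    simpa using this
  | insert a s ha ih =>
    rw [Finset.prod_insert ha, Finset.card_insert_of_notMem ha]
    have h1 := (h a (Finset.mem_insert_self a s)).mul
      (ih fun i hi => h i (Finset.mem_insert_of_mem hi))
    exact h1.mono (le_of_eq (by ring)) (le_of_eq (by ring))

theorem Dm.det {m : ℕ} (M : Matrix (Fin m) (Fin m) ℤ[X]) {d S : ℕ} (h : ∀ i j, Dm (M i j) d S) :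
    Dm M.det (m * d) (m.factorial * S ^ m) := by
  rw [Matrix.det_apply]
  have h1 : ∀ σ ∈ (Finset.univ : Finset (Equiv.Perm (Fin m))),
      Dm (Equiv.Perm.sign σ • ∏ i, M (σ i) i) (m * d) (S ^ m) := by
    intro σ _
    have h2 : Dm (∏ i, M (σ i) i) (m * d) (S ^ m) := by
      have := Dm.prod Finset.univ (fun i => M (σ i) i) (d := d) (S := S) (fun i _ => h _ _)
      simpa using this
    rcases Int.units_eq_one_or (Equiv.Perm.sign σ) with h3 | h3
    · rw [h3, one_smul]; exact h2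
    · rw [h3, Units.neg_smul, one_smul]; exact h2.neg
  have h2 := Dm.sum _ _ h1
  rw [Finset.card_univ, Fintype.card_perm, Fintype.card_fin] at h2
  exact h2

theorem Dm.bd {P : ℤ[X]} {d S m : ℕ} (h : Dm P d S) (hd : d < m) (hS : S < 2 ^ m) : Bd1 P m := by
  obtain ⟨Q, h1, h2, h3⟩ := h
  refine ⟨fun i hi => ?_, fun i => ?_⟩
  · have h4 : Q.coeff i = 0 := coeff_eq_zero_of_natDegree_lt (by omega)
    have h5 := h3 i
    rw [h4] at h5
    exact abs_eq_zero.1 (le_antisymm (by simpa using h5) (abs_nonneg _))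
  · have h4 : Q.coeff i ≤ Q.eval 1 := by
      by_cases hi : i ∈ Q.support
      · rw [eval_eq_sum, Polynomial.sum]
        simp only [one_pow, mul_one]
        exact Finset.single_le_sum (f := fun i => Q.coeff i) (fun _ _ => Nat.zero_le _) hi
      · rw [notMem_support_iff.1 hi]; exact Nat.zero_le _
    have h5 : (Q.coeff i : ℤ) < 2 ^ m := by
      have h6 : Q.coeff i < 2 ^ m := lt_of_le_of_lt (h4.trans h2) hS
      exact_mod_cast h6
    exact lt_of_le_of_lt (h3 i) h5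

theorem Dm.of_bd {P : ℤ[X]} {K : ℕ} (h : Bd1 P K) : Dm P K (2 ^ (2 * K)) := by
  refine ⟨∑ i ∈ Finset.range K, monomial i (P.coeff i).natAbs, ?_, ?_, ?_⟩
  · refine natDegree_sum_le_of_forall_le _ _ fun i hi => ?_
    exact (natDegree_monomial_le _).trans (Finset.mem_range.1 hi).le
  · rw [eval_finsetSum]
    have h1 : ∀ i ∈ Finset.range K, (monomial i (P.coeff i).natAbs).eval 1 ≤ 2 ^ K := by
      intro i _
      rw [eval_monomial, one_pow, mul_one]
      have h2 := h.h i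
      have h3 : ((P.coeff i).natAbs : ℤ) < 2 ^ K := by rwa [Int.natCast_natAbs]
      exact_mod_cast h3.le
    refine (Finset.sum_le_card_nsmul _ _ _ h1).trans ?_
    rw [Finset.card_range, smul_eq_mul, two_mul, pow_add]
    exact Nat.mul_le_mul_right _ Nat.lt_two_pow_self.le
  · intro i
    rw [finsetSum_coeff]
    simp only [coeff_monomial]
    rw [Finset.sum_ite_eq' (Finset.range K) i]
    split_ifs with hi
    · rw [Int.natCast_natAbs]
    · rw [h.d i (by simpa using hi)]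
      simp

theorem sylE_dm (A : ℕ → ℤ[X]) (n K : ℕ) (hn : n ≤ K) (hA : ∀ j, Bd1 (A j) K) (k : ℕ) (hk : k ≤ n)
    (i j : ℕ) (hi : i < n + k) : Dm (sylE A k i j) K (2 ^ (3 * K + 1)) := by
  unfold sylE cf
  have h1 : ∀ j, Dm (A j) K (2 ^ (3 * K + 1)) := fun j =>
    (Dm.of_bd (hA j)).mono le_rfl (Nat.pow_le_pow_right (by norm_num) (by omega))
  split_ifs with h2 h3 h3
  · exact h1 _
  · exact Dm.zero _ _
  · have h4 := (Dm.natCast (i - (j - k) + 1)).mul (Dm.of_bd (hA (i - (j - k) + 1)))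
    refine h4.mono (by omega) ?_
    have h5 : i - (j - k) + 1 ≤ 2 * K := by omega
    have h6 : 2 * K ≤ 2 ^ (K + 1) := by
      rw [pow_succ, mul_comm]
      exact Nat.mul_le_mul_right _ Nat.lt_two_pow_self.le
    calc (i - (j - k) + 1) * 2 ^ (2 * K) ≤ 2 ^ (K + 1) * 2 ^ (2 * K) :=
          Nat.mul_le_mul_right _ (h5.trans h6)
      _ = 2 ^ (3 * K + 1) := by rw [← pow_add]; congr 1; ring
  · exact Dm.zero _ _

theorem sylG_dm (A : ℕ → ℤ[X]) (n K : ℕ) (hn : n ≤ K) (hA : ∀ j, Bd1 (A j) K) (k : ℕ)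
    (hk : k ≤ n) : Dm (sylG A n k) ((2 * K + 1) * (2 * K)) (2 ^ ((2 * K + 1) * (9 * K + 4))) := by
  unfold sylG
  have h1 : ∀ i j, Dm (((sylM A n k).transpose * sylM A n k) i j) (2 * K) (2 ^ (7 * K + 3)) := by
    intro i j
    rw [Matrix.mul_apply]
    have h2 : ∀ l ∈ (Finset.univ : Finset (Fin (n + k))),
        Dm ((sylM A n k).transpose i l * sylM A n k l j) (K + K)
          (2 ^ (3 * K + 1) * 2 ^ (3 * K + 1)) := by
      intro l _
      exact (sylE_dm A n K hn hA k hk l i l.2).mul (sylE_dm A n K hn hA k hk l j l.2)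
    have h3 := Dm.sum _ _ h2
    refine h3.mono (by omega) ?_
    rw [Finset.card_univ, Fintype.card_fin]
    have h5 : n + k ≤ 2 * K := by omega
    have h6 : 2 * K ≤ 2 ^ (K + 1) := by
      rw [pow_succ, mul_comm]
      exact Nat.mul_le_mul_right _ Nat.lt_two_pow_self.le
    calc (n + k) * (2 ^ (3 * K + 1) * 2 ^ (3 * K + 1))
        ≤ 2 ^ (K + 1) * (2 ^ (3 * K + 1) * 2 ^ (3 * K + 1)) :=
          Nat.mul_le_mul_right _ (h5.trans h6)
      _ = 2 ^ (7 * K + 3) := by rw [← pow_add, ← pow_add]; congr 1; ring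
  have h2 := Dm.det _ h1
  have hk2 : 2 * k + 1 ≤ 2 * K + 1 := by omega
  refine h2.mono (Nat.mul_le_mul_right _ hk2) ?_
  have h3 : (2 * k + 1).factorial ≤ 2 ^ ((2 * K + 1) * (2 * K + 1)) := by
    calc (2 * k + 1).factorial ≤ (2 * K + 1).factorial := Nat.factorial_le hk2
      _ ≤ (2 * K + 1) ^ (2 * K + 1) := Nat.factorial_le_pow _
      _ ≤ (2 ^ (2 * K + 1)) ^ (2 * K + 1) := Nat.pow_le_pow_left Nat.lt_two_pow_self.le _
      _ = _ := by rw [← pow_mul]
  have h4 : (2 ^ (7 * K + 3)) ^ (2 * k + 1) ≤ 2 ^ ((7 * K + 3) * (2 * K + 1)) := by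
    rw [← pow_mul]
    exact Nat.pow_le_pow_right (by norm_num) (Nat.mul_le_mul_left _ hk2)
  calc (2 * k + 1).factorial * (2 ^ (7 * K + 3)) ^ (2 * k + 1)
      ≤ 2 ^ ((2 * K + 1) * (2 * K + 1)) * 2 ^ ((7 * K + 3) * (2 * K + 1)) := Nat.mul_le_mul h3 h4
    _ = 2 ^ ((2 * K + 1) * (9 * K + 4)) := by rw [← pow_add]; congr 1; ring

/-! ### NORM (file Norm.lean) -/

theorem syl_bound : ∃ p : Polynomial ℕ, ∀ (A : ℕ → ℤ[X]) (n K : ℕ), n ≤ K →
    (∀ j, Bd1 (A j) K) → ∀ k ≤ n, Bd1 (sylG A n k) (p.eval K) ∧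
      Bd1 (A n * sylG A n k) (p.eval K) := by
  refine ⟨(2 * X + 1) * (9 * X + 4) + 2 * X + 1, ?_⟩
  intro A n K hn hA k hk
  have he : ((2 * X + 1) * (9 * X + 4) + 2 * X + 1 : ℕ[X]).eval K =
      (2 * K + 1) * (9 * K + 4) + 2 * K + 1 := by simp
  rw [he]
  have h1 := sylG_dm A n K hn hA k hk
  have h2 := (Dm.of_bd (hA n)).mul h1
  constructor
  · refine h1.bd ?_ ?_
    · nlinarith
    · exact Nat.pow_lt_pow_right (by norm_num) (by omega)
  · refine h2.bd ?_ ?_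
    · nlinarith
    · rw [← pow_add]
      exact Nat.pow_lt_pow_right (by norm_num) (by omega)

end Pool.Agent.Sink
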