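import Pool.Agent.Lib.MP_93b8a0_lc.Defs2
import Pool.Agent.Lib.MP_93b8a0_lc.IntDiv

/-!
# MP_93b8a0_lc module PT1: polynomial time of ws, edges, prodCr, pat, topB, patsAt
-/

open Matrix Polynomial

namespace Pool.Agent.Sink

open Pool.Agent.PolyTime Pool.Agent.SparseNP

section
variable {α : Type} [Enc α]

theorem ptime_ratParts {f : α → ℚ} (hf : PTime f) : PTime (fun x => ((f x).num, (f x).den)) :=
  hf.of_enc_eq (fun x => x) (fun _ => rfl) (fun _ => rfl)

theorem ptime_num {f : α → ℚ} (hf : PTime f) : PTime (fun x => (f x).num) :=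
  (ptime_ratParts hf).fst'

theorem ptime_den {f : α → ℚ} (hf : PTime f) : PTime (fun x => ((f x).den : ℤ)) :=
  ptime_natCast (ptime_ratParts hf).snd'

theorem ptime_sq {f : α → ℤ} (hf : PTime f) : PTime (fun x => f x ^ 2) :=
  (ptime_intMul hf hf).of_eq fun _ => (sq _).symm

theorem ptime_two_mul {f g : α → ℤ} (hf : PTime f) (hg : PTime g) :
    PTime (fun x => 2 * f x * g x) :=
  ptime_intMul (ptime_intMul (PTime.const 2) hf) hg

theorem ptime_intVec {q : α → Q3} (hq : PTime q) : PTime (fun x => intVec (q x)) := by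
  unfold intVec
  have h1 := hq.fst'
  have h2 := hq.snd'.fst'
  have h3 := hq.snd'.snd'
  exact (ptime_intMul (ptime_intMul (ptime_num h1) (ptime_den h2)) (ptime_den h3)).pair
    ((ptime_intMul (ptime_intMul (ptime_num h2) (ptime_den h1)) (ptime_den h3)).pair
      (ptime_intMul (ptime_intMul (ptime_num h3) (ptime_den h1)) (ptime_den h2)))

theorem ptime_Qz {a b c : α → ℤ} {u : α → Z3} (ha : PTime a) (hb : PTime b) (hc : PTime c)
    (hu : PTime u) : PTime (fun x => Qz (a x) (b x) (c x) (u x)) := by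
  unfold Qz
  have h1 := hu.fst'
  have h2 := hu.snd'.fst'
  have h3 := hu.snd'.snd'
  have a2 := ptime_sq ha
  have b2 := ptime_sq hb
  have c2 := ptime_sq hc
  exact (ptime_intAdd (ptime_intAdd
      (ptime_intMul (ptime_intSub (ptime_intAdd a2 b2) c2) h1)
      (ptime_intMul (ptime_two_mul hb hc) h2)) (ptime_intMul (ptime_two_mul ha hc) h3)).pair
    ((ptime_intSub (ptime_intAdd
      (ptime_intMul (ptime_two_mul hb hc) h1)
      (ptime_intMul (ptime_intAdd (ptime_intSub a2 b2) c2) h2))
      (ptime_intMul (ptime_two_mul ha hb) h3)).pair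
    (ptime_intAdd (ptime_intAdd
      (ptime_intMul (ptime_neg (ptime_two_mul ha hc)) h1)
      (ptime_intMul (ptime_two_mul ha hb) h2))
      (ptime_intMul (ptime_intSub (ptime_intSub a2 b2) c2) h3)))

theorem ptime_gv {W : α → List Z3} {i : α → ℕ} (hW : PTime W) (hi : PTime i) :
    PTime (fun x => gv (W x) (i x)) :=
  PTime.listGetD hW hi (PTime.const _)

theorem ptime_crZ {u v : α → Z3} (hu : PTime u) (hv : PTime v) :
    PTime (fun x => crZ (u x) (v x)) :=
  ptime_intSub (ptime_intMul hu.fst' hv.snd'.fst') (ptime_intMul hu.snd'.fst' hv.fst')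

theorem ptime_detZ {u v w : α → Z3} (hu : PTime u) (hv : PTime v) (hw : PTime w) :
    PTime (fun x => detZ (u x) (v x) (w x)) := by
  unfold detZ
  have m : ∀ {f g h k : α → ℤ}, PTime f → PTime g → PTime h → PTime k →
      PTime (fun x => f x * g x - h x * k x) := fun hf hg hh hk =>
    ptime_intSub (ptime_intMul hf hg) (ptime_intMul hh hk)
  exact ptime_intAdd (ptime_intSub
    (ptime_intMul hu.fst' (m hv.snd'.fst' hw.snd'.snd' hv.snd'.snd' hw.snd'.fst'))
    (ptime_intMul hu.snd'.fst' (m hv.fst' hw.snd'.snd' hv.snd'.snd' hw.fst')))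
    (ptime_intMul hu.snd'.snd' (m hv.fst' hw.snd'.fst' hv.snd'.fst' hw.fst'))

theorem ptime_aboveB {W : α → List Z3} {v a b : α → ℕ} (hW : PTime W) (hv : PTime v)
    (ha : PTime a) (hb : PTime b) : PTime (fun x => aboveB (W x) (v x) (a x) (b x)) := by
  unfold aboveB
  have gV := ptime_gv hW hv
  have gA := ptime_gv hW ha
  have gB := ptime_gv hW hb
  exact (ptime_intLt (PTime.const 0) (ptime_crZ gA gB)).and
    ((ptime_intLt (PTime.const 0) (ptime_crZ gA gV)).and
      ((ptime_intLt (PTime.const 0) (ptime_crZ gV gB)).and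
        (ptime_intLt (ptime_detZ gA gB gV) (PTime.const 0))))

/-- one comparison in `lowB` -/
def lowAux (W : List Z3) (v : ℕ) (e e' : ℕ × ℕ) : Bool :=
  !aboveB W v e'.1 e'.2 ||
    decide (-detZ (gv W e.1) (gv W e.2) (gv W v) * crZ (gv W e'.1) (gv W e'.2) ≤
      -detZ (gv W e'.1) (gv W e'.2) (gv W v) * crZ (gv W e.1) (gv W e.2))

theorem ptime_lowAux {W : α → List Z3} {v : α → ℕ} {e e' : α → ℕ × ℕ}
    (hW : PTime W) (hv : PTime v) (he : PTime e) (he' : PTime e') :
    PTime (fun x => lowAux (W x) (v x) (e x) (e' x)) := by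
  have g1 := ptime_gv hW he.fst'
  have g2 := ptime_gv hW he.snd'
  have gV := ptime_gv hW hv
  have g1' := ptime_gv hW he'.fst'
  have g2' := ptime_gv hW he'.snd'
  have a1 := (ptime_aboveB hW hv he'.fst' he'.snd').not
  have a2 := ptime_intMul (ptime_neg (ptime_detZ g1 g2 gV)) (ptime_crZ g1' g2')
  have a3 := ptime_intMul (ptime_neg (ptime_detZ g1' g2' gV)) (ptime_crZ g1 g2)
  have a4 := ptime_intLe a2 a3
  exact a1.or a4


theorem lowB_eq (W : List Z3) (E : List (ℕ × ℕ)) (v : ℕ) (e : ℕ × ℕ) :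
    lowB W E v e = (aboveB W v e.1 e.2 && E.all (lowAux W v e)) := rfl

theorem ptime_lowB {W : α → List Z3} {E : α → List (ℕ × ℕ)} {v : α → ℕ} {e : α → ℕ × ℕ}
    (hW : PTime W) (hE : PTime E) (hv : PTime v) (he : PTime e) :
    PTime (fun x => lowB (W x) (E x) (v x) (e x)) := by
  have h1 : PTime (fun p : α × (ℕ × ℕ) => lowAux (W p.1) (v p.1) (e p.1) p.2) :=
    ptime_lowAux (hW.comp PTime.fst) (hv.comp PTime.fst) (he.comp PTime.fst) PTime.snd
  have h2 := PTime.all (g := fun x e' => lowAux (W x) (v x) (e x) e') hE h1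
  exact ((ptime_aboveB hW hv he.fst' he.snd').and h2).of_eq fun x => (lowB_eq _ _ _ _).symm


end

theorem ws_ptime {α : Type} [Enc α] {I : α → Input} {a b c : α → ℤ} (hI : PTime I)
    (ha : PTime a) (hb : PTime b) (hc : PTime c) :
    PTime (fun x => ws (I x) (a x) (b x) (c x)) := by
  unfold ws
  exact PTime.map (g := fun x q => Qz (a x) (b x) (c x) (intVec q)) hI.snd'
    (ptime_Qz (ha.comp PTime.fst) (hb.comp PTime.fst) (hc.comp PTime.fst)
      (ptime_intVec PTime.snd))

theorem pat_ptime {α : Type} [Enc α] {E : α → List (ℕ × ℕ)} {W : α → List Z3} (hE : PTime E)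
    (hW : PTime W) : PTime (fun x => pat (E x) (W x)) := by
  unfold pat
  refine PTime.map (g := fun x v => (E x).find? fun e => lowB (W x) (E x) v e)
    (PTime.rangeLength hW) ?_
  refine PTime.find? (f := fun p : α × ℕ => E p.1)
    (g := fun (p : α × ℕ) e => lowB (W p.1) (E p.1) p.2 e) (hE.comp PTime.fst) ?_
  exact ptime_lowB (hW.comp (PTime.fst.comp PTime.fst)) (hE.comp (PTime.fst.comp PTime.fst))
    (PTime.snd.comp PTime.fst) PTime.snd

theorem edges_ptime : PTime edges := by
  unfold edges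
  refine PTime.flatMap (f := fun I : Input => I.1) (g := fun _ f => [(f.1, f.2.1), (f.2.1, f.1),
    (f.2.1, f.2.2), (f.2.2, f.2.1), (f.2.2, f.1), (f.1, f.2.2)]) PTime.fst ?_
  have h : PTime (fun p : Input × (ℕ × ℕ × ℕ) => p.2) := PTime.snd
  have h1 := h.fst'
  have h2 := h.snd'.fst'
  have h3 := h.snd'.snd'
  exact (h1.pair h2).cons ((h2.pair h1).cons ((h2.pair h3).cons ((h3.pair h2).cons
    ((h3.pair h1).cons ((h1.pair h3).cons (PTime.const []))))))

theorem prodCr_ptime {α : Type} [Enc α] {W : α → List Z3} (hW : PTime W) :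
    PTime (fun x => prodCr (W x)) := by
  unfold prodCr
  refine ptime_intProd (PTime.map (g := fun x i => ((List.range (W x).length).map fun j =>
    if i = j then 1 else crZ (gv (W x) i) (gv (W x) j)).prod) (PTime.rangeLength hW) ?_)
  refine ptime_intProd (PTime.map (f := fun p : α × ℕ => List.range (W p.1).length)
    (g := fun (p : α × ℕ) j => if p.2 = j then 1 else crZ (gv (W p.1) p.2) (gv (W p.1) j))
    (PTime.rangeLength (hW.comp PTime.fst)) ?_)
  have p1 : PTime (fun p : (α × ℕ) × ℕ => W p.1.1) := hW.comp (PTime.fst.comp PTime.fst)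
  have p2 : PTime (fun p : (α × ℕ) × ℕ => p.1.2) := PTime.snd.comp PTime.fst
  have p3 : PTime (fun p : (α × ℕ) × ℕ => p.2) := PTime.snd
  exact PTime.iteP (c := fun p : (α × ℕ) × ℕ => p.1.2 = p.2) (PTime.eq p2 p3) (PTime.const 1)
    (ptime_crZ (ptime_gv p1 p2) (ptime_gv p1 p3))

theorem ptime_hom3 {α : Type} [Enc α] {q : α → (ℤ × ℤ) × (ℤ × ℤ)} (hq : PTime q) :
    PTime (fun x => hom3 (q x)) :=
  (ptime_intMul hq.fst'.snd' hq.snd'.snd').pair
    ((ptime_intMul hq.fst'.fst' hq.snd'.snd').pair (ptime_intMul hq.snd'.fst' hq.fst'.snd'))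

theorem ptime_wsq {α : Type} [Enc α] {I : α → Input} {q : α → (ℤ × ℤ) × (ℤ × ℤ)}
    (hI : PTime I) (hq : PTime q) : PTime (fun x => wsq (I x) (q x)) := by
  unfold wsq
  have h := ptime_hom3 hq
  exact ws_ptime hI h.fst' h.snd'.fst' h.snd'.snd'

theorem patsAt_ptime {α : Type} [Enc α] {I : α → Input} {L : α → List ((ℤ × ℤ) × (ℤ × ℤ))}
    (hI : PTime I) (hL : PTime L) : PTime (fun x => patsAt (I x) (L x)) := by
  unfold patsAt
  exact PTime.map (g := fun x q => pat (edges (I x)) (wsq (I x) q)) hL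
    (pat_ptime (edges_ptime.comp (hI.comp PTime.fst)) (ptime_wsq (hI.comp PTime.fst) PTime.snd))

theorem topB_ptime {α : Type} [Enc α] {W : α → List Z3}
    {σ : α → List (Option (ℕ × ℕ))} (hW : PTime W) (hσ : PTime σ) :
    PTime (fun x => topB (W x) (σ x)) := by
  have hF : PTime (fun x => (List.range (W x).length).filter fun v =>
      ((σ x).getD v none).isNone) := by
    refine PTime.filter (g := fun x v => ((σ x).getD v none).isNone) (PTime.rangeLength hW) ?_
    refine (PTime.option_cases (f := fun p : α × ℕ => (σ p.1).getD p.2 none)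
      (g := fun _ => true) (h := fun _ => false)
      (PTime.listGetD (hσ.comp PTime.fst) PTime.snd (PTime.const none)) (PTime.const true)
      (PTime.const false)).of_eq fun p => ?_
    show _ = ((σ p.1).getD p.2 none).isNone
    cases (σ p.1).getD p.2 none <;> rfl
  have hA := PTime.listGetD hF (PTime.const 0) (PTime.const 0)
  have hB := PTime.listGetD hF (PTime.const 1) (PTime.const 0)
  have hC := PTime.listGetD hF (PTime.const 2) (PTime.const 0)
  have gA := ptime_gv hW hA
  have gB := ptime_gv hW hB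
  have gC := ptime_gv hW hC
  have pos : ∀ {u v : α → Z3}, PTime u → PTime v → PTime (fun x => decide (0 < crZ (u x) (v x))) :=
    fun hu hv => ptime_intLt (PTime.const 0) (ptime_crZ hu hv)
  have h := PTime.iteP (c := fun x => ((List.range (W x).length).filter fun v =>
      ((σ x).getD v none).isNone).length = 3) (PTime.eq hF.length (PTime.const 3))
    (((pos gA gB).and ((pos gB gC).and (pos gC gA))).or
      ((pos gB gA).and ((pos gC gB).and (pos gA gC)))) (PTime.const false)
  refine h.of_eq fun x => ?_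
  unfold topB
  generalize ((List.range (W x).length).filter fun v => ((σ x).getD v none).isNone) = l
  match l with
  | [] => rfl
  | [_] => rfl
  | [_, _] => rfl
  | [A, B, C] => rfl
  | _ :: _ :: _ :: _ :: _ => simp

end Pool.Agent.Sink
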