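import Pool.Agent.Lib.MP_93b8a0_lc.Defs2
import Pool.Agent.Lib.MP_93b8a0_lc.Gram
import Pool.Agent.Lib.MP_93b8a0_lc.PT1

/-!
# Polynomial time of the polynomials of the algorithm
-/

open Matrix Polynomial

namespace Pool.Agent.Sink

open Pool.Agent.PolyTime Pool.Agent.SparseNP

theorem pt2_crZ {α : Type} [Enc α] {u v : α → Z3} (hu : PTime u) (hv : PTime v) :
    PTime (fun x => crZ (u x) (v x)) :=
  ptime_intSub (ptime_intMul hu.fst' hv.snd'.fst') (ptime_intMul hu.snd'.fst' hv.fst')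

theorem pt2_gv {α : Type} [Enc α] {W : α → List Z3} {i : α → ℕ} (hW : PTime W) (hi : PTime i) :
    PTime (fun x => gv (W x) (i x)) :=
  hW.listGetD hi (PTime.const (0, 0, 0))

theorem pt2_nmRow {α : Type} [Enc α] {W : α → List Z3}
    {σ : α → Option (ℕ × ℕ)} {v : α → ℕ} (hW : PTime W) (hσ : PTime σ) (hv : PTime v) :
    PTime (fun x => nmRow (W x) (σ x) (v x)) := by
  suffices h : PTime₂ (fun (x : α) (u : ℕ) => match σ x with
      | none => if u = v x then (1 : ℤ) else 0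
      | some e => (if u = v x then crZ (gv (W x) e.1) (gv (W x) e.2) else 0) -
          (if u = e.1 then crZ (gv (W x) (v x)) (gv (W x) e.2) else 0) -
          (if u = e.2 then crZ (gv (W x) e.1) (gv (W x) (v x)) else 0)) by
    refine (PTime.map (PTime.rangeLength hW) h).of_eq fun x => ?_
    unfold nmRow
    cases σ x <;> rfl
  have h1 : PTime (fun p : α × ℕ => σ p.1) := hσ.comp PTime.fst
  have h2 : PTime (fun p : α × ℕ => if p.2 = v p.1 then (1 : ℤ) else 0) :=
    PTime.iteP (PTime.eq PTime.snd (hv.comp PTime.fst)) (PTime.const 1) (PTime.const 0)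
  have hx : PTime (fun q : (α × ℕ) × (ℕ × ℕ) => q.1.1) := PTime.fst' PTime.fst
  have hu : PTime (fun q : (α × ℕ) × (ℕ × ℕ) => q.1.2) := PTime.snd' PTime.fst
  have he1 : PTime (fun q : (α × ℕ) × (ℕ × ℕ) => q.2.1) := PTime.fst' PTime.snd
  have he2 : PTime (fun q : (α × ℕ) × (ℕ × ℕ) => q.2.2) := PTime.snd' PTime.snd
  have hWx : PTime (fun q : (α × ℕ) × (ℕ × ℕ) => W q.1.1) := hW.comp hx
  have hvx : PTime (fun q : (α × ℕ) × (ℕ × ℕ) => v q.1.1) := hv.comp hx
  have h3 : PTime (fun q : (α × ℕ) × (ℕ × ℕ) =>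
      (if q.1.2 = v q.1.1 then crZ (gv (W q.1.1) q.2.1) (gv (W q.1.1) q.2.2) else 0) -
        (if q.1.2 = q.2.1 then crZ (gv (W q.1.1) (v q.1.1)) (gv (W q.1.1) q.2.2) else 0) -
        (if q.1.2 = q.2.2 then crZ (gv (W q.1.1) q.2.1) (gv (W q.1.1) (v q.1.1)) else 0)) :=
    ptime_intSub (ptime_intSub
      (PTime.iteP (PTime.eq hu hvx) (pt2_crZ (pt2_gv hWx he1) (pt2_gv hWx he2)) (PTime.const 0))
      (PTime.iteP (PTime.eq hu he1) (pt2_crZ (pt2_gv hWx hvx) (pt2_gv hWx he2)) (PTime.const 0)))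
      (PTime.iteP (PTime.eq hu he2) (pt2_crZ (pt2_gv hWx he1) (pt2_gv hWx hvx)) (PTime.const 0))
  refine (PTime.option_cases h1 h2 h3).of_eq fun p => ?_
  beta_reduce
  cases σ p.1 <;> rfl

theorem nmRows_ptime {α : Type} [Enc α] {W : α → List Z3}
    {σ : α → List (Option (ℕ × ℕ))} (hW : PTime W) (hσ : PTime σ) :
    PTime (fun x => nmRows (W x) (σ x)) := by
  unfold nmRows
  exact PTime.map (g := fun (x : α) (v : ℕ) => nmRow (W x) ((σ x).getD v none) v)
    (PTime.rangeLength hW)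
    (pt2_nmRow (hW.comp PTime.fst)
      ((hσ.comp PTime.fst).listGetD PTime.snd (PTime.const none)) PTime.snd)

theorem gramNM_ptime {α : Type} [Enc α] {W : α → List Z3}
    {σ : α → List (Option (ℕ × ℕ))} (hW : PTime W) (hσ : PTime σ) :
    PTime (fun x => gram (W x).length (nmRows (W x) (σ x))) := by
  have hU : PTime (fun x => (W x).map fun _ => ()) :=
    PTime.map (g := fun (_ : α) (_ : Z3) => ()) hW (PTime.const ())
  exact gram_ptime hW.length hU (fun x => by simp) (nmRows_ptime hW hσ)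

theorem E1_ptime : PTime (fun p : Input × (ℤ × ℤ) => E1 p.1 p.2.1 p.2.2) := by
  unfold E1
  exact prodCr_ptime (ws_ptime PTime.fst (PTime.const 1) (PTime.fst' PTime.snd)
    (PTime.snd' PTime.snd))

theorem E2_ptime : PTime (fun p : (Input × List (List (Option (ℕ × ℕ)))) × (ℤ × ℤ) =>
    E2 p.1 p.2.1 p.2.2) := by
  unfold E2
  have hws : PTime (fun p : (Input × List (List (Option (ℕ × ℕ)))) × (ℤ × ℤ) =>
      ws p.1.1 1 p.2.1 p.2.2) :=
    ws_ptime (PTime.fst' PTime.fst) (PTime.const 1) (PTime.fst' PTime.snd) (PTime.snd' PTime.snd)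
  refine ptime_intMul (prodCr_ptime hws) (ptime_intMul (ptime_intProd
    (PTime.map (g := fun (_ : (Input × List (List (Option (ℕ × ℕ)))) × (ℤ × ℤ)) (u : Z3) =>
      u.2.2) hws (PTime.snd' (PTime.snd' PTime.snd)))) (ptime_intProd ?_))
  exact PTime.map (g := fun (p : (Input × List (List (Option (ℕ × ℕ)))) × (ℤ × ℤ))
    (σ : List (Option (ℕ × ℕ))) => gram (ws p.1.1 1 p.2.1 p.2.2).length
      (nmRows (ws p.1.1 1 p.2.1 p.2.2) σ)) (PTime.snd' PTime.fst)
    (gramNM_ptime (hws.comp PTime.fst) PTime.snd)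

theorem pt2_pow {α : Type} [Enc α] {u : α → List Unit} (hu : PTime u) (p : Polynomial ℕ) :
    PTime (fun x => (2 : ℤ) ^ (p.eval (u x).length)) :=
  (ptime_intPow2 (PTime.unaryPoly hu p).length (PTime.unaryPoly hu p)
    (fun x => le_rfl)).of_eq fun x => by rw [List.length_replicate]

theorem nzPats_ptime {α : Type} [Enc α] {u : α → List Unit} {I : α → Input}
    {L : α → List (List (Option (ℕ × ℕ)))} (hu : PTime u) (hI : PTime I) (hL : PTime L) :
    PTime (fun x => nzPats (u x).length (I x) (L x)) := by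
  unfold nzPats
  have h1 : PTime (fun x => (2 : ℤ) ^ ((u x).length + 1)) :=
    (pt2_pow hu (X + 1)).of_eq fun x => by simp
  have h2 : PTime (fun x => (2 : ℤ) ^ (((u x).length + 1) * ((u x).length + 1))) :=
    (pt2_pow hu ((X + 1) * (X + 1))).of_eq fun x => by simp
  have hws : PTime (fun x => ws (I x) 1 (2 ^ ((u x).length + 1))
      (2 ^ (((u x).length + 1) * ((u x).length + 1)))) :=
    ws_ptime hI (PTime.const 1) h1 h2
  refine PTime.filter (g := fun (x : α) (σ : List (Option (ℕ × ℕ))) =>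
    !decide (gram (ws (I x) 1 (2 ^ ((u x).length + 1))
      (2 ^ (((u x).length + 1) * ((u x).length + 1)))).length
    (nmRows (ws (I x) 1 (2 ^ ((u x).length + 1))
      (2 ^ (((u x).length + 1) * ((u x).length + 1)))) σ) = 0)) hL ?_
  exact (PTime.eq (gramNM_ptime (hws.comp PTime.fst) PTime.snd) (PTime.const 0)).not

end Pool.Agent.Sink
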