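import Pool.Agent.Lib.MP_93b8a0_lc.Defs

/-!
# Planar notions: horizontal cross product, sectors, the linear program of a pole
-/

open Matrix

namespace Pool.Agent.Sink

/-- cross product of the horizontal parts -/
def cr {R : Type*} [CommRing R] (a b : Fin 3 → R) : R := a 0 * b 1 - a 1 * b 0

theorem det3_north (a b : P3) : det3 north a b = cr a b := by
  simp [det3, north, cr]

section
variable {V : Type*}

/-- the longitude of `w` meets the edge `uv` in its interior -/
def InSec (x : V → P3) (w u v : V) : Prop :=
  0 < cr (x u) (x w) * cr (x u) (x v) ∧ 0 < cr (x w) (x v) * cr (x u) (x v)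

/-- the edge `uv` is above `w` on the longitude of `w` -/
def Above (x : V → P3) (w u v : V) : Prop :=
  InSec x w u v ∧ det3 (x u) (x v) (x w) * cr (x u) (x v) < 0

/-- The linear program: there are negative heights which put every vertex and every edge on its
longitude in the same order as in `x`. -/
def LPF (Adj : V → V → Prop) (x : V → P3) : Prop :=
  ∃ ζ : V → ℝ, (∀ v, ζ v < 0) ∧ ∀ u v w, Adj u v → InSec x w u v →
    0 < (ζ u * cr (x v) (x w) + ζ v * cr (x w) (x u) + ζ w * cr (x u) (x v)) *
      det3 (x u) (x v) (x w)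

/-- No crossings, for vectors of arbitrary positive length, and no two vertices on the same great
circle through the poles. -/
structure ConeEmb (Adj : V → V → Prop) (x : V → P3) : Prop where
  gen : ∀ u v, u ≠ v → cr (x u) (x v) ≠ 0
  irr : ∀ u v, Adj u v → u ≠ v
  symm : ∀ u v, Adj u v → Adj v u
  vert : ∀ u v w, Adj u v → InSec x w u v → det3 (x u) (x v) (x w) ≠ 0
  cross : ∀ u v u' v', Adj u v → Adj u' v' → ¬(u = u' ∧ v = v') → ¬(u = v' ∧ v = u') →
    ∀ s t s' t' : ℝ, 0 < s → 0 < t → 0 < s' → 0 < t' → s • x u + t • x v ≠ s' • x u' + t' • x v'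

/-- `N v` is the lowest edge above `v` (if there is an edge above `v`), with the orientation
`cr > 0`. -/
structure IsTopMap (Adj : V → V → Prop) (x : V → P3) (N : V → Option (V × V)) : Prop where
  hnone : ∀ v, N v = none → ∀ a b, Adj a b → ¬ Above x v a b
  hsome : ∀ v a b, N v = some (a, b) → Adj a b ∧ 0 < cr (x a) (x b) ∧ Above x v a b
  hlow : ∀ v a b, N v = some (a, b) → ∀ a' b', Adj a' b' → 0 < cr (x a') (x b') →
    Above x v a' b' →
    -det3 (x a) (x b) (x v) * cr (x a') (x b') ≤ -det3 (x a') (x b') (x v) * cr (x a) (x b)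

/-- The criterion: there are positive numbers `y` with `y v > α (y a) + β (y b)` whenever the edge
`ab` is the lowest edge above `v` and `v = α a + β b` horizontally. -/
def NF (x : V → P3) (N : V → Option (V × V)) : Prop :=
  ∃ y : V → ℝ, (∀ v, 0 < y v) ∧ ∀ v a b, N v = some (a, b) →
    cr (x v) (x b) * y a + cr (x a) (x v) * y b < cr (x a) (x b) * y v

/-- The value above `g` of the linear function with the values `η a` above `a` and `η b`
above `b`. -/
noncomputable def lin (x : V → P3) (η : V → ℝ) (a b : V) (g : P3) : ℝ :=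
  (cr g (x b) * η a + cr (x a) g * η b) / cr (x a) (x b)

/-- The vertices without edges above them form a positively oriented triangle around the pole. -/
def TopTriple (x : V → P3) (N : V → Option (V × V)) : Prop :=
  ∃ A B C : V, (∀ v, N v = none ↔ v = A ∨ v = B ∨ v = C) ∧
    0 < cr (x A) (x B) ∧ 0 < cr (x B) (x C) ∧ 0 < cr (x C) (x A)

end

end Pool.Agent.Sink
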