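import Pool.Agent.Lib.MP_93b8a0_lc.Planar
import Pool.Agent.Lib.MP_93b8a0_lc.AlgDefs
import Pool.Agent.Lib.MP_69a69c_lc.LPLoop

/-!
# The algorithm
-/

open Matrix Polynomial

namespace Pool.Agent.Sink

open Pool.Agent.PolyTime Pool.Agent.SparseNP

/-- an integral vector in the direction of a rational vector -/
def intVec (q : Q3) : Z3 :=
  (q.1.num * q.2.1.den * q.2.2.den, q.2.1.num * q.1.den * q.2.2.den,
    q.2.2.num * q.1.den * q.2.1.den)

/-- `a² + b² + c²` times the rotation given by the quaternion `a + b i + c j` -/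
def Qm {R : Type*} [CommRing R] (a b c : R) : Matrix (Fin 3) (Fin 3) R :=
  !![a ^ 2 + b ^ 2 - c ^ 2, 2 * b * c, 2 * a * c;
     2 * b * c, a ^ 2 - b ^ 2 + c ^ 2, -(2 * a * b);
     -(2 * a * c), 2 * a * b, a ^ 2 - b ^ 2 - c ^ 2]

/-- the same for integral vectors -/
def Qz (a b c : ℤ) (u : Z3) : Z3 :=
  ((a ^ 2 + b ^ 2 - c ^ 2) * u.1 + 2 * b * c * u.2.1 + 2 * a * c * u.2.2,
   2 * b * c * u.1 + (a ^ 2 - b ^ 2 + c ^ 2) * u.2.1 - 2 * a * b * u.2.2,
   -(2 * a * c) * u.1 + 2 * a * b * u.2.1 + (a ^ 2 - b ^ 2 - c ^ 2) * u.2.2)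

/-- horizontal cross product -/
def crZ (u v : Z3) : ℤ := u.1 * v.2.1 - u.2.1 * v.1

/-- determinant -/
def detZ (u v w : Z3) : ℤ :=
  u.1 * (v.2.1 * w.2.2 - v.2.2 * w.2.1) - u.2.1 * (v.1 * w.2.2 - v.2.2 * w.1) +
    u.2.2 * (v.1 * w.2.1 - v.2.1 * w.1)

/-- the rotated vertices -/
def ws (I : Input) (a b c : ℤ) : List Z3 := I.2.map fun q => Qz a b c (intVec q)

/-- the directed edges -/
def edges (I : Input) : List (ℕ × ℕ) :=
  I.1.flatMap fun f => [(f.1, f.2.1), (f.2.1, f.1), (f.2.1, f.2.2), (f.2.2, f.2.1), (f.2.2, f.1),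
    (f.1, f.2.2)]

/-- the `i`-th vector -/
def gv (W : List Z3) (i : ℕ) : Z3 := W.getD i (0, 0, 0)

/-- `Above`, with positive orientation -/
def aboveB (W : List Z3) (v a b : ℕ) : Bool :=
  decide (0 < crZ (gv W a) (gv W b)) && (decide (0 < crZ (gv W a) (gv W v)) &&
    (decide (0 < crZ (gv W v) (gv W b)) && decide (detZ (gv W a) (gv W b) (gv W v) < 0)))

/-- `ab` is the lowest edge above `v` -/
def lowB (W : List Z3) (E : List (ℕ × ℕ)) (v : ℕ) (e : ℕ × ℕ) : Bool :=
  aboveB W v e.1 e.2 && E.all fun e' => !aboveB W v e'.1 e'.2 ||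
    decide (-detZ (gv W e.1) (gv W e.2) (gv W v) * crZ (gv W e'.1) (gv W e'.2) ≤
      -detZ (gv W e'.1) (gv W e'.2) (gv W v) * crZ (gv W e.1) (gv W e.2))

/-- the list of the lowest edges above the vertices -/
def pat (E : List (ℕ × ℕ)) (W : List Z3) : List (Option (ℕ × ℕ)) :=
  (List.range W.length).map fun v => E.find? fun e => lowB W E v e

/-- a row of the matrix -/
def nmRow (W : List Z3) (σ : Option (ℕ × ℕ)) (v : ℕ) : List ℤ :=
  (List.range W.length).map fun u =>
    match σ with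
    | none => if u = v then 1 else 0
    | some e => (if u = v then crZ (gv W e.1) (gv W e.2) else 0) -
        (if u = e.1 then crZ (gv W v) (gv W e.2) else 0) -
        (if u = e.2 then crZ (gv W e.1) (gv W v) else 0)

/-- the rows of the matrix for the pattern `σ` -/
def nmRows (W : List Z3) (σ : List (Option (ℕ × ℕ))) : List (List ℤ) :=
  (List.range W.length).map fun v => nmRow W (σ.getD v none) v

/-- unit vectors -/
def unitRows (n : ℕ) : List (List ℤ) :=
  (List.range n).map fun v => (List.range n).map fun u => if u = v then 1 else 0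

/-- the product of all horizontal cross products -/
def prodCr (W : List Z3) : ℤ :=
  ((List.range W.length).map fun i =>
    ((List.range W.length).map fun j => if i = j then 1 else crZ (gv W i) (gv W j)).prod).prod

/-- the first polynomial -/
def E1 (I : Input) (s t : ℤ) : ℤ := prodCr (ws I 1 s t)

/-- the second polynomial -/
def E2 (p : Input × List (List (Option (ℕ × ℕ)))) (s t : ℤ) : ℤ :=
  prodCr (ws p.1 1 s t) * (((ws p.1 1 s t).map fun u => u.2.2).prod *
    (p.2.map fun σ => gram (ws p.1 1 s t).length (nmRows (ws p.1 1 s t) σ)).prod)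

/-- the patterns which give a nonzero determinant (tested at a point with large coordinates) -/
def nzPats (τ : ℕ) (I : Input) (L : List (List (Option (ℕ × ℕ)))) :
    List (List (Option (ℕ × ℕ))) :=
  L.filter fun σ => !decide (gram (ws I 1 (2 ^ (τ + 1)) (2 ^ ((τ + 1) * (τ + 1)))).length
    (nmRows (ws I 1 (2 ^ (τ + 1)) (2 ^ ((τ + 1) * (τ + 1)))) σ) = 0)

/-- the vertices of the top face -/
def topB (W : List Z3) (σ : List (Option (ℕ × ℕ))) : Bool :=
  match (List.range W.length).filter fun v => (σ.getD v none).isNone with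
  | [A, B, C] =>
    (decide (0 < crZ (gv W A) (gv W B)) && (decide (0 < crZ (gv W B) (gv W C)) &&
      decide (0 < crZ (gv W C) (gv W A)))) ||
    (decide (0 < crZ (gv W B) (gv W A)) && (decide (0 < crZ (gv W C) (gv W B)) &&
      decide (0 < crZ (gv W A) (gv W C))))
  | _ => false

/-- the linear program, with a bound `K` for the number of steps -/
def lpB (K : ℕ) (W : List Z3) (σ : List (Option (ℕ × ℕ))) : Bool :=
  lp W.length (4 * (unitRows W.length ++ nmRows W σ).length *
    ((unitRows W.length ++ nmRows W σ).length + 1)) (unitRows W.length ++ nmRows W σ) K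

/-- the test of a rotation -/
def testB (K : ℕ) (E : List (ℕ × ℕ)) (W : List Z3) : Bool :=
  !decide (prodCr W = 0) && ((W.all fun u => decide (u.2.2 < 0)) ||
    (topB W (pat E W) && lpB K W (pat E W)))

/-- homogeneous integral coordinates of a point of the plane -/
def hom3 (q : (ℤ × ℤ) × (ℤ × ℤ)) : Z3 := (q.1.2 * q.2.2, q.1.1 * q.2.2, q.2.1 * q.1.2)

/-- the rotated vertices for a point of the plane -/
def wsq (I : Input) (q : (ℤ × ℤ) × (ℤ × ℤ)) : List Z3 :=
  ws I (hom3 q).1 (hom3 q).2.1 (hom3 q).2.2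

/-- the patterns at the points of a list -/
def patsAt (I : Input) (L : List ((ℤ × ℤ) × (ℤ × ℤ))) : List (List (Option (ℕ × ℕ))) :=
  L.map fun q => pat (edges I) (wsq I q)

/-- the rotation given by a point of the plane -/
def rotOf (q : (ℤ × ℤ) × (ℤ × ℤ)) : Output :=
  ((((hom3 q).1 ^ 2 + (hom3 q).2.1 ^ 2 - (hom3 q).2.2 ^ 2, 2 * (hom3 q).2.1 * (hom3 q).2.2,
      2 * (hom3 q).1 * (hom3 q).2.2),
    (2 * (hom3 q).2.1 * (hom3 q).2.2, (hom3 q).1 ^ 2 - (hom3 q).2.1 ^ 2 + (hom3 q).2.2 ^ 2,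
      -(2 * (hom3 q).1 * (hom3 q).2.1)),
    (-(2 * (hom3 q).1 * (hom3 q).2.2), 2 * (hom3 q).1 * (hom3 q).2.1,
      (hom3 q).1 ^ 2 - (hom3 q).2.1 ^ 2 - (hom3 q).2.2 ^ 2)),
    (hom3 q).1 ^ 2 + (hom3 q).2.1 ^ 2 + (hom3 q).2.2 ^ 2)

/-- the final step: the first sample point which passes the test -/
def final (K : ℕ) (I : Input) (L : List ((ℤ × ℤ) × (ℤ × ℤ))) : Option Output :=
  (L.find? fun q => testB K (edges I) (wsq I q)).map rotOf

end Pool.Agent.Sink
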