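import Pool.Agent.Lib.MP_93b8a0_lc.Defs2

/-!
# Number of distinct complex roots and the matrix of `(u, v) ↦ u f + v f'`
-/

open Matrix Polynomial

namespace Pool.Agent.Sink

open Pool.Agent.PolyTime Pool.Agent.SparseNP

/-- the polynomial `u` of a vector -/
noncomputable def rootnU (k : ℕ) (z : ℕ → ℝ) : ℝ[X] := ∑ j ∈ Finset.range k, C (z j) * X ^ j

/-- the polynomial `v` of a vector -/
noncomputable def rootnV (k : ℕ) (z : ℕ → ℝ) : ℝ[X] :=
  ∑ j ∈ Finset.range (k + 1), C (z (k + j)) * X ^ j

theorem rootn_coeff_X_pow_mul (f : ℝ[X]) (i j : ℕ) : (X ^ j * f).coeff i = cf f.coeff i j := by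
  unfold cf
  rw [coeff_X_pow_mul']

theorem rootn_coeff_mul (m : ℕ) (z : ℕ → ℝ) (f : ℝ[X]) (i : ℕ) :
    ((∑ j ∈ Finset.range m, C (z j) * X ^ j) * f).coeff i =
      ∑ j ∈ Finset.range m, cf f.coeff i j * z j := by
  rw [Finset.sum_mul, finsetSum_coeff]
  refine Finset.sum_congr rfl fun j _ => ?_
  rw [mul_assoc, coeff_C_mul, rootn_coeff_X_pow_mul, mul_comm]

theorem rootn_cf_deriv (f : ℝ[X]) (i j : ℕ) :
    cf (fun i => ((i + 1 : ℕ) : ℝ) * f.coeff (i + 1)) i j = cf (derivative f).coeff i j := by
  unfold cf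
  split_ifs
  · rw [coeff_derivative]; push_cast; ring
  · rfl

theorem rootn_mulVec (f : ℝ[X]) (n k : ℕ) (z : ℕ → ℝ) (i : Fin (n + k)) :
    (sylM f.coeff n k *ᵥ fun j : Fin (2 * k + 1) => z j) i =
      (rootnU k z * f + rootnV k z * derivative f).coeff i := by
  have h1 : (sylM f.coeff n k *ᵥ fun j : Fin (2 * k + 1) => z j) i =
      ∑ j ∈ Finset.range (k + (k + 1)), sylE f.coeff k i j * z j := by
    rw [show k + (k + 1) = 2 * k + 1 by ring]
    rw [← Fin.sum_univ_eq_sum_range (fun j => sylE f.coeff k i j * z j) (2 * k + 1)]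
    rfl
  rw [h1, Finset.sum_range_add, coeff_add]
  unfold rootnU rootnV
  rw [rootn_coeff_mul, rootn_coeff_mul (k + 1) (fun j => z (k + j))]
  congr 1
  · refine Finset.sum_congr rfl fun j hj => ?_
    have : j < k := Finset.mem_range.mp hj
    simp [sylE, this]
  · refine Finset.sum_congr rfl fun j hj => ?_
    have : ¬ (k + j < k) := by omega
    unfold sylE
    rw [if_neg this, show k + j - k = j by omega, rootn_cf_deriv]

theorem rootn_coeff (m : ℕ) (z : ℕ → ℝ) (i : ℕ) (hi : i < m) :
    (∑ j ∈ Finset.range m, C (z j) * X ^ j : ℝ[X]).coeff i = z i := by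
  rw [finsetSum_coeff]
  simp only [coeff_C_mul, coeff_X_pow, mul_ite, mul_one, mul_zero]
  rw [Finset.sum_ite_eq]
  simp [hi]

theorem rootn_coeff_ge (m : ℕ) (z : ℕ → ℝ) (i : ℕ) (hi : m ≤ i) :
    (∑ j ∈ Finset.range m, C (z j) * X ^ j : ℝ[X]).coeff i = 0 := by
  rw [finsetSum_coeff]
  simp only [coeff_C_mul, coeff_X_pow, mul_ite, mul_one, mul_zero]
  rw [Finset.sum_ite_eq]
  simp [hi]

theorem rootn_degree_lt (m : ℕ) (z : ℕ → ℝ) :
    (∑ j ∈ Finset.range m, C (z j) * X ^ j : ℝ[X]).degree < m :=
  (degree_lt_iff_coeff_zero _ _).mpr fun i hi => rootn_coeff_ge m z i hi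

/-- the vector of two polynomials -/
noncomputable def rootnVec (k : ℕ) (u v : ℝ[X]) (j : ℕ) : ℝ :=
  if j < k then u.coeff j else v.coeff (j - k)

theorem rootnU_vec (k : ℕ) (u v : ℝ[X]) (hu : u.degree < k) : rootnU k (rootnVec k u v) = u := by
  unfold rootnU
  ext i
  by_cases hi : i < k
  · rw [rootn_coeff _ _ _ hi]
    simp [rootnVec, hi]
  · rw [rootn_coeff_ge _ _ _ (not_lt.mp hi)]
    exact ((degree_lt_iff_coeff_zero _ _).mp hu i (not_lt.mp hi)).symm

theorem rootnV_vec (k : ℕ) (u v : ℝ[X]) (hv : v.degree < (k + 1 : ℕ)) :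
    rootnV k (rootnVec k u v) = v := by
  unfold rootnV
  ext i
  by_cases hi : i < k + 1
  · rw [rootn_coeff (k + 1) (fun j => rootnVec k u v (k + j)) _ hi]
    simp [rootnVec]
  · rw [rootn_coeff_ge (k + 1) (fun j => rootnVec k u v (k + j)) _ (not_lt.mp hi)]
    exact ((degree_lt_iff_coeff_zero _ _).mp hv i (not_lt.mp hi)).symm

/-- the determinant is zero iff there is a nontrivial relation -/
theorem rootn_sylG_iff (f : ℝ[X]) (n k : ℕ) (hn : f.natDegree = n) (h1 : 1 ≤ n) :
    sylG f.coeff n k = 0 ↔ ∃ u v : ℝ[X], u.degree < k ∧ v.degree < (k + 1 : ℕ) ∧ v ≠ 0 ∧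
      u * f + v * derivative f = 0 := by
  have hf0 : f ≠ 0 := by
    rintro rfl
    simp at hn
    omega
  have hz : sylG f.coeff n k = 0 ↔
      ∃ z : Fin (2 * k + 1) → ℝ, z ≠ 0 ∧ sylM f.coeff n k *ᵥ z = 0 := by
    unfold sylG
    rw [← Matrix.exists_mulVec_eq_zero_iff]
    refine exists_congr fun z => and_congr_right fun _ => ?_
    rw [← Matrix.conjTranspose_eq_transpose_of_trivial,
      Matrix.conjTranspose_mul_self_mulVec_eq_zero]
  rw [hz]
  constructor
  · rintro ⟨z, hz0, hz⟩
    set y : ℕ → ℝ := fun j => if h : j < 2 * k + 1 then z ⟨j, h⟩ else 0 with hy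
    have hzy : z = fun j : Fin (2 * k + 1) => y j := by
      funext j
      simp only [hy]
      rw [dif_pos j.2]
    have hu := rootn_degree_lt k y
    have hv := rootn_degree_lt (k + 1) (fun j => y (k + j))
    have hrel : rootnU k y * f + rootnV k y * derivative f = 0 := by
      have hdeg : (rootnU k y * f + rootnV k y * derivative f).degree < (n + k : ℕ) := by
        refine (degree_add_le _ _).trans_lt (max_lt ?_ ?_)
        · rcases eq_or_ne (rootnU k y) 0 with h0 | h0
          · rw [h0, zero_mul, degree_zero]; exact WithBot.bot_lt_coe _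
          · rw [degree_mul, degree_eq_natDegree h0, degree_eq_natDegree hf0, hn]
            have : (rootnU k y).natDegree < k := by
              rw [natDegree_lt_iff_degree_lt h0]; exact hu
            exact_mod_cast (by omega)
        · rcases eq_or_ne (rootnV k y) 0 with h0 | h0
          · rw [h0, zero_mul, degree_zero]; exact WithBot.bot_lt_coe _
          rcases eq_or_ne (derivative f) 0 with h0' | h0'
          · rw [h0', mul_zero, degree_zero]; exact WithBot.bot_lt_coe _
          rw [degree_mul, degree_eq_natDegree h0, degree_eq_natDegree h0']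
          have h2 : (rootnV k y).natDegree < k + 1 := by
            rw [natDegree_lt_iff_degree_lt h0]; exact hv
          have h3 : (derivative f).natDegree < n := by
            rw [← hn]; exact natDegree_derivative_lt (by omega)
          exact_mod_cast (by omega)
      ext i
      rw [coeff_zero]
      by_cases hi : i < n + k
      · have := congrFun hz ⟨i, hi⟩
        rw [hzy, rootn_mulVec] at this
        simpa using this
      · exact (degree_lt_iff_coeff_zero _ _).mp hdeg i (not_lt.mp hi)
    refine ⟨rootnU k y, rootnV k y, hu, hv, ?_, hrel⟩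
    intro hv0
    rw [hv0, zero_mul, add_zero] at hrel
    have hu0 : rootnU k y = 0 := (mul_eq_zero.mp hrel).resolve_right hf0
    apply hz0
    rw [hzy]
    funext j
    show y j = 0
    by_cases hj : (j : ℕ) < k
    · rw [← rootn_coeff k y j hj]
      show (rootnU k y).coeff j = 0
      rw [hu0, coeff_zero]
    · have h2 : (j : ℕ) - k < k + 1 := by have := j.2; omega
      have h3 := rootn_coeff (k + 1) (fun j => y (k + j)) ((j : ℕ) - k) h2
      have h4 : k + ((j : ℕ) - k) = j := by omega
      simp only [h4] at h3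
      rw [← h3]
      show (rootnV k y).coeff _ = 0
      rw [hv0, coeff_zero]
  · rintro ⟨u, v, hu, hv, hv0, hrel⟩
    refine ⟨fun j => rootnVec k u v j, ?_, ?_⟩
    · intro h0
      apply hv0
      rw [← rootnV_vec k u v hv]
      ext i
      rw [coeff_zero]
      by_cases hi : i < k + 1
      · unfold rootnV
        rw [rootn_coeff (k + 1) (fun j => rootnVec k u v (k + j)) _ hi]
        have := congrFun h0 ⟨k + i, by omega⟩
        simpa using this
      · unfold rootnV
        exact rootn_coeff_ge (k + 1) (fun j => rootnVec k u v (k + j)) _ (not_lt.mp hi)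
    · funext i
      rw [rootn_mulVec, rootnU_vec k u v hu, rootnV_vec k u v hv, hrel]
      simp

theorem rootn_mult_deriv (F : ℂ[X]) (z : ℂ) (hz : F.IsRoot z) :
    (derivative F).rootMultiplicity z = F.rootMultiplicity z - 1 :=
  derivative_rootMultiplicity_of_root hz

/-- at least `r` roots for `v` -/
theorem rootn_le (f u v : ℝ[X]) (k : ℕ) (hf : 1 ≤ f.natDegree) (hv : v.degree < (k + 1 : ℕ))
    (hv0 : v ≠ 0) (h : u * f + v * derivative f = 0) : nroots f ≤ k := by
  have hf0 : f ≠ 0 := by rintro rfl; simp at hf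
  have hfd0 : derivative f ≠ 0 := by
    intro h0
    have := derivative_eq_zero.mp h0
    omega
  set φ := algebraMap ℝ ℂ
  have hφ : Function.Injective φ := φ.injective
  have hF0 : f.map φ ≠ 0 := (Polynomial.map_ne_zero_iff hφ).mpr hf0
  have hV0 : v.map φ ≠ 0 := (Polynomial.map_ne_zero_iff hφ).mpr hv0
  have hD0 : derivative (f.map φ) ≠ 0 := by
    rw [derivative_map]
    exact (Polynomial.map_ne_zero_iff hφ).mpr hfd0
  have hrel : v.map φ * derivative (f.map φ) = -(u.map φ) * f.map φ := by
    have := congrArg (Polynomial.map φ) h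
    rw [Polynomial.map_add, Polynomial.map_mul, Polynomial.map_mul, Polynomial.map_zero] at this
    rw [derivative_map]
    linear_combination this
  have hsub : (f.map φ).roots.toFinset ⊆ (v.map φ).roots.toFinset := by
    intro z hz
    rw [Multiset.mem_toFinset, mem_roots hF0] at hz
    rw [Multiset.mem_toFinset, mem_roots hV0]
    have hm : 1 ≤ (f.map φ).rootMultiplicity z := (rootMultiplicity_pos hF0).mpr hz
    have h1 : (f.map φ).rootMultiplicity z ≤ (v.map φ * derivative (f.map φ)).rootMultiplicity z := by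
      rw [le_rootMultiplicity_iff (mul_ne_zero hV0 hD0), hrel]
      exact (pow_rootMultiplicity_dvd _ _).mul_left _
    rw [rootMultiplicity_mul (mul_ne_zero hV0 hD0), rootn_mult_deriv _ _ hz] at h1
    rw [← rootMultiplicity_pos hV0]
    omega
  have h2 : (v.map φ).roots.toFinset.card ≤ v.natDegree := by
    refine (Multiset.toFinset_card_le _).trans ?_
    refine (card_roots' _).trans ?_
    rw [natDegree_map_eq_of_injective hφ]
  have h3 : v.natDegree < k + 1 := by
    rw [natDegree_lt_iff_degree_lt hv0]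
    exact hv
  have h4 : nroots f ≤ (v.map φ).roots.toFinset.card := Finset.card_le_card hsub
  omega

/-- existence of the relation -/
theorem rootn_exists (f : ℝ[X]) (k : ℕ) (hf : 1 ≤ f.natDegree) (hk : nroots f ≤ k) :
    ∃ u v : ℝ[X], u.degree < k ∧ v.degree < (k + 1 : ℕ) ∧ v ≠ 0 ∧
      u * f + v * derivative f = 0 := by
  classical
  have hf0 : f ≠ 0 := by rintro rfl; simp at hf
  have hfd0 : derivative f ≠ 0 := by
    intro h0
    have := derivative_eq_zero.mp h0
    omega
  set φ := algebraMap ℝ ℂ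
  have hφ : Function.Injective φ := φ.injective
  set g := EuclideanDomain.gcd f (derivative f) with hg
  obtain ⟨f₁, hf₁⟩ : g ∣ f := EuclideanDomain.gcd_dvd_left _ _
  obtain ⟨f₂, hf₂⟩ : g ∣ derivative f := EuclideanDomain.gcd_dvd_right _ _
  have hg0 : g ≠ 0 := by rintro h0; rw [h0, zero_mul] at hf₁; exact hf0 hf₁
  have hf10 : f₁ ≠ 0 := by rintro rfl; rw [mul_zero] at hf₁; exact hf0 hf₁
  have hf20 : f₂ ≠ 0 := by rintro rfl; rw [mul_zero] at hf₂; exact hfd0 hf₂
  have hF0 : f.map φ ≠ 0 := (Polynomial.map_ne_zero_iff hφ).mpr hf0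
  have hG0 : g.map φ ≠ 0 := (Polynomial.map_ne_zero_iff hφ).mpr hg0
  have hF10 : f₁.map φ ≠ 0 := (Polynomial.map_ne_zero_iff hφ).mpr hf10
  have hF : f.map φ = g.map φ * f₁.map φ := by rw [← Polynomial.map_mul, ← hf₁]
  have hmult : ∀ z : ℂ, (f₁.map φ).rootMultiplicity z ≤ 1 := by
    intro z
    by_contra hcon
    push Not at hcon
    have hz1 : (f₁.map φ).IsRoot z := (rootMultiplicity_pos hF10).mp (by omega)
    have hz : (f.map φ).IsRoot z := by
      rw [hF, IsRoot.def, eval_mul, IsRoot.def.mp hz1, mul_zero]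
    have hm : (f.map φ).rootMultiplicity z =
        (g.map φ).rootMultiplicity z + (f₁.map φ).rootMultiplicity z := by
      rw [hF, rootMultiplicity_mul (by rw [← hF]; exact hF0)]
    have hG : (f.map φ).rootMultiplicity z - 1 ≤ (g.map φ).rootMultiplicity z := by
      rw [le_rootMultiplicity_iff hG0, hg, ← Polynomial.gcd_map]
      apply EuclideanDomain.dvd_gcd
      · exact (pow_dvd_pow _ (Nat.sub_le _ _)).trans (pow_rootMultiplicity_dvd _ _)
      · rw [← derivative_map, ← rootn_mult_deriv _ _ hz]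
        exact pow_rootMultiplicity_dvd _ _
    omega
  have hnodup : (f₁.map φ).roots.Nodup := by
    rw [Multiset.nodup_iff_count_le_one]
    intro z
    rw [count_roots]
    exact hmult z
  have hdeg1 : f₁.natDegree ≤ nroots f := by
    have h1 : (f₁.map φ).roots.card = f₁.natDegree := by
      rw [← natDegree_map_eq_of_injective hφ f₁]
      exact splits_iff_card_roots.mp (IsAlgClosed.splits _)
    rw [← h1, ← Multiset.toFinset_card_of_nodup hnodup]
    apply Finset.card_le_card
    intro z hz
    rw [Multiset.mem_toFinset, mem_roots hF10] at hz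
    rw [Multiset.mem_toFinset, mem_roots hF0, hF, IsRoot.def, eval_mul, IsRoot.def.mp hz, mul_zero]
  have hdeg2 : f₂.natDegree < f₁.natDegree := by
    have h1 : f.natDegree = g.natDegree + f₁.natDegree := by
      conv_lhs => rw [hf₁]
      exact natDegree_mul hg0 hf10
    have h2 : (derivative f).natDegree = g.natDegree + f₂.natDegree := by
      conv_lhs => rw [hf₂]
      exact natDegree_mul hg0 hf20
    have h3 : (derivative f).natDegree < f.natDegree := natDegree_derivative_lt (by omega)
    omega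
  refine ⟨-f₂, f₁, ?_, ?_, hf10, ?_⟩
  · rw [degree_neg, ← natDegree_lt_iff_degree_lt hf20]
    omega
  · rw [← natDegree_lt_iff_degree_lt hf10]
    omega
  · conv_lhs => rw [hf₂]
    conv_lhs => enter [1, 2]; rw [hf₁]
    ring

theorem sylG_eq_zero_iff (f : ℝ[X]) (n k : ℕ) (hn : f.natDegree = n) (h1 : 1 ≤ n) :
    sylG f.coeff n k = 0 ↔ nroots f ≤ k := by
  rw [rootn_sylG_iff f n k hn h1]
  constructor
  · rintro ⟨u, v, _, hv, hv0, h⟩
    exact rootn_le f u v k (by omega) hv hv0 h
  · intro h
    exact rootn_exists f k (by omega) h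

end Pool.Agent.Sink
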