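import Pool.Agent.Lib.MP_93b8a0_lc.Gap
import Pool.Agent.Lib.MP_93b8a0_lc.Lvl

/-!
# Sampling the complement of the zeros of a polynomial in one variable
-/

open Matrix Polynomial

namespace Pool.Agent.Sink

open Pool.Agent.PolyTime Pool.Agent.SparseNP

namespace Samp1

lemma poly_iter (l : List ℤ) (j : ℕ) : poly (der^[j] l) = derivative^[j] (poly l) := by
  induction j with
  | zero => rfl
  | succ j ih => rw [Function.iterate_succ_apply', poly_der, ih, Function.iterate_succ_apply']

lemma coeff_of_le {l : List ℤ} {i : ℕ} (h : l.length ≤ i) : (poly l).coeff i = 0 := by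
  rw [coeff_poly, List.getD_eq_default _ _ h]

/-- the top derivative vanishes -/
lemma poly_top (l : List ℤ) : poly (der^[l.length + 1] l) = 0 := by
  rw [poly_iter]
  ext i
  rw [coeff_iterate_derivative, coeff_of_le (by omega), smul_zero, coeff_zero]

/-- bounds for the derivatives -/
lemma bound {l : List ℤ} {K : ℕ} (hl : l.length ≤ K) (hc : ∀ c ∈ l, |c| < 2 ^ K) (j : ℕ) :
    (poly (der^[j] l)).natDegree < K ^ 2 + K + 2 ∧
      ∀ i, |(poly (der^[j] l)).coeff i| < 2 ^ (K ^ 2 + K + 2) := by
  rw [poly_iter]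
  constructor
  · refine lt_of_le_of_lt (natDegree_iterate_derivative _ _) ?_
    have h1 : (poly l).natDegree ≤ K := by
      rw [natDegree_le_iff_coeff_eq_zero]
      intro i hi
      exact coeff_of_le (by omega)
    have h2 : (poly l).natDegree - j ≤ K := (Nat.sub_le _ _).trans h1
    have h3 : 0 ≤ K ^ 2 := Nat.zero_le _
    omega
  · intro i
    rw [coeff_iterate_derivative]
    by_cases h : l.length ≤ i + j
    · rw [coeff_of_le h, smul_zero, abs_zero]
      positivity
    · have hij : i + j < l.length := not_le.1 h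
      rw [coeff_poly, nsmul_eq_mul, abs_mul]
      have h1 : |l.getD (i + j) 0| < 2 ^ K := by
        rw [List.getD_eq_getElem _ _ hij]
        exact hc _ (List.getElem_mem hij)
      have h2 : (((i + j).descFactorial j : ℕ) : ℤ) ≤ 2 ^ (K ^ 2) := by
        have h3 : (i + j).descFactorial j ≤ 2 ^ (K ^ 2) := by
          calc (i + j).descFactorial j ≤ (i + j) ^ j := Nat.descFactorial_le_pow _ _
            _ ≤ (2 ^ K) ^ j := by
                refine Nat.pow_le_pow_left ?_ _
                have : i + j < K := by omega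
                exact (this.trans Nat.lt_two_pow_self).le
            _ = 2 ^ (K * j) := by rw [← pow_mul]
            _ ≤ 2 ^ (K ^ 2) := by
                refine Nat.pow_le_pow_right (by norm_num) ?_
                rw [sq]
                exact Nat.mul_le_mul_left _ (by omega)
        exact_mod_cast h3
      have h4 : |(((i + j).descFactorial j : ℕ) : ℤ)| = (((i + j).descFactorial j : ℕ) : ℤ) :=
        abs_of_nonneg (by positivity)
      rw [h4]
      calc (((i + j).descFactorial j : ℕ) : ℤ) * |l.getD (i + j) 0|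
          ≤ 2 ^ (K ^ 2) * 2 ^ K := mul_le_mul h2 h1.le (abs_nonneg _) (by positivity)
        _ = 2 ^ (K ^ 2 + K) := by rw [← pow_add]
        _ < 2 ^ (K ^ 2 + K + 2) := by
            refine pow_lt_pow_right₀ (by norm_num) (by omega)

/-- the list of the derivatives of order `n + 1, ..., 1` -/
def chainN (l : List ℤ) : ℕ → List (List ℤ)
  | 0 => [der l]
  | n + 1 => der^[n + 2] l :: chainN l n

lemma headD_chainN (l : List ℤ) (n : ℕ) : (chainN l n).headD [] = der^[n + 1] l := by
  cases n <;> rfl

lemma foldl_chain (l : List ℤ) : ∀ (t : List ℤ) (n : ℕ),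
    t.foldl (fun D _ => der (D.headD []) :: D) (chainN l n) = chainN l (n + t.length) := by
  intro t
  induction t with
  | nil => intro n; rfl
  | cons a t ih =>
    intro n
    rw [List.foldl_cons, headD_chainN, ← Function.iterate_succ_apply' der]
    have e : (der^[(n + 1).succ] l :: chainN l n) = chainN l (n + 1) := rfl
    rw [e, ih, List.length_cons]
    congr 1
    omega

lemma chain_eq (l : List ℤ) : chain l = chainN l l.length := by
  have := foldl_chain l l 0
  rw [Nat.zero_add] at this
  exact this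

lemma fold_spec {k : ℕ} {M B : ℤ} (l : List ℤ) (hM : 0 < M) (hB : 0 < B) (hk : 2 * B ≤ 2 ^ k)
    (hroot : ∀ j, poly (der^[j] l) ≠ 0 → ∀ x : ℝ, (toR (poly (der^[j] l))).eval x = 0 →
      |x| < (B : ℝ) / M)
    (hgap : ∀ j, ∀ c x : ℝ, (toR (poly (der^[j + 1] l))).eval c = 0 →
      (toR (poly (der^[j] l))).eval c ≠ 0 → |x - c| ≤ 1 / M →
        (toR (poly (der^[j] l))).eval x ≠ 0) :
    ∀ (n : ℕ) (X : List ℤ), Srt B X → Cov M X (toR (poly (der^[n + 1] l))) →
      Srt B ((chainN l n).foldl (lvl k M B) X) ∧
        Cov M ((chainN l n).foldl (lvl k M B) X) (toR (poly l)) := by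
  intro n
  induction n with
  | zero =>
    intro X hX hc
    exact lvl_spec k l M B X hM hB hk hX hc (hroot 0) (hroot 1) (hgap 0)
  | succ n ih =>
    intro X hX hc
    have e : der^[n + 2] l = der (der^[n + 1] l) := Function.iterate_succ_apply' der (n + 1) l
    have h1 := lvl_spec k (der^[n + 1] l) M B X hM hB hk hX (by rw [← e]; exact hc)
      (hroot (n + 1)) (by rw [← e]; exact hroot (n + 2)) (by rw [← e]; exact hgap (n + 1))
    rw [chainN, List.foldl_cons, e]
    exact ih _ h1.1 h1.2

end Samp1

open Samp1 in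
theorem samp1_correct : ∃ p : Polynomial ℕ, ∀ (l : List ℤ) (K m : ℕ), l.length ≤ K →
    (∀ c ∈ l, |c| < 2 ^ K) → p.eval K ≤ m → Cov (2 ^ m) (samp1 m l) (toR (poly l)) := by
  obtain ⟨e, he⟩ := gap
  refine ⟨(X ^ 2 + X + 2) ^ e, fun l K m hl hc hm => ?_⟩
  have hm' : (K ^ 2 + K + 2) ^ e ≤ m := by
    simpa using hm
  have hpow : (2 : ℝ) ^ ((K ^ 2 + K + 2) ^ e) ≤ 2 ^ m := pow_le_pow_right₀ (by norm_num) hm'
  have hBM : (((4 ^ m : ℤ) : ℝ) / ((2 ^ m : ℤ) : ℝ)) = 2 ^ m := by
    push_cast
    rw [← div_pow]
    norm_num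
  have hgapj := fun j => he (K ^ 2 + K + 2) (poly (der^[j] l)) (by omega) (bound hl hc j).1
    (bound hl hc j).2
  have h := fold_spec (k := 3 * m + 3) (M := 2 ^ m) (B := 4 ^ m) l (by positivity) (by positivity)
    (by
      have h1 : (2 : ℤ) * 4 ^ m = 2 ^ (2 * m + 1) := by
        rw [pow_succ, pow_mul]
        norm_num
        ring
      rw [h1]
      exact pow_le_pow_right₀ (by norm_num) (by omega))
    (fun j hj x hx => by
      rw [hBM]
      exact lt_of_lt_of_le ((hgapj j).1 hj x hx) hpow)
    (fun j c x h1 h2 h3 => by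
      refine (hgapj j).2 c x ?_ h2 ?_
      · rw [← poly_der, ← Function.iterate_succ_apply' der]
        exact h1
      · refine h3.trans ?_
        push_cast
        rw [one_div]
        exact inv_anti₀ (by positivity) hpow)
    l.length [-(4 ^ m), 4 ^ m] ⟨by
        have : (0 : ℤ) < 4 ^ m := by positivity
        simp only [List.pairwise_cons, List.mem_singleton, forall_eq, List.not_mem_nil,
          false_imp_iff, implies_true, List.Pairwise.nil, and_true]
        linarith, rfl, rfl⟩
    (by
      intro x hx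
      exfalso
      apply hx
      rw [poly_top]
      simp)
  unfold samp1
  rw [chain_eq]
  exact h.2

end Pool.Agent.Sink
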