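import Pool.Agent.Lib.MP_93b8a0_lc.Gram

/-!
# The computed Gram determinant of the matrix of `(u, v) ↦ u f + v f'`
-/

open Matrix Polynomial

namespace Pool.Agent.Sink

open Pool.Agent.PolyTime Pool.Agent.SparseNP

theorem sylgr_sum_range {M : Type*} [AddCommMonoid M] (f : ℕ → M) (n : ℕ) :
    ((List.range n).map f).sum = ∑ i ∈ Finset.range n, f i := rfl

theorem sylgr_vec (a : ℕ → ℤ) (k i : ℕ) (p : Fin (2 * k + 1)) :
    vec (2 * k + 1) ((List.range (2 * k + 1)).map fun j => sylE a k i j) p = sylE a k i p := by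
  unfold SparseNP.vec
  rw [List.getD_eq_getElem?_getD, List.getElem?_map, List.getElem?_range p.2]
  rfl

theorem gk_eq (a : List ℤ) (k : ℕ) :
    gk a k = sylG (fun i => a.getD i 0) (a.length - 1) k := by
  unfold gk sylG
  rw [gram_eq]
  congr 1
  unfold GM sylRows
  rw [List.map_map, sylgr_sum_range, Finset.sum_range]
  ext p q
  rw [Matrix.sum_apply, Matrix.mul_apply]
  refine Finset.sum_congr rfl fun i _ => ?_
  rw [Function.comp_apply, Matrix.vecMulVec_apply, sylgr_vec, sylgr_vec]
  rfl

theorem sylgr_cf_map {R S : Type*} [CommRing R] [CommRing S] (φ : R →+* S) (a : ℕ → R)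
    (i j : ℕ) : φ (cf a i j) = cf (fun i => φ (a i)) i j := by
  unfold cf
  split_ifs
  · rfl
  · exact map_zero φ

theorem sylgr_sylE_map {R S : Type*} [CommRing R] [CommRing S] (φ : R →+* S) (a : ℕ → R)
    (k i j : ℕ) : φ (sylE a k i j) = sylE (fun i => φ (a i)) k i j := by
  unfold sylE
  split_ifs
  · exact sylgr_cf_map φ a i j
  · rw [sylgr_cf_map]
    congr 1
    funext m
    rw [map_mul, map_natCast]

theorem sylG_map {R S : Type*} [CommRing R] [CommRing S] (φ : R →+* S) (a : ℕ → R) (n k : ℕ) :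
    φ (sylG a n k) = sylG (fun i => φ (a i)) n k := by
  unfold sylG
  rw [RingHom.map_det, RingHom.mapMatrix_apply, Matrix.map_mul]
  have h : (sylM a n k).map φ = sylM (fun i => φ (a i)) n k := by
    ext i j
    exact sylgr_sylE_map φ a k i j
  rw [h, ← h, Matrix.transpose_map]

end Pool.Agent.Sink
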