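import Pool.Agent.Lib.MP_93b8a0_lc.Defs2

/-!
# Components of the complement of a plane curve over an interval

If the polynomial in `t` has constant degree and a constant number of distinct complex roots for
all `s` between `s₁` and `s₂`, every point over `s₁` off the curve is linked to a point over `s₂`.
-/

open Matrix Polynomial

namespace Pool.Agent.Sink

open Pool.Agent.PolyTime Pool.Agent.SparseNP Filter Topology

namespace Topo

theorem linked_symm {U : Set (ℝ × ℝ)} {q q' : ℝ × ℝ} (h : Linked U q q') : Linked U q' q := by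
  obtain ⟨C, h1, h2, h3, h4⟩ := h
  exact ⟨C, h1, h2, h4, h3⟩

theorem linked_trans {U : Set (ℝ × ℝ)} {q q' q'' : ℝ × ℝ} (h : Linked U q q')
    (h' : Linked U q' q'') : Linked U q q'' := by
  obtain ⟨C, h1, h2, h3, h4⟩ := h
  obtain ⟨D, k1, k2, k3, k4⟩ := h'
  exact ⟨C ∪ D, Set.union_subset h1 k1, IsPreconnected.union q' h4 k3 h2 k2, Or.inl h3, Or.inr k4⟩

theorem linked_vert (P : ℤ[X][X]) {s t t' : ℝ} (h : ∀ y ∈ Set.uIcc t t', ev P (s, y) ≠ 0) :
    Linked {q | ev P q ≠ 0} (s, t) (s, t') := by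
  refine ⟨(fun y : ℝ => (s, y)) '' Set.uIcc t t', ?_, ?_, ⟨t, Set.left_mem_uIcc, rfl⟩,
    ⟨t', Set.right_mem_uIcc, rfl⟩⟩
  · rintro _ ⟨y, hy, rfl⟩
    exact h y hy
  · exact isPreconnected_uIcc.image _ (by fun_prop)

theorem linked_horiz (P : ℤ[X][X]) {s s' t : ℝ} (h : ∀ x ∈ Set.uIcc s s', ev P (x, t) ≠ 0) :
    Linked {q | ev P q ≠ 0} (s, t) (s', t) := by
  refine ⟨(fun x : ℝ => (x, t)) '' Set.uIcc s s', ?_, ?_, ⟨s, Set.left_mem_uIcc, rfl⟩,
    ⟨s', Set.right_mem_uIcc, rfl⟩⟩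
  · rintro _ ⟨y, hy, rfl⟩
    exact h y hy
  · exact isPreconnected_uIcc.image _ (by fun_prop)

theorem exists_eps (R : Finset ℂ) : ∃ ε : ℝ, 0 < ε ∧
    (∀ z ∈ R, ∀ z' ∈ R, z ≠ z' → 2 * ε < ‖z - z'‖) ∧ ∀ z ∈ R, z.im ≠ 0 → ε < |z.im| := by
  have key : ∀ c : ℝ, 0 < c → ∀ᶠ ε in 𝓝[>] (0 : ℝ), 2 * ε < c := by
    intro c hc
    have h1 : Tendsto (fun ε : ℝ => 2 * ε) (𝓝[>] (0 : ℝ)) (𝓝 (2 * 0)) :=
      ((continuous_const.mul continuous_id).tendsto 0).mono_left nhdsWithin_le_nhds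
    exact h1.eventually_lt_const (by simpa using hc)
  have h1 : ∀ᶠ ε in 𝓝[>] (0 : ℝ), ∀ z ∈ R, ∀ z' ∈ R, z ≠ z' → 2 * ε < ‖z - z'‖ := by
    rw [Filter.eventually_all_finset]
    intro z _
    rw [Filter.eventually_all_finset]
    intro z' _
    by_cases hz : z = z'
    · exact Eventually.of_forall fun _ h => absurd hz h
    · filter_upwards [key ‖z - z'‖ (norm_pos_iff.2 (sub_ne_zero.2 hz))] with ε h _ using h
  have h2 : ∀ᶠ ε in 𝓝[>] (0 : ℝ), ∀ z ∈ R, z.im ≠ 0 → 2 * ε < |z.im| := by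
    rw [Filter.eventually_all_finset]
    intro z _
    by_cases hz : z.im = 0
    · exact Eventually.of_forall fun _ h => absurd hz h
    · filter_upwards [key |z.im| (abs_pos.2 hz)] with ε h _ using h
  have h3 : ∀ᶠ ε in 𝓝[>] (0 : ℝ), 0 < ε := self_mem_nhdsWithin
  obtain ⟨ε, h1, h2, h3⟩ := (h1.and (h2.and h3)).exists
  exact ⟨ε, h3, h1, fun z hz hz' => by have := h2 z hz hz'; linarith⟩

/-- the complex polynomial over `s` -/
noncomputable def G (P : ℤ[X][X]) (s : ℝ) : ℂ[X] := (fib P s).map (algebraMap ℝ ℂ)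

theorem continuous_evS (p : ℤ[X]) : Continuous fun s : ℝ => evS s p :=
  Polynomial.continuous_eval₂ p (Int.castRingHom ℝ)

theorem coeff_G (P : ℤ[X][X]) (s : ℝ) (i : ℕ) : (G P s).coeff i = ((evS s (P.coeff i) : ℝ) : ℂ) := by
  simp [G, fib]

theorem natDegree_G_le (P : ℤ[X][X]) (s : ℝ) : (G P s).natDegree ≤ P.natDegree :=
  (natDegree_map_le).trans natDegree_map_le

theorem eval_G (P : ℤ[X][X]) (s : ℝ) (z : ℂ) :
    (G P s).eval z = ∑ i ∈ Finset.range (P.natDegree + 1), ((evS s (P.coeff i) : ℝ) : ℂ) * z ^ i := by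
  rw [eval_eq_sum_range' (Nat.lt_succ_of_le (natDegree_G_le P s))]
  simp only [coeff_G]

theorem continuous_eval_G (P : ℤ[X][X]) (z : ℂ) : Continuous fun s => (G P s).eval z := by
  simp only [eval_G]
  refine continuous_finsetSum _ fun i _ => ?_
  exact (Complex.continuous_ofReal.comp (continuous_evS _)).mul continuous_const

theorem eval_G_ofReal (P : ℤ[X][X]) (s y : ℝ) : (G P s).eval (y : ℂ) = ((ev P (s, y) : ℝ) : ℂ) := by
  rw [G, ev, eval_map]
  exact eval₂_at_apply (algebraMap ℝ ℂ) y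

theorem pow_le_norm_prod {ε : ℝ} (hε : 0 ≤ ε) (z : ℂ) (m : Multiset ℂ)
    (h : ∀ w ∈ m, ε ≤ ‖z - w‖) : ε ^ m.card ≤ ‖(m.map fun w => z - w).prod‖ := by
  induction m using Multiset.induction_on with
  | empty => simp
  | cons a m ih =>
    rw [Multiset.card_cons, Multiset.map_cons, Multiset.prod_cons, norm_mul, pow_succ, mul_comm]
    exact mul_le_mul (h a (Multiset.mem_cons_self a m))
      (ih fun w hw => h w (Multiset.mem_cons_of_mem hw)) (pow_nonneg hε _) (norm_nonneg _)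

section main

variable {P : ℤ[X][X]} {n r : ℕ} {I : Set ℝ}

theorem natDegree_G (hP : P.natDegree = n) {s : ℝ} (h : evS s (P.coeff n) ≠ 0) :
    (G P s).natDegree = n := by
  apply natDegree_eq_of_le_of_coeff_ne_zero
  · rw [← hP]
    exact natDegree_G_le P s
  · rw [coeff_G]
    exact_mod_cast h

theorem G_ne_zero {s : ℝ} (h : evS s (P.coeff n) ≠ 0) : G P s ≠ 0 := by
  intro h0
  apply h
  have := coeff_G P s n
  rw [h0, coeff_zero] at this
  exact_mod_cast this.symm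

theorem near_root (hP : P.natDegree = n) (hlc : ∀ s ∈ I, evS s (P.coeff n) ≠ 0) {s₀ : ℝ}
    (hs₀ : s₀ ∈ I) {z : ℂ} (hz : (G P s₀).eval z = 0) {ε : ℝ} (hε : 0 < ε) :
    ∀ᶠ s in 𝓝[I] s₀, ∃ w, (G P s).eval w = 0 ∧ ‖w - z‖ < ε := by
  have hc : Continuous fun s => ‖(G P s).eval z‖ - |evS s (P.coeff n)| * ε ^ n :=
    (continuous_eval_G P z).norm.sub ((continuous_evS _).abs.mul continuous_const)
  have h0 : ‖(G P s₀).eval z‖ - |evS s₀ (P.coeff n)| * ε ^ n < 0 := by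
    rw [hz, norm_zero, zero_sub]
    have := abs_pos.2 (hlc s₀ hs₀)
    have : 0 < |evS s₀ (P.coeff n)| * ε ^ n := by positivity
    linarith
  have h1 : ∀ᶠ s in 𝓝[I] s₀, ‖(G P s).eval z‖ - |evS s (P.coeff n)| * ε ^ n < 0 :=
    (hc.tendsto s₀).eventually_lt_const h0 |>.filter_mono nhdsWithin_le_nhds
  filter_upwards [h1, self_mem_nhdsWithin] with s hs hsI
  by_contra hcon
  push Not at hcon
  have hG := G_ne_zero (hlc s hsI)
  have h2 := (IsAlgClosed.splits (G P s)).eval_eq_prod_roots z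
  have h3 : ε ^ (G P s).roots.card ≤ ‖((G P s).roots.map fun w => z - w).prod‖ := by
    apply pow_le_norm_prod hε.le
    intro w hw
    have := hcon w (isRoot_of_mem_roots hw)
    rwa [norm_sub_rev] at this
  have h4 : (G P s).roots.card = n := by
    rw [splits_iff_card_roots.1 (IsAlgClosed.splits (G P s)), natDegree_G hP (hlc s hsI)]
  have h5 : ‖(G P s).leadingCoeff‖ = |evS s (P.coeff n)| := by
    rw [leadingCoeff, natDegree_G hP (hlc s hsI), coeff_G, Complex.norm_real, Real.norm_eq_abs]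
  rw [h2, norm_mul, h5] at hs
  rw [h4] at h3
  have := mul_le_mul_of_nonneg_left h3 (abs_nonneg (evS s (P.coeff n)))
  linarith

/-- the facts about the roots over `s` close to `s₀`: with the roots `R` over `s₀` -/
def Near (P : ℤ[X][X]) (R : Finset ℂ) (ε : ℝ) (s : ℝ) : Prop :=
  (∀ y : ℝ, ev P (s, y) = 0 → ∃ τ : ℝ, (τ : ℂ) ∈ R ∧ |y - τ| < ε) ∧
  ∀ y y' τ : ℝ, ev P (s, y) = 0 → ev P (s, y') = 0 → (τ : ℂ) ∈ R → |y - τ| < ε →
    |y' - τ| < ε → y = y'

theorem near_of (hlc : ∀ s ∈ I, evS s (P.coeff n) ≠ 0)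
    {R : Finset ℂ} {ε : ℝ}
    (h1 : ∀ z ∈ R, ∀ z' ∈ R, z ≠ z' → 2 * ε < ‖z - z'‖)
    (h2 : ∀ z ∈ R, z.im ≠ 0 → ε < |z.im|) {s : ℝ} (hs : s ∈ I)
    (hcard : (G P s).roots.toFinset.card ≤ R.card)
    (h : ∀ z ∈ R, ∃ w, (G P s).eval w = 0 ∧ ‖w - z‖ < ε) : Near P R ε s := by
  choose! φ hφ hφ' using h
  have hG := G_ne_zero (hlc s hs)
  have tri : ∀ z z' w : ℂ, ‖w - z‖ < ε → ‖w - z'‖ < ε → z ∈ R → z' ∈ R → z = z' := by
    intro z z' w k1 k2 hz hz'
    by_contra hne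
    have k3 := h1 z hz z' hz' hne
    have k4 : ‖z - z'‖ ≤ ‖w - z‖ + ‖w - z'‖ := by
      have : z - z' = (w - z') - (w - z) := by ring
      rw [this]
      exact (norm_sub_le _ _).trans (by linarith)
    linarith
  have surj : ∀ w ∈ (G P s).roots.toFinset, ∃ z, ∃ (_ : z ∈ R), w = φ z := by
    refine Finset.surj_on_of_inj_on_of_card_le (fun z _ => φ z) ?_ ?_ hcard
    · intro z hz
      rw [Multiset.mem_toFinset, mem_roots hG]
      exact hφ z hz
    · intro z z' hz hz' he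
      refine tri z z' (φ z) (hφ' z hz) ?_ hz hz'
      have he' : φ z = φ z' := he
      rw [he']
      exact hφ' z' hz'
  have key : ∀ y : ℝ, ev P (s, y) = 0 → ∃ z ∈ R, (y : ℂ) = φ z ∧ ‖(y : ℂ) - z‖ < ε := by
    intro y hy
    have : (y : ℂ) ∈ (G P s).roots.toFinset := by
      rw [Multiset.mem_toFinset, mem_roots hG, IsRoot, eval_G_ofReal, hy, Complex.ofReal_zero]
    obtain ⟨z, hz, he⟩ := surj _ this
    exact ⟨z, hz, he, he ▸ hφ' z hz⟩
  refine ⟨?_, ?_⟩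
  · intro y hy
    obtain ⟨z, hz, he, hn⟩ := key y hy
    have him : z.im = 0 := by
      by_contra hne
      have k1 := h2 z hz hne
      have k2 := Complex.abs_im_le_norm ((y : ℂ) - z)
      rw [Complex.sub_im, Complex.ofReal_im, zero_sub, abs_neg] at k2
      linarith
    have hzr : ((z.re : ℝ) : ℂ) = z := by
      apply Complex.ext
      · simp
      · simp [him]
    refine ⟨z.re, hzr.symm ▸ hz, ?_⟩
    rw [← hzr, ← Complex.ofReal_sub, Complex.norm_real, Real.norm_eq_abs] at hn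
    exact hn
  · intro y y' τ hy hy' hτ k1 k2
    obtain ⟨z, hz, he, hn⟩ := key y hy
    obtain ⟨z', hz', he', hn'⟩ := key y' hy'
    have k1' : ‖(y : ℂ) - τ‖ < ε := by
      rwa [← Complex.ofReal_sub, Complex.norm_real, Real.norm_eq_abs]
    have k2' : ‖(y' : ℂ) - τ‖ < ε := by
      rwa [← Complex.ofReal_sub, Complex.norm_real, Real.norm_eq_abs]
    have e1 := tri _ _ _ hn k1' hz hτ
    have e2 := tri _ _ _ hn' k2' hz' hτ
    have : (y : ℂ) = y' := by rw [he, he', e1, e2]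
    exact_mod_cast this

/-- move vertically away from the roots -/
theorem exists_vert {R : Finset ℂ} {ε : ℝ} (hε : 0 < ε)
    (h1 : ∀ z ∈ R, ∀ z' ∈ R, z ≠ z' → 2 * ε < ‖z - z'‖) {s t : ℝ} (hN : Near P R ε s)
    (ht : ev P (s, t) ≠ 0) :
    ∃ t', (∀ y ∈ Set.uIcc t t', ev P (s, y) ≠ 0) ∧ ∀ τ : ℝ, (τ : ℂ) ∈ R → ε ≤ |t' - τ| := by
  have h1' : ∀ τ τ' : ℝ, (τ : ℂ) ∈ R → (τ' : ℂ) ∈ R → |τ - τ'| ≤ 2 * ε → τ = τ' := by
    intro τ τ' k1 k2 k3
    by_contra hne
    have := h1 τ k1 τ' k2 (by exact_mod_cast hne)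
    rw [← Complex.ofReal_sub, Complex.norm_real, Real.norm_eq_abs] at this
    linarith
  by_cases hτ : ∃ τ : ℝ, (τ : ℂ) ∈ R ∧ |t - τ| < ε
  · obtain ⟨τ, hτ, htτ⟩ := hτ
    rw [abs_lt] at htτ
    have root_near : ∀ y : ℝ, ev P (s, y) = 0 → |y - τ| ≤ ε → |y - τ| < ε := by
      intro y hy hle
      obtain ⟨τ', k1, k2⟩ := hN.1 y hy
      have : τ = τ' := by
        apply h1' τ τ' hτ k1
        have : τ - τ' = (y - τ') - (y - τ) := by ring
        rw [this]
        have := abs_sub (y - τ') (y - τ)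
        linarith
      rw [this]
      exact k2
    by_cases hρ : ∃ ρ, ev P (s, ρ) = 0 ∧ |ρ - τ| < ε ∧ t < ρ
    · obtain ⟨ρ, r1, r2, r3⟩ := hρ
      refine ⟨τ - ε, ?_, ?_⟩
      · intro y hy h0
        rw [Set.uIcc_of_ge (by linarith), Set.mem_Icc] at hy
        have k1 : |y - τ| < ε := root_near y h0 (abs_le.2 ⟨by linarith, by linarith⟩)
        have := hN.2 y ρ τ h0 r1 hτ k1 r2
        linarith
      · intro τ' hτ'
        by_contra hcon
        push Not at hcon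
        have : τ = τ' := by
          apply h1' τ τ' hτ hτ'
          rw [abs_lt] at hcon
          rw [abs_le]
          constructor <;> linarith
        rw [← this] at hcon
        rw [abs_lt] at hcon
        linarith
    · push Not at hρ
      refine ⟨τ + ε, ?_, ?_⟩
      · intro y hy h0
        rw [Set.uIcc_of_le (by linarith), Set.mem_Icc] at hy
        have k1 : |y - τ| < ε := root_near y h0 (abs_le.2 ⟨by linarith, by linarith⟩)
        have k2 := hρ y h0 k1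
        have k3 : y = t := le_antisymm k2 hy.1
        rw [k3] at h0
        exact ht h0
      · intro τ' hτ'
        by_contra hcon
        push Not at hcon
        have : τ = τ' := by
          apply h1' τ τ' hτ hτ'
          rw [abs_lt] at hcon
          rw [abs_le]
          constructor <;> linarith
        rw [← this] at hcon
        rw [abs_lt] at hcon
        linarith
  · push Not at hτ
    refine ⟨t, ?_, hτ⟩
    intro y hy
    rw [Set.uIcc_self, Set.mem_singleton_iff] at hy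
    rw [hy]
    exact ht

theorem local_link {R : Finset ℂ} {ε : ℝ} (hε : 0 < ε)
    (h1 : ∀ z ∈ R, ∀ z' ∈ R, z ≠ z' → 2 * ε < ‖z - z'‖) {s s' : ℝ}
    (hN : ∀ x ∈ Set.uIcc s s', Near P R ε x) {t : ℝ} (ht : ev P (s, t) ≠ 0) :
    ∃ t', Linked {q | ev P q ≠ 0} (s, t) (s', t') := by
  obtain ⟨t', k1, k2⟩ := exists_vert hε h1 (hN s Set.left_mem_uIcc) ht
  refine ⟨t', linked_trans (linked_vert P k1) (linked_horiz P ?_)⟩
  intro x hx h0
  obtain ⟨τ, hτ, hlt⟩ := (hN x hx).1 t' h0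
  have := k2 τ hτ
  linarith

end main

end Topo

theorem topo (P : ℤ[X][X]) (n r : ℕ) (hP : P.natDegree = n) (s₁ s₂ t₁ : ℝ)
    (hlc : ∀ s ∈ Set.uIcc s₁ s₂, evS s (P.coeff n) ≠ 0)
    (hr : ∀ s ∈ Set.uIcc s₁ s₂, nroots (fib P s) = r) (h : ev P (s₁, t₁) ≠ 0) :
    ∃ t₂, Linked {q | ev P q ≠ 0} (s₁, t₁) (s₂, t₂) := by
  have main := (isPreconnected_uIcc (a := s₁) (b := s₂)).induction₂
    (fun s s' => (∀ t, ev P (s, t) ≠ 0 → ∃ t', Linked {q | ev P q ≠ 0} (s, t) (s', t')) ∧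
      ∀ t, ev P (s', t) ≠ 0 → ∃ t', Linked {q | ev P q ≠ 0} (s', t) (s, t')) ?_ ?_ ?_
    (Set.left_mem_uIcc) (Set.right_mem_uIcc)
  · exact main.1 t₁ h
  · intro s₀ hs₀
    obtain ⟨ε, hε, h1, h2⟩ := Topo.exists_eps (Topo.G P s₀).roots.toFinset
    have hG := Topo.G_ne_zero (hlc s₀ hs₀)
    have hev : ∀ᶠ s in 𝓝[Set.uIcc s₁ s₂] s₀, ∀ z ∈ (Topo.G P s₀).roots.toFinset,
        ∃ w, (Topo.G P s).eval w = 0 ∧ ‖w - z‖ < ε := by
      rw [Filter.eventually_all_finset]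
      intro z hz
      rw [Multiset.mem_toFinset, mem_roots hG] at hz
      exact Topo.near_root hP hlc hs₀ hz hε
    obtain ⟨δ, hδ, hball⟩ := Metric.mem_nhdsWithin_iff.1 hev
    have hnear : ∀ x ∈ Metric.ball s₀ δ ∩ Set.uIcc s₁ s₂,
        Topo.Near P (Topo.G P s₀).roots.toFinset ε x := by
      intro x hx
      refine Topo.near_of hlc h1 h2 hx.2 ?_ (hball hx)
      have e1 : (Topo.G P x).roots.toFinset.card = r := hr x hx.2
      have e2 : (Topo.G P s₀).roots.toFinset.card = r := hr s₀ hs₀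
      rw [e1, e2]
    have hmem : Metric.ball s₀ δ ∩ Set.uIcc s₁ s₂ ∈ 𝓝[Set.uIcc s₁ s₂] s₀ := by
      rw [Set.inter_comm]
      exact inter_mem_nhdsWithin _ (Metric.ball_mem_nhds s₀ hδ)
    filter_upwards [hmem] with s hs
    have hsub : Set.uIcc s₀ s ⊆ Metric.ball s₀ δ ∩ Set.uIcc s₁ s₂ := by
      apply Set.subset_inter
      · have hc : Convex ℝ (Metric.ball s₀ δ) := convex_ball s₀ δ
        rw [← segment_eq_uIcc]
        exact hc.segment_subset (Metric.mem_ball_self hδ) hs.1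
      · exact Set.uIcc_subset_uIcc hs₀ hs.2
    refine ⟨fun t ht => Topo.local_link hε h1 (fun x hx => hnear x (hsub hx)) ht,
      fun t ht => Topo.local_link hε h1 (fun x hx => hnear x (hsub ?_)) ht⟩
    rwa [Set.uIcc_comm]
  · intro x y z _ _ _ hxy hyz
    have key : ∀ a b c : ℝ,
        (∀ t, ev P (a, t) ≠ 0 → ∃ t', Linked {q | ev P q ≠ 0} (a, t) (b, t')) →
        (∀ t, ev P (b, t) ≠ 0 → ∃ t', Linked {q | ev P q ≠ 0} (b, t) (c, t')) →
        ∀ t, ev P (a, t) ≠ 0 → ∃ t', Linked {q | ev P q ≠ 0} (a, t) (c, t') := by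
      intro a b c h1 h2 t ht
      obtain ⟨t', ht'⟩ := h1 t ht
      obtain ⟨C, hC, _, _, hm⟩ := id ht'
      obtain ⟨t'', ht''⟩ := h2 t' (hC hm)
      exact ⟨t'', Topo.linked_trans ht' ht''⟩
    exact ⟨key x y z hxy.1 hyz.1, key z y x hyz.2 hxy.2⟩
  · intro x y _ _ hxy
    exact ⟨hxy.2, hxy.1⟩

end Pool.Agent.Sink
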