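import Pool.Agent.Lib.MP_93b8a0_lc.Defs2
import Pool.Agent.Lib.MP_93b8a0_lc.Hor
import Pool.Agent.Lib.MP_93b8a0_lc.RootN
import Pool.Agent.Lib.MP_93b8a0_lc.Topo
import Pool.Agent.Lib.MP_93b8a0_lc.Norm
import Pool.Agent.Lib.MP_93b8a0_lc.SylGr
import Pool.Agent.Lib.MP_93b8a0_lc.Dig

open Matrix Polynomial
namespace Pool.Agent.Sink
open Pool.Agent.PolyTime Pool.Agent.SparseNP

/-! ### coefficients -/

theorem samp2_coeff_poly2 (cc : List (List ℤ)) (j : ℕ) :
    (poly2 cc).coeff j = poly (cc.getD j []) := by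
  induction cc generalizing j with
  | nil =>
    simp [poly2, poly]
  | cons c cc ih =>
    have e : poly2 (c :: cc) = C (poly c) + X * poly2 cc := rfl
    rw [e]
    cases j with
    | zero => simp
    | succ j => simp [coeff_X_mul, ih]

theorem samp2_poly_eq_zero {l : List ℤ} (h : (l.all fun z => decide (z = 0)) = true) :
    poly l = 0 := by
  ext i
  rw [coeff_poly, coeff_zero]
  rcases lt_or_ge i l.length with hi | hi
  · rw [List.getD_eq_getElem _ _ hi]
    have := List.all_eq_true.1 h (l[i]) (List.getElem_mem hi)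
    simpa using this
  · rw [List.getD_eq_default _ _ hi]

theorem samp2_all_of_poly {c : List ℤ} (h : poly c = 0) :
    (c.all fun z => decide (z = 0)) = true := by
  rw [List.all_eq_true]
  intro z hz
  obtain ⟨i, hi, rfl⟩ := List.getElem_of_mem hz
  have h1 := coeff_poly c i
  rw [h, coeff_zero, List.getD_eq_getElem _ _ hi] at h1
  simp [← h1]

theorem samp2_trim_append (cc : List (List ℤ)) :
    ∃ zs : List (List ℤ), cc = trim cc ++ zs ∧
      ∀ c ∈ zs, (c.all fun z => decide (z = 0)) = true := by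
  refine ⟨(cc.reverse.takeWhile fun c => c.all fun z => decide (z = 0)).reverse, ?_, ?_⟩
  · have h := List.takeWhile_append_dropWhile (p := fun c : List ℤ => c.all fun z => decide (z = 0))
      (l := cc.reverse)
    unfold trim
    rw [← List.reverse_append, h, List.reverse_reverse]
  · intro c hc
    rw [List.mem_reverse] at hc
    exact List.mem_takeWhile_imp (p := fun c : List ℤ => c.all fun z => decide (z = 0)) hc

theorem samp2_poly2_trim (cc : List (List ℤ)) : poly2 (trim cc) = poly2 cc := by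
  obtain ⟨zs, h1, h2⟩ := samp2_trim_append cc
  ext1 j
  rw [samp2_coeff_poly2, samp2_coeff_poly2]
  rcases lt_or_ge j (trim cc).length with hj | hj
  · conv_rhs => rw [h1]
    rw [List.getD_append _ _ _ _ hj]
  · conv_rhs => rw [h1]
    rw [List.getD_append_right _ _ _ _ hj, List.getD_eq_default _ _ hj]
    rcases lt_or_ge (j - (trim cc).length) zs.length with hz | hz
    · rw [List.getD_eq_getElem _ _ hz, samp2_poly_eq_zero (h2 _ (List.getElem_mem hz))]
      rfl
    · rw [List.getD_eq_default _ _ hz]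

theorem samp2_trim_last (cc : List (List ℤ)) (h : trim cc ≠ []) :
    poly ((trim cc).getD ((trim cc).length - 1) []) ≠ 0 := by
  intro h0
  have h1 := samp2_all_of_poly h0
  have hlen : 0 < (trim cc).length := List.length_pos_iff.2 h
  set D := cc.reverse.dropWhile fun c => c.all fun z => decide (z = 0) with hD
  have htr : trim cc = D.reverse := rfl
  have hDne : D ≠ [] := by
    intro h2
    apply h
    rw [htr, h2]
    rfl
  have h3 := List.head_dropWhile_not (fun c : List ℤ => c.all fun z => decide (z = 0))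
    (l := cc.reverse) hDne
  rw [List.getD_eq_getElem _ _ (by omega)] at h1
  have h4 : (trim cc)[(trim cc).length - 1]'(by omega) = D.head hDne := by
    rw [← List.getLast_eq_getElem h]
    simp only [htr, List.getLast_reverse]
  rw [h4] at h1
  rw [h3] at h1
  exact absurd h1 (by simp)

theorem samp2_map_getD {α β : Type} (f : α → β) (l : List α) (d : α) (e : β) (h : f d = e)
    (i : ℕ) : (l.map f).getD i e = f (l.getD i d) := by
  rcases lt_or_ge i l.length with hi | hi
  · rw [List.getD_eq_getElem _ _ (by simpa using hi), List.getD_eq_getElem _ _ hi,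
      List.getElem_map]
  · rw [List.getD_eq_default _ _ (by simpa using hi), List.getD_eq_default _ _ hi, h]

theorem samp2_getLastD (l : List ℤ) : l.getLastD 0 = l.getD (l.length - 1) 0 := by
  rcases List.eq_nil_or_concat l with rfl | ⟨l', b, rfl⟩
  · rfl
  · simp

theorem samp2_poly_range (Q : ℤ[X]) (τ : ℕ) (h : ∀ i, τ ≤ i → Q.coeff i = 0) :
    poly ((List.range τ).map fun i => Q.coeff i) = Q := by
  ext i
  rw [coeff_poly]
  rcases lt_or_ge i τ with hi | hi
  · rw [List.getD_eq_getElem _ _ (by simpa using hi)]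
    simp
  · rw [List.getD_eq_default _ _ (by simpa using hi), h i hi]

/-! ### bounds and digits -/

theorem samp2_bd_dig {Q : ℤ[X]} {m τ : ℕ} (h : Bd1 Q m) (hm : m + 1 ≤ τ) :
    dig τ τ (Q.eval (2 ^ τ)) = (List.range τ).map fun i => Q.coeff i := by
  refine dig_eq τ τ (by omega) Q (fun i hi => h.d i (by omega)) (fun i => ?_)
  exact lt_of_lt_of_le (h.h i) (pow_le_pow_right₀ (by norm_num) (by omega))

theorem samp2_eq_zero {Q : ℤ[X]} {m τ : ℕ} (h : Bd1 Q m) (hm : m + 1 ≤ τ)
    (h0 : Q.eval (2 ^ τ) = 0) : Q = 0 := by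
  have h1 := samp2_bd_dig h hm
  have h2 : Bd1 (0 : ℤ[X]) m := ⟨fun i _ => coeff_zero i, fun i => by
    rw [coeff_zero, abs_zero]
    positivity⟩
  have h3 := samp2_bd_dig h2 hm
  rw [eval_zero] at h3
  rw [h0, h3] at h1
  rw [← samp2_poly_range Q τ (fun i hi => h.d i (by omega)), ← h1,
    samp2_poly_range 0 τ (fun i _ => coeff_zero i)]

/-! ### Linked -/

theorem samp2_linked_trans {U : Set (ℝ × ℝ)} {a b c : ℝ × ℝ} (h : Linked U a b)
    (h' : Linked U b c) : Linked U a c := by
  obtain ⟨C, h1, h2, h3, h4⟩ := h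
  obtain ⟨C', h1', h2', h3', h4'⟩ := h'
  exact ⟨C ∪ C', Set.union_subset h1 h1', IsPreconnected.union b h4 h3' h2 h2', Or.inl h3,
    Or.inr h4'⟩

theorem samp2_linked_hor {U : Set (ℝ × ℝ)} {s s' t : ℝ}
    (h : ∀ y ∈ Set.uIcc s s', (y, t) ∈ U) : Linked U (s, t) (s', t) := by
  refine ⟨(fun y => (y, t)) '' Set.uIcc s s', ?_, ?_, ⟨s, Set.left_mem_uIcc, rfl⟩,
    ⟨s', Set.right_mem_uIcc, rfl⟩⟩
  · rintro _ ⟨y, hy, rfl⟩
    exact h y hy
  · exact (isPreconnected_uIcc).image _ (by fun_prop)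

theorem samp2_linked_ver {U : Set (ℝ × ℝ)} {s t t' : ℝ}
    (h : ∀ y ∈ Set.uIcc t t', (s, y) ∈ U) : Linked U (s, t) (s, t') := by
  refine ⟨(fun y => (s, y)) '' Set.uIcc t t', ?_, ?_, ⟨t, Set.left_mem_uIcc, rfl⟩,
    ⟨t', Set.right_mem_uIcc, rfl⟩⟩
  · rintro _ ⟨y, hy, rfl⟩
    exact h y hy
  · exact (isPreconnected_uIcc).image _ (by fun_prop)

theorem samp2_linked_right {U : Set (ℝ × ℝ)} {a b : ℝ × ℝ} (h : Linked U a b) : b ∈ U := by
  obtain ⟨C, h1, -, -, h4⟩ := h
  exact h1 h4

/-! ### evaluation -/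

theorem samp2_evS (s : ℝ) (A : ℤ[X]) : evS s A = (toR A).eval s := by
  rw [evS, coe_eval₂RingHom, toR, eval_map]

theorem samp2_continuous_evS (A : ℤ[X]) : Continuous fun s => evS s A := by
  simp only [samp2_evS]
  exact (toR A).continuous

theorem samp2_coeff_fib (P : ℤ[X][X]) (s : ℝ) (i : ℕ) : (fib P s).coeff i = evS s (P.coeff i) := by
  rw [fib, coeff_map]

theorem samp2_ev_eq (P : ℤ[X][X]) (s t : ℝ) :
    ev P (s, t) = ∑ i ∈ Finset.range (P.natDegree + 1), evS s (P.coeff i) * t ^ i := by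
  have h : (fib P s).natDegree < P.natDegree + 1 :=
    lt_of_le_of_lt natDegree_map_le (Nat.lt_succ_self _)
  rw [ev]
  simp only
  rw [eval_eq_sum_range' h]
  simp only [samp2_coeff_fib]

theorem samp2_continuous_hor (P : ℤ[X][X]) (t : ℝ) : Continuous fun s => ev P (s, t) := by
  simp only [samp2_ev_eq]
  exact continuous_finsetSum _ (fun i _ => (samp2_continuous_evS _).mul continuous_const)

theorem samp2_toR_ne {R : ℤ[X]} (h : R ≠ 0) : toR R ≠ 0 :=
  (Polynomial.map_ne_zero_iff (RingHom.injective_int (Int.castRingHom ℝ))).2 h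

/-- moving a little in the horizontal direction -/
theorem samp2_move (P : ℤ[X][X]) (R : ℤ[X]) (hR : R ≠ 0) (s t : ℝ) (h : ev P (s, t) ≠ 0) :
    ∃ s', (toR R).eval s' ≠ 0 ∧ Linked {q | ev P q ≠ 0} (s, t) (s', t) := by
  have h1 : {y | ev P (y, t) ≠ 0} ∈ nhds s :=
    (samp2_continuous_hor P t).continuousAt.eventually_ne h
  obtain ⟨ε, hε, h2⟩ := Metric.mem_nhds_iff.1 h1
  have hinf : (Metric.ball s ε).Infinite := by
    rw [Real.ball_eq_Ioo]
    exact Set.Ioo_infinite (by linarith)
  have hfin : {x : ℝ | (toR R).eval x = 0}.Finite := by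
    refine Set.Finite.subset ((toR R).roots.toFinset.finite_toSet) (fun x hx => ?_)
    simp only [Finset.mem_coe, Multiset.mem_toFinset]
    exact (mem_roots (samp2_toR_ne hR)).2 hx
  obtain ⟨s', hs', hs''⟩ := (hinf.sdiff hfin).nonempty
  refine ⟨s', hs'', samp2_linked_hor (fun y hy => h2 ?_)⟩
  rw [Real.ball_eq_Ioo] at hs' ⊢
  have h3 : Set.uIcc s s' ⊆ Set.Ioo (s - ε) (s + ε) :=
    Set.OrdConnected.uIcc_subset Set.ordConnected_Ioo (by constructor <;> linarith) hs'
  exact h3 hy

/-! ### the critical polynomial -/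

/-- The polynomial `R` for the critical values. -/
theorem samp2_crit (P : ℤ[X][X]) (n m τ : ℕ) (a : List ℤ) (pb : Polynomial ℕ)
    (hpb : ∀ (A : ℕ → ℤ[X]) (n K : ℕ), n ≤ K →
      (∀ j, Bd1 (A j) K) → ∀ k ≤ n, Bd1 (sylG A n k) (pb.eval K) ∧
        Bd1 (A n * sylG A n k) (pb.eval K))
    (hP : P.natDegree = n) (hP0 : P ≠ 0) (hn : n ≤ m) (hb : ∀ j, Bd1 (P.coeff j) m)
    (hτ1 : pb.eval m + 1 ≤ τ) (hτ2 : m + 1 ≤ τ) (ha : a.length = n + 1)
    (hav : ∀ i, a.getD i 0 = (P.coeff i).eval (2 ^ τ)) :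
    poly (crit τ a) ≠ 0 ∧ ∃ r : ℕ, ∀ s : ℝ, (toR (poly (crit τ a))).eval s ≠ 0 →
      evS s (P.coeff n) ≠ 0 ∧ nroots (fib P s) = r := by
  have hlc : P.coeff n ≠ 0 := by
    rw [← hP, coeff_natDegree]
    exact leadingCoeff_ne_zero.2 hP0
  have hlast : a.getLastD 0 = (P.coeff n).eval (2 ^ τ) := by
    rw [samp2_getLastD, ha, Nat.add_sub_cancel, hav]
  have hdeg : ∀ s : ℝ, evS s (P.coeff n) ≠ 0 → (fib P s).natDegree = n := by
    intro s hs
    refine le_antisymm (hP ▸ natDegree_map_le) ?_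
    refine le_natDegree_of_ne_zero ?_
    rw [samp2_coeff_fib]
    exact hs
  rcases Nat.eq_zero_or_pos n with hn0 | hn1
  · subst hn0
    have e1 : crit τ a = (List.range τ).map fun i => (P.coeff 0).coeff i := by
      unfold crit
      rw [if_pos (by omega), mul_one, hlast]
      exact samp2_bd_dig (hb 0) hτ2
    have e2 : poly (crit τ a) = P.coeff 0 := by
      rw [e1]
      exact samp2_poly_range _ _ (fun i hi => (hb 0).d i (by omega))
    rw [e2]
    refine ⟨hlc, 0, fun s hs => ?_⟩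
    rw [← samp2_evS] at hs
    refine ⟨hs, ?_⟩
    have h1 := hdeg s hs
    rw [eq_C_of_natDegree_eq_zero h1]
    simp [nroots]
  · -- the Gram determinants
    have hR : ∀ k, gk a k = (sylG P.coeff n k).eval (2 ^ τ) := by
      intro k
      rw [gk_eq, ha, Nat.add_sub_cancel]
      have := sylG_map (evalRingHom (2 ^ τ : ℤ)) P.coeff n k
      rw [coe_evalRingHom] at this
      rw [this]
      congr 1
      funext i
      exact hav i
    have hbd := hpb P.coeff n m hn hb
    have hR0 : ∀ k ≤ n, gk a k = 0 → sylG P.coeff n k = 0 := by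
      intro k hk h
      rw [hR] at h
      exact samp2_eq_zero (hbd k hk).1 hτ1 h
    have hfib : ∀ (s : ℝ) (k : ℕ), evS s (sylG P.coeff n k) = sylG (fib P s).coeff n k := by
      intro s k
      rw [sylG_map]
      congr 1
      funext i
      exact (samp2_coeff_fib P s i).symm
    have hnr : ∀ s : ℝ, evS s (P.coeff n) ≠ 0 → ∀ k,
        (evS s (sylG P.coeff n k) = 0 ↔ nroots (fib P s) ≤ k) := by
      intro s hs k
      rw [hfib]
      exact sylG_eq_zero_iff _ _ _ (hdeg s hs) hn1
    have hle : ∀ s : ℝ, evS s (P.coeff n) ≠ 0 → nroots (fib P s) ≤ n := by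
      intro s hs
      unfold nroots
      refine (Multiset.toFinset_card_le _).trans ((card_roots' _).trans ?_)
      rw [← hdeg s hs]
      exact natDegree_map_le
    have hinf : ∀ Q : ℤ[X], (∀ s : ℝ, evS s (P.coeff n) ≠ 0 → evS s Q = 0) → Q = 0 := by
      intro Q hQ
      by_contra hne
      have h1 : P.coeff n * Q ≠ 0 := mul_ne_zero hlc hne
      obtain ⟨s, hs, -⟩ := samp2_move 1 _ h1 0 0 (by simp [ev, fib])
      rw [← samp2_evS, map_mul] at hs
      exact (mul_ne_zero_iff.1 hs).2 (hQ s (mul_ne_zero_iff.1 hs).1)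
    have hRn : sylG P.coeff n n = 0 := hinf _ (fun s hs => (hnr s hs n).2 (hle s hs))
    have hRzero : sylG P.coeff n 0 ≠ 0 := by
      intro h0
      obtain ⟨s, hs, -⟩ := samp2_move 1 _ hlc 0 0 (by simp [ev, fib])
      rw [← samp2_evS] at hs
      have h1 := (hnr s hs 0).1 (by rw [h0, map_zero])
      have h2 : nroots (fib P s) = 0 := by omega
      unfold nroots at h2
      rw [Finset.card_eq_zero, Multiset.toFinset_eq_empty] at h2
      have h3 : ((fib P s).map (algebraMap ℝ ℂ)).natDegree = n := by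
        rw [natDegree_map, hdeg s hs]
      have h4 := IsAlgClosed.card_roots_eq_natDegree (p := (fib P s).map (algebraMap ℝ ℂ))
      rw [h2, h3] at h4
      simp at h4
      omega
    -- the first zero
    set pr : ℕ → Bool := fun k => decide (gk a (k + 1) = 0) with hpr
    obtain ⟨k0, hk0⟩ : ∃ k0, (List.range n).find? pr = some k0 := by
      rw [← Option.isSome_iff_exists, List.find?_isSome]
      refine ⟨n - 1, List.mem_range.2 (by omega), ?_⟩
      rw [hpr]
      simp only [decide_eq_true_eq]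
      rw [Nat.sub_add_cancel hn1, hR, hRn, eval_zero]
    have hk1 : k0 < n := List.mem_range.1 (List.mem_of_find?_eq_some hk0)
    have hk2 : gk a (k0 + 1) = 0 := by
      have := List.find?_some hk0
      simpa [hpr] using this
    have hk3 : sylG P.coeff n (k0 + 1) = 0 := hR0 _ hk1 hk2
    have hk4 : sylG P.coeff n k0 ≠ 0 := by
      rcases Nat.eq_zero_or_pos k0 with h | h
      · rw [h]
        exact hRzero
      · intro h0
        rw [List.find?_range_eq_some] at hk0
        have h1 := hk0.2.2 (k0 - 1) (by omega)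
        have h2 : gk a (k0 - 1 + 1) = 0 := by
          rw [Nat.sub_add_cancel h, hR, h0, eval_zero]
        simp [hpr, h2] at h1
    have e1 : crit τ a = (List.range τ).map
        fun i => (P.coeff n * sylG P.coeff n k0).coeff i := by
      unfold crit
      rw [if_neg (by omega), ha, Nat.add_sub_cancel, hk0, Option.getD_some, hlast, hR,
        ← eval_mul]
      exact samp2_bd_dig (hbd k0 hk1.le).2 hτ1
    have e2 : poly (crit τ a) = P.coeff n * sylG P.coeff n k0 := by
      rw [e1]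
      exact samp2_poly_range _ _ (fun i hi => (hbd k0 hk1.le).2.d i (by omega))
    rw [e2]
    refine ⟨mul_ne_zero hlc hk4, k0 + 1, fun s hs => ?_⟩
    rw [← samp2_evS, map_mul] at hs
    obtain ⟨h1, h2⟩ := mul_ne_zero_iff.1 hs
    refine ⟨h1, le_antisymm ((hnr s h1 (k0 + 1)).1 (by rw [hk3, map_zero])) ?_⟩
    by_contra h3
    exact h2 ((hnr s h1 k0).2 (by omega))

/-! ### the theorem -/

theorem samp2_correct : ∃ p : Polynomial ℕ, ∀ (F : List ℤ → List (ℤ × ℤ)), Good1 F →
    ∀ (cc : List (List ℤ)) (m τ : ℕ), cc.length ≤ m → (∀ c ∈ cc, c.length = m) →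
    (∀ c ∈ cc, ∀ z ∈ c, |z| < 2 ^ m) → p.eval m ≤ τ →
    ∀ q : ℝ × ℝ, ev (poly2 cc) q ≠ 0 → ∃ r ∈ samp2 F τ cc, 0 < r.1.2 ∧ 0 < r.2.2 ∧
      Linked {q | ev (poly2 cc) q ≠ 0} q (frac r.1, frac r.2) := by
  obtain ⟨pb, hpb⟩ := syl_bound
  refine ⟨pb + X + 1, ?_⟩
  rintro F hF cc m τ hcc hrow hbd hτ ⟨s₁, t₁⟩ hq
  rw [eval_add, eval_add, eval_X, eval_one] at hτ
  have hτ1 : pb.eval m + 1 ≤ τ := by omega
  have hτ2 : m + 1 ≤ τ := by omega
  set P := poly2 cc with hPdef
  have hP0 : P ≠ 0 := by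
    rintro h0
    rw [h0] at hq
    simp [ev, fib] at hq
  set tc := trim cc with htc
  obtain ⟨zs, hz1, hz2⟩ := samp2_trim_append cc
  rw [← htc] at hz1
  have hPt : poly2 tc = P := samp2_poly2_trim cc
  have hcoeff : ∀ j, P.coeff j = poly (tc.getD j []) := by
    intro j
    rw [← hPt, samp2_coeff_poly2]
  have hne : tc ≠ [] := by
    intro h0
    apply hP0
    rw [← hPt, h0]
    rfl
  have hmem : ∀ c ∈ tc, c ∈ cc := by
    intro c hc
    rw [hz1]
    exact List.mem_append_left _ hc
  have hlen : tc.length ≤ m := by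
    have : cc.length = tc.length + zs.length := by
      conv_lhs => rw [hz1]
      rw [List.length_append]
    omega
  obtain ⟨n, hn⟩ : ∃ n, tc.length = n + 1 :=
    ⟨tc.length - 1, (Nat.sub_add_cancel (List.length_pos_iff.2 hne)).symm⟩
  have hlast : P.coeff n ≠ 0 := by
    have := samp2_trim_last cc hne
    rw [← htc, hn, Nat.add_sub_cancel] at this
    rw [hcoeff]
    exact this
  have hdegP : P.natDegree = n := by
    refine le_antisymm ?_ (le_natDegree_of_ne_zero hlast)
    rw [natDegree_le_iff_coeff_eq_zero]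
    intro j hj
    rw [hcoeff, List.getD_eq_default _ _ (by omega)]
    rfl
  have hrow' : ∀ j, tc.getD j [] = [] ∨ tc.getD j [] ∈ tc := by
    intro j
    rcases lt_or_ge j tc.length with h | h
    · right
      rw [List.getD_eq_getElem _ _ h]
      exact List.getElem_mem h
    · left
      rw [List.getD_eq_default _ _ h]
  have hb : ∀ j, Bd1 (P.coeff j) m := by
    intro j
    rw [hcoeff]
    rcases hrow' j with h | h
    · rw [h]
      exact ⟨fun i _ => by rw [coeff_poly]; rfl, fun i => by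
        rw [coeff_poly, List.getD_nil, abs_zero]
        positivity⟩
    · refine ⟨fun i hi => ?_, fun i => ?_⟩
      · rw [coeff_poly, List.getD_eq_default _ _ (by rw [hrow _ (hmem _ h)]; exact hi)]
      · rw [coeff_poly]
        rcases lt_or_ge i (tc.getD j []).length with h' | h'
        · rw [List.getD_eq_getElem _ _ h']
          exact hbd _ (hmem _ h) _ (List.getElem_mem h')
        · rw [List.getD_eq_default _ _ h', abs_zero]
          positivity
  set a : List ℤ := tc.map fun c => hor (2 ^ τ) 1 c with ha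
  have hhor0 : ∀ x y : ℤ, hor x y [] = 0 := fun x y => rfl
  have hav : ∀ i, a.getD i 0 = (P.coeff i).eval (2 ^ τ) := by
    intro i
    rw [ha, samp2_map_getD _ _ [] 0 (hhor0 _ _), hor_one, hcoeff]
  obtain ⟨hR0, r, hR⟩ := samp2_crit P n m τ a pb hpb hdegP hP0 (by omega) hb hτ1 hτ2
    (by rw [ha, List.length_map, hn]) hav
  -- move
  obtain ⟨s₁', hs1, hl1⟩ := samp2_move P _ hR0 s₁ t₁ hq
  obtain ⟨s, hs, hs2⟩ := (hF (crit τ a)).2 s₁' hs1
  have hspos := (hF (crit τ a)).1 s hs
  obtain ⟨t₂, hl2⟩ := topo P n r hdegP s₁' (frac s) t₁ (fun y hy => (hR y (hs2 y hy)).1)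
    (fun y hy => (hR y (hs2 y hy)).2) (samp2_linked_right hl1)
  -- the fibre
  set l' : List ℤ := tc.map fun c => hor s.1 s.2 c with hl'
  have hM : (0 : ℝ) < s.2 := by exact_mod_cast hspos
  have hfib : toR (poly l') = C ((s.2 : ℝ) ^ m / s.2) * fib P (frac s) := by
    ext i
    rw [toR, coeff_map, coeff_poly, coeff_C_mul, samp2_coeff_fib, hcoeff, hl',
      samp2_map_getD _ _ [] 0 (hhor0 _ _), samp2_evS]
    rcases hrow' i with h | h
    · rw [h]
      have e1 : poly [] = 0 := rfl
      rw [hhor0, e1]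
      simp
    · have h1 := hor_eq s.1 s.2 (by omega) (tc.getD i [])
      rw [hrow _ (hmem _ h)] at h1
      have h2 : ((Int.castRingHom ℝ) (hor s.1 s.2 (tc.getD i [])) : ℝ) =
          (hor s.1 s.2 (tc.getD i []) : ℝ) := rfl
      rw [h2]
      unfold frac
      field_simp
      linarith
  have hκ : (s.2 : ℝ) ^ m / s.2 ≠ 0 := (div_pos (pow_pos hM _) hM).ne'
  have hfib' : ∀ y, (toR (poly l')).eval y ≠ 0 ↔ ev P (frac s, y) ≠ 0 := by
    intro y
    rw [hfib, eval_mul, eval_C]
    constructor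
    · intro h
      exact (mul_ne_zero_iff.1 h).2
    · intro h
      exact mul_ne_zero hκ h
  obtain ⟨t, ht, ht2⟩ := (hF l').2 t₂ ((hfib' t₂).2 (samp2_linked_right hl2))
  have htpos := (hF l').1 t ht
  refine ⟨(s, t), ?_, hspos, htpos, ?_⟩
  · unfold samp2
    exact List.mem_flatMap.2 ⟨s, hs, List.mem_map.2 ⟨t, ht, rfl⟩⟩
  · refine samp2_linked_trans hl1 (samp2_linked_trans hl2 (samp2_linked_ver (fun y hy => ?_)))
    exact (hfib' y).1 (ht2 y hy)

end Pool.Agent.Sink
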