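import Pool.Agent.Lib.MP_93b8a0_lc.Pat
import Pool.Agent.Lib.MP_93b8a0_lc.MMat
import Pool.Agent.Lib.MP_93b8a0_lc.Claim
import Pool.Agent.Lib.MP_93b8a0_lc.Cone
import Pool.Agent.Lib.PolyTime.Codes

/-!
# Correctness of the test
-/

open Matrix Polynomial

namespace Pool.Agent.Sink

open Pool.Agent.PolyTime Pool.Agent.SparseNP

theorem test_vW (W : List Z3) (n : ℕ) (v : Fin n) : vW W n v = toV (gv W v) := rfl

theorem test_prodCr_ne_zero (W : List Z3) (n : ℕ) (hW : W.length = n) :
    prodCr W ≠ 0 ↔ ∀ u v : Fin n, u ≠ v → cr (vW W n u) (vW W n v) ≠ 0 := by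
  unfold prodCr
  rw [hW, Ne, List.prod_eq_zero_iff]
  constructor
  · intro h u v huv h0
    apply h
    rw [List.mem_map]
    refine ⟨u, List.mem_range.mpr u.2, ?_⟩
    rw [List.prod_eq_zero_iff, List.mem_map]
    refine ⟨v, List.mem_range.mpr v.2, ?_⟩
    rw [if_neg (fun h => huv (Fin.ext h))]
    rw [test_vW, test_vW, cr_toV] at h0
    exact_mod_cast h0
  · intro h h0
    rw [List.mem_map] at h0
    obtain ⟨i, hi, h0⟩ := h0
    rw [List.prod_eq_zero_iff, List.mem_map] at h0
    obtain ⟨j, hj, h0⟩ := h0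
    rw [List.mem_range] at hi hj
    split_ifs at h0 with hij
    · exact one_ne_zero h0
    · refine h ⟨i, hi⟩ ⟨j, hj⟩ (fun h => hij (by simpa using h)) ?_
      rw [test_vW, test_vW, cr_toV, h0, Int.cast_zero]

/-- the integral vectors -/
def testw (W : List Z3) (n : ℕ) (v : Fin n) : Fin 3 → ℤ := toV (gv W v)

theorem testw_cast (W : List Z3) (n : ℕ) :
    (fun (v : Fin n) i => (testw W n v i : ℝ)) = vW W n := by
  funext v i
  rw [test_vW]
  unfold testw
  fin_cases i <;> simp [toV]

theorem testw_cr (W : List Z3) (n : ℕ) (u v : Fin n) :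
    cr (testw W n u) (testw W n v) = crZ (gv W u) (gv W v) := by
  simp [testw, toV, cr, crZ]

/-- rows of the matrix -/
theorem test_nmRow (W : List Z3) (n : ℕ) (hW : W.length = n) (σ : List (Option (ℕ × ℕ)))
    (hσ : okPat n σ) (v : Fin n) :
    SparseNP.vec n (nmRow W (σ.getD v none) v) = NM (testw W n) (toN n σ) v := by
  funext u
  unfold SparseNP.vec nmRow
  rw [hW, List.getD_eq_getElem?_getD, List.getElem?_map, List.getElem?_range u.2]
  simp only [Option.map_some, Option.getD_some]
  unfold NM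
  rw [Matrix.of_apply]
  unfold toN
  cases h : σ.getD v none with
  | none =>
    simp only [Option.bind_none]
    simp only [Fin.ext_iff]
  | some e =>
    have he : some e ∈ σ := by
      rw [List.getD_eq_getElem?_getD] at h
      cases h2 : σ[(v : ℕ)]? with
      | none => rw [h2] at h; simp at h
      | some o =>
        rw [h2, Option.getD_some] at h
        rw [← h]
        exact List.mem_of_getElem? h2
    have hlt := hσ e he
    simp only [Option.bind_some, dif_pos hlt]
    rw [testw_cr, testw_cr, testw_cr]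
    simp only [Fin.ext_iff]

theorem test_toN_none (n : ℕ) (σ : List (Option (ℕ × ℕ))) (hσ : okPat n σ) (v : Fin n) :
    toN n σ v = none ↔ (σ.getD v none).isNone = true := by
  unfold toN
  cases h : σ.getD v none with
  | none => simp
  | some e =>
    have he : some e ∈ σ := by
      rw [List.getD_eq_getElem?_getD] at h
      cases h2 : σ[(v : ℕ)]? with
      | none => rw [h2] at h; simp at h
      | some o =>
        rw [h2, Option.getD_some] at h
        rw [← h]
        exact List.mem_of_getElem? h2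
    rw [Option.bind_some, dif_pos (hσ e he)]
    simp

/-- soundness of the test of the top face -/
theorem test_topB_sound (W : List Z3) (n : ℕ) (hW : W.length = n) (σ : List (Option (ℕ × ℕ)))
    (hσ : okPat n σ) (h : topB W σ = true) : TopTriple (vW W n) (toN n σ) := by
  unfold topB at h
  have hmem : ∀ v : ℕ, v ∈ ((List.range W.length).filter fun v => (σ.getD v none).isNone) ↔
      v < n ∧ (σ.getD v none).isNone = true := by
    intro v
    rw [List.mem_filter, List.mem_range, hW]
  split at h
  · rename_i A B C hABC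
    rw [hABC] at hmem
    have hA := ((hmem A).mp (by simp)).1
    have hB := ((hmem B).mp (by simp)).1
    have hC := ((hmem C).mp (by simp)).1
    have hmem' : ∀ v : Fin n, toN n σ v = none ↔
        v = ⟨A, hA⟩ ∨ v = ⟨B, hB⟩ ∨ v = ⟨C, hC⟩ := by
      intro v
      rw [test_toN_none n σ hσ]
      have := hmem v
      simp only [List.mem_cons, List.not_mem_nil, or_false, v.2, true_and] at this
      rw [← this]
      simp only [Fin.ext_iff]
    rw [Bool.or_eq_true] at h
    simp only [Bool.and_eq_true, decide_eq_true_eq] at h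
    rcases h with ⟨h1, h2, h3⟩ | ⟨h1, h2, h3⟩
    · refine ⟨⟨A, hA⟩, ⟨B, hB⟩, ⟨C, hC⟩, hmem', ?_, ?_, ?_⟩
      · rw [test_vW, test_vW, cr_toV]; exact_mod_cast h1
      · rw [test_vW, test_vW, cr_toV]; exact_mod_cast h2
      · rw [test_vW, test_vW, cr_toV]; exact_mod_cast h3
    · refine ⟨⟨A, hA⟩, ⟨C, hC⟩, ⟨B, hB⟩, ?_, ?_, ?_, ?_⟩
      · intro v
        rw [hmem' v]
        tauto
      · rw [test_vW, test_vW, cr_toV]; exact_mod_cast h3
      · rw [test_vW, test_vW, cr_toV]; exact_mod_cast h2
      · rw [test_vW, test_vW, cr_toV]; exact_mod_cast h1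
  · exact absurd h (by simp)

theorem test_cr_self (a : P3) : cr a a = 0 := by
  unfold cr; ring

/-- completeness of the test of the top face -/
theorem test_topB_complete (W : List Z3) (n : ℕ) (hW : W.length = n)
    (σ : List (Option (ℕ × ℕ))) (hσ : okPat n σ) (h : TopTriple (vW W n) (toN n σ)) :
    topB W σ = true := by
  obtain ⟨A, B, C, hN, h1, h2, h3⟩ := h
  have hAB : A ≠ B := by rintro rfl; rw [test_cr_self] at h1; exact lt_irrefl _ h1
  have hBC : B ≠ C := by rintro rfl; rw [test_cr_self] at h2; exact lt_irrefl _ h2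
  have hCA : C ≠ A := by rintro rfl; rw [test_cr_self] at h3; exact lt_irrefl _ h3
  rw [test_vW, test_vW, cr_toV] at h1 h2 h3
  have k1 : 0 < crZ (gv W A) (gv W B) := by exact_mod_cast h1
  have k2 : 0 < crZ (gv W B) (gv W C) := by exact_mod_cast h2
  have k3 : 0 < crZ (gv W C) (gv W A) := by exact_mod_cast h3
  have hAB' : (A : ℕ) ≠ B := fun h => hAB (Fin.ext h)
  have hBC' : (B : ℕ) ≠ C := fun h => hBC (Fin.ext h)
  have hCA' : (C : ℕ) ≠ A := fun h => hCA (Fin.ext h)
  set l := (List.range W.length).filter fun v => (σ.getD v none).isNone with hl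
  have hmem : ∀ v : ℕ, v ∈ l ↔ v = A ∨ v = B ∨ v = C := by
    intro v
    rw [hl, List.mem_filter, List.mem_range, hW]
    constructor
    · rintro ⟨hv, hv'⟩
      have := (hN ⟨v, hv⟩).mp ((test_toN_none n σ hσ ⟨v, hv⟩).mpr hv')
      simpa [Fin.ext_iff] using this
    · intro hv
      have hvn : v < n := by
        rcases hv with rfl | rfl | rfl
        · exact A.2
        · exact B.2
        · exact C.2
      refine ⟨hvn, (test_toN_none n σ hσ ⟨v, hvn⟩).mp ((hN ⟨v, hvn⟩).mpr ?_)⟩
      simpa [Fin.ext_iff] using hv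
  have hnd : l.Nodup := (List.nodup_range).filter _
  have hperm : l.Perm [(A : ℕ), (B : ℕ), (C : ℕ)] := by
    rw [List.perm_ext_iff_of_nodup hnd (by simp [hAB', hBC', hCA'.symm])]
    intro v
    rw [hmem]
    simp
  have hlen : l.length = 3 := by rw [hperm.length_eq]; rfl
  obtain ⟨a, b, c, habc⟩ := List.length_eq_three.mp hlen
  have ha := (hmem a).mp (by rw [habc]; simp)
  have hb := (hmem b).mp (by rw [habc]; simp)
  have hc := (hmem c).mp (by rw [habc]; simp)
  rw [habc] at hnd
  simp only [List.nodup_cons, List.mem_cons, List.not_mem_nil, or_false, not_or, not_false_eq_true,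
    List.nodup_nil, and_true] at hnd
  obtain ⟨⟨n1, n2⟩, n3⟩ := hnd
  unfold topB
  rw [← hl, habc]
  simp only [Bool.or_eq_true, Bool.and_eq_true, decide_eq_true_eq]
  rcases ha with rfl | rfl | rfl <;> rcases hb with rfl | rfl | rfl <;>
    rcases hc with rfl | rfl | rfl <;>
    first
    | exact absurd rfl n1
    | exact absurd rfl n2
    | exact absurd rfl n3
    | exact Or.inl ⟨k1, k2, k3⟩
    | exact Or.inl ⟨k2, k3, k1⟩
    | exact Or.inl ⟨k3, k1, k2⟩
    | exact Or.inr ⟨k1, k3, k2⟩
    | exact Or.inr ⟨k2, k1, k3⟩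
    | exact Or.inr ⟨k3, k2, k1⟩

/-- the rows of the linear program -/
theorem test_rows_length (W : List Z3) (n : ℕ) (hW : W.length = n) (σ : List (Option (ℕ × ℕ))) :
    (unitRows W.length ++ nmRows W σ).length = 2 * n := by
  unfold unitRows nmRows
  rw [List.length_append, List.length_map, List.length_map, List.length_range, hW]
  ring

theorem test_unit_row (W : List Z3) (n : ℕ) (hW : W.length = n) (σ : List (Option (ℕ × ℕ)))
    (v : Fin n) (y : Fin n → ℤ) :
    SparseNP.vec n ((unitRows W.length ++ nmRows W σ).getD v []) ⬝ᵥ y = y v := by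
  have h1 : (unitRows W.length ++ nmRows W σ).getD v [] =
      (List.range n).map fun u => if u = (v : ℕ) then 1 else 0 := by
    rw [List.getD_append _ _ _ _ (by simp [unitRows, hW])]
    unfold unitRows
    rw [hW, List.getD_eq_getElem?_getD, List.getElem?_map, List.getElem?_range v.2]
    rfl
  rw [h1]
  have h2 : SparseNP.vec n ((List.range n).map fun u => if u = (v : ℕ) then (1 : ℤ) else 0) =
      Pi.single v 1 := by
    funext u
    unfold SparseNP.vec
    rw [List.getD_eq_getElem?_getD, List.getElem?_map, List.getElem?_range u.2, Pi.single_apply]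
    simp only [Option.map_some, Option.getD_some, Fin.ext_iff]
  rw [h2, single_one_dotProduct]

theorem test_nm_row (W : List Z3) (n : ℕ) (hW : W.length = n) (σ : List (Option (ℕ × ℕ)))
    (hσ : okPat n σ) (v : Fin n) (y : Fin n → ℤ) :
    SparseNP.vec n ((unitRows W.length ++ nmRows W σ).getD (n + v) []) ⬝ᵥ y =
      (NM (testw W n) (toN n σ) *ᵥ y) v := by
  have h1 : (unitRows W.length ++ nmRows W σ).getD (n + v) [] = nmRow W (σ.getD v none) v := by
    rw [List.getD_append_right _ _ _ _ (by simp [unitRows, hW])]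
    have : n + (v : ℕ) - (unitRows W.length).length = v := by
      simp [unitRows, hW]
    rw [this]
    unfold nmRows
    rw [hW, List.getD_eq_getElem?_getD, List.getElem?_map, List.getElem?_range v.2]
    rfl
  rw [h1, test_nmRow W n hW σ hσ]
  rfl

/-- soundness of the linear program -/
theorem test_lpB_sound (W : List Z3) (n : ℕ) (hW : W.length = n) (σ : List (Option (ℕ × ℕ)))
    (hσ : okPat n σ) (K : ℕ) (h : lpB K W σ = true) : NF (vW W n) (toN n σ) := by
  unfold lpB at h
  obtain ⟨y, hy⟩ := lp_sound h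
  subst hW
  rw [test_rows_length W _ rfl σ] at hy
  refine ⟨fun v => (y v : ℝ), ?_, ?_⟩
  · intro v
    have := hy v (by omega)
    rw [test_unit_row W _ rfl σ v y] at this
    show (0 : ℝ) < (y v : ℝ)
    exact_mod_cast this
  · intro v a b hN
    have := hy (W.length + v) (by omega)
    rw [test_nm_row W _ rfl σ hσ v y, NM_row_some _ _ _ v a b hN, testw_cr, testw_cr,
      testw_cr] at this
    rw [test_vW, test_vW, test_vW, cr_toV, cr_toV, cr_toV]
    have h2 : ((crZ (gv W v) (gv W b) * y a + crZ (gv W a) (gv W v) * y b : ℤ) : ℝ) <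
        ((crZ (gv W a) (gv W b) * y v : ℤ) : ℝ) := by
      exact_mod_cast (by linarith)
    push_cast at h2
    exact h2

theorem test_entry_lt (W : List Z3) (u : Z3) (hu : u ∈ W) (i : Fin 3) :
    |(toV u : Fin 3 → ℤ) i| ≤ 2 ^ size (enc W) := by
  have h0 := size_le_of_mem hu
  have h1 : size (enc u) = size (enc u.1) + size (enc u.2) + 1 := size_pair u.1 u.2
  have h2 : size (enc u.2) = size (enc u.2.1) + size (enc u.2.2) + 1 := size_pair u.2.1 u.2.2
  have key : ∀ z : ℤ, size (enc z) ≤ size (enc W) → |z| ≤ 2 ^ size (enc W) := by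
    intro z hz
    have h3 := lt_two_pow_size z.natAbs
    have h4 : size (enc z.natAbs) ≤ size (enc W) := by
      have := size_int z
      omega
    have h5 : z.natAbs ≤ 2 ^ size (enc W) := h3.le.trans (Nat.pow_le_pow_right (by norm_num) h4)
    have h6 : |z| = (z.natAbs : ℤ) := (Int.natCast_natAbs z).symm
    rw [h6]
    exact_mod_cast h5
  fin_cases i
  · exact key u.1 (by omega)
  · exact key u.2.1 (by omega)
  · exact key u.2.2 (by omega)

/-- the bound for the number of steps -/
noncomputable def testP : Polynomial ℕ :=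
  2 * X * (8 * X * (2 * X + 1)) * (2 * X * ((3 * X + 4) * (X + 1) + X) + 1)

theorem testP_eval (s : ℕ) : testP.eval s =
    2 * s * (8 * s * (2 * s + 1)) * (2 * s * ((3 * s + 4) * (s + 1) + s) + 1) := by
  unfold testP
  simp

/-- completeness of the linear program -/
theorem test_lpB_complete (W : List Z3) (n : ℕ) (hW : W.length = n) (σ : List (Option (ℕ × ℕ)))
    (hσ : okPat n σ) (K : ℕ) (hK : testP.eval (size (enc W)) ≤ K) {Adj : Fin n → Fin n → Prop}
    (hN : IsTopMap Adj (vW W n) (toN n σ)) (h : NF (vW W n) (toN n σ)) : lpB K W σ = true := by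
  rw [← testw_cast] at hN h
  obtain ⟨y, hy1, hy2, hy3, hy4⟩ := exists_int_of_NF (testw W n) hN h (size (enc W)) (by
    intro v i
    refine test_entry_lt W (gv W v) ?_ i
    unfold gv
    rw [List.getD_eq_getElem _ _ (by rw [hW]; exact v.2)]
    exact List.getElem_mem _)
  set s := size (enc W) with hs
  have hns : n + 1 ≤ s := by
    rw [hs, ← hW]
    exact length_le_size W
  set β₀ := (2 * s + n + 4) * (n + 1) with hβ₀
  have hlen := test_rows_length W n hW σ
  unfold lpB
  have hlp : ∀ T A, lp W.length T A K = lp n T A K := by rw [hW]; exact fun _ _ => rfl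
  rw [hlp]
  refine lp_complete (β := β₀ + n) y rfl ?_ ?_ ?_ ?_
  · have h1 : y ⬝ᵥ y ≤ ∑ _v : Fin n, (2 ^ β₀ : ℤ) ^ 2 := by
      unfold dotProduct
      refine Finset.sum_le_sum fun v _ => ?_
      have a1 := hy1 v
      have a2 := hy3 v
      nlinarith
    rw [Finset.sum_const, Finset.card_univ, Fintype.card_fin, nsmul_eq_mul] at h1
    refine h1.trans ?_
    have h2 : (n : ℤ) ≤ 2 ^ n := by exact_mod_cast Nat.lt_two_pow_self.le
    have h3 : (2 : ℤ) ^ n ≤ (2 ^ n) ^ 2 := by
      have : (1 : ℤ) ≤ 2 ^ n := one_le_pow₀ (by norm_num)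
      nlinarith
    have h4 : ((2 : ℤ) ^ (β₀ + n)) ^ 2 = (2 ^ n) ^ 2 * (2 ^ β₀) ^ 2 := by
      rw [pow_add]; ring
    rw [h4]
    exact mul_le_mul_of_nonneg_right (h2.trans h3) (by positivity)
  · intro i hi
    rw [hlen] at hi
    by_cases h1 : i < n
    · have := test_unit_row W n hW σ ⟨i, h1⟩ y
      simp only at this
      rw [this]
      exact hy1 _
    · have h2 : n + (i - n) = i := by omega
      have := test_nm_row W n hW σ hσ ⟨i - n, by omega⟩ y
      simp only [h2] at this
      rw [this]
      exact hy2 _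
  · have hpow : (2 : ℤ) ^ β₀ ≤ 2 ^ (β₀ + n) := pow_le_pow_right₀ (by norm_num) (by omega)
    intro i hi
    rw [hlen] at hi
    by_cases h1 : i < n
    · have := test_unit_row W n hW σ ⟨i, h1⟩ y
      simp only at this
      rw [this]
      exact (hy3 _).trans hpow
    · have h2 : n + (i - n) = i := by omega
      have := test_nm_row W n hW σ hσ ⟨i - n, by omega⟩ y
      simp only [h2] at this
      rw [this]
      exact (hy4 _).trans hpow
  · refine le_trans ?_ hK
    rw [testP_eval, hlen]
    have hn' : n ≤ s := by omega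
    have e1 : 4 * (2 * n) * (2 * n + 1) ≤ 8 * s * (2 * s + 1) := by nlinarith
    have e2 : β₀ + n ≤ (3 * s + 4) * (s + 1) + s := by
      rw [hβ₀]
      have : (2 * s + n + 4) * (n + 1) ≤ (3 * s + 4) * (s + 1) :=
        Nat.mul_le_mul (by omega) (by omega)
      omega
    exact Nat.mul_le_mul (Nat.mul_le_mul (by omega) e1)
      (Nat.add_le_add_right (Nat.mul_le_mul (by omega) e2) 1)

theorem testB_sound (I : Input) (F : List (Fin I.n × Fin I.n × Fin I.n)) (hI : Valid I F)
    (W : List Z3) (hW : W.length = I.n) (K : ℕ)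
    (hc : (∀ u v, u ≠ v → cr (vW W I.n u) (vW W I.n v) ≠ 0) → ConeEmb (adj F) (vW W I.n))
    (h : testB K (edges I) W = true) :
    (∀ u v, u ≠ v → cr (vW W I.n u) (vW W I.n v) ≠ 0) ∧ LPF (adj F) (vW W I.n) := by
  unfold testB at h
  rw [Bool.and_eq_true, Bool.or_eq_true, Bool.and_eq_true] at h
  obtain ⟨h1, h2⟩ := h
  have hp : prodCr W ≠ 0 := by simpa using h1
  have hgen := (test_prodCr_ne_zero W I.n hW).mp hp
  refine ⟨hgen, ?_⟩
  have hcone := hc hgen
  rcases h2 with h2 | ⟨h2, h3⟩
  · refine LPF_of_southern hcone fun v => ?_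
    rw [List.all_eq_true] at h2
    have h4 := h2 (gv W v) (by
      unfold gv
      rw [List.getD_eq_getElem _ _ (by rw [hW]; exact v.2)]
      exact List.getElem_mem _)
    rw [decide_eq_true_eq] at h4
    have h5 : vW W I.n v 2 = ((gv W v).2.2 : ℝ) := rfl
    rw [h5]
    exact_mod_cast h4
  · have hσ := okPat_pat I F hI W
    exact LPF_of_NF hcone (pat_topMap I F hI W hW hcone)
      (test_topB_sound W I.n hW _ hσ h2) (test_lpB_sound W I.n hW _ hσ K h3)

theorem testB_complete : ∃ p : Polynomial ℕ, ∀ (I : Input)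
    (F : List (Fin I.n × Fin I.n × Fin I.n)), Valid I F → ∀ (W : List Z3) (K : ℕ),
    W.length = I.n → p.eval (size (enc W)) ≤ K → ConeEmb (adj F) (vW W I.n) →
    ((∀ v, vW W I.n v 2 < 0) ∨ ∃ N, IsTopMap (adj F) (vW W I.n) N ∧ TopTriple (vW W I.n) N ∧
      NF (vW W I.n) N) → testB K (edges I) W = true := by
  refine ⟨testP, ?_⟩
  intro I F hI W K hW hK hcone h
  unfold testB
  rw [Bool.and_eq_true, Bool.or_eq_true, Bool.and_eq_true]
  constructor
  · have := (test_prodCr_ne_zero W I.n hW).mpr hcone.gen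
    simpa using this
  · rcases h with h | ⟨N, hN, hT, hNF⟩
    · left
      rw [List.all_eq_true]
      intro u hu
      obtain ⟨i, hi, rfl⟩ := List.getElem_of_mem hu
      rw [decide_eq_true_eq]
      have h1 := h ⟨i, by rw [← hW]; exact hi⟩
      have h2 : vW W I.n ⟨i, by rw [← hW]; exact hi⟩ 2 = ((gv W i).2.2 : ℝ) := rfl
      rw [h2] at h1
      have h3 : gv W i = W[i] := by
        unfold gv
        rw [List.getD_eq_getElem _ _ hi]
      rw [h3] at h1
      exact_mod_cast h1
    · right
      have hσ := okPat_pat I F hI W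
      have htop := pat_topMap I F hI W hW hcone
      have hNN : N = toN I.n (pat (edges I) W) := topMap_unique hcone hN htop
      subst hNN
      exact ⟨test_topB_complete W I.n hW _ hσ hT, test_lpB_complete W I.n hW _ hσ K hK htop hNF⟩

end Pool.Agent.Sink
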